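import Mathlib
set_option autoImplicit false

namespace Pool.Agent.Helper43.Copula

open MeasureTheory Finset

/-- The unit cube `I ^ n = [0,1] ^ n` as a subset of `ℝ ^ n`. -/
def cube (n : ℕ) : Set (Fin n → ℝ) := {x | ∀ k, 0 ≤ x k ∧ x k ≤ 1}

/-- The vertex `w_ε` of the box `[u, v]`, where the 0-1 vector `ε` is given by the set `s` of the
coordinates `k` with `ε_k = 1`: the `k`-th coordinate is `v k` if `k ∈ s` and `u k` otherwise. -/
def vertex {n : ℕ} (u v : Fin n → ℝ) (s : Finset (Fin n)) : Fin n → ℝ :=
  fun k => if k ∈ s then v k else u k

/-- The `C`-volume of the box `[u, v]`: the sum over `ε ∈ {0,1} ^ n` of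
`(-1) ^ (n - ∑ ε_k) * C (w_ε)`. -/
def boxVolume {n : ℕ} (C : (Fin n → ℝ) → ℝ) (u v : Fin n → ℝ) : ℝ :=
  ∑ s : Finset (Fin n), (-1 : ℝ) ^ (n - s.card) * C (vertex u v s)

/-- `C` is an `n`-copula: on the cube it has values in `[0,1]`, it vanishes when some coordinate is
`0`, it equals `x k` when every coordinate other than the `k`-th is `1`, and the `C`-volume of every
box in the cube is nonnegative. Only the values of `C` on the cube matter. -/
structure IsCopula (n : ℕ) (C : (Fin n → ℝ) → ℝ) : Prop where
  range : ∀ x ∈ cube n, 0 ≤ C x ∧ C x ≤ 1
  grounded : ∀ x ∈ cube n, (∃ k, x k = 0) → C x = 0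
  margin : ∀ x ∈ cube n, ∀ k, (∀ j, j ≠ k → x j = 1) → C x = x k
  increasing : ∀ u ∈ cube n, ∀ v ∈ cube n, (∀ k, u k ≤ v k) → 0 ≤ boxVolume C u v

/-- The lower Fréchet bound `W (x) = max (x_1 + ... + x_n - n + 1, 0)`. -/
noncomputable def lowerFrechet (n : ℕ) (x : Fin n → ℝ) : ℝ := max (∑ k, x k - n + 1) 0

/-- `s_n`: the supremum of the Lebesgue measures of the measurable sets `A` in the cube on which
some `n`-copula agrees with the lower Fréchet bound. -/
noncomputable def maxAgreement (n : ℕ) : ENNReal :=
  sSup {m | ∃ A : Set (Fin n → ℝ), A ⊆ cube n ∧ MeasurableSet A ∧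
    (∃ C, IsCopula n C ∧ ∀ x ∈ A, C x = lowerFrechet n x) ∧ m = volume A}

variable {n : ℕ}

theorem zero_mem_cube : (0 : Fin n → ℝ) ∈ cube n := fun _ => by simp
theorem one_mem_cube : (1 : Fin n → ℝ) ∈ cube n := fun _ => by simp

theorem update_mem_cube {x : Fin n → ℝ} (hx : x ∈ cube n) (i : Fin n) {a : ℝ} (ha : 0 ≤ a)
    (ha1 : a ≤ 1) : Function.update x i a ∈ cube n := by
  intro k
  rcases eq_or_ne k i with rfl | h
  · simp [ha, ha1]
  · simp [Function.update_of_ne h, hx k]

theorem cube_eq_pi : cube n = Set.univ.pi (fun _ => Set.Icc (0 : ℝ) 1) := by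
  ext x; simp only [cube, Set.mem_pi, Set.mem_univ, true_imp_iff, Set.mem_Icc, Set.mem_ofPred_eq]

theorem isCompact_cube : IsCompact (cube n) := by
  rw [cube_eq_pi]; exact isCompact_univ_pi fun _ => isCompact_Icc

theorem isClosed_cube : IsClosed (cube n) := isCompact_cube.isClosed

theorem volume_cube : volume (cube n) = 1 := by
  rw [cube_eq_pi, volume_pi_pi]
  simp

theorem vertex_univ (u v : Fin n → ℝ) : vertex u v univ = v := by
  ext k; simp [vertex]

theorem vertex_erase (u v : Fin n → ℝ) (i : Fin n) :
    vertex u v (univ.erase i) = Function.update v i (u i) := by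
  ext k
  rcases eq_or_ne k i with rfl | h
  · simp [vertex]
  · simp [vertex, h]

theorem vertex_erase_erase (u v : Fin n → ℝ) (i j : Fin n) :
    vertex u v ((univ.erase i).erase j)
      = Function.update (Function.update v i (u i)) j (u j) := by
  ext k
  rcases eq_or_ne k j with rfl | h
  · simp [vertex]
  · rcases eq_or_ne k i with rfl | h'
    · simp [vertex, h]
    · simp [vertex, h, h']

theorem vertex_mem_cube {u v : Fin n → ℝ} (hu : u ∈ cube n) (hv : v ∈ cube n)
    (s : Finset (Fin n)) : vertex u v s ∈ cube n := by
  intro k
  unfold vertex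
  split_ifs
  · exact hv k
  · exact hu k

/-- volume of a box which is degenerate at the origin except in coordinate `i` -/
theorem boxVolume_one {C : (Fin n → ℝ) → ℝ} (hC : IsCopula n C) {u v : Fin n → ℝ}
    (hu : u ∈ cube n) (hv : v ∈ cube n) (i : Fin n) (h0 : ∀ k, k ≠ i → u k = 0) :
    boxVolume C u v = C v - C (Function.update v i (u i)) := by
  unfold boxVolume
  have hcard : 0 < n := Fin.pos i
  have hsub : ({univ, univ.erase i} : Finset (Finset (Fin n))) ⊆ univ := subset_univ _
  rw [← Finset.sum_subset hsub]
  · rw [Finset.sum_pair]
    · rw [vertex_univ, vertex_erase, card_erase_of_mem (mem_univ i), card_univ, Fintype.card_fin]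
      have : n - (n - 1) = 1 := by omega
      rw [this]
      simp
      ring
    · intro h
      have := mem_univ i
      rw [h] at this
      simp at this
  · intro s _ hs
    rw [hC.grounded _ (vertex_mem_cube hu hv s), mul_zero]
    by_contra hcon
    push Not at hcon
    apply hs
    have h1 : ∀ k, k ≠ i → k ∈ s := by
      intro k hk
      by_contra hks
      exact hcon k (by simp [vertex, hks, h0 k hk])
    rw [mem_insert, mem_singleton]
    by_cases his : i ∈ s
    · left; ext k; simp only [mem_univ, iff_true]
      rcases eq_or_ne k i with rfl | h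
      · exact his
      · exact h1 k h
    · right; ext k; simp only [mem_erase, mem_univ, and_true]
      constructor
      · rintro hk rfl; exact his hk
      · exact h1 k

/-- volume of a box which is degenerate at the origin except in coordinates `i ≠ j` -/
theorem boxVolume_two {C : (Fin n → ℝ) → ℝ} (hC : IsCopula n C) {u v : Fin n → ℝ}
    (hu : u ∈ cube n) (hv : v ∈ cube n) (i j : Fin n) (hij : i ≠ j)
    (h0 : ∀ k, k ≠ i → k ≠ j → u k = 0) :
    boxVolume C u v = C v - C (Function.update v i (u i)) - C (Function.update v j (u j))
      + C (Function.update (Function.update v i (u i)) j (u j)) := by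
  unfold boxVolume
  have hcard : 2 ≤ n := by
    have h1 := Finset.card_le_univ ({i, j} : Finset (Fin n))
    rw [card_pair hij, Fintype.card_fin] at h1
    exact h1
  have hsub : ({univ, univ.erase i, univ.erase j, (univ.erase i).erase j} :
    Finset (Finset (Fin n))) ⊆ univ := subset_univ _
  have hj : j ∈ univ.erase i := by simp [hij.symm]
  rw [← Finset.sum_subset hsub]
  · have n1 : (univ : Finset (Fin n)) ∉ ({univ.erase i, univ.erase j, (univ.erase i).erase j} :
        Finset (Finset (Fin n))) := by
      simp only [mem_insert, mem_singleton, not_or]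
      refine ⟨fun h => ?_, fun h => ?_, fun h => ?_⟩
      · have := mem_univ i; rw [h] at this; simp at this
      · have := mem_univ j; rw [h] at this; simp at this
      · have := mem_univ j; rw [h] at this; simp at this
    have n2 : (univ.erase i : Finset (Fin n)) ∉ ({univ.erase j, (univ.erase i).erase j} :
        Finset (Finset (Fin n))) := by
      simp only [mem_insert, mem_singleton, not_or]
      refine ⟨fun h => ?_, fun h => ?_⟩
      · have := hj; rw [h] at this; simp at this
      · have := hj; rw [h] at this; simp at this
    have n3 : (univ.erase j : Finset (Fin n)) ≠ (univ.erase i).erase j := by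
      intro h
      have : i ∈ univ.erase j := by simp [hij]
      rw [h] at this; simp at this
    rw [Finset.sum_insert n1, Finset.sum_insert n2, Finset.sum_pair n3]
    rw [vertex_univ, vertex_erase, vertex_erase, vertex_erase_erase,
      card_erase_of_mem hj, card_erase_of_mem (mem_univ i), card_erase_of_mem (mem_univ j),
      card_univ, Fintype.card_fin]
    have e1 : n - (n - 1) = 1 := by omega
    have e2 : n - (n - 1 - 1) = 2 := by omega
    rw [e1, e2]
    simp
    ring
  · intro s _ hs
    rw [hC.grounded _ (vertex_mem_cube hu hv s), mul_zero]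
    by_contra hcon
    push Not at hcon
    apply hs
    have h1 : ∀ k, k ≠ i → k ≠ j → k ∈ s := by
      intro k hk hk'
      by_contra hks
      exact hcon k (by simp [vertex, hks, h0 k hk hk'])
    simp only [mem_insert, mem_singleton]
    by_cases his : i ∈ s <;> by_cases hjs : j ∈ s
    · left; ext k; simp only [mem_univ, iff_true]
      rcases eq_or_ne k i with rfl | h
      · exact his
      · rcases eq_or_ne k j with rfl | h'
        · exact hjs
        · exact h1 k h h'
    · right; right; left; ext k; simp only [mem_erase, mem_univ, and_true]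
      constructor
      · rintro hk rfl; exact hjs hk
      · intro h'
        rcases eq_or_ne k i with rfl | h
        · exact his
        · exact h1 k h h'
    · right; left; ext k; simp only [mem_erase, mem_univ, and_true]
      constructor
      · rintro hk rfl; exact his hk
      · intro h
        rcases eq_or_ne k j with rfl | h'
        · exact hjs
        · exact h1 k h h'
    · right; right; right; ext k; simp only [mem_erase, mem_univ, and_true]
      constructor
      · intro hk
        exact ⟨by rintro rfl; exact hjs hk, by rintro rfl; exact his hk⟩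
      · rintro ⟨h', h⟩
        exact h1 k h h'

theorem mono_coord {C : (Fin n → ℝ) → ℝ} (hC : IsCopula n C) {x : Fin n → ℝ} (hx : x ∈ cube n)
    (i : Fin n) {a b : ℝ} (ha : 0 ≤ a) (hab : a ≤ b) (hb : b ≤ 1) :
    C (Function.update x i a) ≤ C (Function.update x i b) := by
  have hu : Function.update (0 : Fin n → ℝ) i a ∈ cube n :=
    update_mem_cube zero_mem_cube i ha (hab.trans hb)
  have hv : Function.update x i b ∈ cube n := update_mem_cube hx i (ha.trans hab) hb
  have h1 := hC.increasing _ hu _ hv (by
    intro k
    rcases eq_or_ne k i with rfl | h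
    · simpa using hab
    · simpa [h] using (hx k).1)
  rw [boxVolume_one hC hu hv i (by intro k hk; simp [hk])] at h1
  simp only [Function.update_self, Function.update_idem] at h1
  linarith

theorem incr_mono {C : (Fin n → ℝ) → ℝ} (hC : IsCopula n C) {x : Fin n → ℝ} (hx : x ∈ cube n)
    (i j : Fin n) (hij : i ≠ j) {a b c d : ℝ} (ha : 0 ≤ a) (hab : a ≤ b) (hb : b ≤ 1)
    (hc : 0 ≤ c) (hcd : c ≤ d) (hd : d ≤ 1) :
    C (Function.update (Function.update x j c) i b) - C (Function.update (Function.update x j c) i a)
      ≤ C (Function.update (Function.update x j d) i b)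
        - C (Function.update (Function.update x j d) i a) := by
  have hu : Function.update (Function.update (0 : Fin n → ℝ) i a) j c ∈ cube n :=
    update_mem_cube (update_mem_cube zero_mem_cube i ha (hab.trans hb)) j hc (hcd.trans hd)
  have hv : Function.update (Function.update x i b) j d ∈ cube n :=
    update_mem_cube (update_mem_cube hx i (ha.trans hab) hb) j (hc.trans hcd) hd
  have h1 := hC.increasing _ hu _ hv (by
    intro k
    rcases eq_or_ne k j with rfl | h
    · simpa using hcd
    · rcases eq_or_ne k i with rfl | h'
      · simpa [h] using hab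
      · simpa [h, h'] using (hx k).1)
  rw [boxVolume_two hC hu hv i j hij (by intro k hk hk'; simp [hk, hk'])] at h1
  have e1 : (Function.update (Function.update (0 : Fin n → ℝ) i a) j c) i = a := by
    simp [hij]
  have e2 : (Function.update (Function.update (0 : Fin n → ℝ) i a) j c) j = c := by
    simp
  rw [e1, e2] at h1
  have e3 : Function.update (Function.update (Function.update x i b) j d) i a
      = Function.update (Function.update x j d) i a := by
    rw [Function.update_comm hij.symm, Function.update_idem, Function.update_comm hij]
  have e4 : Function.update (Function.update (Function.update x i b) j d) j c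
      = Function.update (Function.update x j c) i b := by
    rw [Function.update_idem, Function.update_comm hij]
  have e5 : Function.update (Function.update (Function.update (Function.update x i b) j d) i a) j c
      = Function.update (Function.update x j c) i a := by
    rw [e3, Function.update_comm hij, Function.update_idem]
  have e6 : Function.update (Function.update x i b) j d
      = Function.update (Function.update x j d) i b := Function.update_comm hij _ _ _
  rw [e5, e3, e4, e6] at h1
  linarith

theorem lip_coord {C : (Fin n → ℝ) → ℝ} (hC : IsCopula n C) {x : Fin n → ℝ} (hx : x ∈ cube n)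
    (i : Fin n) {a b : ℝ} (ha : 0 ≤ a) (hab : a ≤ b) (hb : b ≤ 1) :
    C (Function.update x i b) - C (Function.update x i a) ≤ b - a := by
  have key : ∀ T : Finset (Fin n), i ∉ T →
      C (Function.update x i b) - C (Function.update x i a)
        ≤ C (Function.update (vertex x 1 T) i b) - C (Function.update (vertex x 1 T) i a) := by
    intro T
    induction T using Finset.induction_on with
    | empty =>
      intro _
      have : vertex x 1 ∅ = x := by ext k; simp [vertex]
      rw [this]
    | insert j T hj ih =>
      intro hi
      have hij : i ≠ j := by rintro rfl; exact hi (mem_insert_self _ _)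
      refine (ih (fun h => hi (mem_insert_of_mem h))).trans ?_
      have hm : vertex x 1 T ∈ cube n := vertex_mem_cube hx one_mem_cube T
      have h1 := incr_mono hC hm i j hij ha hab hb (hx j).1 (hx j).2 le_rfl
      have e1 : Function.update (vertex x 1 T) j (x j) = vertex x 1 T := by
        ext k
        rcases eq_or_ne k j with rfl | h
        · simp [vertex, hj]
        · simp [h]
      have e2 : Function.update (vertex x 1 T) j 1 = vertex x 1 (insert j T) := by
        ext k
        rcases eq_or_ne k j with rfl | h
        · simp [vertex]
        · simp [vertex, h]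
      rwa [e1, e2] at h1
  have h1 := key (univ.erase i) (by simp)
  have e : ∀ c : ℝ, 0 ≤ c → c ≤ 1 →
      C (Function.update (vertex x 1 (univ.erase i)) i c) = c := by
    intro c hc0 hc1
    rw [hC.margin _ (update_mem_cube (vertex_mem_cube hx one_mem_cube _) i hc0 hc1) i]
    · simp
    · intro j hj
      simp [hj, vertex]
  rwa [e b (ha.trans hab) hb, e a ha (hab.trans hb)] at h1

/-- `n`-copulas are `1`-Lipschitz for the `ℓ¹` distance -/
theorem lip {C : (Fin n → ℝ) → ℝ} (hC : IsCopula n C) {x y : Fin n → ℝ} (hx : x ∈ cube n)
    (hy : y ∈ cube n) : |C x - C y| ≤ ∑ i, |x i - y i| := by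
  have step : ∀ (z : Fin n → ℝ), z ∈ cube n → ∀ (i : Fin n) (a b : ℝ), 0 ≤ a → a ≤ 1 → 0 ≤ b →
      b ≤ 1 → |C (Function.update z i a) - C (Function.update z i b)| ≤ |a - b| := by
    intro z hz i a b ha0 ha1 hb0 hb1
    rcases le_total a b with h | h
    · have h1 := mono_coord hC hz i ha0 h hb1
      have h2 := lip_coord hC hz i ha0 h hb1
      rw [abs_of_nonpos (by linarith), abs_of_nonpos (by linarith)]
      linarith
    · have h1 := mono_coord hC hz i hb0 h ha1
      have h2 := lip_coord hC hz i hb0 h ha1
      rw [abs_of_nonneg (by linarith), abs_of_nonneg (by linarith)]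
      linarith
  have key : ∀ T : Finset (Fin n), |C x - C (vertex x y T)| ≤ ∑ i ∈ T, |x i - y i| := by
    intro T
    induction T using Finset.induction_on with
    | empty =>
      have : vertex x y ∅ = x := by ext k; simp [vertex]
      simp [this]
    | insert j T hj ih =>
      rw [sum_insert hj]
      have hm : vertex x y T ∈ cube n := vertex_mem_cube hx hy T
      have e1 : Function.update (vertex x y T) j (x j) = vertex x y T := by
        ext k
        rcases eq_or_ne k j with rfl | h
        · simp [vertex, hj]
        · simp [h]
      have e2 : Function.update (vertex x y T) j (y j) = vertex x y (insert j T) := by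
        ext k
        rcases eq_or_ne k j with rfl | h
        · simp [vertex]
        · simp [vertex, h]
      have h1 := step _ hm j (x j) (y j) (hx j).1 (hx j).2 (hy j).1 (hy j).2
      rw [e1, e2] at h1
      calc |C x - C (vertex x y (insert j T))|
          = |(C x - C (vertex x y T)) + (C (vertex x y T) - C (vertex x y (insert j T)))| := by
            congr 1; ring
        _ ≤ |C x - C (vertex x y T)| + |C (vertex x y T) - C (vertex x y (insert j T))| :=
            abs_add_le _ _
        _ ≤ |x j - y j| + ∑ i ∈ T, |x i - y i| := by linarith
  have h1 := key univ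
  rwa [vertex_univ] at h1

theorem lip' {C : (Fin n → ℝ) → ℝ} (hC : IsCopula n C) {x y : Fin n → ℝ} (hx : x ∈ cube n)
    (hy : y ∈ cube n) : |C x - C y| ≤ n * dist x y := by
  refine (lip hC hx hy).trans ?_
  calc ∑ i, |x i - y i| ≤ ∑ _i : Fin n, dist x y := by
        apply sum_le_sum
        intro i _
        exact (Real.dist_eq _ _) ▸ dist_le_pi_dist x y i
    _ = n * dist x y := by simp

end Pool.Agent.Helper43.Copula
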