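import Mathlib
import Pool.Agent.Helper43.Copula
set_option autoImplicit false

namespace Pool.Agent.Helper43.Copula

open MeasureTheory Finset Filter Topology

variable {n : ℕ}

/-- the product copula -/
theorem isCopula_prod (n : ℕ) : IsCopula n (fun x => ∏ k, x k) where
  range := fun x hx => ⟨prod_nonneg fun k _ => (hx k).1,
    prod_le_one (fun k _ => (hx k).1) fun k _ => (hx k).2⟩
  grounded := fun x _ ⟨k, hk⟩ => prod_eq_zero (mem_univ k) hk
  margin := fun x _ k hk => by
    rw [← mul_prod_erase _ _ (mem_univ k)]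
    rw [prod_eq_one (fun j hj => hk j (ne_of_mem_erase hj)), mul_one]
  increasing := fun u _ v _ huv => by
    have h1 : boxVolume (fun x => ∏ k, x k) u v = ∏ k, (v k - u k) := by
      unfold boxVolume
      have := Finset.prod_add (fun k => v k) (fun k => - u k) (univ : Finset (Fin n))
      simp only [← sub_eq_add_neg] at this
      rw [this, powerset_univ]
      refine sum_congr rfl fun s _ => ?_
      have h2 : ∏ k, vertex u v s k = (∏ k ∈ s, v k) * ∏ k ∈ univ \ s, u k := by
        rw [← prod_sdiff (subset_univ s), mul_comm]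
        congr 1
        · refine prod_congr rfl fun k hk => ?_
          simp [vertex, hk]
        · refine prod_congr rfl fun k hk => ?_
          simp only [Finset.mem_sdiff, Finset.mem_univ, true_and] at hk
          simp [vertex, hk]
      change (-1 : ℝ) ^ (n - #s) * ∏ k, vertex u v s k = _
      rw [h2, prod_neg]
      have h3 : #(univ \ s) = n - #s := by
        rw [card_univ_sdiff, Fintype.card_fin]
      rw [h3]
      ring
    rw [h1]
    exact prod_nonneg fun k _ => sub_nonneg.mpr (huv k)

/-- agreement set -/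
def agree (n : ℕ) (C : (Fin n → ℝ) → ℝ) : Set (Fin n → ℝ) :=
  {x | x ∈ cube n ∧ C x = lowerFrechet n x}

theorem continuous_lowerFrechet : Continuous (lowerFrechet n) := by
  unfold lowerFrechet
  fun_prop

theorem continuousOn_copula {C : (Fin n → ℝ) → ℝ} (hC : IsCopula n C) :
    ContinuousOn C (cube n) := by
  have : LipschitzOnWith (n : NNReal) C (cube n) := by
    apply LipschitzOnWith.of_dist_le_mul
    intro x hx y hy
    rw [Real.dist_eq]
    simpa using lip' hC hx hy
  exact this.continuousOn

theorem isClosed_near {C : (Fin n → ℝ) → ℝ} (hC : IsCopula n C) (δ : ℝ) :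
    IsClosed {x | x ∈ cube n ∧ |C x - lowerFrechet n x| ≤ δ} := by
  have h1 : ContinuousOn (fun x => |C x - lowerFrechet n x|) (cube n) :=
    ((continuousOn_copula hC).sub continuous_lowerFrechet.continuousOn).abs
  exact h1.preimage_isClosed_of_isClosed isClosed_cube isClosed_Iic

theorem isClosed_agree {C : (Fin n → ℝ) → ℝ} (hC : IsCopula n C) : IsClosed (agree n C) := by
  have := isClosed_near hC 0
  convert this using 1
  ext x
  simp only [agree, Set.mem_ofPred_eq]
  constructor
  · rintro ⟨h1, h2⟩; exact ⟨h1, by simp [h2]⟩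
  · rintro ⟨h1, h2⟩; exact ⟨h1, by simpa [sub_eq_zero] using h2⟩

/-- continuity from above -/
theorem exists_near_lt {C : (Fin n → ℝ) → ℝ} (hC : IsCopula n C) {c : ENNReal}
    (hc : volume (agree n C) < c) : ∃ δ : ℝ, 0 < δ ∧
      volume {x | x ∈ cube n ∧ |C x - lowerFrechet n x| ≤ δ} < c := by
  set B : ℕ → Set (Fin n → ℝ) :=
    fun m => {x | x ∈ cube n ∧ |C x - lowerFrechet n x| ≤ 1 / ((m : ℝ) + 1)} with hB
  have h1 : Tendsto (volume ∘ B) atTop (𝓝 (volume (⋂ m, B m))) := by
    apply tendsto_measure_iInter_atTop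
    · intro m
      exact (isClosed_near hC _).measurableSet.nullMeasurableSet
    · intro m m' hm x hx
      refine ⟨hx.1, hx.2.trans ?_⟩
      exact one_div_le_one_div_of_le (by positivity) (by
        have : (m : ℝ) ≤ m' := by exact_mod_cast hm
        linarith)
    · refine ⟨0, ?_⟩
      have : B 0 ⊆ cube n := fun x hx => hx.1
      exact ne_top_of_le_ne_top (by rw [volume_cube]; simp) (measure_mono this)
  have h2 : ⋂ m, B m = agree n C := by
    ext x
    simp only [Set.mem_iInter, agree, hB, Set.mem_ofPred_eq]
    constructor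
    · intro h
      refine ⟨(h 0).1, ?_⟩
      have h3 : |C x - lowerFrechet n x| ≤ 0 :=
        ge_of_tendsto' tendsto_one_div_add_atTop_nhds_zero_nat fun m => (h m).2
      have := abs_nonpos_iff.mp h3
      linarith
    · rintro ⟨h3, h4⟩ m
      refine ⟨h3, ?_⟩
      rw [h4, sub_self, abs_zero]
      positivity
  rw [h2] at h1
  obtain ⟨m, hm⟩ := (h1.eventually (gt_mem_nhds hc)).exists
  exact ⟨1 / ((m : ℝ) + 1), by positivity, hm⟩

open scoped BoundedContinuousFunction

instance : CompactSpace (cube n) := isCompact_iff_compactSpace.mp isCompact_cube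

/-- extension of a function on the cube -/
noncomputable def ext (f : cube n → ℝ) : (Fin n → ℝ) → ℝ := by
  classical exact fun x => if h : x ∈ cube n then f ⟨x, h⟩ else 0

theorem ext_apply (f : cube n → ℝ) {x : Fin n → ℝ} (hx : x ∈ cube n) : ext f x = f ⟨x, hx⟩ := by
  simp [ext, hx]

/-- the set of copulas, as bounded continuous functions on the cube -/
def copSet (n : ℕ) : Set (cube n →ᵇ ℝ) := {f | IsCopula n (ext f)}

theorem continuous_ext (x : Fin n → ℝ) : Continuous fun f : cube n →ᵇ ℝ => ext f x := by
  by_cases hx : x ∈ cube n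
  · simp only [ext_apply _ hx]
    exact (BoundedContinuousFunction.lipschitz_eval_const _).continuous
  · simp only [ext, hx, dite_false]
    exact continuous_const

theorem isClosed_copSet : IsClosed (copSet n) := by
  have h : copSet n = {f : cube n →ᵇ ℝ | (∀ x ∈ cube n, 0 ≤ ext f x ∧ ext f x ≤ 1)} ∩
      ({f | ∀ x ∈ cube n, (∃ k, x k = 0) → ext f x = 0} ∩
      ({f | ∀ x ∈ cube n, ∀ k, (∀ j, j ≠ k → x j = 1) → ext f x = x k} ∩
      {f | ∀ u ∈ cube n, ∀ v ∈ cube n, (∀ k, u k ≤ v k) → 0 ≤ boxVolume (ext f) u v})) := by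
    ext f
    constructor
    · intro hf
      exact ⟨hf.range, hf.grounded, hf.margin, hf.increasing⟩
    · rintro ⟨h1, h2, h3, h4⟩
      exact ⟨h1, h2, h3, h4⟩
  rw [h]
  refine IsClosed.inter ?_ (IsClosed.inter ?_ (IsClosed.inter ?_ ?_))
  · simp only [Set.ofPred_forall]
    refine isClosed_iInter fun x => isClosed_iInter fun _ => ?_
    exact (isClosed_le continuous_const (continuous_ext x)).inter
      (isClosed_le (continuous_ext x) continuous_const)
  · simp only [Set.ofPred_forall]
    refine isClosed_iInter fun x => isClosed_iInter fun _ => isClosed_iInter fun _ => ?_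
    exact isClosed_eq (continuous_ext x) continuous_const
  · simp only [Set.ofPred_forall]
    refine isClosed_iInter fun x => isClosed_iInter fun _ => isClosed_iInter fun k =>
      isClosed_iInter fun _ => ?_
    exact isClosed_eq (continuous_ext x) continuous_const
  · simp only [Set.ofPred_forall]
    refine isClosed_iInter fun u => isClosed_iInter fun _ => isClosed_iInter fun v =>
      isClosed_iInter fun _ => isClosed_iInter fun _ => ?_
    refine isClosed_le continuous_const ?_
    unfold boxVolume
    exact continuous_finsetSum _ fun s _ => continuous_const.mul (continuous_ext _)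

theorem ext_toFun {C : (Fin n → ℝ) → ℝ} {f : cube n → ℝ} (hf : ∀ x : cube n, f x = C x)
    {x : Fin n → ℝ} (hx : x ∈ cube n) : ext f x = C x := by
  rw [ext_apply f hx, hf]

/-- being a copula only depends on the values on the cube -/
theorem IsCopula.congr {C C' : (Fin n → ℝ) → ℝ} (hC : IsCopula n C)
    (h : ∀ x ∈ cube n, C' x = C x) : IsCopula n C' where
  range := fun x hx => by rw [h x hx]; exact hC.range x hx
  grounded := fun x hx hk => by rw [h x hx]; exact hC.grounded x hx hk
  margin := fun x hx k hk => by rw [h x hx]; exact hC.margin x hx k hk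
  increasing := fun u hu v hv huv => by
    have : boxVolume C' u v = boxVolume C u v := by
      unfold boxVolume
      exact sum_congr rfl fun s _ => by rw [h _ (vertex_mem_cube hu hv s)]
    rw [this]; exact hC.increasing u hu v hv huv

/-- the bounded continuous function on the cube given by a copula -/
theorem exists_bcf {C : (Fin n → ℝ) → ℝ} (hC : IsCopula n C) :
    ∃ f : cube n →ᵇ ℝ, ∀ x : cube n, f x = C x :=
  ⟨BoundedContinuousFunction.mkOfCompact
    ⟨fun x => C x, (continuousOn_copula hC).domRestrict⟩, fun _ => rfl⟩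

theorem isCompact_copSet : IsCompact (copSet n) := by
  refine BoundedContinuousFunction.arzela_ascoli₂ (Set.Icc 0 1) isCompact_Icc _ isClosed_copSet
    ?_ ?_
  · intro f x hf
    have := hf.range x x.2
    rwa [ext_apply _ x.2] at this
  · apply UniformEquicontinuous.equicontinuous
    apply LipschitzWith.uniformEquicontinuous _ (n : NNReal)
    intro f
    apply LipschitzWith.of_dist_le_mul
    intro x y
    have := lip' f.2 x.2 y.2
    rw [ext_apply _ x.2, ext_apply _ y.2] at this
    rw [Real.dist_eq, Subtype.dist_eq]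
    simpa using this

theorem usc : UpperSemicontinuousOn (fun f : cube n →ᵇ ℝ => volume (agree n (ext f))) (copSet n) := by
  intro f hf c hc
  obtain ⟨δ, hδ, hδc⟩ := exists_near_lt hf hc
  have h1 : ∀ᶠ g in 𝓝[copSet n] f, dist g f < δ :=
    mem_nhdsWithin_of_mem_nhds (Metric.ball_mem_nhds f hδ)
  filter_upwards [h1] with g hg
  refine lt_of_le_of_lt (measure_mono ?_) hδc
  rintro x ⟨hx, hgx⟩
  refine ⟨hx, ?_⟩
  rw [← hgx, ext_apply _ hx, ext_apply _ hx, ← Real.dist_eq, dist_comm]
  exact (BoundedContinuousFunction.dist_coe_le_dist _).trans hg.le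

/-- the supremum `s_n` is attained -/
theorem attained (n : ℕ) : ∃ C, IsCopula n C ∧
    volume {x | x ∈ cube n ∧ C x = lowerFrechet n x} = maxAgreement n := by
  have hne : (copSet n).Nonempty := by
    obtain ⟨f, hf⟩ := exists_bcf (isCopula_prod n)
    exact ⟨f, (isCopula_prod n).congr fun x hx => ext_toFun (C := fun x => ∏ k, x k) hf hx⟩
  obtain ⟨f, hf, hmax⟩ := UpperSemicontinuousOn.exists_isMaxOn hne isCompact_copSet usc
  refine ⟨ext f, hf, le_antisymm ?_ ?_⟩
  · apply le_sSup
    exact ⟨_, fun x hx => hx.1, (isClosed_agree hf).measurableSet, ⟨ext f, hf, fun x hx => hx.2⟩,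
      rfl⟩
  · apply sSup_le
    rintro m ⟨A, hA, hAm, ⟨C, hC, hCA⟩, rfl⟩
    obtain ⟨g, hg⟩ := exists_bcf hC
    have hg' : ∀ x ∈ cube n, ext g x = C x := fun x hx => ext_toFun hg hx
    have hgm : g ∈ copSet n := hC.congr hg'
    have h1 := hmax hgm
    refine le_trans (measure_mono ?_) h1
    intro x hx
    exact ⟨hA hx, by rw [hg' x (hA hx)]; exact hCA x hx⟩

end Pool.Agent.Helper43.Copula
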