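import Mathlib
set_option autoImplicit false
set_option linter.unusedSectionVars false
open Polynomial NumberField

namespace Pool.Agent.Helper43.SelmerGal

/-- In a field, `X f' - n f = (n-1) X + n` for `f = X ^ n - X - 1`. -/
theorem key_identity {F : Type*} [Field F] (n : ℕ) (hn : 1 ≤ n) :
    (X : F[X]) * derivative (X ^ n - X - 1 : F[X]) - C (n : F) * (X ^ n - X - 1)
      = C ((n : F) - 1) * X + C (n : F) := by
  obtain ⟨m, rfl⟩ : ∃ m, n = m + 1 := ⟨n - 1, by omega⟩
  simp only [derivative_sub, derivative_X_pow, derivative_X, derivative_one, Nat.add_sub_cancel]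
  simp only [map_sub, map_add, map_one, map_natCast, Nat.cast_add, Nat.cast_one]
  ring

theorem sq_dvd_imp {F : Type*} [Field F] (n : ℕ) (hn : 1 ≤ n) (x : F)
    (h : (X - C x) ^ 2 ∣ (X ^ n - X - 1 : F[X])) :
    ((n : F) - 1) * x + n = 0 := by
  have h1 : (X - C x) ∣ derivative (X ^ n - X - 1 : F[X]) := by
    obtain ⟨g, hg⟩ := h
    rw [hg]
    simp only [derivative_mul, derivative_pow, derivative_sub, derivative_X, derivative_C]
    refine dvd_add ?_ ?_
    · refine Dvd.dvd.mul_right ?_ _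
      simp only [sub_zero, mul_one]
      refine Dvd.dvd.mul_left ?_ _
      simp
    · refine Dvd.dvd.mul_right ?_ _
      exact dvd_pow_self _ (by norm_num)
  have h0 : (X - C x) ∣ (X ^ n - X - 1 : F[X]) := dvd_trans (dvd_pow_self _ (by norm_num)) h
  have h2 : (X - C x) ∣ C ((n : F) - 1) * X + C (n : F) := by
    rw [← key_identity n hn]
    exact dvd_sub (Dvd.dvd.mul_left h1 _) (Dvd.dvd.mul_left h0 _)
  rw [dvd_iff_isRoot] at h2
  simpa [IsRoot] using h2

theorem cube_not_dvd {F : Type*} [Field F] (n : ℕ) (hn : 1 ≤ n) (x : F) :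
    ¬ ((X - C x) ^ 3 ∣ (X ^ n - X - 1 : F[X])) := by
  intro h
  have h1 : (X - C x) ^ 2 ∣ derivative (X ^ n - X - 1 : F[X]) := by
    obtain ⟨g, hg⟩ := h
    rw [hg]
    simp only [derivative_mul, derivative_pow, derivative_sub, derivative_X, derivative_C]
    refine dvd_add ?_ ?_
    · refine Dvd.dvd.mul_right ?_ _
      simp only [sub_zero, mul_one]
      exact Dvd.dvd.mul_left (by norm_num) _
    · refine Dvd.dvd.mul_right ?_ _
      exact pow_dvd_pow _ (by norm_num)
  have h0 : (X - C x) ^ 2 ∣ (X ^ n - X - 1 : F[X]) := dvd_trans (pow_dvd_pow _ (by norm_num)) h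
  have h2 : (X - C x) ^ 2 ∣ C ((n : F) - 1) * X + C (n : F) := by
    rw [← key_identity n hn]
    exact dvd_sub (Dvd.dvd.mul_left h1 _) (Dvd.dvd.mul_left h0 _)
  have h3 : C ((n : F) - 1) * X + C (n : F) = 0 := by
    apply eq_zero_of_dvd_of_natDegree_lt h2
    have : natDegree ((X - C x) ^ 2) = 2 := by simp
    rw [this]
    exact lt_of_le_of_lt natDegree_linear_le (by norm_num)
  have h4 := congrArg (fun p => coeff p 0) h3
  have h5 := congrArg (fun p => coeff p 1) h3
  simp at h4 h5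
  have h6 : (n : F) - 1 = 0 := by
    rcases eq_or_ne ((n : F) - 1) 0 with h | h
    · exact h
    · simpa [coeff_natCast_ite] using h5
  rw [h4] at h6
  simp at h6

theorem collision {S : Type*} [CommRing S] [IsDomain S] (n : ℕ) (hn : 2 ≤ n)
    (hf : ((X ^ n - X - 1 : ℤ[X]).map (algebraMap ℤ S)).Splits) (p : Ideal S) [hpm : p.IsMaximal] :
    ((X ^ n - X - 1 : ℤ[X]).rootSet S).ncard ≤
      ((X ^ n - X - 1 : ℤ[X]).rootSet (S ⧸ p)).ncard + 1 := by
  classical
  let := Ideal.Quotient.field p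
  have hmapS : (X ^ n - X - 1 : ℤ[X]).map (algebraMap ℤ S) = X ^ n - X - 1 := by simp
  have hmapF : (X ^ n - X - 1 : ℤ[X]).map (algebraMap ℤ (S ⧸ p)) = X ^ n - X - 1 := by simp
  have hmonic : ∀ (T : Type _) [CommRing T] [Nontrivial T], (X ^ n - X - 1 : T[X]).Monic := by
    intro T _ _
    have h1 : (X ^ n - X - 1 : T[X]) = X ^ n + (-(X + 1)) := by ring
    rw [h1]
    apply monic_X_pow_add
    rw [degree_neg]
    refine lt_of_le_of_lt (degree_add_le _ _) ?_
    simp only [degree_X, degree_one]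
    rw [max_eq_left (by norm_num)]
    exact_mod_cast (show 1 < n by omega)
  have hfp : (X ^ n - X - 1 : ℤ[X]).map (algebraMap ℤ (S ⧸ p)) ≠ 0 := by
    rw [hmapF]; exact (hmonic _).ne_zero
  have hfS : (X ^ n - X - 1 : S[X]) ≠ 0 := (hmonic _).ne_zero
  let π : S →ₐ[ℤ] S ⧸ p := Ideal.Quotient.mkₐ ℤ p
  rw [← hf.image_rootSet_of_map_ne_zero π hfp, Set.ncard_le_ncard_image_add_one_iff]
  -- multiset divisibility
  have hmem : ∀ a ∈ (X ^ n - X - 1 : ℤ[X]).rootSet S, a ∈ (X ^ n - X - 1 : S[X]).roots := by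
    intro a ha
    rw [mem_rootSet'] at ha
    rw [mem_roots hfS]
    simpa [IsRoot, aeval_def] using ha.2
  have hdvd : ∀ s : Multiset S, s.Nodup → (∀ a ∈ s, a ∈ (X ^ n - X - 1 : ℤ[X]).rootSet S) →
      (s.map (fun a => X - C (π a))).prod ∣ (X ^ n - X - 1 : (S ⧸ p)[X]) := by
    intro s hs hs2
    have h1 : (s.map (fun a => X - C a)).prod ∣ (X ^ n - X - 1 : S[X]) := by
      rw [Multiset.prod_X_sub_C_dvd_iff_le_roots hfS, Multiset.le_iff_subset hs]
      intro a ha
      exact hmem a (hs2 a ha)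
    have h2 := Polynomial.map_dvd (π : S →+* S ⧸ p) h1
    simpa [Polynomial.map_multiset_prod, Multiset.map_map, Function.comp_def] using h2
  have hpair : ∀ a ∈ (X ^ n - X - 1 : ℤ[X]).rootSet S, ∀ b ∈ (X ^ n - X - 1 : ℤ[X]).rootSet S,
      a ≠ b → π a = π b → ((n : S ⧸ p) - 1) * π a + n = 0 := by
    intro a ha b hb hab hπ
    apply sq_dvd_imp n (by omega)
    have := hdvd {a, b} (by simpa using hab) (by simp [ha, hb])
    simpa [hπ, sq] using this
  have htriple : ∀ a ∈ (X ^ n - X - 1 : ℤ[X]).rootSet S, ∀ b ∈ (X ^ n - X - 1 : ℤ[X]).rootSet S,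
      ∀ c ∈ (X ^ n - X - 1 : ℤ[X]).rootSet S,
      a ≠ b → a ≠ c → b ≠ c → π a = π b → π a = π c → False := by
    intro a ha b hb c hc hab hac hbc h1 h2
    apply cube_not_dvd n (by omega) (π a)
    have := hdvd {a, b, c} (by simp [hab, hac, hbc]) (by simp [ha, hb, hc])
    simpa [← h1, ← h2, pow_succ, mul_assoc] using this
  intro a ha b hb c hc d hd hab hcd hne1 hne2
  have h1 := hpair a ha b hb hne1 hab
  have h2 := hpair c hc d hd hne2 hcd
  have h3 : ((n : S ⧸ p) - 1) * (π a - π c) = 0 := by linear_combination h1 - h2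
  have h4 : (n : S ⧸ p) - 1 ≠ 0 := by
    intro h
    rw [h, zero_mul, zero_add] at h1
    rw [h1] at h
    simp at h
  have hac : π a = π c := by
    rcases mul_eq_zero.mp h3 with h | h
    · exact absurd h h4
    · exact sub_eq_zero.mp h
  -- now all equal
  have hbc : π b = π c := hab ▸ hac
  have hc' : c = a ∨ c = b := by
    by_contra hcon
    push Not at hcon
    exact htriple a ha b hb c hc hne1 (Ne.symm hcon.1) (Ne.symm hcon.2) hab hac
  have hd' : d = a ∨ d = b := by
    by_contra hcon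
    push Not at hcon
    exact htriple a ha b hb d hd hne1 (Ne.symm hcon.1) (Ne.symm hcon.2) hab (hac.trans hcd)
  rcases hc' with rfl | rfl <;> rcases hd' with rfl | rfl
  · exact absurd rfl hne2
  · rfl
  · exact Set.pair_comm _ _
  · exact absurd rfl hne2


theorem monic_sel {T : Type*} [CommRing T] [Nontrivial T] (n : ℕ) (hn : 2 ≤ n) :
    (X ^ n - X - 1 : T[X]).Monic := by
  have h1 : (X ^ n - X - 1 : T[X]) = X ^ n + (-(X + 1)) := by ring
  rw [h1]
  apply monic_X_pow_add
  rw [degree_neg]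
  refine lt_of_le_of_lt (degree_add_le _ _) ?_
  simp only [degree_X, degree_one]
  rw [max_eq_left (by norm_num)]
  exact_mod_cast (show 1 < n by omega)

theorem natDegree_sel {T : Type*} [CommRing T] [Nontrivial T] (n : ℕ) (hn : 2 ≤ n) :
    (X ^ n - X - 1 : T[X]).natDegree = n := by
  have h1 : (X ^ n - X - 1 : T[X]) = X ^ n + (-(X + 1)) := by ring
  rw [h1]
  rw [natDegree_add_eq_left_of_natDegree_lt]
  · simp
  · rw [natDegree_neg, natDegree_X_pow]
    refine lt_of_le_of_lt (natDegree_add_le _ _) ?_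
    simp
    omega

theorem irr_sel (n : ℕ) (hn : 2 ≤ n) : Irreducible (X ^ n - X - 1 : ℚ[X]) :=
  X_pow_sub_X_sub_one_irreducible_rat (by omega)

section

variable (n : ℕ) (hn : 2 ≤ n) (K : Type*) [Field K] [NumberField K]
  [hsf : IsSplittingField ℚ K (X ^ n - X - 1 : ℚ[X])]

include hn hsf

theorem isGalois_sel : IsGalois ℚ K :=
  IsGalois.of_separable_splitting_field (irr_sel n hn).separable

theorem splits_field : (X ^ n - X - 1 : K[X]).Splits := by
  have h1 := hsf.splits'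
  have h2 : (X ^ n - X - 1 : ℚ[X]).map (algebraMap ℚ K) = X ^ n - X - 1 := by simp
  rwa [h2] at h1

/-- the roots of the Selmer polynomial in `𝓞 K` map onto the roots in `K` -/
theorem splits_int :
    ((X ^ n - X - 1 : ℤ[X]).map (algebraMap ℤ (𝓞 K))).Splits := by
  have h1 := splits_field n hn K
  have h3 : (X ^ n - X - 1 : ℤ[X]).map (algebraMap ℤ (𝓞 K)) = X ^ n - X - 1 := by simp
  have h4 : (X ^ n - X - 1 : (𝓞 K)[X]).map (algebraMap (𝓞 K) K) = X ^ n - X - 1 := by simp
  rw [h3]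
  apply Splits.of_splits_map_of_injective (i := algebraMap (𝓞 K) K)
    (FaithfulSMul.algebraMap_injective (𝓞 K) K)
  · rwa [h4]
  · intro x hx
    rw [h4, mem_roots (monic_sel n hn).ne_zero] at hx
    have : IsIntegral ℤ x := by
      refine ⟨X ^ n - X - 1, monic_sel n hn, ?_⟩
      simpa [IsRoot] using hx
    exact ⟨⟨x, this⟩, rfl⟩

theorem splits_int' : (X ^ n - X - 1 : (𝓞 K)[X]).Splits := by
  have := splits_int n hn K
  simpa using this

theorem mem_rootSet_int (x : 𝓞 K) :
    x ∈ (X ^ n - X - 1 : ℤ[X]).rootSet (𝓞 K) ↔ x ^ n - x - 1 = 0 := by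
  rw [mem_rootSet_of_ne (monic_sel n hn).ne_zero]
  simp

theorem card_rootSet : Nat.card ((X ^ n - X - 1 : ℤ[X]).rootSet (𝓞 K)) = n := by
  have h0 : (X ^ n - X - 1 : ℤ[X]).map (algebraMap ℤ (𝓞 K)) = X ^ n - X - 1 := by simp
  have h1 := (splits_int' n hn K).natDegree_eq_card_roots
  rw [natDegree_sel n hn] at h1
  have hsep : (X ^ n - X - 1 : (𝓞 K)[X]).roots.Nodup := by
    have h2 : (X ^ n - X - 1 : K[X]).Separable := by
      have := (irr_sel n hn).separable.map (f := algebraMap ℚ K)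
      simpa using this
    have h3 : (X ^ n - X - 1 : K[X]).roots.Nodup := nodup_roots h2
    have h4 : (X ^ n - X - 1 : (𝓞 K)[X]).map (algebraMap (𝓞 K) K) = X ^ n - X - 1 := by simp
    have h5 := (splits_int' n hn K).roots_map_of_injective
      (FaithfulSMul.algebraMap_injective (𝓞 K) K)
    rw [h4] at h5
    rw [h5] at h3
    exact Multiset.Nodup.of_map _ h3
  rw [Nat.card_eq_fintype_card, ← Set.toFinset_card]
  classical
  have : (rootSet (X ^ n - X - 1 : ℤ[X]) (𝓞 K)).toFinset = (X ^ n - X - 1 : (𝓞 K)[X]).roots.toFinset := by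
    ext x
    simp only [Set.mem_toFinset, mem_rootSet_int n hn K, Multiset.mem_toFinset,
      mem_roots (monic_sel (T := 𝓞 K) n hn).ne_zero, IsRoot]
    simp
  rw [this, Multiset.toFinset_card_of_nodup hsep]
  exact h1.symm

/-- the Galois group acts faithfully on the integral roots -/
theorem toPermHom_injective :
    Function.Injective (MulAction.toPermHom (K ≃ₐ[ℚ] K)
      ((X ^ n - X - 1 : ℤ[X]).rootSet (𝓞 K))) := by
  rw [injective_iff_map_eq_one]
  intro g hg
  have hadj := hsf.adjoin_rootSet'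
  have hfix : ∀ x ∈ (X ^ n - X - 1 : ℚ[X]).rootSet K, g x = x := by
    intro x hx
    rw [mem_rootSet_of_ne (monic_sel n hn).ne_zero] at hx
    have hint : IsIntegral ℤ x := ⟨X ^ n - X - 1, monic_sel n hn, by simpa using hx⟩
    let y : 𝓞 K := ⟨x, hint⟩
    have hyx : algebraMap (𝓞 K) K y = x := rfl
    have hmem : y ∈ (X ^ n - X - 1 : ℤ[X]).rootSet (𝓞 K) := by
      rw [mem_rootSet_int n hn K]
      apply FaithfulSMul.algebraMap_injective (𝓞 K) K
      simp only [map_sub, map_pow, map_one, map_zero, hyx]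
      simpa using hx
    have h1 := congrArg (fun σ => (σ ⟨_, hmem⟩ : 𝓞 K)) hg
    simp only [MulAction.toPermHom_apply, MulAction.toPerm_apply, rootSet.coe_smul,
      Equiv.Perm.coe_one, id_eq] at h1
    have h2 := congrArg (algebraMap (𝓞 K) K) h1
    exact h2
  have h3 : (AlgHom.equalizer (g : K →ₐ[ℚ] K) (AlgHom.id ℚ K)) = ⊤ := by
    rw [eq_top_iff, ← hadj, Algebra.adjoin_le_iff]
    intro x hx
    simpa [AlgHom.mem_equalizer] using hfix x hx
  ext x
  have : x ∈ AlgHom.equalizer (g : K →ₐ[ℚ] K) (AlgHom.id ℚ K) := by rw [h3]; trivial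
  simpa [AlgHom.mem_equalizer] using this

theorem dvd_finrank : n ∣ Module.finrank ℚ K := by
  have h1 := splits_field n hn K
  obtain ⟨x, hx⟩ := h1.exists_eval_eq_zero (by
    rw [degree_eq_natDegree (monic_sel n hn).ne_zero, natDegree_sel n hn]
    exact_mod_cast (by omega : n ≠ 0))
  have h2 : minpoly ℚ x = X ^ n - X - 1 := by
    symm
    apply minpoly.eq_of_irreducible_of_monic (irr_sel n hn) _ (monic_sel n hn)
    simpa using hx
  have h3 := minpoly.degree_dvd (K := ℚ) (x := x) (Algebra.IsIntegral.isIntegral x)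
  rwa [h2, natDegree_sel n hn] at h3

theorem exists_inertia : ∃ (P : Ideal (𝓞 K)) (_ : P.IsMaximal) (g : K ≃ₐ[ℚ] K),
    g ∈ P.inertia (K ≃ₐ[ℚ] K) ∧ g ≠ 1 := by
  have hgal := isGalois_sel n hn K
  have hfin : Module.finrank ℚ K ≠ 1 := by
    intro h
    have h1 := dvd_finrank n hn K
    rw [h] at h1
    have := Nat.le_of_dvd one_pos h1
    omega
  obtain ⟨P, hP, hram⟩ := NumberField.exists_not_isUnramifiedAt_int (𝒪 := 𝓞 K) hfin
  refine ⟨P, hP, ?_⟩
  have hPp : P.IsPrime := hP.isPrime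
  have h1 := Ideal.card_inertia_eq_ramificationIdxIn (R := ℤ) (S := 𝓞 K) (G := K ≃ₐ[ℚ] K)
    (P.under ℤ) P
  rw [Ideal.ramificationIdxIn_eq_ramificationIdx (P.under ℤ) P (K ≃ₐ[ℚ] K)] at h1
  rw [← Ideal.ramificationIdx_eq_one_iff, ← h1] at hram
  by_contra hcon
  push Not at hcon
  apply hram
  rw [Nat.card_eq_one_iff_unique]
  refine ⟨⟨fun a b => ?_⟩, ⟨1⟩⟩
  rw [Subtype.ext_iff, hcon _ a.2, hcon _ b.2]

theorem toPermHom_surjective (hp : n.Prime) :
    Function.Surjective (MulAction.toPermHom (K ≃ₐ[ℚ] K)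
      ((X ^ n - X - 1 : ℤ[X]).rootSet (𝓞 K))) := by
  classical
  obtain ⟨P, hP, g, hg, hg1⟩ := exists_inertia n hn K
  have hPp : P.IsPrime := hP.isPrime
  have hinj := toPermHom_injective n hn K
  have hsw := Splits.toPermHom_apply_eq_one_or_isSwap_of_ncard_le_of_mem_inertia
    (splits_int n hn K) P (collision n hn (splits_int n hn K) P) g hg
  have hsw' : (MulAction.toPermHom (K ≃ₐ[ℚ] K)
      ((X ^ n - X - 1 : ℤ[X]).rootSet (𝓞 K)) g).IsSwap := by
    rcases hsw with h | h
    · exact absurd ((injective_iff_map_eq_one _).mp hinj g h) hg1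
    · exact h
  have hgal := isGalois_sel n hn K
  have hcard : Fintype.card ((X ^ n - X - 1 : ℤ[X]).rootSet (𝓞 K)) = n := by
    rw [← Nat.card_eq_fintype_card, card_rootSet n hn K]
  have hdvd : n ∣ Nat.card (MulAction.toPermHom (K ≃ₐ[ℚ] K)
      ((X ^ n - X - 1 : ℤ[X]).rootSet (𝓞 K))).range := by
    rw [← Nat.card_congr (MonoidHom.ofInjective hinj).toEquiv, IsGalois.card_aut_eq_finrank]
    exact dvd_finrank n hn K
  generalize hH : (MulAction.toPermHom (K ≃ₐ[ℚ] K)
      ((X ^ n - X - 1 : ℤ[X]).rootSet (𝓞 K))).range = H at hdvd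
  have := Equiv.Perm.subgroup_eq_top_of_swap_mem (H := H) (by rw [hcard]; exact hp) (by
      rw [hcard, ← Nat.card_eq_fintype_card]
      exact hdvd) (hH ▸ ⟨g, rfl⟩) hsw'
  exact MonoidHom.range_eq_top.mp (hH.trans this)

end

end Pool.Agent.Helper43.SelmerGal
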