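import Mathlib
import Pool.Agent.Helper43.SelmerGal
set_option autoImplicit false
set_option linter.unusedSectionVars false
open Polynomial NumberField

namespace Pool.Agent.Helper43.Data

open Pool.Agent.Helper43.SelmerGal

theorem exists_field (n : ℕ) : ∃ (K : Type) (_ : Field K) (_ : NumberField K),
    IsSplittingField ℚ K (X ^ n - X - 1 : ℚ[X]) := by
  refine ⟨(X ^ n - X - 1 : ℚ[X]).SplittingField, inferInstance,
    { to_charZero := inferInstance, to_finiteDimensional := inferInstance }, ?_⟩
  have h := Polynomial.IsSplittingField.splittingField (X ^ n - X - 1 : ℚ[X])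
  convert! h

section

variable (n : ℕ) (hn : 2 ≤ n) (K : Type*) [Field K] [NumberField K]
  [hsf : IsSplittingField ℚ K (X ^ n - X - 1 : ℚ[X])]

include hn hsf

theorem exists_roots : ∃ β : Fin n → 𝓞 K, Function.Injective β ∧
    (∀ x, x ∈ (X ^ n - X - 1 : ℤ[X]).rootSet (𝓞 K) ↔ ∃ i, β i = x) ∧
    (∏ i, (X - C (β i)) = (X ^ n - X - 1 : (𝓞 K)[X])) := by
  classical
  have hcard := card_rootSet n hn K
  have : Fintype.card ((X ^ n - X - 1 : ℤ[X]).rootSet (𝓞 K)) = n := by
    rw [← Nat.card_eq_fintype_card, hcard]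
  let e := (Fintype.equivFinOfCardEq this).symm
  refine ⟨fun i => (e i : 𝓞 K), ?_, ?_, ?_⟩
  · exact Subtype.val_injective.comp e.injective
  · intro x
    constructor
    · intro hx
      exact ⟨e.symm ⟨x, hx⟩, by simp⟩
    · rintro ⟨i, rfl⟩
      exact (e i).2
  · have h1 := (splits_int' n hn K).eq_prod_roots_of_monic (monic_sel n hn)
    have h2 : (X ^ n - X - 1 : (𝓞 K)[X]).roots
        = (Finset.univ.val.map (fun i => (e i : 𝓞 K))) := by
      symm
      apply Multiset.eq_of_le_of_card_le
      · rw [Multiset.le_iff_subset]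
        · intro x hx
          obtain ⟨i, _, rfl⟩ := Multiset.mem_map.mp hx
          rw [mem_roots (monic_sel n hn).ne_zero]
          have := (mem_rootSet_int n hn K _).mp (e i).2
          simpa [IsRoot] using this
        · exact (Finset.univ.nodup).map (Subtype.val_injective.comp e.injective)
      · rw [Multiset.card_map, Finset.card_val, Finset.card_univ, Fintype.card_fin]
        exact (card_roots' _).trans (natDegree_sel n hn).le
    conv_rhs => rw [h1]
    rw [h2, Multiset.map_map]
    rfl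

end

/-- the data needed for the construction -/
theorem exists_data (n : ℕ) (hp : n.Prime) (hodd : Odd n) :
    ∃ (K : Type) (_ : Field K) (_ : NumberField K) (_ : IsGalois ℚ K) (β : Fin n → 𝓞 K)
      (e : (K ≃ₐ[ℚ] K) ≃* Equiv.Perm (Fin n)),
      Function.Injective β ∧ (∀ i, β i ^ n = β i + 1) ∧
      (∀ (σ : K ≃ₐ[ℚ] K) i, σ • β i = β (e σ i)) ∧
      (∏ i, β i = 1) ∧
      (∀ (P : Ideal (𝓞 K)), P.IsMaximal → (2 : 𝓞 K) ∈ P →
        Function.Injective (fun i => Ideal.Quotient.mk P (β i))) := by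
  classical
  have hn : 2 ≤ n := hp.two_le
  obtain ⟨K, _, _, hsf⟩ := exists_field n
  have hgal := isGalois_sel n hn K
  obtain ⟨β, hβ, hβmem, hprod⟩ := exists_roots n hn K
  set R := (X ^ n - X - 1 : ℤ[X]).rootSet (𝓞 K) with hR
  let r : Fin n ≃ R := Equiv.ofBijective (fun i => ⟨β i, (hβmem _).mpr ⟨i, rfl⟩⟩) ⟨by
    intro i j hij
    exact hβ (Subtype.ext_iff.mp hij), by
    intro x
    obtain ⟨i, hi⟩ := (hβmem x).mp x.2
    exact ⟨i, Subtype.ext hi⟩⟩
  let e1 : (K ≃ₐ[ℚ] K) ≃* Equiv.Perm R := MulEquiv.ofBijective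
    (MulAction.toPermHom (K ≃ₐ[ℚ] K) R)
    ⟨toPermHom_injective n hn K, toPermHom_surjective n hn K hp⟩
  let e2 : Equiv.Perm R ≃* Equiv.Perm (Fin n) := r.symm.permCongrHom
  refine ⟨K, inferInstance, inferInstance, hgal, β, e1.trans e2, hβ, ?_, ?_, ?_, ?_⟩
  · intro i
    have := (mem_rootSet_int n hn K _).mp ((hβmem _).mpr ⟨i, rfl⟩)
    linear_combination this
  · intro σ i
    have h1 : (e1.trans e2) σ i = r.symm (e1 σ (r i)) := by
      simp [e2, Equiv.permCongrHom, Equiv.permCongr]
    have h2 : ∀ x : R, β (r.symm x) = x := by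
      intro x
      have : r (r.symm x) = x := r.apply_symm_apply x
      exact Subtype.ext_iff.mp this
    rw [h1, h2]
    rfl
  · have h1 := congrArg (eval 0) hprod
    rw [eval_prod] at h1
    simp only [eval_sub, eval_X, eval_C, zero_sub, eval_pow, eval_one] at h1
    rw [Finset.prod_neg, Finset.card_univ, Fintype.card_fin, hodd.neg_one_pow,
      zero_pow (by omega)] at h1
    linear_combination -h1
  · intro P hP h2 i j hij
    by_contra hne
    have h6 : (2 : 𝓞 K ⧸ P) = 0 := by
      have := Ideal.Quotient.eq_zero_iff_mem.mpr h2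
      rwa [map_ofNat] at this
    have h3 : ((X : (𝓞 K)[X]) - C (β i)) * (X - C (β j)) ∣ X ^ n - X - 1 := by
      rw [← hprod]
      have : ∏ k ∈ ({i, j} : Finset (Fin n)), (X - C (β k)) ∣ ∏ k, (X - C (β k)) :=
        Finset.prod_dvd_prod_of_subset _ _ _ (Finset.subset_univ _)
      rwa [Finset.prod_pair hne] at this
    let := Ideal.Quotient.field P
    have h4 := Polynomial.map_dvd (Ideal.Quotient.mk P) h3
    simp only [Polynomial.map_mul, Polynomial.map_sub, Polynomial.map_pow, Polynomial.map_X,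
      Polynomial.map_C, Polynomial.map_one] at h4
    simp only at hij
    rw [← hij, ← sq] at h4
    have h5 := sq_dvd_imp n (by omega) _ h4
    obtain ⟨m, hm⟩ := hodd
    rw [hm] at h5
    push_cast at h5
    rw [h6] at h5
    simp at h5

end Pool.Agent.Helper43.Data
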