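import Mathlib
set_option autoImplicit false
set_option linter.unusedSectionVars false
open NumberField Polynomial

namespace Pool.Agent.Helper43.FieldPart

variable {n : ℕ} {K : Type*} [Field K] [NumberField K] [IsGalois ℚ K]
  (e : (K ≃ₐ[ℚ] K) ≃* Equiv.Perm (Fin n)) (g : Equiv.Perm (Fin n) → 𝓞 K)
  (hg : Function.Injective g) (hsmul : ∀ (σ : K ≃ₐ[ℚ] K) π, σ • g π = g (e σ * π))
  (φ : K →+* ℂ)

include e hg hsmul

theorem field_part : ∃ p : ℤ[X], Irreducible p ∧ aeval (φ (g 1)) p = 0 ∧
    IsGalois ℚ (IntermediateField.adjoin ℚ ({φ (g 1 : K)} : Set ℂ)) ∧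
    Nonempty (((IntermediateField.adjoin ℚ ({φ (g 1 : K)} : Set ℂ)) ≃ₐ[ℚ]
          (IntermediateField.adjoin ℚ ({φ (g 1 : K)} : Set ℂ))) ≃* Equiv.Perm (Fin n)) ∧
    Real.log (Polynomial.mahlerMeasure (p.map (Int.castRingHom ℂ)))
      = ∑ π : Equiv.Perm (Fin n), Real.posLog ‖φ (g π)‖ ∧
    p.natDegree = Fintype.card (Equiv.Perm (Fin n)) := by
  classical
  set α' : ℂ := φ (g 1 : K) with hα'
  have hintK : IsIntegral ℤ ((g 1 : 𝓞 K) : K) := (g 1).isIntegral_coe
  have hint : IsIntegral ℤ α' := hintK.map φ.toIntAlgHom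
  let p : ℤ[X] := minpoly ℤ α'
  have hpm : p.Monic := minpoly.monic hint
  have hp0 : aeval α' p = 0 := minpoly.aeval _ _
  have hpK : ∀ π, aeval ((g π : 𝓞 K)) p = 0 := by
    -- first for π = 1
    have h1 : aeval ((g 1 : 𝓞 K)) p = 0 := by
      apply FaithfulSMul.algebraMap_injective (𝓞 K) K
      apply φ.injective
      rw [map_zero, map_zero, ← aeval_algebraMap_apply]
      have := hom_eval₂ p (algebraMap ℤ K) φ (g 1 : K)
      rw [aeval_def, this]
      have h2 : φ.comp (algebraMap ℤ K) = algebraMap ℤ ℂ := RingHom.ext_int _ _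
      rw [h2]
      exact hp0
    intro π
    have h3 := hsmul (e.symm π) 1
    rw [MulEquiv.apply_symm_apply, mul_one] at h3
    rw [← h3, Polynomial.aeval_smul, h1, smul_zero]
  have hroot : ∀ π, (p.map (Int.castRingHom ℂ)).IsRoot (φ (g π)) := by
    intro π
    have h1 := hpK π
    have h2 : aeval (φ (g π : K)) p = 0 := by
      have h3 : aeval ((g π : 𝓞 K) : K) p = 0 := by
        rw [aeval_algebraMap_apply, h1, map_zero]
      have := hom_eval₂ p (algebraMap ℤ K) φ (g π : K)
      have h2 : φ.comp (algebraMap ℤ K) = algebraMap ℤ ℂ := RingHom.ext_int _ _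
      rw [aeval_def, ← h2, ← this, ← aeval_def, h3, map_zero]
    rw [IsRoot, eval_map]
    exact h2
  have hcardK : Fintype.card (Equiv.Perm (Fin n)) = Module.finrank ℚ K := by
    rw [← IsGalois.card_aut_eq_finrank ℚ K, ← Nat.card_eq_fintype_card]
    exact (Nat.card_congr e.toEquiv).symm
  let ψ : K →ₐ[ℚ] ℂ := φ.toRatAlgHom
  have hψ : ∀ x, ψ x = φ x := fun x => rfl
  have hminQ : minpoly ℚ α' = p.map (algebraMap ℤ ℚ) :=
    minpoly.isIntegrallyClosed_eq_field_fractions' ℚ hint
  have hminK : minpoly ℚ α' = minpoly ℚ (g 1 : K) := by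
    rw [hα', ← hψ]
    exact minpoly.algHom_eq ψ ψ.injective _
  have hdegp : p.natDegree = (minpoly ℚ (g 1 : K)).natDegree := by
    rw [← hminK, hminQ, natDegree_map_eq_of_injective]
    exact Int.cast_injective
  have hdegle : p.natDegree ≤ Fintype.card (Equiv.Perm (Fin n)) := by
    rw [hdegp, hcardK]
    exact minpoly.natDegree_le _
  have hpC0 : p.map (Int.castRingHom ℂ) ≠ 0 := (hpm.map _).ne_zero
  have hnodup : (Finset.univ.val.map (fun π : Equiv.Perm (Fin n) => φ (g π))).Nodup := by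
    apply Finset.univ.nodup.map
    intro a b hab
    apply hg
    apply FaithfulSMul.algebraMap_injective (𝓞 K) K
    exact φ.injective hab
  have hle : (Finset.univ.val.map (fun π : Equiv.Perm (Fin n) => φ (g π)))
      ≤ (p.map (Int.castRingHom ℂ)).roots := by
    rw [Multiset.le_iff_subset hnodup]
    intro x hx
    obtain ⟨π, _, rfl⟩ := Multiset.mem_map.mp hx
    rw [mem_roots hpC0]
    exact hroot π
  have hcardroots : (p.map (Int.castRingHom ℂ)).roots.card = p.natDegree := by
    rw [← (IsAlgClosed.splits _).natDegree_eq_card_roots, hpm.natDegree_map]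
  have hroots : (Finset.univ.val.map (fun π : Equiv.Perm (Fin n) => φ (g π)))
      = (p.map (Int.castRingHom ℂ)).roots := by
    apply Multiset.eq_of_le_of_card_le hle
    rw [hcardroots, Multiset.card_map, Finset.card_val, Finset.card_univ]
    exact hdegle
  have hdeg : p.natDegree = Fintype.card (Equiv.Perm (Fin n)) := by
    rw [← hcardroots, ← hroots, Multiset.card_map, Finset.card_val, Finset.card_univ]
  have htop : IntermediateField.adjoin ℚ ({(g 1 : K)} : Set K) = ⊤ := by
    rw [Field.primitive_element_iff_minpoly_natDegree_eq, ← hdegp, hdeg, hcardK]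
  have hrange : IntermediateField.adjoin ℚ ({α'} : Set ℂ) = ψ.fieldRange := by
    rw [AlgHom.fieldRange_eq_map, ← htop, IntermediateField.adjoin_map]
    simp [hψ, hα']
  let E : K ≃ₐ[ℚ] IntermediateField.adjoin ℚ ({α'} : Set ℂ) :=
    (AlgEquiv.ofInjectiveField ψ).trans (IntermediateField.equivOfEq hrange.symm)
  refine ⟨p, minpoly.irreducible hint, hp0, IsGalois.of_algEquiv E,
    ⟨(AlgEquiv.autCongr E).symm.trans e⟩, ?_, hdeg⟩
  rw [← logMahlerMeasure_eq_log_MahlerMeasure,
    logMahlerMeasure_eq_log_leadingCoeff_add_sum_log_roots, ← hroots, (hpm.map _).leadingCoeff,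
    Multiset.map_map]
  simp

end Pool.Agent.Helper43.FieldPart
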