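import Mathlib
set_option autoImplicit false

namespace Pool.Agent.Helper43.Moment

open Finset

variable {ι : Type*} [Fintype ι] [DecidableEq ι]

/-- correlation sum over all permutations -/
theorem corr_reindex (z : ι → ℝ) (π : Equiv.Perm ι) (i j : ι) :
    ∑ σ : Equiv.Perm ι, z (σ (π i)) * z (σ (π j)) = ∑ σ : Equiv.Perm ι, z (σ i) * z (σ j) := by
  have := Equiv.sum_comp (Equiv.mulRight π) (fun σ : Equiv.Perm ι => z (σ i) * z (σ j))
  simpa using this

theorem corr_diag (z : ι → ℝ) (i j : ι) :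
    ∑ σ : Equiv.Perm ι, z (σ i) * z (σ i) = ∑ σ : Equiv.Perm ι, z (σ j) * z (σ j) := by
  have := corr_reindex z (Equiv.swap i j) i i
  simpa using this.symm

theorem exists_perm (i j i' j' : ι) (h : i ≠ j) (h' : i' ≠ j') :
    ∃ π : Equiv.Perm ι, π i = i' ∧ π j = j' := by
  refine ⟨Equiv.swap i i' |>.trans (Equiv.swap ((Equiv.swap i i') j) j'), ?_, ?_⟩
  · simp only [Equiv.trans_apply, Equiv.swap_apply_left]
    rw [Equiv.swap_apply_of_ne_of_ne _ h']
    intro hcon
    have : (Equiv.swap i i') i = (Equiv.swap i i') j := by simpa using hcon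
    exact h ((Equiv.swap i i').injective this)
  · simp

theorem corr_off (z : ι → ℝ) (i j i' j' : ι) (h : i ≠ j) (h' : i' ≠ j') :
    ∑ σ : Equiv.Perm ι, z (σ i') * z (σ j') = ∑ σ : Equiv.Perm ι, z (σ i) * z (σ j) := by
  obtain ⟨π, h1, h2⟩ := exists_perm i j i' j' h h'
  have := corr_reindex z π i j
  rwa [h1, h2] at this

/-- second moment over the symmetric group -/
theorem second_moment (hn : 2 ≤ Fintype.card ι) (a z : ι → ℝ) (hz : ∑ i, z i = 0) :
    ((Fintype.card ι : ℝ) - 1) * ∑ σ : Equiv.Perm ι, (∑ i, a i * z (σ i)) ^ 2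
      ≤ (Fintype.card (Equiv.Perm ι) : ℝ) * (∑ i, a i ^ 2) * (∑ i, z i ^ 2) := by
  have hcard : 1 < Fintype.card ι := by omega
  obtain ⟨i₀, j₀, hij⟩ := Fintype.exists_pair_of_one_lt_card hcard
  set s := ∑ σ : Equiv.Perm ι, z (σ i₀) * z (σ i₀) with hs
  set t := ∑ σ : Equiv.Perm ι, z (σ i₀) * z (σ j₀) with ht
  set n : ℝ := (Fintype.card ι : ℝ) with hnn
  have hn2 : (2 : ℝ) ≤ n := by rw [hnn]; exact_mod_cast hn
  -- row sum
  have hrow : s + (n - 1) * t = 0 := by
    have h1 : ∑ j, ∑ σ : Equiv.Perm ι, z (σ i₀) * z (σ j) = 0 := by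
      rw [Finset.sum_comm]
      apply Finset.sum_eq_zero
      intro σ _
      rw [← Finset.mul_sum, Equiv.sum_comp σ z, hz, mul_zero]
    rw [← Finset.add_sum_erase _ _ (Finset.mem_univ i₀)] at h1
    have h2 : ∀ j ∈ Finset.univ.erase i₀, ∑ σ : Equiv.Perm ι, z (σ i₀) * z (σ j) = t := by
      intro j hj
      exact corr_off z i₀ j₀ i₀ j hij (Finset.ne_of_mem_erase hj).symm
    rw [Finset.sum_congr rfl h2, Finset.sum_const, Finset.card_erase_of_mem (Finset.mem_univ _),
      Finset.card_univ, nsmul_eq_mul, Nat.cast_sub (by omega), Nat.cast_one] at h1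
    exact h1
  have hdiag : n * s = (Fintype.card (Equiv.Perm ι) : ℝ) * ∑ i, z i ^ 2 := by
    have h1 : ∑ i, ∑ σ : Equiv.Perm ι, z (σ i) * z (σ i)
        = (Fintype.card (Equiv.Perm ι) : ℝ) * ∑ i, z i ^ 2 := by
      rw [Finset.sum_comm]
      have : ∀ σ ∈ (Finset.univ : Finset (Equiv.Perm ι)), ∑ i, z (σ i) * z (σ i) = ∑ i, z i ^ 2 := by
        intro σ _
        rw [Equiv.sum_comp σ (fun i => z i * z i)]
        exact Finset.sum_congr rfl fun i _ => (sq (z i)).symm
      rw [Finset.sum_congr rfl this, Finset.sum_const, nsmul_eq_mul, Finset.card_univ]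
    rw [← h1, Finset.sum_congr rfl (fun i _ => corr_diag z i i₀), Finset.sum_const, nsmul_eq_mul,
      Finset.card_univ]
  have hexp : ∑ σ : Equiv.Perm ι, (∑ i, a i * z (σ i)) ^ 2
      = (s - t) * (∑ i, a i ^ 2) + t * (∑ i, a i) ^ 2 := by
    have h1 : ∀ σ : Equiv.Perm ι, (∑ i, a i * z (σ i)) ^ 2
        = ∑ i, ∑ j, a i * a j * (z (σ i) * z (σ j)) := by
      intro σ
      rw [sq, Finset.sum_mul_sum]
      refine Finset.sum_congr rfl fun i _ => Finset.sum_congr rfl fun j _ => by ring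
    have h2 : ∑ σ : Equiv.Perm ι, (∑ i, a i * z (σ i)) ^ 2
        = ∑ i, ∑ j, a i * a j * ∑ σ : Equiv.Perm ι, (z (σ i) * z (σ j)) := by
      rw [Finset.sum_congr rfl (fun σ _ => h1 σ), Finset.sum_comm]
      refine Finset.sum_congr rfl fun i _ => ?_
      rw [Finset.sum_comm]
      refine Finset.sum_congr rfl fun j _ => ?_
      rw [Finset.mul_sum]
    have h3 : ∀ i j, (∑ σ : Equiv.Perm ι, (z (σ i) * z (σ j))) = t + (if i = j then s - t else 0) := by
      intro i j
      split_ifs with h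
      · subst h; rw [corr_diag z i i₀]; ring
      · rw [corr_off z i₀ j₀ i j hij h]; ring
    rw [h2]
    have h4 : ∀ i, ∑ j, a i * a j * ∑ σ : Equiv.Perm ι, (z (σ i) * z (σ j))
        = t * a i * (∑ j, a j) + (s - t) * a i ^ 2 := by
      intro i
      have : ∀ j, a i * a j * ∑ σ : Equiv.Perm ι, (z (σ i) * z (σ j))
          = t * a i * a j + (if i = j then (s - t) * a i * a j else 0) := by
        intro j
        rw [h3 i j]
        split_ifs <;> ring
      rw [Finset.sum_congr rfl (fun j _ => this j), Finset.sum_add_distrib, ← Finset.mul_sum,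
        Finset.sum_ite_eq]
      simp
      ring
    rw [Finset.sum_congr rfl (fun i _ => h4 i), Finset.sum_add_distrib, ← Finset.mul_sum,
      ← Finset.sum_mul, ← Finset.mul_sum]
    ring
  have hs0 : 0 ≤ s := by
    rw [hs]; exact Finset.sum_nonneg fun σ _ => mul_self_nonneg _
  have ht0 : t ≤ 0 := by
    by_contra hcon
    push Not at hcon
    have : 0 < (n - 1) * t := mul_pos (by linarith) hcon
    linarith
  have ha : 0 ≤ ∑ i, a i ^ 2 := Finset.sum_nonneg fun i _ => sq_nonneg _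
  rw [hexp]
  have h5 : (n - 1) * (s - t) = n * s := by linarith
  calc (n - 1) * ((s - t) * (∑ i, a i ^ 2) + t * (∑ i, a i) ^ 2)
      = (n - 1) * (s - t) * (∑ i, a i ^ 2) + (n - 1) * (t * (∑ i, a i) ^ 2) := by ring
    _ ≤ (n - 1) * (s - t) * (∑ i, a i ^ 2) + 0 := by
        gcongr
        apply mul_nonpos_of_nonneg_of_nonpos (by linarith)
        exact mul_nonpos_of_nonpos_of_nonneg ht0 (sq_nonneg _)
    _ = (Fintype.card (Equiv.Perm ι) : ℝ) * (∑ i, a i ^ 2) * (∑ i, z i ^ 2) := by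
        rw [add_zero, h5, hdiag]; ring

end Pool.Agent.Helper43.Moment
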