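import Mathlib
set_option autoImplicit false
set_option linter.unusedSectionVars false

namespace Pool.Agent.Helper43.Invar

open Finset

variable {ι : Type*} [Fintype ι] [DecidableEq ι] {F : Type*} [Field F]

theorem exists_perm (i j i' j' : ι) (h : i ≠ j) (h' : i' ≠ j') :
    ∃ π : Equiv.Perm ι, π i = i' ∧ π j = j' := by
  refine ⟨Equiv.swap i i' |>.trans (Equiv.swap ((Equiv.swap i i') j) j'), ?_, ?_⟩
  · simp only [Equiv.trans_apply, Equiv.swap_apply_left]
    rw [Equiv.swap_apply_of_ne_of_ne _ h']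
    intro hcon
    have : (Equiv.swap i i') i = (Equiv.swap i i') j := by simpa using hcon
    exact h ((Equiv.swap i i').injective this)
  · simp

/-- if all permuted monomials `∏ b (τ k) ^ d k` equal `1`, with `b` injective and nonzero and
`|d i - d j| < n`, then `d` is constant -/
theorem const_of_prod_eq_one (b : ι → F) (hb : Function.Injective b) (hb0 : ∀ i, b i ≠ 0)
    (d : ι → ℤ) (hd : ∀ i j, |d i - d j| < Fintype.card ι)
    (h : ∀ τ : Equiv.Perm ι, ∏ k, b (τ k) ^ d k = 1) (i j : ι) : d i = d j := by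
  classical
  by_contra hne
  have hij : i ≠ j := by rintro rfl; exact hne rfl
  -- step 1: ratio identity
  have hratio : ∀ τ : Equiv.Perm ι, b (τ i) ^ (d i - d j) = b (τ j) ^ (d i - d j) := by
    intro τ
    have h1 := h τ
    have h2 := h (τ * Equiv.swap i j)
    have h3 : ∏ k, b ((τ * Equiv.swap i j) k) ^ d k = ∏ k, b (τ k) ^ d (Equiv.swap i j k) := by
      rw [← Equiv.prod_comp (Equiv.swap i j)]
      refine Finset.prod_congr rfl fun k _ => ?_
      simp
    rw [h3] at h2
    have h4 : ∏ k, b (τ k) ^ (d k - d (Equiv.swap i j k)) = 1 := by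
      have : ∀ k, b (τ k) ^ (d k - d (Equiv.swap i j k))
          = b (τ k) ^ d k / b (τ k) ^ d (Equiv.swap i j k) := fun k => zpow_sub₀ (hb0 _) _ _
      rw [Finset.prod_congr rfl (fun k _ => this k), Finset.prod_div_distrib, h1, h2, div_one]
    rw [Finset.prod_eq_mul i j hij (fun k _ hk => by
        rw [Equiv.swap_apply_of_ne_of_ne hk.1 hk.2, sub_self, zpow_zero]) (by simp) (by simp)] at h4
    rw [Equiv.swap_apply_left, Equiv.swap_apply_right] at h4
    have h5 : b (τ j) ^ (d j - d i) = (b (τ j) ^ (d i - d j))⁻¹ := by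
      rw [← zpow_neg]; congr 1; ring
    rw [h5] at h4
    exact (div_eq_one_iff_eq (zpow_ne_zero _ (hb0 _))).mp (by rwa [div_eq_mul_inv])
  -- step 2: all the `m`-th powers coincide
  set m := (d i - d j).natAbs with hm
  have hm0 : 0 < m := Int.natAbs_pos.mpr (sub_ne_zero.mpr hne)
  have hpow : ∀ k l, b k ^ m = b l ^ m := by
    intro k l
    rcases eq_or_ne k l with rfl | hkl
    · rfl
    obtain ⟨τ, h1, h2⟩ := exists_perm i j k l hij hkl
    have h3 := hratio τ
    rw [h1, h2] at h3
    rcases Int.natAbs_eq (d i - d j) with h4 | h4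
    · rw [h4, zpow_natCast, zpow_natCast] at h3
      exact h3
    · rw [h4, zpow_neg, zpow_neg, zpow_natCast, zpow_natCast] at h3
      exact inv_injective h3
  -- step 3: count roots
  have hsub : Finset.univ.image b ⊆ (Polynomial.nthRoots m (b i ^ m)).toFinset := by
    intro x hx
    obtain ⟨k, _, rfl⟩ := Finset.mem_image.mp hx
    rw [Multiset.mem_toFinset, Polynomial.mem_nthRoots hm0]
    exact hpow k i
  have h1 := Finset.card_le_card hsub
  rw [Finset.card_image_of_injective _ hb, Finset.card_univ] at h1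
  have h2 := (Multiset.toFinset_card_le (Polynomial.nthRoots m (b i ^ m))).trans
    (Polynomial.card_nthRoots m _)
  have h3 := hd i j
  rw [Int.abs_eq_natAbs, ← hm] at h3
  omega

/-- invariance of the exponent vector -/
theorem invariant (b : ι → F) (hb : Function.Injective b) (hb0 : ∀ i, b i ≠ 0)
    (a : ι → ℕ) (A : ℕ) (haA : ∀ i, a i ≤ A) (hA : 2 * A < Fintype.card ι)
    (π : Equiv.Perm ι)
    (h : ∀ τ : Equiv.Perm ι, ∏ k, b (τ (π k)) ^ a k = ∏ k, b (τ k) ^ a k) (i : ι) :
    a (π i) = a i := by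
  -- use d k = a (π⁻¹ k) - a k
  set d : ι → ℤ := fun k => (a (π⁻¹ k) : ℤ) - a k with hd
  have hconst := const_of_prod_eq_one b hb hb0 d (by
    intro i j
    have h1 := haA (π⁻¹ i); have h2 := haA i; have h3 := haA (π⁻¹ j); have h4 := haA j
    rw [abs_lt]
    constructor <;> simp only [hd] <;> omega) (by
    intro τ
    have h1 : ∏ k, b (τ k) ^ d k = (∏ k, b (τ k) ^ a (π⁻¹ k)) / ∏ k, b (τ k) ^ a k := by
      rw [← Finset.prod_div_distrib]
      refine Finset.prod_congr rfl fun k _ => ?_
      rw [hd]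
      simp only
      rw [zpow_sub₀ (hb0 _), zpow_natCast, zpow_natCast]
    have h2 : ∏ k, b (τ k) ^ a (π⁻¹ k) = ∏ k, b (τ (π k)) ^ a k := by
      rw [← Equiv.prod_comp π]
      refine Finset.prod_congr rfl fun k _ => ?_
      simp
    rw [h1, h2, h τ]
    exact div_self (Finset.prod_ne_zero_iff.mpr fun k _ => pow_ne_zero _ (hb0 _)))
  have hsum : ∑ k, d k = 0 := by
    rw [hd]
    simp only [Finset.sum_sub_distrib]
    rw [Equiv.sum_comp π⁻¹ (fun k => (a k : ℤ)), sub_self]
  have hd0 : ∀ k, d k = 0 := by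
    intro k
    have h1 : ∑ l, d l = (Fintype.card ι : ℤ) * d k := by
      rw [Finset.sum_congr rfl (fun l _ => hconst l k), Finset.sum_const, nsmul_eq_mul,
        Finset.card_univ]
    rw [hsum] at h1
    have h2 : (Fintype.card ι : ℤ) ≠ 0 := by
      have : 0 < Fintype.card ι := Fintype.card_pos_iff.mpr ⟨k⟩
      exact_mod_cast this.ne'
    rcases mul_eq_zero.mp h1.symm with h | h
    · exact absurd h h2
    · exact h
  have := hd0 (π i)
  simp only [hd] at this
  have h1 : π⁻¹ (π i) = i := by simp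
  rw [h1] at this
  omega

end Pool.Agent.Helper43.Invar
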