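import Mathlib
import Pool.Agent.Helper43.Invar
set_option autoImplicit false
set_option linter.unusedSectionVars false
open NumberField

namespace Pool.Agent.Helper43.Prim

theorem exists_max_two (K : Type*) [Field K] [NumberField K] :
    ∃ P : Ideal (𝓞 K), P.IsMaximal ∧ (2 : 𝓞 K) ∈ P := by
  have h2 : ¬ IsUnit (2 : 𝓞 K) := by
    intro h
    have h1 : IsUnit (Algebra.norm ℤ (2 : 𝓞 K)) := h.map _
    have h3 : (2 : 𝓞 K) = algebraMap ℤ (𝓞 K) 2 := by simp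
    rw [h3, Algebra.norm_algebraMap, isUnit_pow_iff Module.finrank_pos.ne'] at h1
    rw [Int.isUnit_iff] at h1
    omega
  obtain ⟨P, hP, hle⟩ := Ideal.exists_le_maximal (Ideal.span {(2 : 𝓞 K)})
    (by rwa [Ne, Ideal.span_singleton_eq_top])
  exact ⟨P, hP, hle (Ideal.mem_span_singleton_self _)⟩

section

variable {n : ℕ} {K : Type*} [Field K] [NumberField K] (β : Fin n → 𝓞 K)
  (e : (K ≃ₐ[ℚ] K) ≃* Equiv.Perm (Fin n))

/-- monomial in the roots -/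
noncomputable def mono (a : Fin n → ℕ) (π : Equiv.Perm (Fin n)) : 𝓞 K := ∏ i, β (π i) ^ a i

theorem smul_mono (he : ∀ (σ : K ≃ₐ[ℚ] K) i, σ • β i = β (e σ i)) (a : Fin n → ℕ)
    (π : Equiv.Perm (Fin n)) (σ : K ≃ₐ[ℚ] K) :
    σ • mono β a π = mono β a (e σ * π) := by
  unfold mono
  rw [Finset.smul_prod']
  refine Finset.prod_congr rfl fun i _ => ?_
  rw [smul_pow', he]
  rfl

theorem mono_of_invariant (a : Fin n → ℕ) (π : Equiv.Perm (Fin n)) (h : ∀ i, a (π i) = a i) :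
    mono β a π = mono β a 1 := by
  unfold mono
  rw [← Equiv.prod_comp π (fun i => β ((1 : Equiv.Perm (Fin n)) i) ^ a i)]
  refine Finset.prod_congr rfl fun i _ => ?_
  rw [h i]
  rfl

/-- key step: congruence mod 2 forces invariance -/
theorem invariant_of_cong (he : ∀ (σ : K ≃ₐ[ℚ] K) i, σ • β i = β (e σ i))
    (hunit : ∀ i, IsUnit (β i))
    (h2 : ∀ (P : Ideal (𝓞 K)), P.IsMaximal → (2 : 𝓞 K) ∈ P →
        Function.Injective (fun i => Ideal.Quotient.mk P (β i)))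
    (a : Fin n → ℕ) (A : ℕ) (haA : ∀ i, a i ≤ A) (hA : 2 * A < n) (π : Equiv.Perm (Fin n))
    (u v : 𝓞 K) (h : mono β a π + 2 * u = mono β a 1 + 2 * v) (i : Fin n) : a (π i) = a i := by
  obtain ⟨P, hP, hP2⟩ := exists_max_two K
  let := Ideal.Quotient.field P
  refine Pool.Agent.Helper43.Invar.invariant (fun i => Ideal.Quotient.mk P (β i)) (h2 P hP hP2)
    (fun i => ((hunit i).map (Ideal.Quotient.mk P)).ne_zero) a A haA (by simpa using hA) π ?_ i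
  intro τ
  have h1 := congrArg (fun x => (e.symm τ) • x) h
  simp only [smul_add, smul_mul', smul_mono β e he, MulEquiv.apply_symm_apply, mul_one] at h1
  have h3 : (e.symm τ) • (2 : 𝓞 K) = 2 :=
    map_ofNat (MulSemiringAction.toRingHom (K ≃ₐ[ℚ] K) (𝓞 K) (e.symm τ)) 2
  rw [h3] at h1
  have h4 := congrArg (Ideal.Quotient.mk P) h1
  have h5 : Ideal.Quotient.mk P 2 = 0 := Ideal.Quotient.eq_zero_iff_mem.mpr hP2
  simp only [map_add, map_mul, h5, zero_mul, add_zero] at h4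
  unfold mono at h4
  simpa [map_prod, map_pow] using h4

/-- the generator -/
noncomputable def gen (a₀ a₁ a₂ : Fin n → ℕ) (π : Equiv.Perm (Fin n)) : 𝓞 K :=
  mono β a₀ π + 2 * mono β a₁ π + 4 * mono β a₂ π

theorem smul_gen (he : ∀ (σ : K ≃ₐ[ℚ] K) i, σ • β i = β (e σ i)) (a₀ a₁ a₂ : Fin n → ℕ)
    (π : Equiv.Perm (Fin n)) (σ : K ≃ₐ[ℚ] K) :
    σ • gen β a₀ a₁ a₂ π = gen β a₀ a₁ a₂ (e σ * π) := by
  have h2 : σ • (2 : 𝓞 K) = 2 :=
    map_ofNat (MulSemiringAction.toRingHom (K ≃ₐ[ℚ] K) (𝓞 K) σ) 2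
  have h4 : σ • (4 : 𝓞 K) = 4 :=
    map_ofNat (MulSemiringAction.toRingHom (K ≃ₐ[ℚ] K) (𝓞 K) σ) 4
  unfold gen
  simp only [smul_add, smul_mul', smul_mono β e he, h2, h4]

theorem gen_inj (he : ∀ (σ : K ≃ₐ[ℚ] K) i, σ • β i = β (e σ i))
    (hunit : ∀ i, IsUnit (β i))
    (h2 : ∀ (P : Ideal (𝓞 K)), P.IsMaximal → (2 : 𝓞 K) ∈ P →
        Function.Injective (fun i => Ideal.Quotient.mk P (β i)))
    (a₀ a₁ a₂ : Fin n → ℕ) (A : ℕ) (h0A : ∀ i, a₀ i ≤ A) (h1A : ∀ i, a₁ i ≤ A)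
    (h2A : ∀ i, a₂ i ≤ A) (hA : 2 * A < n)
    (hinj : ∀ i j, a₀ i = a₀ j → a₁ i = a₁ j → a₂ i = a₂ j → i = j)
    (π : Equiv.Perm (Fin n)) (h : gen β a₀ a₁ a₂ π = gen β a₀ a₁ a₂ 1) : π = 1 := by
  unfold gen at h
  have e0 := invariant_of_cong β e he hunit h2 a₀ A h0A hA π
    (mono β a₁ π + 2 * mono β a₂ π) (mono β a₁ 1 + 2 * mono β a₂ 1)
    (by linear_combination h)
  have m0 := mono_of_invariant β a₀ π e0
  have hne : (2 : 𝓞 K) ≠ 0 := two_ne_zero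
  have e1 := invariant_of_cong β e he hunit h2 a₁ A h1A hA π
    (mono β a₂ π) (mono β a₂ 1) (by
      apply mul_left_cancel₀ hne
      linear_combination h - m0)
  have m1 := mono_of_invariant β a₁ π e1
  have e2 := invariant_of_cong β e he hunit h2 a₂ A h2A hA π 0 0 (by
      apply mul_left_cancel₀ hne
      apply mul_left_cancel₀ hne
      linear_combination h - m0 - 2 * m1)
  ext i
  rw [hinj (π i) i (e0 i) (e1 i) (e2 i)]
  rfl

end

end Pool.Agent.Helper43.Prim
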