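import Mathlib
set_option autoImplicit false

namespace Pool.Agent.Helper43.RootBound

theorem root_bound (n : ℕ) (hn : 3 ≤ n) (z : ℂ) (hz : z ^ n = z + 1) :
    |Real.log ‖z‖| ≤ Real.log n / ((n : ℝ) - 1) := by
  have hn' : (3 : ℝ) ≤ n := by exact_mod_cast hn
  have hn1 : (0 : ℝ) < (n : ℝ) - 1 := by linarith
  have hz0 : z ≠ 0 := by
    rintro rfl
    rw [zero_pow (by omega)] at hz
    simp at hz
  have hr0 : 0 < ‖z‖ := norm_pos_iff.mpr hz0
  set r := ‖z‖ with hr
  have hrn : r ^ n = ‖z + 1‖ := by rw [← hz, norm_pow]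
  obtain ⟨m, rfl⟩ : ∃ m, n = m + 1 := ⟨n - 1, by omega⟩
  have hm : (((m + 1 : ℕ) : ℝ) - 1) = m := by push_cast; ring
  have hm2 : (2 : ℝ) ≤ m := by
    have : 2 ≤ m := by omega
    exact_mod_cast this
  rw [hm] at hn1 ⊢
  rw [le_div_iff₀ hn1]
  rcases le_or_gt 1 r with h1 | h1
  · -- r ≥ 1
    rw [abs_of_nonneg (Real.log_nonneg h1)]
    have h2 : r ^ (m + 1) ≤ 2 * r := by
      rw [hrn]
      calc ‖z + 1‖ ≤ ‖z‖ + ‖(1 : ℂ)‖ := norm_add_le _ _
        _ = r + 1 := by simp [hr]
        _ ≤ 2 * r := by linarith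
    have h3 : r ^ m ≤ 2 := by
      rw [pow_succ] at h2
      exact le_of_mul_le_mul_right h2 hr0
    have h4 : Real.log r * m = Real.log (r ^ m) := by rw [Real.log_pow]; ring
    rw [h4]
    apply Real.log_le_log (pow_pos hr0 _)
    push_cast
    linarith
  · rw [abs_of_neg (Real.log_neg hr0 h1)]
    -- w = 1/r
    have h2 : 1 - r ≤ r ^ (m + 1) := by
      rw [hrn]
      have : ‖(1 : ℂ)‖ - ‖z‖ ≤ ‖z + 1‖ := by
        have := norm_sub_norm_le (1 : ℂ) (-z)
        rw [norm_neg, sub_neg_eq_add, add_comm] at this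
        exact this
      simpa [hr] using this
    set w := r⁻¹ with hw
    have hw1 : 1 < w := (one_lt_inv₀ hr0).mpr h1
    have hrw : r = w⁻¹ := by rw [hw, inv_inv]
    have h3 : w ^ m * (w - 1) ≤ 1 := by
      have hw0 : 0 < w := by linarith
      rw [hrw, inv_pow] at h2
      have h5 : (1 - w⁻¹) * w ^ (m + 1) ≤ 1 := by
        have := mul_le_mul_of_nonneg_right h2 (pow_pos hw0 (m + 1)).le
        rwa [inv_mul_cancel₀ (pow_pos hw0 _).ne'] at this
      have h6 : (1 - w⁻¹) * w ^ (m + 1) = w ^ m * (w - 1) := by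
        rw [pow_succ]
        field_simp
      rwa [h6] at h5
    have h4 : w ^ m ≤ ((m + 1 : ℕ) : ℝ) := by
      by_contra hcon
      push Not at hcon
      have h5 : (0 : ℝ) < ((m + 1 : ℕ) : ℝ) := by positivity
      have h6 : w - 1 < 1 / ((m + 1 : ℕ) : ℝ) := by
        rw [lt_div_iff₀ h5]
        calc (w - 1) * ((m + 1 : ℕ) : ℝ) < (w - 1) * w ^ m := by
              apply mul_lt_mul_of_pos_left hcon; linarith
          _ ≤ 1 := by rw [mul_comm]; exact h3
      have h7 : w ≤ Real.exp (1 / ((m + 1 : ℕ) : ℝ)) := by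
        have := Real.add_one_le_exp (1 / ((m + 1 : ℕ) : ℝ))
        linarith
      have h8 : w ^ m ≤ Real.exp 1 := by
        calc w ^ m ≤ Real.exp (1 / ((m + 1 : ℕ) : ℝ)) ^ m :=
              pow_le_pow_left₀ (by linarith) h7 _
          _ = Real.exp (m * (1 / ((m + 1 : ℕ) : ℝ))) := by rw [← Real.exp_nat_mul]
          _ ≤ Real.exp 1 := by
              apply Real.exp_le_exp.mpr
              rw [mul_one_div, div_le_one h5]
              push_cast; linarith
      have h9 : Real.exp 1 < 3 := by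
        have := Real.exp_one_lt_d9
        linarith
      linarith
    have h5 : -Real.log r * m = Real.log (w ^ m) := by
      rw [Real.log_pow, hw, Real.log_inv]; ring
    rw [h5]
    exact Real.log_le_log (pow_pos (by linarith) _) h4

end Pool.Agent.Helper43.RootBound
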