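import Mathlib
import Pool.Agent.Helper43.Moment
import Pool.Agent.Helper43.RootBound
import Pool.Agent.Helper43.Prim
import Pool.Agent.Helper43.FieldPart
import Pool.Agent.Helper43.Data
set_option autoImplicit false
set_option linter.unusedSectionVars false
open NumberField Polynomial

namespace Pool.Agent.Helper43.Final

/-- log of a positive monomial average bound -/
theorem avg_bound (n : ℕ) (hn : 3 ≤ n) (A : ℕ) (hA : A ^ 3 < n) (a : Fin n → ℕ)
    (ha : ∀ i, a i ≤ A) (z : Fin n → ℝ) (hz : ∑ i, z i = 0)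
    (hzb : ∀ i, |z i| ≤ Real.log n / ((n : ℝ) - 1)) :
    ∑ π : Equiv.Perm (Fin n), |∑ i, (a i : ℝ) * z (π i)|
      ≤ 62 * (Fintype.card (Equiv.Perm (Fin n)) : ℝ) := by
  have hn' : (3 : ℝ) ≤ n := by exact_mod_cast hn
  set N : ℝ := (Fintype.card (Equiv.Perm (Fin n)) : ℝ) with hN
  have hN0 : 0 ≤ N := by rw [hN]; positivity
  have h1 := Pool.Agent.Helper43.Moment.second_moment (ι := Fin n) (by simp; omega)
    (fun i => (a i : ℝ)) z hz
  rw [Fintype.card_fin, ← hN] at h1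
  -- bounds
  have h2 : ∑ i, (a i : ℝ) ^ 2 ≤ n * (A : ℝ) ^ 2 := by
    calc ∑ i, (a i : ℝ) ^ 2 ≤ ∑ _i : Fin n, (A : ℝ) ^ 2 := by
          apply Finset.sum_le_sum
          intro i _
          have : (a i : ℝ) ≤ A := by exact_mod_cast ha i
          gcongr
      _ = n * (A : ℝ) ^ 2 := by simp
  set l := Real.log n with hl
  have hl0 : 0 ≤ l := Real.log_nonneg (by linarith)
  have h3 : ∑ i, z i ^ 2 ≤ n * (l / ((n : ℝ) - 1)) ^ 2 := by
    calc ∑ i, z i ^ 2 ≤ ∑ _i : Fin n, (l / ((n : ℝ) - 1)) ^ 2 := by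
          apply Finset.sum_le_sum
          intro i _
          rw [← sq_abs]
          exact pow_le_pow_left₀ (abs_nonneg _) (hzb i) _
      _ = n * (l / ((n : ℝ) - 1)) ^ 2 := by simp
  -- A^2 * l^2 ≤ 36 n
  have h4 : (A : ℝ) ^ 2 * l ^ 2 ≤ 36 * n := by
    set x : ℝ := (n : ℝ) ^ ((1 : ℝ) / 3) with hx
    have hx0 : 0 < x := Real.rpow_pos_of_pos (by linarith) _
    have hx3 : x ^ 3 = n := by
      rw [hx, ← Real.rpow_natCast, ← Real.rpow_mul (by linarith)]
      norm_num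
    have hAx : (A : ℝ) ≤ x := by
      by_contra hcon
      push Not at hcon
      have : x ^ 3 < (A : ℝ) ^ 3 := pow_lt_pow_left₀ hcon hx0.le (by norm_num)
      rw [hx3] at this
      have h5 : ((A ^ 3 : ℕ) : ℝ) < n := by exact_mod_cast hA
      push_cast at h5
      linarith
    have hlx : l ^ 2 ≤ 36 * x := by
      have h5 : l = 6 * Real.log (Real.sqrt x) := by
        rw [hl, ← hx3, Real.log_pow, Real.log_sqrt hx0.le]
        push_cast; ring
      have h6 : 0 < Real.sqrt x := Real.sqrt_pos.mpr hx0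
      have h7 : Real.log (Real.sqrt x) ≤ Real.sqrt x := by
        have := Real.log_le_sub_one_of_pos h6
        linarith
      have h8 : l ≤ 6 * Real.sqrt x := by rw [h5]; linarith
      calc l ^ 2 ≤ (6 * Real.sqrt x) ^ 2 := pow_le_pow_left₀ hl0 h8 2
        _ = 36 * x := by rw [mul_pow, Real.sq_sqrt hx0.le]; norm_num
    calc (A : ℝ) ^ 2 * l ^ 2 ≤ x ^ 2 * (36 * x) := by gcongr
      _ = 36 * x ^ 3 := by ring
      _ = 36 * n := by rw [hx3]
  have h5 : ∑ π : Equiv.Perm (Fin n), (∑ i, (a i : ℝ) * z (π i)) ^ 2 ≤ 122 * N := by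
    have hn1 : (0 : ℝ) < (n : ℝ) - 1 := by linarith
    have h6 : N * (∑ i, (a i : ℝ) ^ 2) * (∑ i, z i ^ 2)
        ≤ N * (n * (A : ℝ) ^ 2) * (n * (l / ((n : ℝ) - 1)) ^ 2) := by
      gcongr
    have h7 : N * (n * (A : ℝ) ^ 2) * (n * (l / ((n : ℝ) - 1)) ^ 2)
        = N * n ^ 2 * ((A : ℝ) ^ 2 * l ^ 2) / ((n : ℝ) - 1) ^ 2 := by
      field_simp
    have h8 : N * n ^ 2 * ((A : ℝ) ^ 2 * l ^ 2) / ((n : ℝ) - 1) ^ 2
        ≤ N * n ^ 2 * (36 * n) / ((n : ℝ) - 1) ^ 2 := by gcongr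
    have h9 : N * n ^ 2 * (36 * n) / ((n : ℝ) - 1) ^ 2 ≤ ((n : ℝ) - 1) * (122 * N) := by
      rw [div_le_iff₀ (by positivity)]
      have h10 : 36 * (n : ℝ) ^ 3 ≤ 122 * ((n : ℝ) - 1) ^ 3 := by
        have h11 : (n : ℝ) ≤ 3 / 2 * ((n : ℝ) - 1) := by linarith
        calc 36 * (n : ℝ) ^ 3 ≤ 36 * (3 / 2 * ((n : ℝ) - 1)) ^ 3 := by gcongr
          _ = 121.5 * ((n : ℝ) - 1) ^ 3 := by ring
          _ ≤ 122 * ((n : ℝ) - 1) ^ 3 := by
              have : 0 < ((n : ℝ) - 1) ^ 3 := by positivity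
              linarith
      nlinarith [mul_le_mul_of_nonneg_left h10 hN0]
    have h10 := h1.trans (h6.trans (h7.le.trans (h8.trans h9)))
    exact le_of_mul_le_mul_left h10 hn1
  have h6 : ∀ π : Equiv.Perm (Fin n), |∑ i, (a i : ℝ) * z (π i)|
      ≤ 1 / 2 + 1 / 2 * (∑ i, (a i : ℝ) * z (π i)) ^ 2 := by
    intro π
    have := sq_nonneg (|∑ i, (a i : ℝ) * z (π i)| - 1)
    have h7 := sq_abs (∑ i, (a i : ℝ) * z (π i))
    nlinarith
  calc ∑ π : Equiv.Perm (Fin n), |∑ i, (a i : ℝ) * z (π i)|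
      ≤ ∑ π : Equiv.Perm (Fin n), (1 / 2 + 1 / 2 * (∑ i, (a i : ℝ) * z (π i)) ^ 2) :=
        Finset.sum_le_sum fun π _ => h6 π
    _ = N * (1 / 2) + 1 / 2 * ∑ π : Equiv.Perm (Fin n), (∑ i, (a i : ℝ) * z (π i)) ^ 2 := by
        rw [Finset.sum_add_distrib, ← Finset.mul_sum, Finset.sum_const, nsmul_eq_mul,
          Finset.card_univ]
    _ ≤ N * (1 / 2) + 1 / 2 * (122 * N) := by gcongr
    _ ≤ 62 * N := by linarith

open Pool.Agent.Helper43.Prim in
theorem exists_small (n : ℕ) (hp : n.Prime) (hn : 3 ≤ n) : ∃ α : ℂ, ∃ p : ℤ[X],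
    Irreducible p ∧ aeval α p = 0 ∧
    IsGalois ℚ (IntermediateField.adjoin ℚ ({α} : Set ℂ)) ∧
    Nonempty (((IntermediateField.adjoin ℚ ({α} : Set ℂ)) ≃ₐ[ℚ]
          (IntermediateField.adjoin ℚ ({α} : Set ℂ))) ≃* Equiv.Perm (Fin n)) ∧
    Real.log (Polynomial.mahlerMeasure (p.map (Int.castRingHom ℂ))) / (p.natDegree : ℝ) ≤ 200 := by
  classical
  have hodd : Odd n := hp.odd_of_ne_two (by omega)
  obtain ⟨K, _, _, _, β, e, hβ, hpow, he, hprod, h2⟩ :=
    Pool.Agent.Helper43.Data.exists_data n hp hodd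
  have hn' : (3 : ℝ) ≤ n := by exact_mod_cast hn
  -- units
  have hunit : ∀ i, IsUnit (β i) := by
    intro i
    have : β i ∣ 1 := by
      rw [← hprod]; exact Finset.dvd_prod_of_mem _ (Finset.mem_univ i)
    exact isUnit_of_dvd_one this
  -- choice of A
  obtain ⟨A, hA1, hA2⟩ : ∃ A : ℕ, A ^ 3 < n ∧ n ≤ (A + 1) ^ 3 := by
    have hex : ∃ m : ℕ, n ≤ (m + 1) ^ 3 := ⟨n, by nlinarith [sq_nonneg n]⟩
    refine ⟨Nat.find hex, ?_, Nat.find_spec hex⟩
    rcases Nat.eq_zero_or_pos (Nat.find hex) with h | h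
    · rw [h]; omega
    · obtain ⟨k, hk⟩ : ∃ k, Nat.find hex = k + 1 := ⟨Nat.find hex - 1, by omega⟩
      have := Nat.find_min hex (m := k) (by omega)
      rw [hk]
      omega
  have h2A : 2 * A < n := by
    rcases Nat.lt_or_ge A 2 with h | h
    · interval_cases A <;> omega
    · have : 2 * A ≤ A ^ 3 := by
        calc 2 * A ≤ A * A := Nat.mul_le_mul_right _ h
          _ ≤ A * A * A := Nat.le_mul_of_pos_right _ (by omega)
          _ = A ^ 3 := by ring
      omega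
  set a₀ : Fin n → ℕ := fun i => (i : ℕ) % (A + 1) with ha₀
  set a₁ : Fin n → ℕ := fun i => ((i : ℕ) / (A + 1)) % (A + 1) with ha₁
  set a₂ : Fin n → ℕ := fun i => (i : ℕ) / (A + 1) / (A + 1) with ha₂
  have hb0 : ∀ i, a₀ i ≤ A := fun i => Nat.lt_succ_iff.mp (Nat.mod_lt _ (Nat.succ_pos _))
  have hb1 : ∀ i, a₁ i ≤ A := fun i => Nat.lt_succ_iff.mp (Nat.mod_lt _ (Nat.succ_pos _))
  have hb2 : ∀ i, a₂ i ≤ A := by
    intro i
    rw [ha₂]
    simp only
    rw [Nat.div_div_eq_div_mul]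
    apply Nat.lt_succ_iff.mp
    rw [Nat.div_lt_iff_lt_mul (by positivity)]
    calc (i : ℕ) < n := i.2
      _ ≤ (A + 1) ^ 3 := hA2
      _ = (A + 1) * ((A + 1) * (A + 1)) := by ring
  have hinj : ∀ i j, a₀ i = a₀ j → a₁ i = a₁ j → a₂ i = a₂ j → i = j := by
    intro i j e0 e1 e2
    apply Fin.ext
    have d1 : (i : ℕ) / (A + 1) = (j : ℕ) / (A + 1) := by
      rw [← Nat.mod_add_div ((i : ℕ) / (A + 1)) (A + 1),
        ← Nat.mod_add_div ((j : ℕ) / (A + 1)) (A + 1)]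
      simp only [ha₁, ha₂] at e1 e2
      rw [e1, e2]
    rw [← Nat.mod_add_div (i : ℕ) (A + 1), ← Nat.mod_add_div (j : ℕ) (A + 1)]
    simp only [ha₀] at e0
    rw [e0, d1]
  -- the generator
  have hginj : Function.Injective (gen β a₀ a₁ a₂) := by
    intro π π' h
    have h1 := congrArg (fun x => (e.symm π'⁻¹) • x) h
    simp only [smul_gen β e he, MulEquiv.apply_symm_apply, inv_mul_cancel] at h1
    have h3 := gen_inj β e he hunit h2 a₀ a₁ a₂ A hb0 hb1 hb2 h2A hinj _ h1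
    exact (inv_mul_eq_one.mp h3).symm
  obtain ⟨φ⟩ : Nonempty (K →+* ℂ) := inferInstance
  obtain ⟨p, hirr, hroot, hgal, hequiv, hlog, hdeg⟩ :=
    Pool.Agent.Helper43.FieldPart.field_part e (gen β a₀ a₁ a₂) hginj
      (fun σ π => smul_gen β e he a₀ a₁ a₂ π σ) φ
  refine ⟨_, p, hirr, hroot, hgal, hequiv, ?_⟩
  -- the height bound
  set z : Fin n → ℝ := fun i => Real.log ‖φ (β i)‖ with hz
  have hφ0 : ∀ i, φ (β i) ≠ 0 := by
    intro i
    have h3 := (hunit i).map (φ.comp (algebraMap (𝓞 K) K))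
    exact h3.ne_zero
  have hzb : ∀ i, |z i| ≤ Real.log n / ((n : ℝ) - 1) := by
    intro i
    apply Pool.Agent.Helper43.RootBound.root_bound n hn
    have := congrArg (fun x => φ (algebraMap (𝓞 K) K x)) (hpow i)
    simpa using this
  have hzsum : ∑ i, z i = 0 := by
    rw [hz]
    simp only
    rw [← Real.log_prod (fun i _ => norm_ne_zero_iff.mpr (hφ0 i)), ← norm_prod]
    have h3 := congrArg (fun x => φ (algebraMap (𝓞 K) K x)) hprod
    simp only [map_prod, map_one] at h3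
    rw [h3]
    simp
  have hmono : ∀ (a : Fin n → ℕ) (π : Equiv.Perm (Fin n)),
      ‖φ (mono β a π)‖ = Real.exp (∑ i, (a i : ℝ) * z (π i)) := by
    intro a π
    rw [Real.exp_sum]
    unfold mono
    simp only [map_prod, map_pow, norm_prod, norm_pow]
    refine Finset.prod_congr rfl fun i _ => ?_
    rw [Real.exp_nat_mul, hz]
    simp only
    rw [Real.exp_log (norm_pos_iff.mpr (hφ0 _))]
  have hgenb : ∀ π : Equiv.Perm (Fin n), Real.posLog ‖φ (gen β a₀ a₁ a₂ π)‖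
      ≤ 2 + (|∑ i, (a₀ i : ℝ) * z (π i)| + |∑ i, (a₁ i : ℝ) * z (π i)|
        + |∑ i, (a₂ i : ℝ) * z (π i)|) := by
    intro π
    set L0 := ∑ i, (a₀ i : ℝ) * z (π i)
    set L1 := ∑ i, (a₁ i : ℝ) * z (π i)
    set L2 := ∑ i, (a₂ i : ℝ) * z (π i)
    set S := |L0| + |L1| + |L2| with hS
    have hS0 : 0 ≤ S := by positivity
    have hn1 : ‖φ (gen β a₀ a₁ a₂ π)‖ ≤ 7 * Real.exp S := by
      have h3 : φ (gen β a₀ a₁ a₂ π) = φ (mono β a₀ π) + 2 * φ (mono β a₁ π)
          + 4 * φ (mono β a₂ π) := by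
        have e2 : φ (algebraMap (𝓞 K) K 2) = 2 := by rw [map_ofNat, map_ofNat]
        have e4 : φ (algebraMap (𝓞 K) K 4) = 4 := by rw [map_ofNat, map_ofNat]
        unfold gen
        simp only [map_add, map_mul, e2, e4]
      rw [h3]
      calc ‖φ (mono β a₀ π) + 2 * φ (mono β a₁ π) + 4 * φ (mono β a₂ π)‖
          ≤ ‖φ (mono β a₀ π)‖ + ‖2 * φ (mono β a₁ π)‖ + ‖4 * φ (mono β a₂ π)‖ :=
            norm_add₃_le
        _ = Real.exp L0 + 2 * Real.exp L1 + 4 * Real.exp L2 := by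
            rw [norm_mul, norm_mul, hmono, hmono, hmono]
            simp
            rfl
        _ ≤ Real.exp S + 2 * Real.exp S + 4 * Real.exp S := by
            have i0 : L0 ≤ S := by
              have := le_abs_self L0; have := abs_nonneg L1; have := abs_nonneg L2; linarith
            have i1 : L1 ≤ S := by
              have := le_abs_self L1; have := abs_nonneg L0; have := abs_nonneg L2; linarith
            have i2 : L2 ≤ S := by
              have := le_abs_self L2; have := abs_nonneg L0; have := abs_nonneg L1; linarith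
            gcongr
        _ = 7 * Real.exp S := by ring
    have h4 : Real.posLog ‖φ (gen β a₀ a₁ a₂ π)‖ ≤ Real.posLog (7 * Real.exp S) :=
      Real.posLog_le_posLog (norm_nonneg _) hn1
    have h5 : Real.posLog (7 * Real.exp S) = Real.log 7 + S := by
      rw [Real.posLog_eq_log, Real.log_mul (by norm_num) (Real.exp_pos _).ne', Real.log_exp]
      rw [abs_of_pos (by positivity)]
      have := Real.one_le_exp hS0
      linarith
    have h6 : Real.log 7 ≤ 2 := by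
      rw [Real.log_le_iff_le_exp (by norm_num)]
      have h7 : (2.7182818283 : ℝ) < Real.exp 1 := Real.exp_one_gt_d9
      have h8 : Real.exp 2 = Real.exp 1 * Real.exp 1 := by rw [← Real.exp_add]; norm_num
      rw [h8]
      nlinarith
    linarith
  have hNpos : (0 : ℝ) < (Fintype.card (Equiv.Perm (Fin n)) : ℝ) := by
    exact_mod_cast Fintype.card_pos
  rw [hlog, hdeg, div_le_iff₀ hNpos]
  have hz0 := avg_bound n hn A hA1 a₀ hb0 z hzsum hzb
  have hz1 := avg_bound n hn A hA1 a₁ hb1 z hzsum hzb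
  have hz2 := avg_bound n hn A hA1 a₂ hb2 z hzsum hzb
  calc ∑ π : Equiv.Perm (Fin n), Real.posLog ‖φ (gen β a₀ a₁ a₂ π)‖
      ≤ ∑ π : Equiv.Perm (Fin n), (2 + (|∑ i, (a₀ i : ℝ) * z (π i)|
        + |∑ i, (a₁ i : ℝ) * z (π i)| + |∑ i, (a₂ i : ℝ) * z (π i)|)) :=
        Finset.sum_le_sum fun π _ => hgenb π
    _ = (Fintype.card (Equiv.Perm (Fin n)) : ℝ) * 2
        + (∑ π : Equiv.Perm (Fin n), |∑ i, (a₀ i : ℝ) * z (π i)|
        + ∑ π : Equiv.Perm (Fin n), |∑ i, (a₁ i : ℝ) * z (π i)|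
        + ∑ π : Equiv.Perm (Fin n), |∑ i, (a₂ i : ℝ) * z (π i)|) := by
        rw [Finset.sum_add_distrib, Finset.sum_add_distrib, Finset.sum_add_distrib,
          Finset.sum_const, nsmul_eq_mul, Finset.card_univ]
    _ ≤ 200 * (Fintype.card (Equiv.Perm (Fin n)) : ℝ) := by linarith

end Pool.Agent.Helper43.Final
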