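import Mathlib

set_option autoImplicit false
open MeasureTheory Set Filter Topology

namespace Pool.Agent.Helper43.Landis

/-- Euclidean space. -/
abbrev EE (d : ℕ) := EuclideanSpace ℝ (Fin d)

/-- The Laplacian as written in the frozen statement. -/
noncomputable def lap {d : ℕ} (φ : EE d → ℝ) (x : EE d) : ℝ :=
  ∑ i : Fin d, iteratedFDeriv ℝ 2 φ x (fun _ => EuclideanSpace.single i (1 : ℝ))

lemma hasDerivAt_posSq (s : ℝ) : HasDerivAt (fun s : ℝ => (max 0 s) ^ 2) (2 * max 0 s) s := by
  rcases lt_trichotomy s 0 with h | h | h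
  · have h1 : (fun s : ℝ => (max 0 s) ^ 2) =ᶠ[𝓝 s] fun _ => 0 := by
      filter_upwards [Iio_mem_nhds h] with t ht
      rw [max_eq_left (le_of_lt ht)]; simp
    rw [max_eq_left h.le, mul_zero]
    exact (hasDerivAt_const s (0 : ℝ)).congr_of_eventuallyEq h1
  · subst h
    simp only [max_self, mul_zero]
    rw [hasDerivAt_iff_isLittleO]
    simp only [max_self, sub_zero, smul_zero]
    have h2 : (fun x : ℝ => (max 0 x) ^ 2 - 0 ^ 2) =O[𝓝 0] fun x : ℝ => x ^ 2 := by
      apply Asymptotics.IsBigO.of_bound 1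
      filter_upwards with x
      rw [Real.norm_eq_abs, Real.norm_eq_abs, one_mul, abs_of_nonneg (by positivity : (0:ℝ) ≤ x ^ 2)]
      have : (max 0 x) ^ 2 ≤ x ^ 2 := by
        rcases le_total 0 x with hx | hx
        · rw [max_eq_right hx]
        · rw [max_eq_left hx]; nlinarith [sq_nonneg x]
      have h0 : (0:ℝ) ≤ (max 0 x) ^ 2 - 0 ^ 2 := by
        have := sq_nonneg (max 0 x)
        linarith
      rw [abs_of_nonneg h0]
      linarith
    have h3 : (fun x : ℝ => x ^ 2) =o[𝓝 0] fun x : ℝ => x := by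
      simpa using (Asymptotics.isLittleO_pow_id (𝕜 := ℝ) (n := 2) (by norm_num))
    exact h2.trans_isLittleO h3
  · have h1 : (fun s : ℝ => (max 0 s) ^ 2) =ᶠ[𝓝 s] fun s => s ^ 2 := by
      filter_upwards [Ioi_mem_nhds h] with t ht
      rw [max_eq_right (le_of_lt ht)]
    rw [max_eq_right h.le]
    have := (hasDerivAt_pow 2 s).congr_of_eventuallyEq h1
    simpa using this

/-- bump -/
noncomputable def bb {d : ℕ} (v : EE d) : ℝ := max 0 (1 - ‖v‖ ^ 2)

lemma bb_nonneg {d : ℕ} (v : EE d) : 0 ≤ bb v := le_max_left _ _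
lemma bb_le_one {d : ℕ} (v : EE d) : bb v ≤ 1 := by
  unfold bb; apply max_le (by norm_num); nlinarith [sq_nonneg ‖v‖]
lemma bb_cont {d : ℕ} : Continuous (bb : EE d → ℝ) := by unfold bb; fun_prop
lemma bb_eq_zero {d : ℕ} {v : EE d} (h : 1 ≤ ‖v‖) : bb v = 0 := by
  unfold bb; apply max_eq_left; nlinarith
lemma bb_hcs {d : ℕ} : HasCompactSupport (bb : EE d → ℝ) := by
  apply HasCompactSupport.intro (isCompact_closedBall (0 : EE d) 1)
  intro x hx
  apply bb_eq_zero
  simp at hx; exact hx.le
lemma bb_integrable {d : ℕ} : Integrable (bb : EE d → ℝ) := bb_cont.integrable_of_hasCompactSupport bb_hcs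
lemma bb_int_pos {d : ℕ} : 0 < ∫ v : EE d, bb v := by
  rw [integral_pos_iff_support_of_nonneg bb_nonneg bb_integrable]
  have hopen : IsOpen (Function.support (bb : EE d → ℝ)) := bb_cont.isOpen_support
  refine hopen.measure_pos volume ⟨0, ?_⟩
  simp [bb]

/-- normalisation constant -/
noncomputable def cp (d : ℕ) : ℝ := (∫ v : EE d, bb v)⁻¹
lemma cp_pos (d : ℕ) : 0 < cp d := inv_pos.mpr bb_int_pos
noncomputable def pp {d : ℕ} (v : EE d) : ℝ := cp d * bb v
noncomputable def kk {d : ℕ} (v : EE d) : ℝ := cp d / 4 * (bb v) ^ 2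

lemma pp_nonneg {d : ℕ} (v : EE d) : 0 ≤ pp v := mul_nonneg (cp_pos d).le (bb_nonneg v)
lemma kk_nonneg {d : ℕ} (v : EE d) : 0 ≤ kk v := by
  unfold kk; have := cp_pos d; positivity
lemma pp_cont {d : ℕ} : Continuous (pp : EE d → ℝ) := continuous_const.mul bb_cont
lemma kk_cont {d : ℕ} : Continuous (kk : EE d → ℝ) := continuous_const.mul (bb_cont.pow 2)
lemma pp_eq_zero {d : ℕ} {v : EE d} (h : 1 ≤ ‖v‖) : pp v = 0 := by
  unfold pp; rw [bb_eq_zero h, mul_zero]
lemma kk_eq_zero {d : ℕ} {v : EE d} (h : 1 ≤ ‖v‖) : kk v = 0 := by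
  unfold kk; rw [bb_eq_zero h]; simp
lemma pp_hcs {d : ℕ} : HasCompactSupport (pp : EE d → ℝ) := by
  apply HasCompactSupport.intro (isCompact_closedBall (0 : EE d) 1)
  intro x hx
  apply pp_eq_zero
  simp at hx; exact hx.le
lemma kk_hcs {d : ℕ} : HasCompactSupport (kk : EE d → ℝ) := by
  apply HasCompactSupport.intro (isCompact_closedBall (0 : EE d) 1)
  intro x hx
  apply kk_eq_zero
  simp at hx; exact hx.le
lemma pp_integrable {d : ℕ} : Integrable (pp : EE d → ℝ) := pp_cont.integrable_of_hasCompactSupport pp_hcs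
lemma kk_integrable {d : ℕ} : Integrable (kk : EE d → ℝ) := kk_cont.integrable_of_hasCompactSupport kk_hcs
lemma pp_int {d : ℕ} : ∫ v : EE d, pp v = 1 := by
  unfold pp; rw [integral_const_mul]; unfold cp; exact inv_mul_cancel₀ bb_int_pos.ne'
lemma pp_le {d : ℕ} (v : EE d) : pp v ≤ cp d := by
  unfold pp; have := cp_pos d; nlinarith [bb_le_one v]
lemma kk_le {d : ℕ} (v : EE d) : kk v ≤ pp v / 4 := by
  unfold kk pp; have := cp_pos d
  have h1 := bb_le_one v
  have h0 := bb_nonneg v
  have : bb v ^ 2 ≤ bb v := by nlinarith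
  nlinarith
lemma kk_int_le {d : ℕ} : ∫ v : EE d, kk v ≤ 1 / 4 := by
  calc ∫ v : EE d, kk v ≤ ∫ v : EE d, pp v / 4 :=
        integral_mono kk_integrable (pp_integrable.div_const 4) kk_le
    _ = 1 / 4 := by rw [integral_div, pp_int]

lemma kk_hasFDerivAt {d : ℕ} (v : EE d) :
    HasFDerivAt (kk : EE d → ℝ) ((-(pp v)) • (innerSL ℝ v)) v := by
  have h1 : HasFDerivAt (fun v : EE d => 1 - ‖v‖ ^ 2) (-(2 • (innerSL ℝ v))) v := by
    have := ((hasStrictFDerivAt_norm_sq v).hasFDerivAt).const_sub 1
    simpa using this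
  have h2 := (hasDerivAt_posSq (1 - ‖v‖ ^ 2)).comp_hasFDerivAt v h1
  have h3 := h2.const_mul (cp d / 4)
  convert! h3 using 1
  ext z
  simp only [pp, bb, _root_.smul_apply, _root_.neg_apply, smul_eq_mul, nsmul_eq_mul]
  push_cast
  ring

lemma lap_continuous {d : ℕ} {φ : EE d → ℝ} (hφ : ContDiff ℝ 2 φ) : Continuous (lap φ) := by
  unfold lap
  refine continuous_finsetSum _ fun i _ => ?_
  have := hφ.continuous_iteratedFDeriv (m := 2) (by norm_num)
  exact (ContinuousMultilinearMap.apply ℝ (fun _ : Fin 2 => EE d) ℝ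
    (fun _ => EuclideanSpace.single i (1 : ℝ))).continuous.comp this

lemma lap_hcs {d : ℕ} {φ : EE d → ℝ} (hs : HasCompactSupport φ) : HasCompactSupport (lap φ) := by
  refine (hs.iteratedFDeriv (𝕜 := ℝ) 2).mono ?_
  intro x hx
  rw [Function.mem_support] at hx ⊢
  intro h0
  apply hx
  unfold lap
  rw [h0]
  simp

/-- integration by parts against the kernel. -/
lemma kk_ibp {d : ℕ} {φ : EE d → ℝ} (hφ : ContDiff ℝ 2 φ) (y : EE d) (τ : ℝ) :
    ∫ v, -(pp v * fderiv ℝ φ (y - τ • v) v) = τ * ∫ v, kk v * lap φ (y - τ • v) := by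
  have hd1 : ContDiff ℝ 1 (fderiv ℝ φ) := hφ.fderiv_right (by norm_num)
  have hline : Continuous fun v : EE d => y - τ • v := by fun_prop
  -- one coordinate
  have key : ∀ i : Fin d, ∫ v : EE d, pp v * (v i * fderiv ℝ φ (y - τ • v) (EuclideanSpace.single i 1))
      = - (τ * ∫ v, kk v * iteratedFDeriv ℝ 2 φ (y - τ • v) (fun _ => EuclideanSpace.single i (1 : ℝ))) := by
    intro i
    set e : EE d := EuclideanSpace.single i (1:ℝ) with he
    set g : EE d → ℝ := fun v => fderiv ℝ φ (y - τ • v) e with hg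
    have hgd : ContDiff ℝ 1 g := by
      have h1 : ContDiff ℝ 1 fun v : EE d => y - τ • v := by fun_prop
      exact (hd1.comp h1).clm_apply contDiff_const
    have hg' : ∀ v, fderiv ℝ g v e = -τ * iteratedFDeriv ℝ 2 φ (y - τ • v) (fun _ => e) := by
      intro v
      have h1 : HasFDerivAt (fun v : EE d => y - τ • v) (-(τ • ContinuousLinearMap.id ℝ (EE d))) v := by
        have := ((hasFDerivAt_id (𝕜 := ℝ) v).const_smul τ).const_sub y
        simpa using this
      have h2 : HasFDerivAt (fderiv ℝ φ) (fderiv ℝ (fderiv ℝ φ) (y - τ • v)) (y - τ • v) :=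
        ((hd1.differentiable (by norm_num)) _).hasFDerivAt
      have h3 := h2.comp v h1
      have h4 := h3.clm_apply (hasFDerivAt_const e v)
      have h5 : fderiv ℝ g v = _ := h4.fderiv
      rw [h5, iteratedFDeriv_two_apply]
      simp
    have hkd : ∀ v, fderiv ℝ (kk : EE d → ℝ) v e = -(pp v) * v i := by
      intro v
      rw [(kk_hasFDerivAt v).fderiv]
      simp [he, EuclideanSpace.inner_single_right]
    have hcg : Continuous g := hgd.continuous
    have hcg' : Continuous fun v => fderiv ℝ g v e :=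
      (hgd.continuous_fderiv (by norm_num)).clm_apply continuous_const
    have hcv : Continuous fun v : EE d => v i := by fun_prop
    have ibp := integral_mul_fderiv_eq_neg_fderiv_mul_of_integrable (μ := (volume : Measure (EE d)))
      (f := (kk : EE d → ℝ)) (g := g) (v := e) ?_ ?_ ?_ ?_ ?_
    · have e1 : ∫ x, kk x * fderiv ℝ g x e = -τ * ∫ v, kk v * iteratedFDeriv ℝ 2 φ (y - τ • v) (fun _ => e) := by
        rw [← integral_const_mul]
        congr 1; ext v; rw [hg' v]; ring
      have e2 : ∫ x, fderiv ℝ (kk : EE d → ℝ) x e * g x = - ∫ v, pp v * (v i * fderiv ℝ φ (y - τ • v) e) := by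
        rw [← integral_neg]
        congr 1; ext v; rw [hkd v]; ring
      rw [e1, e2] at ibp
      linarith
    · have : Continuous fun x => fderiv ℝ (kk : EE d → ℝ) x e * g x := by
        simp_rw [hkd]
        exact (pp_cont.neg.mul hcv).mul hcg
      refine this.integrable_of_hasCompactSupport ?_
      refine pp_hcs.mono ?_
      intro x hx
      rw [Function.mem_support] at hx ⊢
      intro h0; apply hx; rw [hkd, h0]; simp
    · refine (kk_cont.mul hcg').integrable_of_hasCompactSupport (kk_hcs.mul_right)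
    · refine (kk_cont.mul hcg).integrable_of_hasCompactSupport (kk_hcs.mul_right)
    · intro x _; exact (kk_hasFDerivAt x).differentiableAt
    · intro x _; exact (hgd.differentiable (by norm_num)) x
  -- sum over coordinates
  have hsum : ∀ v : EE d, -(pp v * fderiv ℝ φ (y - τ • v) v)
      = - ∑ i, pp v * (v i * fderiv ℝ φ (y - τ • v) (EuclideanSpace.single i 1)) := by
    intro v
    rw [← Finset.mul_sum]
    have hv : v = ∑ i, v i • (EuclideanSpace.single i (1:ℝ) : EE d) := by
      have := (EuclideanSpace.basisFun (Fin d) ℝ).sum_repr v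
      simpa using this.symm
    have : fderiv ℝ φ (y - τ • v) v = ∑ i, v i * fderiv ℝ φ (y - τ • v) (EuclideanSpace.single i 1) := by
      conv_lhs => rw [show (fderiv ℝ φ (y - τ • v)) v = (fderiv ℝ φ (y - τ • v)) (∑ i, v i • (EuclideanSpace.single i (1:ℝ) : EE d)) from by rw [← hv]]
      rw [map_sum]
      simp
    rw [this]
  simp_rw [hsum]
  rw [integral_neg, integral_finsetSum]
  · simp_rw [key]
    rw [Finset.sum_neg_distrib, neg_neg, ← Finset.mul_sum]
    congr 1
    unfold lap
    simp_rw [Finset.mul_sum]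
    rw [integral_finsetSum]
    intro i _
    have hc : Continuous fun v : EE d => iteratedFDeriv ℝ 2 φ (y - τ • v) (fun _ => EuclideanSpace.single i (1 : ℝ)) := by
      have := hφ.continuous_iteratedFDeriv (m := 2) (by norm_num)
      exact (ContinuousMultilinearMap.apply ℝ (fun _ : Fin 2 => EE d) ℝ
        (fun _ => EuclideanSpace.single i (1 : ℝ))).continuous.comp (this.comp hline)
    exact (kk_cont.mul hc).integrable_of_hasCompactSupport (kk_hcs.mul_right)
  · intro i _
    have hc : Continuous fun v : EE d => v i * fderiv ℝ φ (y - τ • v) (EuclideanSpace.single i 1) := by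
      have h1 : Continuous fun v : EE d => fderiv ℝ φ (y - τ • v) (EuclideanSpace.single i 1) :=
        (hd1.continuous.comp hline).clm_apply continuous_const
      exact (by fun_prop : Continuous fun v : EE d => v i).mul h1
    exact (pp_cont.mul hc).integrable_of_hasCompactSupport (pp_hcs.mul_right)

lemma kernel_identity {d : ℕ} {φ : EE d → ℝ} (hφ : ContDiff ℝ 2 φ) (hs : HasCompactSupport φ)
    (y : EE d) {T : ℝ} (hT : 0 ≤ T) :
    (∫ v, pp v * φ (y - T • v)) - φ y =
      ∫ z, (z.1 * kk z.2) * lap φ (y - z.1 • z.2) ∂((volume.restrict (Ioc 0 T)).prod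
        (volume : Measure (EE d))) := by
  have hd1 : ContDiff ℝ 1 (fderiv ℝ φ) := hφ.fderiv_right (by norm_num)
  obtain ⟨M, hM⟩ := (hs.fderiv (𝕜 := ℝ)).exists_bound_of_continuous hd1.continuous
  have hM0 : 0 ≤ M := (norm_nonneg _).trans (hM 0)
  -- pointwise FTC
  have ftc : ∀ v : EE d, pp v * φ (y - T • v) - pp v * φ y
      = ∫ τ in Ioc 0 T, -(pp v * fderiv ℝ φ (y - τ • v) v) := by
    intro v
    have h1 : ∀ τ ∈ uIcc 0 T, HasDerivAt (fun τ : ℝ => pp v * φ (y - τ • v))
        (-(pp v * fderiv ℝ φ (y - τ • v) v)) τ := by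
      intro τ _
      have h1 : HasDerivAt (fun τ : ℝ => y - τ • v) (-v) τ := by
        have := ((hasDerivAt_id τ).smul_const v).const_sub y
        simpa using this
      have h2 : HasFDerivAt φ (fderiv ℝ φ (y - τ • v)) (y - τ • v) :=
        ((hφ.differentiable (by norm_num)) _).hasFDerivAt
      have h3 := (h2.comp_hasDerivAt τ h1).const_mul (pp v)
      simpa using h3
    have hc : Continuous fun τ : ℝ => -(pp v * fderiv ℝ φ (y - τ • v) v) := by
      have : Continuous fun τ : ℝ => y - τ • v := by fun_prop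
      exact (continuous_const.mul ((hd1.continuous.comp this).clm_apply continuous_const)).neg
    have h2 := intervalIntegral.integral_eq_sub_of_hasDerivAt h1 (hc.intervalIntegrable 0 T)
    rw [intervalIntegral.integral_of_le hT] at h2
    rw [h2]
    simp
  -- integrability on the product
  have hcF : Continuous (fun z : EE d × ℝ => -(pp z.1 * fderiv ℝ φ (y - z.2 • z.1) z.1)) := by
    have h0 : Continuous fun z : EE d × ℝ => y - z.2 • z.1 := by fun_prop
    exact ((pp_cont.comp continuous_fst).mul ((hd1.continuous.comp h0).clm_apply continuous_fst)).neg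
  have hF : Integrable (Function.uncurry fun (v : EE d) (τ : ℝ) => -(pp v * fderiv ℝ φ (y - τ • v) v))
      ((volume : Measure (EE d)).prod (volume.restrict (Ioc 0 T))) := by
    have hb : Integrable (fun z : EE d × ℝ => pp z.1 * M)
        ((volume : Measure (EE d)).prod (volume.restrict (Ioc 0 T))) :=
      (pp_integrable (d := d)).mul_prod (integrable_const M)
    refine hb.mono' hcF.aestronglyMeasurable ?_
    filter_upwards with z
    simp only [Function.uncurry, norm_neg, norm_mul, Real.norm_eq_abs, abs_of_nonneg (pp_nonneg z.1)]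
    rcases le_or_gt 1 ‖z.1‖ with h | h
    · rw [pp_eq_zero h]; simp
    · apply mul_le_mul_of_nonneg_left _ (pp_nonneg z.1)
      have := (fderiv ℝ φ (y - z.2 • z.1)).le_opNorm z.1
      rw [Real.norm_eq_abs] at this
      have h2 := hM (y - z.2 • z.1)
      nlinarith [norm_nonneg z.1, norm_nonneg (fderiv ℝ φ (y - z.2 • z.1))]
  have hG : Integrable (fun z : ℝ × EE d => (z.1 * kk z.2) * lap φ (y - z.1 • z.2))
      ((volume.restrict (Ioc 0 T)).prod (volume : Measure (EE d))) := by
    obtain ⟨M', hM'⟩ := (lap_hcs hs).exists_bound_of_continuous (lap_continuous hφ)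
    have hb : Integrable (fun z : ℝ × EE d => (T * M') * kk z.2)
        ((volume.restrict (Ioc 0 T)).prod (volume : Measure (EE d))) :=
      (integrable_const (T * M')).mul_prod (kk_integrable (d := d))
    have hcG : Continuous (fun z : ℝ × EE d => (z.1 * kk z.2) * lap φ (y - z.1 • z.2)) := by
      have h0 : Continuous fun z : ℝ × EE d => y - z.1 • z.2 := by fun_prop
      exact (continuous_fst.mul (kk_cont.comp continuous_snd)).mul ((lap_continuous hφ).comp h0)
    have hae : ∀ᵐ z ∂((volume.restrict (Ioc 0 T)).prod (volume : Measure (EE d))), z.1 ∈ Ioc 0 T := by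
      have h1 : ∀ᵐ τ ∂(volume.restrict (Ioc 0 T)), τ ∈ Ioc 0 T := ae_restrict_mem measurableSet_Ioc
      exact Measure.quasiMeasurePreserving_fst.ae h1
    refine hb.mono' hcG.aestronglyMeasurable ?_
    filter_upwards [hae] with z hz
    simp only [norm_mul, Real.norm_eq_abs, abs_of_nonneg (kk_nonneg z.2), abs_of_pos hz.1]
    have h2 := hM' (y - z.1 • z.2)
    rw [Real.norm_eq_abs] at h2
    have h3 := kk_nonneg z.2
    have h4 := hz.1
    have h5 := hz.2
    have h6 := abs_nonneg (lap φ (y - z.1 • z.2))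
    calc z.1 * kk z.2 * |lap φ (y - z.1 • z.2)| ≤ T * kk z.2 * M' := by
          apply mul_le_mul
          · exact mul_le_mul_of_nonneg_right h5 h3
          · exact h2
          · exact h6
          · positivity
      _ = T * M' * kk z.2 := by ring
  -- assemble
  have hcp : Continuous fun v : EE d => pp v * φ (y - T • v) := by
    have : Continuous fun v : EE d => y - T • v := by fun_prop
    exact pp_cont.mul (hφ.continuous.comp this)
  have hip : Integrable fun v : EE d => pp v * φ (y - T • v) :=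
    hcp.integrable_of_hasCompactSupport pp_hcs.mul_right
  have hip2 : Integrable fun v : EE d => pp v * φ y := (pp_integrable (d := d)).mul_const _
  calc (∫ v, pp v * φ (y - T • v)) - φ y
      = (∫ v, pp v * φ (y - T • v)) - ∫ v : EE d, pp v * φ y := by
        rw [integral_mul_const, pp_int, one_mul]
    _ = ∫ v, (pp v * φ (y - T • v) - pp v * φ y) := by rw [integral_sub hip hip2]
    _ = ∫ v, ∫ τ in Ioc 0 T, -(pp v * fderiv ℝ φ (y - τ • v) v) := by simp_rw [ftc]
    _ = ∫ τ in Ioc 0 T, ∫ v, -(pp v * fderiv ℝ φ (y - τ • v) v) := integral_integral_swap hF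
    _ = ∫ τ in Ioc 0 T, ∫ v, (τ * kk v) * lap φ (y - τ • v) := by
        congr 1; ext τ
        rw [kk_ibp hφ y τ, ← integral_const_mul]
        congr 1; ext v; ring
    _ = _ := by rw [integral_prod _ hG]

/-- law of the averaging displacement -/
noncomputable def muA (d : ℕ) (T : ℝ) : Measure (EE d) :=
  ((volume : Measure (EE d)).withDensity (fun v => ENNReal.ofReal (pp v))).map (fun v => T • v)

/-- Green potential kernel -/
noncomputable def muK (d : ℕ) (T : ℝ) : Measure (EE d) :=
  (((volume.restrict (Ioc 0 T)).prod (volume : Measure (EE d))).withDensity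
    (fun z => ENNReal.ofReal (z.1 * kk z.2))).map (fun z => z.1 • z.2)

theorem exists_kernel (d : ℕ) (T : ℝ) (hT0 : 0 < T) (hT1 : T ≤ 1) :
    ∃ μA μK : Measure (EE d), IsProbabilityMeasure μA ∧ IsFiniteMeasure μK ∧
      μK.real univ ≤ 1 / 8 ∧ (∀ᵐ z ∂μA, ‖z‖ ≤ T) ∧ (∀ᵐ z ∂μK, ‖z‖ ≤ T) ∧
      (∀ φ : EE d → ℝ, ContDiff ℝ 2 φ → HasCompactSupport φ → ∀ y,
        (∫ z, φ (y - z) ∂μA) - φ y = ∫ z, lap φ (y - z) ∂μK) ∧
      (∀ s : Set (EE d), MeasurableSet s →
        μA s ≤ ENNReal.ofReal (cp d) * volume {v : EE d | ‖v‖ ≤ 1 ∧ T • v ∈ s}) := by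
  have hmA : Measurable fun v : EE d => T • v := (continuous_const_smul T).measurable
  have hmK : Measurable fun z : ℝ × EE d => z.1 • z.2 := (continuous_fst.smul continuous_snd).measurable
  have hdA : Measurable fun v : EE d => ENNReal.ofReal (pp v) := pp_cont.measurable.ennreal_ofReal
  have hdK : Measurable fun z : ℝ × EE d => ENNReal.ofReal (z.1 * kk z.2) :=
    (continuous_fst.mul (kk_cont.comp continuous_snd)).measurable.ennreal_ofReal
  have hae : ∀ᵐ z ∂((volume.restrict (Ioc 0 T)).prod (volume : Measure (EE d))), z.1 ∈ Ioc 0 T := by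
    have h1 : ∀ᵐ τ ∂(volume.restrict (Ioc 0 T)), τ ∈ Ioc 0 T := ae_restrict_mem measurableSet_Ioc
    exact Measure.quasiMeasurePreserving_fst.ae h1
  have hiK : Integrable (fun z : ℝ × EE d => z.1 * kk z.2)
      ((volume.restrict (Ioc 0 T)).prod (volume : Measure (EE d))) := by
    have h1 : Integrable (fun τ : ℝ => τ) (volume.restrict (Ioc 0 T)) := by
      have := (continuous_id.intervalIntegrable (μ := volume) 0 T).1
      exact this
    exact h1.mul_prod (kk_integrable (d := d))
  have hK0 : 0 ≤ᵐ[(volume.restrict (Ioc 0 T)).prod (volume : Measure (EE d))]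
      fun z : ℝ × EE d => z.1 * kk z.2 := by
    filter_upwards [hae] with z hz
    exact mul_nonneg hz.1.le (kk_nonneg _)
  have htotK : (muK d T) univ = ENNReal.ofReal ((∫ τ in Ioc 0 T, τ) * ∫ v : EE d, kk v) := by
    unfold muK
    rw [Measure.map_apply hmK MeasurableSet.univ, preimage_univ, withDensity_apply _ MeasurableSet.univ,
      Measure.restrict_univ, ← ofReal_integral_eq_lintegral_ofReal hiK hK0]
    congr 1
    exact integral_prod_mul (fun τ : ℝ => τ) (kk (d := d))
  have htotA : (muA d T) univ = 1 := by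
    unfold muA
    rw [Measure.map_apply hmA MeasurableSet.univ, preimage_univ, withDensity_apply _ MeasurableSet.univ,
      Measure.restrict_univ, ← ofReal_integral_eq_lintegral_ofReal pp_integrable
      (Filter.Eventually.of_forall pp_nonneg), pp_int, ENNReal.ofReal_one]
  have hT2 : (∫ τ in Ioc 0 T, τ) = T ^ 2 / 2 := by
    rw [← intervalIntegral.integral_of_le hT0.le, integral_id]; ring
  have hfinK : IsFiniteMeasure (muK d T) := ⟨by rw [htotK]; exact ENNReal.ofReal_lt_top⟩
  have hprA : IsProbabilityMeasure (muA d T) := ⟨htotA⟩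
  -- integral formulas
  have intA : ∀ f : EE d → ℝ, Continuous f → ∫ z, f z ∂(muA d T) = ∫ v, pp v * f (T • v) := by
    intro f hf
    unfold muA
    rw [integral_map hmA.aemeasurable hf.aestronglyMeasurable,
      integral_withDensity_eq_integral_toReal_smul hdA (by filter_upwards with v using ENNReal.ofReal_lt_top)]
    congr 1; ext v
    rw [ENNReal.toReal_ofReal (pp_nonneg v), smul_eq_mul]
  have intK : ∀ f : EE d → ℝ, Continuous f → ∫ z, f z ∂(muK d T) =
      ∫ z, (z.1 * kk z.2) * f (z.1 • z.2) ∂((volume.restrict (Ioc 0 T)).prod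
        (volume : Measure (EE d))) := by
    intro f hf
    unfold muK
    rw [integral_map hmK.aemeasurable hf.aestronglyMeasurable,
      integral_withDensity_eq_integral_toReal_smul hdK (by filter_upwards with v using ENNReal.ofReal_lt_top)]
    apply integral_congr_ae
    filter_upwards [hK0] with z hz
    have hz' : 0 ≤ z.1 * kk z.2 := hz
    rw [ENNReal.toReal_ofReal hz', smul_eq_mul]
  refine ⟨muA d T, muK d T, hprA, hfinK, ?_, ?_, ?_, ?_, ?_⟩
  · rw [Measure.real, htotK, ENNReal.toReal_ofReal, hT2]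
    · have h1 := kk_int_le (d := d)
      have h2 : 0 ≤ ∫ v : EE d, kk v := integral_nonneg kk_nonneg
      have h3 : T ^ 2 ≤ 1 := by nlinarith
      nlinarith
    · rw [hT2]
      have h2 : 0 ≤ ∫ v : EE d, kk v := integral_nonneg kk_nonneg
      positivity
  · unfold muA
    rw [ae_map_iff hmA.aemeasurable (measurableSet_le measurable_norm measurable_const)]
    rw [ae_withDensity_iff hdA]
    filter_upwards with v hv
    have hv1 : ‖v‖ < 1 := by
      by_contra hcon
      push Not at hcon
      exact hv (by rw [pp_eq_zero hcon]; simp)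
    rw [norm_smul, Real.norm_eq_abs, abs_of_pos hT0]
    nlinarith [norm_nonneg v]
  · unfold muK
    rw [ae_map_iff hmK.aemeasurable (measurableSet_le measurable_norm measurable_const)]
    rw [ae_withDensity_iff hdK]
    filter_upwards [hae] with z hz hv
    have hv1 : ‖z.2‖ < 1 := by
      by_contra hcon
      push Not at hcon
      exact hv (by rw [kk_eq_zero hcon]; simp)
    rw [norm_smul, Real.norm_eq_abs, abs_of_pos hz.1]
    nlinarith [norm_nonneg z.2, hz.1, hz.2]
  · intro φ hφ hs y
    have hc1 : Continuous fun z => φ (y - z) := hφ.continuous.comp (continuous_const.sub continuous_id)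
    have hc2 : Continuous fun z => lap φ (y - z) :=
      (lap_continuous hφ).comp (continuous_const.sub continuous_id)
    rw [intA _ hc1, intK _ hc2]
    exact kernel_identity hφ hs y hT0.le
  · intro s hsm
    unfold muA
    rw [Measure.map_apply hmA hsm, withDensity_apply _ (hmA hsm)]
    have hms : MeasurableSet {v : EE d | ‖v‖ ≤ 1 ∧ T • v ∈ s} :=
      (measurableSet_le measurable_norm measurable_const).inter (hmA hsm)
    have hle : ∀ v : EE d, ((fun v : EE d => T • v) ⁻¹' s).indicator (fun v => ENNReal.ofReal (pp v)) v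
        ≤ ({v : EE d | ‖v‖ ≤ 1 ∧ T • v ∈ s}).indicator (fun _ => ENNReal.ofReal (cp d)) v := by
      intro v
      by_cases h1 : v ∈ (fun v : EE d => T • v) ⁻¹' s
      · rw [indicator_of_mem h1]
        by_cases h2 : ‖v‖ ≤ 1
        · rw [indicator_of_mem (show v ∈ {v : EE d | ‖v‖ ≤ 1 ∧ T • v ∈ s} from ⟨h2, h1⟩)]
          exact ENNReal.ofReal_le_ofReal (pp_le v)
        · rw [pp_eq_zero (le_of_not_ge h2)]; simp
      · rw [indicator_of_notMem h1]; exact zero_le
    rw [← lintegral_indicator (hmA hsm)]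
    calc ∫⁻ v, ((fun v : EE d => T • v) ⁻¹' s).indicator (fun v => ENNReal.ofReal (pp v)) v
        ≤ ∫⁻ v, ({v : EE d | ‖v‖ ≤ 1 ∧ T • v ∈ s}).indicator (fun _ => ENNReal.ofReal (cp d)) v :=
          lintegral_mono hle
      _ = _ := by rw [lintegral_indicator_const hms]

end Pool.Agent.Helper43.Landis
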