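import Mathlib
import Pool.Agent.Helper43.Land1

set_option autoImplicit false
open MeasureTheory Set Filter Topology Metric

namespace Pool.Agent.Helper43.Landis

/-- data of a one-dimensional bump -/
structure Bump where
  f : ℝ → ℝ
  f1 : ℝ → ℝ
  f2 : ℝ → ℝ
  B : ℝ
  hB : 0 < B
  hf : ∀ t, HasDerivAt f (f1 t) t
  hf1 : ∀ t, HasDerivAt f1 (f2 t) t
  hf2c : Continuous f2
  nonneg : ∀ t, 0 ≤ f t
  le_one : ∀ t, f t ≤ 1
  eq_one : ∀ t, |t| ≤ 1 / 2 → f t = 1
  f_zero : ∀ t, 1 < |t| → f t = 0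
  f1_zero : ∀ t, 1 < |t| → f1 t = 0
  f2_zero : ∀ t, 1 < |t| → f2 t = 0
  f1_le : ∀ t, |f1 t| ≤ B
  f2_le : ∀ t, |f2 t| ≤ B

lemma exists_bump : Nonempty Bump := by
  let f : ContDiffBump (0 : ℝ) := ⟨1 / 2, 1, by norm_num, by norm_num⟩
  have hcd : ContDiff ℝ 2 f := f.contDiff
  have hcd1 : ContDiff ℝ 1 (deriv f) := by
    have h2 : ContDiff ℝ (1 + 1) f := by
      have : ((1 : WithTop ℕ∞) + 1) = 2 := by norm_num
      rw [this]; exact hcd
    exact (contDiff_succ_iff_deriv.mp h2).2.2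
  have hc2 : Continuous (deriv (deriv f)) := hcd1.continuous_deriv (by norm_num)
  have hs1 : HasCompactSupport (deriv f) := f.hasCompactSupport.deriv
  have hs2 : HasCompactSupport (deriv (deriv f)) := hs1.deriv
  obtain ⟨B1, hB1⟩ := hs1.exists_bound_of_continuous hcd1.continuous
  obtain ⟨B2, hB2⟩ := hs2.exists_bound_of_continuous hc2
  have hz : ∀ t : ℝ, 1 < |t| → f t = 0 := by
    intro t ht
    apply f.zero_of_le_dist
    rw [Real.dist_eq, sub_zero]; exact ht.le
  have hev : ∀ t : ℝ, 1 < |t| → ∀ᶠ s in 𝓝 t, 1 < |s| := fun t ht =>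
    (continuous_abs.continuousAt).eventually (lt_mem_nhds ht)
  have hz1 : ∀ t : ℝ, 1 < |t| → deriv f t = 0 := by
    intro t ht
    have : (f : ℝ → ℝ) =ᶠ[𝓝 t] fun _ => 0 := by
      filter_upwards [hev t ht] with s hs using hz s hs
    rw [this.deriv_eq]; simp
  have hz2 : ∀ t : ℝ, 1 < |t| → deriv (deriv f) t = 0 := by
    intro t ht
    have : deriv (f : ℝ → ℝ) =ᶠ[𝓝 t] fun _ => 0 := by
      filter_upwards [hev t ht] with s hs using hz1 s hs
    rw [this.deriv_eq]; simp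
  exact ⟨{
    f := f
    f1 := deriv f
    f2 := deriv (deriv f)
    B := max 1 (max B1 B2)
    hB := lt_of_lt_of_le one_pos (le_max_left _ _)
    hf := fun t => (hcd.differentiable (by norm_num) t).hasDerivAt
    hf1 := fun t => (hcd1.differentiable (by norm_num) t).hasDerivAt
    hf2c := hc2
    nonneg := fun t => f.nonneg
    le_one := fun t => f.le_one
    eq_one := fun t ht => f.one_of_mem_closedBall (by
      rw [mem_closedBall, Real.dist_eq, sub_zero]; exact ht)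
    f_zero := hz
    f1_zero := hz1
    f2_zero := hz2
    f1_le := fun t => (hB1 t).trans ((le_max_left _ _).trans (le_max_right _ _))
    f2_le := fun t => (hB2 t).trans ((le_max_right _ _).trans (le_max_right _ _)) }⟩

/-- a fixed bump -/
noncomputable def bmp : Bump := exists_bump.some

/-- `√(R² + t²)` -/
noncomputable def sq (R t : ℝ) : ℝ := Real.sqrt (R ^ 2 + t ^ 2)
/-- its derivative -/
noncomputable def sq1 (R t : ℝ) : ℝ := t / sq R t
/-- its second derivative -/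
noncomputable def sq2 (R t : ℝ) : ℝ := R ^ 2 / (sq R t) ^ 3

lemma sq_pos {R : ℝ} (hR : 0 < R) (t : ℝ) : 0 < sq R t := Real.sqrt_pos.mpr (by positivity)
lemma sq_sq {R : ℝ} (t : ℝ) : (sq R t) ^ 2 = R ^ 2 + t ^ 2 := Real.sq_sqrt (by positivity)
lemma abs_le_sq (R t : ℝ) : |t| ≤ sq R t := by
  rw [← Real.sqrt_sq_eq_abs]; apply Real.sqrt_le_sqrt; nlinarith [sq_nonneg R]
lemma le_sq {R : ℝ} (hR : 0 < R) (t : ℝ) : R ≤ sq R t := by
  have := Real.sqrt_le_sqrt (show R ^ 2 ≤ R ^ 2 + t ^ 2 by nlinarith [sq_nonneg t])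
  rw [Real.sqrt_sq hR.le] at this; exact this

lemma sq_hasDerivAt {R : ℝ} (hR : 0 < R) (t : ℝ) : HasDerivAt (sq R) (sq1 R t) t := by
  have h1 : HasDerivAt (fun t : ℝ => R ^ 2 + t ^ 2) (2 * t) t := by
    have := (hasDerivAt_pow 2 t).const_add (R ^ 2)
    simpa using this
  have h2 := h1.sqrt (by positivity)
  convert! h2 using 1
  unfold sq1 sq
  field_simp

lemma sq1_hasDerivAt {R : ℝ} (hR : 0 < R) (t : ℝ) : HasDerivAt (sq1 R) (sq2 R t) t := by
  have h0 := (sq_pos hR t).ne'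
  have h := (hasDerivAt_id t).div (sq_hasDerivAt hR t) h0
  convert! h using 1
  unfold sq2 sq1
  have h2 := sq_sq (R := R) t
  simp only [id]
  field_simp
  linear_combination -h2

lemma abs_sq1_le {R : ℝ} (hR : 0 < R) (t : ℝ) : |sq1 R t| ≤ 1 := by
  unfold sq1
  rw [abs_div, abs_of_pos (sq_pos hR t), div_le_one (sq_pos hR t)]
  exact abs_le_sq R t

lemma sq2_nonneg {R : ℝ} (hR : 0 < R) (t : ℝ) : 0 ≤ sq2 R t := by
  unfold sq2; have := sq_pos hR t; positivity

lemma sq2_le {R : ℝ} (hR : 0 < R) (t : ℝ) : sq2 R t ≤ 1 / R := by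
  unfold sq2
  have h1 := sq_pos hR t
  have h2 := le_sq hR t
  rw [div_le_div_iff₀ (by positivity) hR]
  have h3 : R ^ 3 ≤ (sq R t) ^ 3 := pow_le_pow_left₀ hR.le h2 3
  nlinarith

lemma sq_lip {R : ℝ} (hR : 0 < R) (s t : ℝ) : |sq R s - sq R t| ≤ |s - t| := by
  have := Convex.norm_image_sub_le_of_norm_hasDerivWithin_le (f := sq R) (f' := sq1 R) (C := 1) (s := univ)
    (fun x _ => (sq_hasDerivAt hR x).hasDerivWithinAt) (fun x _ => by
      rw [Real.norm_eq_abs]; exact abs_sq1_le hR x) convex_univ (mem_univ t) (mem_univ s)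
  simpa using this

lemma sq1_lip {R : ℝ} (hR : 0 < R) (s t : ℝ) : |sq1 R s - sq1 R t| ≤ 1 / R * |s - t| := by
  have := Convex.norm_image_sub_le_of_norm_hasDerivWithin_le (f := sq1 R) (f' := sq2 R) (C := 1 / R) (s := univ)
    (fun x _ => (sq1_hasDerivAt hR x).hasDerivWithinAt) (fun x _ => by
      rw [Real.norm_eq_abs, abs_of_nonneg (sq2_nonneg hR x)]; exact sq2_le hR x) convex_univ (mem_univ t) (mem_univ s)
  simpa using this

lemma sq_continuous {R : ℝ} : Continuous (sq R) := by unfold sq; fun_prop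
lemma sq1_continuous {R : ℝ} (hR : 0 < R) : Continuous (sq1 R) := by
  unfold sq1; exact continuous_id.div sq_continuous fun t => (sq_pos hR t).ne'
lemma sq2_continuous {R : ℝ} (hR : 0 < R) : Continuous (sq2 R) := by
  unfold sq2
  exact continuous_const.div (sq_continuous.pow 3) fun t => (pow_pos (sq_pos hR t) 3).ne'

end Pool.Agent.Helper43.Landis
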