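import Mathlib
import Pool.Agent.Helper43.Land6

set_option autoImplicit false
open MeasureTheory Set Filter Topology Metric

namespace Pool.Agent.Helper43.Landis

/-- one-dimensional weight -/
noncomputable def aw (C R t : ℝ) : ℝ := Real.exp (-(C * sq R t))

lemma aw_pos (C R t : ℝ) : 0 < aw C R t := Real.exp_pos _
lemma aw_continuous {C R : ℝ} : Continuous (aw C R) := by
  unfold aw; exact Real.continuous_exp.comp (continuous_const.mul sq_continuous).neg

lemma aw_hasDerivAt {C R : ℝ} (hR : 0 < R) (t : ℝ) :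
    HasDerivAt (aw C R) (-(C * sq1 R t) * aw C R t) t := by
  have := (((sq_hasDerivAt hR t).const_mul C).neg).exp
  convert! this using 1
  unfold aw
  simp only [Pi.neg_apply]
  ring

/-- one-dimensional complex profile -/
noncomputable def hh (C L : ℝ) (c : ℤ) (η : ℝ) (t : ℝ) : ℂ :=
  ((aw C (L ^ 2) t * bmp.f (t / L - c) : ℝ) : ℂ) * Complex.exp (((η * t : ℝ) : ℂ) * Complex.I)

/-- constant for the residual -/
noncomputable def K1 (C : ℝ) : ℝ := 2 * C ^ 2 + C + 2 * (1 + 2 * C) * C + bmp.B + 2 * C * bmp.B + 2 * (1 + 2 * C) * bmp.B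

lemma hh_norm_le {C L : ℝ} (c : ℤ) (η t : ℝ) : ‖hh C L c η t‖ ≤ aw C (L ^ 2) t := by
  unfold hh
  rw [norm_mul, Complex.norm_exp_ofReal_mul_I, mul_one, Complex.norm_real, Real.norm_eq_abs,
    abs_of_nonneg (mul_nonneg (aw_pos _ _ _).le (bmp.nonneg _))]
  have := bmp.le_one (t / L - c)
  have := (aw_pos C (L ^ 2) t)
  nlinarith

lemma hh_zero {C L : ℝ} (c : ℤ) (η t : ℝ) (ht : 1 < |t / L - c|) : hh C L c η t = 0 := by
  unfold hh; rw [bmp.f_zero _ ht]; simp

lemma hh_continuous {C L : ℝ} (c : ℤ) (η : ℝ) : Continuous (hh C L c η) := by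
  unfold hh
  have hb : Continuous bmp.f := continuous_iff_continuousAt.mpr fun t => (bmp.hf t).continuousAt
  refine Continuous.mul ?_ ?_
  · exact Complex.continuous_ofReal.comp (aw_continuous.mul (hb.comp (by fun_prop)))
  · fun_prop

lemma profile {C L : ℝ} (hC : 1 ≤ C) (hL : 1 ≤ L) (c : ℤ) {η : ℝ} (hη : |η| ≤ 1 + 2 * C) :
    ∃ h1 h2 r : ℝ → ℂ, Continuous h1 ∧ Continuous h2 ∧ Continuous r ∧
      (∀ t, HasDerivAt (hh C L c η) (h1 t) t) ∧ (∀ t, HasDerivAt h1 (h2 t) t) ∧
      (∀ t, h2 t = (((C * sq1 (L ^ 2) (L * c)) ^ 2 - η ^ 2 : ℝ) -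
        (2 * (η * (C * sq1 (L ^ 2) (L * c))) : ℝ) * Complex.I) * hh C L c η t + r t) ∧
      (∀ t, ‖r t‖ ≤ K1 C / L * aw C (L ^ 2) t) ∧ (∀ t, 1 < |t / L - c| → r t = 0) := by
  have hL0 : 0 < L := by linarith
  have hC0 : 0 < C := by linarith
  have hR : 0 < L ^ 2 := by positivity
  set R := L ^ 2 with hRdef
  set ξ : ℝ := C * sq1 R (L * c) with hξ
  set b : ℝ → ℝ := fun t => bmp.f (t / L - c) with hb
  set b1 : ℝ → ℝ := fun t => bmp.f1 (t / L - c) / L with hb1
  set b2 : ℝ → ℝ := fun t => bmp.f2 (t / L - c) / L ^ 2 with hb2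
  have hlin : ∀ t : ℝ, HasDerivAt (fun t : ℝ => t / L - c) (1 / L) t := by
    intro t
    have := ((hasDerivAt_id t).div_const L).sub_const (c : ℝ)
    simpa using this
  have hbd : ∀ t, HasDerivAt b (b1 t) t := by
    intro t
    have := (bmp.hf (t / L - c)).comp t (hlin t)
    convert! this using 1
    simp only [hb1]; ring
  have hb1d : ∀ t, HasDerivAt b1 (b2 t) t := by
    intro t
    have := ((bmp.hf1 (t / L - c)).comp t (hlin t)).div_const L
    convert! this using 1
    simp only [hb2]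
    field_simp
  have had := fun t => aw_hasDerivAt (C := C) hR t
  have hs1d := fun t => sq1_hasDerivAt hR t
  set e : ℝ → ℂ := fun t => Complex.exp (((η * t : ℝ) : ℂ) * Complex.I) with he
  have hed : ∀ t, HasDerivAt e ((η : ℂ) * Complex.I * e t) t := by
    intro t
    have h1 : HasDerivAt (fun t : ℝ => ((η * t : ℝ) : ℂ) * Complex.I) ((η : ℂ) * Complex.I) t := by
      have h2 : HasDerivAt (fun t : ℝ => η * t) η t := by
        simpa using (hasDerivAt_id t).const_mul η
      exact h2.ofReal_comp.mul_const Complex.I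
    have := h1.cexp
    convert! this using 1
    simp only [he]; ring
  set a : ℝ → ℝ := aw C R with ha
  set s1 : ℝ → ℝ := sq1 R with hs1
  set s2 : ℝ → ℝ := sq2 R with hs2
  have hac : Continuous a := aw_continuous
  have hbc : Continuous b := continuous_iff_continuousAt.mpr fun t => (hbd t).continuousAt
  have hb1c : Continuous b1 := continuous_iff_continuousAt.mpr fun t => (hb1d t).continuousAt
  have hb2c : Continuous b2 := (bmp.hf2c.comp (by fun_prop)).div_const _
  have hs1c : Continuous s1 := sq1_continuous hR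
  have hs2c : Continuous s2 := sq2_continuous hR
  have hec : Continuous e := continuous_iff_continuousAt.mpr fun t => (hed t).continuousAt
  -- first derivative
  set h1 : ℝ → ℂ := fun t => (((a t * (-(C * s1 t) * b t + b1 t) : ℝ) : ℂ)
    + ((a t * b t : ℝ) : ℂ) * ((η : ℂ) * Complex.I)) * e t with hh1
  set h2 : ℝ → ℂ := fun t => (((a t * ((C ^ 2 * s1 t ^ 2 - C * s2 t) * b t + b2 t - 2 * C * s1 t * b1 t
    - η ^ 2 * b t) : ℝ) : ℂ) + ((2 * η * (a t * (-(C * s1 t) * b t + b1 t)) : ℝ) : ℂ) * Complex.I) * e t with hh2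
  set r : ℝ → ℂ := fun t => (((a t * ((C ^ 2 * s1 t ^ 2 - ξ ^ 2 - C * s2 t) * b t + b2 t - 2 * C * s1 t * b1 t) : ℝ) : ℂ)
    + ((2 * η * (a t * (-(C * s1 t - ξ) * b t + b1 t)) : ℝ) : ℂ) * Complex.I) * e t with hr
  have d1 : ∀ t, HasDerivAt (hh C L c η) (h1 t) t := by
    intro t
    have g1 : HasDerivAt (fun t => a t * b t) (-(C * s1 t) * a t * b t + a t * b1 t) t := (had t).mul (hbd t)
    have g2 := g1.ofReal_comp.mul (hed t)
    have e1 : hh C L c η = fun t => ((a t * b t : ℝ) : ℂ) * e t := rfl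
    rw [e1]
    convert! g2 using 1
    simp only [hh1]
    push_cast
    ring
  have d2 : ∀ t, HasDerivAt h1 (h2 t) t := by
    intro t
    have gs : HasDerivAt (fun t => -(C * s1 t)) (-(C * s2 t)) t := ((hs1d t).const_mul C).neg
    have g0 : HasDerivAt (fun t => -(C * s1 t) * b t + b1 t)
        ((-(C * s2 t)) * b t + -(C * s1 t) * b1 t + b2 t) t := (gs.mul (hbd t)).add (hb1d t)
    have g1 : HasDerivAt (fun t => a t * (-(C * s1 t) * b t + b1 t))
        (-(C * s1 t) * a t * (-(C * s1 t) * b t + b1 t) + a t * ((-(C * s2 t)) * b t + -(C * s1 t) * b1 t + b2 t)) t :=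
      (had t).mul g0
    have g2 : HasDerivAt (fun t => a t * b t) (-(C * s1 t) * a t * b t + a t * b1 t) t := (had t).mul (hbd t)
    have g3 := ((g1.ofReal_comp).add (g2.ofReal_comp.mul_const ((η : ℂ) * Complex.I))).mul (hed t)
    convert! g3 using 1
    simp only [hh2, Pi.add_apply]
    push_cast
    have hI : Complex.I ^ 2 = -1 := Complex.I_sq
    linear_combination (-(a t : ℂ) * b t * η ^ 2 * e t) * hI
  have eq : ∀ t, h2 t = ((ξ ^ 2 - η ^ 2 : ℝ) - (2 * (η * ξ) : ℝ) * Complex.I) * hh C L c η t + r t := by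
    intro t
    have e1 : hh C L c η t = ((a t * b t : ℝ) : ℂ) * e t := rfl
    rw [e1]
    simp only [hh2, hr]
    push_cast
    ring
  have hbz : ∀ t, 1 < |t / L - c| → b t = 0 ∧ b1 t = 0 ∧ b2 t = 0 := by
    intro t ht
    refine ⟨bmp.f_zero _ ht, ?_, ?_⟩
    · simp only [hb1]; rw [bmp.f1_zero _ ht]; simp
    · simp only [hb2]; rw [bmp.f2_zero _ ht]; simp
  have rz : ∀ t, 1 < |t / L - c| → r t = 0 := by
    intro t ht
    obtain ⟨z1, z2, z3⟩ := hbz t ht
    simp only [hr]; rw [z1, z2, z3]; simp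
  refine ⟨h1, h2, r, ?_, ?_, ?_, d1, d2, eq, ?_, rz⟩
  · simp only [hh1]; fun_prop
  · simp only [hh2]; fun_prop
  · simp only [hr]; fun_prop
  · intro t
    by_cases ht : 1 < |t / L - c|
    · rw [rz t ht, norm_zero]
      have : 0 < K1 C := by unfold K1; have := bmp.hB; positivity
      have := aw_pos C R t
      positivity
    push Not at ht
    have hB := bmp.hB
    -- bounds of the ingredients
    have k0 : |t - L * c| ≤ L := by
      have : t - L * c = L * (t / L - c) := by field_simp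
      rw [this, abs_mul, abs_of_pos hL0]
      nlinarith
    have k1 : |C * s1 t - ξ| ≤ C / L := by
      have h := sq1_lip hR t (L * c)
      have : C * s1 t - ξ = C * (sq1 R t - sq1 R (L * c)) := by simp only [hs1, hξ]; ring
      rw [this, abs_mul, abs_of_pos hC0]
      have h3 : 1 / R * |t - L * c| ≤ 1 / L := by
        calc 1 / R * |t - L * c| ≤ 1 / R * L := by gcongr
          _ = 1 / L := by rw [hRdef]; field_simp
      calc C * |sq1 R t - sq1 R (L * c)| ≤ C * (1 / L) := by gcongr; exact h.trans h3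
        _ = C / L := by ring
    have ks1 : |s1 t| ≤ 1 := abs_sq1_le hR t
    have kξ : |ξ| ≤ C := by
      rw [hξ, abs_mul, abs_of_pos hC0]
      have := abs_sq1_le hR (L * c)
      nlinarith
    have k2 : |C ^ 2 * s1 t ^ 2 - ξ ^ 2| ≤ 2 * C ^ 2 / L := by
      have : C ^ 2 * s1 t ^ 2 - ξ ^ 2 = (C * s1 t - ξ) * (C * s1 t + ξ) := by ring
      rw [this, abs_mul]
      have h3 : |C * s1 t + ξ| ≤ 2 * C := by
        calc |C * s1 t + ξ| ≤ |C * s1 t| + |ξ| := abs_add_le _ _
          _ ≤ C * 1 + C := by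
            rw [abs_mul, abs_of_pos hC0]; gcongr
          _ = 2 * C := by ring
      calc |C * s1 t - ξ| * |C * s1 t + ξ| ≤ (C / L) * (2 * C) :=
            mul_le_mul k1 h3 (abs_nonneg _) (by positivity)
        _ = 2 * C ^ 2 / L := by ring
    have k3 : |C * s2 t| ≤ C / L := by
      rw [abs_mul, abs_of_pos hC0, abs_of_nonneg (sq2_nonneg hR t)]
      have h3 := sq2_le hR t
      have h4 : 1 / R ≤ 1 / L := by
        apply one_div_le_one_div_of_le hL0
        rw [hRdef]; nlinarith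
      calc C * sq2 R t ≤ C * (1 / L) := by gcongr; exact h3.trans h4
        _ = C / L := by ring
    have kb : |b t| ≤ 1 := by
      rw [abs_of_nonneg (bmp.nonneg _)]; exact bmp.le_one _
    have kb1 : |b1 t| ≤ bmp.B / L := by
      simp only [hb1]; rw [abs_div, abs_of_pos hL0]
      gcongr; exact bmp.f1_le _
    have kb2 : |b2 t| ≤ bmp.B / L := by
      simp only [hb2]; rw [abs_div, abs_of_pos hR]
      calc |bmp.f2 (t / L - c)| / L ^ 2 ≤ bmp.B / L ^ 2 := by gcongr; exact bmp.f2_le _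
        _ ≤ bmp.B / L := by
          apply div_le_div_of_nonneg_left hB.le hL0; nlinarith
    -- real part
    have m1 : |(C ^ 2 * s1 t ^ 2 - ξ ^ 2 - C * s2 t) * b t + b2 t - 2 * C * s1 t * b1 t|
        ≤ (2 * C ^ 2 + C + bmp.B + 2 * C * bmp.B) / L := by
      have n1 : |(C ^ 2 * s1 t ^ 2 - ξ ^ 2 - C * s2 t) * b t| ≤ (2 * C ^ 2 / L + C / L) * 1 := by
        rw [abs_mul]
        refine mul_le_mul ((abs_sub _ _).trans (add_le_add k2 k3)) kb (abs_nonneg _) (by positivity)
      have n2 : |2 * C * s1 t * b1 t| ≤ 2 * C * 1 * (bmp.B / L) := by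
        rw [abs_mul, abs_mul, abs_of_pos (by positivity : (0:ℝ) < 2 * C)]
        gcongr
      calc |(C ^ 2 * s1 t ^ 2 - ξ ^ 2 - C * s2 t) * b t + b2 t - 2 * C * s1 t * b1 t|
          ≤ |(C ^ 2 * s1 t ^ 2 - ξ ^ 2 - C * s2 t) * b t + b2 t| + |2 * C * s1 t * b1 t| := abs_sub _ _
        _ ≤ |(C ^ 2 * s1 t ^ 2 - ξ ^ 2 - C * s2 t) * b t| + |b2 t| + |2 * C * s1 t * b1 t| := by
            gcongr; exact abs_add_le _ _
        _ ≤ (2 * C ^ 2 / L + C / L) * 1 + bmp.B / L + 2 * C * 1 * (bmp.B / L) := by gcongr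
        _ = _ := by ring
    have m2 : |2 * η * (-(C * s1 t - ξ) * b t + b1 t)| ≤ (2 * (1 + 2 * C) * C + 2 * (1 + 2 * C) * bmp.B) / L := by
      have n1 : |-(C * s1 t - ξ) * b t + b1 t| ≤ C / L * 1 + bmp.B / L := by
        refine (abs_add_le _ _).trans (add_le_add ?_ kb1)
        rw [abs_mul, abs_neg]
        exact mul_le_mul k1 kb (abs_nonneg _) (by positivity)
      rw [abs_mul, abs_mul, abs_two]
      calc 2 * |η| * |-(C * s1 t - ξ) * b t + b1 t| ≤ 2 * (1 + 2 * C) * (C / L * 1 + bmp.B / L) := by gcongr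
        _ = _ := by ring
    have hapos := aw_pos C R t
    have hnorm : ‖r t‖ ≤ a t * ((2 * C ^ 2 + C + bmp.B + 2 * C * bmp.B) / L)
        + a t * ((2 * (1 + 2 * C) * C + 2 * (1 + 2 * C) * bmp.B) / L) := by
      simp only [hr, he]
      rw [norm_mul, Complex.norm_exp_ofReal_mul_I, mul_one]
      refine (norm_add_le _ _).trans (add_le_add ?_ ?_)
      · rw [Complex.norm_real, Real.norm_eq_abs, abs_mul, abs_of_pos hapos]
        exact mul_le_mul_of_nonneg_left m1 hapos.le
      · rw [norm_mul, Complex.norm_I, mul_one, Complex.norm_real, Real.norm_eq_abs]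
        have : 2 * η * (a t * (-(C * s1 t - ξ) * b t + b1 t)) = a t * (2 * η * (-(C * s1 t - ξ) * b t + b1 t)) := by
          ring
        rw [this, abs_mul, abs_of_pos hapos]
        exact mul_le_mul_of_nonneg_left m2 hapos.le
    refine hnorm.trans (le_of_eq ?_)
    unfold K1
    ring

end Pool.Agent.Helper43.Landis
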