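import Mathlib
import Pool.Agent.Helper43.Land7

set_option autoImplicit false
open MeasureTheory Set Filter Topology Metric

namespace Pool.Agent.Helper43.Landis

/-- two integrations by parts in one coordinate direction -/
lemma ibp2 {d : ℕ} (i : Fin d) {F G H : EE d → ℝ} (hF : Continuous F) (hG : Continuous G) (hH : Continuous H)
    (hFG : ∀ x, HasLineDerivAt ℝ F (G x) x (EuclideanSpace.single i 1))
    (hGH : ∀ x, HasLineDerivAt ℝ G (H x) x (EuclideanSpace.single i 1))
    {φ : EE d → ℝ} (hφ : ContDiff ℝ 2 φ) (hs : HasCompactSupport φ) :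
    ∫ x, F x * iteratedFDeriv ℝ 2 φ x (fun _ => EuclideanSpace.single i (1 : ℝ)) = ∫ x, H x * φ x := by
  set e : EE d := EuclideanSpace.single i (1:ℝ) with he
  have hd1 : ContDiff ℝ 1 (fderiv ℝ φ) := hφ.fderiv_right (by norm_num)
  set g : EE d → ℝ := fun v => fderiv ℝ φ v e with hg
  have hgd : ContDiff ℝ 1 g := hd1.clm_apply contDiff_const
  have hg' : ∀ v, fderiv ℝ g v e = iteratedFDeriv ℝ 2 φ v (fun _ => e) := by
    intro v
    have h2 : HasFDerivAt (fderiv ℝ φ) (fderiv ℝ (fderiv ℝ φ) v) v :=
      ((hd1.differentiable (by norm_num)) _).hasFDerivAt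
    have h4 := h2.clm_apply (hasFDerivAt_const e v)
    have h5 : fderiv ℝ g v = _ := h4.fderiv
    rw [h5, iteratedFDeriv_two_apply]
    simp
  have hcg : Continuous g := hgd.continuous
  have hcg' : Continuous fun v => fderiv ℝ g v e :=
    (hgd.continuous_fderiv (by norm_num)).clm_apply continuous_const
  have hsg : HasCompactSupport g := by
    refine (hs.fderiv (𝕜 := ℝ)).mono ?_
    intro x hx
    rw [Function.mem_support] at hx ⊢
    intro h0; apply hx; simp only [hg]; rw [h0]; simp
  have hsg' : HasCompactSupport fun v => fderiv ℝ g v e := by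
    refine (hsg.fderiv (𝕜 := ℝ)).mono ?_
    intro x hx
    rw [Function.mem_support] at hx ⊢
    intro h0; apply hx; rw [h0]; simp
  have ibp1 : ∫ x, F x * fderiv ℝ g x e = - ∫ x, G x * g x := by
    refine integral_bilinear_hasLineDerivAt_right_eq_neg_left_of_integrable (B := ContinuousLinearMap.mul ℝ ℝ)
      (v := e) ?_ ?_ ?_ (fun x _ => hFG x) (fun x _ => ?_)
    · exact (hG.mul hcg).integrable_of_hasCompactSupport hsg.mul_left
    · exact (hF.mul hcg').integrable_of_hasCompactSupport hsg'.mul_left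
    · exact (hF.mul hcg).integrable_of_hasCompactSupport hsg.mul_left
    · exact ((hgd.differentiable (by norm_num)) x).hasFDerivAt.hasLineDerivAt e
  have ibp2 : ∫ x, G x * g x = - ∫ x, H x * φ x := by
    refine integral_bilinear_hasLineDerivAt_right_eq_neg_left_of_integrable (B := ContinuousLinearMap.mul ℝ ℝ)
      (v := e) ?_ ?_ ?_ (fun x _ => hGH x) (fun x _ => ?_)
    · exact (hH.mul hφ.continuous).integrable_of_hasCompactSupport hs.mul_left
    · exact (hG.mul hcg).integrable_of_hasCompactSupport hsg.mul_left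
    · exact (hG.mul hφ.continuous).integrable_of_hasCompactSupport hs.mul_left
    · exact ((hφ.differentiable (by norm_num)) x).hasFDerivAt.hasLineDerivAt e
  calc ∫ x, F x * iteratedFDeriv ℝ 2 φ x (fun _ => e) = ∫ x, F x * fderiv ℝ g x e := by
        congr 1; ext x; rw [hg' x]
    _ = ∫ x, H x * φ x := by rw [ibp1, ibp2, neg_neg]

/-- real part of a product of one-dimensional profiles -/
noncomputable def prod3 (h : Fin 3 → ℝ → ℂ) (x : EE 3) : ℝ := (∏ j, h j (x j)).re

lemma prod3_continuous {h : Fin 3 → ℝ → ℂ} (hc : ∀ j, Continuous (h j)) : Continuous (prod3 h) := by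
  unfold prod3
  refine Complex.continuous_re.comp (continuous_finsetProd _ fun j _ => (hc j).comp (by fun_prop))

lemma prod3_line {h : Fin 3 → ℝ → ℂ} {i : Fin 3} {h1 : ℝ → ℂ} (hd : ∀ t, HasDerivAt (h i) (h1 t) t)
    (x : EE 3) : HasLineDerivAt ℝ (prod3 h) (prod3 (Function.update h i h1) x) x (EuclideanSpace.single i 1) := by
  classical
  unfold HasLineDerivAt
  set P : ℂ := ∏ j ∈ Finset.univ.erase i, h j (x j) with hP
  have e1 : ∀ t : ℝ, prod3 h (x + t • EuclideanSpace.single i 1) = (h i (x i + t) * P).re := by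
    intro t
    unfold prod3
    rw [← Finset.mul_prod_erase Finset.univ _ (Finset.mem_univ i)]
    congr 2
    · simp
    · apply Finset.prod_congr rfl
      intro j hj
      have hji : j ≠ i := Finset.ne_of_mem_erase hj
      simp [hji]
  have e2 : prod3 (Function.update h i h1) x = (h1 (x i) * P).re := by
    unfold prod3
    rw [← Finset.mul_prod_erase Finset.univ _ (Finset.mem_univ i)]
    congr 2
    · simp
    · apply Finset.prod_congr rfl
      intro j hj
      have hji : j ≠ i := Finset.ne_of_mem_erase hj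
      simp [hji]
  rw [e2]
  have e3 : (fun t : ℝ => prod3 h (x + t • EuclideanSpace.single i 1)) = fun t => (h i (x i + t) * P).re := by
    ext t; exact e1 t
  rw [e3]
  have g1 : HasDerivAt (fun t : ℝ => h i (x i + t)) (h1 (x i)) 0 := by
    have g0 : HasDerivAt (fun t : ℝ => x i + t) 1 0 := by
      simpa using (hasDerivAt_id (0:ℝ)).const_add (x i)
    have h0 : HasDerivAt (h i) (h1 (x i)) (x i + 0) := by rw [add_zero]; exact hd (x i)
    have := h0.scomp (0:ℝ) g0
    rw [one_smul] at this
    exact this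
  have g2 := g1.mul_const P
  have g3 := Complex.reCLM.hasFDerivAt.comp_hasDerivAt (0:ℝ) g2
  exact g3

lemma prod3_norm_le {h : Fin 3 → ℝ → ℂ} {x : EE 3} {a : Fin 3 → ℝ} (ha : ∀ j, ‖h j (x j)‖ ≤ a j) :
    |prod3 h x| ≤ ∏ j, a j := by
  unfold prod3
  refine (Complex.abs_re_le_norm _).trans ?_
  rw [norm_prod]
  exact Finset.prod_le_prod (fun j _ => norm_nonneg _) (fun j _ => ha j)

/-- weak Laplacian of a product -/
lemma prod3_weak {h h1 h2 : Fin 3 → ℝ → ℂ} (hc : ∀ j, Continuous (h j)) (hc1 : ∀ j, Continuous (h1 j))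
    (hc2 : ∀ j, Continuous (h2 j)) (hd : ∀ j t, HasDerivAt (h j) (h1 j t) t)
    (hd1 : ∀ j t, HasDerivAt (h1 j) (h2 j t) t)
    {φ : EE 3 → ℝ} (hφ : ContDiff ℝ 2 φ) (hs : HasCompactSupport φ) :
    ∫ x, prod3 h x * lap φ x = ∫ x, (∑ i, prod3 (Function.update h i (h2 i)) x) * φ x := by
  classical
  have hcu : ∀ i, ∀ g : ℝ → ℂ, Continuous g → Continuous (prod3 (Function.update h i g)) := by
    intro i g hg
    apply prod3_continuous
    intro j
    by_cases hj : j = i
    · subst hj; simpa using hg
    · simpa [hj] using hc j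
  have key : ∀ i, ∫ x, prod3 h x * iteratedFDeriv ℝ 2 φ x (fun _ => EuclideanSpace.single i (1 : ℝ))
      = ∫ x, prod3 (Function.update h i (h2 i)) x * φ x := by
    intro i
    refine ibp2 i (prod3_continuous hc) (hcu i _ (hc1 i)) (hcu i _ (hc2 i)) (prod3_line (hd i)) ?_ hφ hs
    intro x
    have := prod3_line (h := Function.update h i (h1 i)) (i := i) (h1 := h2 i) (by simpa using hd1 i) x
    simpa using this
  have hci : ∀ i : Fin 3, Continuous fun x : EE 3 => iteratedFDeriv ℝ 2 φ x (fun _ => EuclideanSpace.single i (1 : ℝ)) := by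
    intro i
    have := hφ.continuous_iteratedFDeriv (m := 2) (by norm_num)
    exact (ContinuousMultilinearMap.apply ℝ (fun _ : Fin 2 => EE 3) ℝ
        (fun _ => EuclideanSpace.single i (1 : ℝ))).continuous.comp this
  have hsi : ∀ i : Fin 3, HasCompactSupport fun x : EE 3 => iteratedFDeriv ℝ 2 φ x (fun _ => EuclideanSpace.single i (1 : ℝ)) := by
    intro i
    refine (hs.iteratedFDeriv (𝕜 := ℝ) 2).mono ?_
    intro x hx
    rw [Function.mem_support] at hx ⊢
    intro h0
    apply hx
    rw [h0]; simp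
  unfold lap
  simp_rw [Finset.mul_sum, Finset.sum_mul]
  rw [integral_finsetSum, integral_finsetSum]
  · exact Finset.sum_congr rfl fun i _ => key i
  · intro i _
    exact ((hcu i _ (hc2 i)).mul hφ.continuous).integrable_of_hasCompactSupport hs.mul_left
  · intro i _
    exact ((prod3_continuous hc).mul (hci i)).integrable_of_hasCompactSupport (hsi i).mul_left

end Pool.Agent.Helper43.Landis
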