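import Mathlib
import Pool.Agent.Helper43.Land8

set_option autoImplicit false
open MeasureTheory Set Filter Topology Metric

namespace Pool.Agent.Helper43.Landis

/-- weight -/
noncomputable def ww (C L : ℝ) (x : EE 3) : ℝ := ∏ j, aw C (L ^ 2) (x j)
/-- cell cut-off -/
noncomputable def chi (L : ℝ) (c : Fin 3 → ℤ) (x : EE 3) : ℝ := ∏ j, bmp.f (x j / L - c j)
/-- cell function -/
noncomputable def Fc (C L : ℝ) (c : Fin 3 → ℤ) (η : EE 3) : EE 3 → ℝ :=
  prod3 (fun j => hh C L (c j) (η j))
/-- gradient of the phase at the centre of the cell -/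
noncomputable def xi (C L : ℝ) (c : Fin 3 → ℤ) : EE 3 :=
  WithLp.toLp 2 (fun j => C * sq1 (L ^ 2) (L * c j))

lemma ww_pos (C L : ℝ) (x : EE 3) : 0 < ww C L x := Finset.prod_pos fun _ _ => aw_pos _ _ _
lemma ww_continuous {C L : ℝ} : Continuous (ww C L) := by
  unfold ww
  exact continuous_finsetProd _ fun j _ => aw_continuous.comp (by fun_prop)

lemma bmp_continuous : Continuous bmp.f :=
  continuous_iff_continuousAt.mpr fun t => (bmp.hf t).continuousAt

lemma Fc_eq (C L : ℝ) (c : Fin 3 → ℤ) (η x : EE 3) :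
    Fc C L c η x = ww C L x * (chi L c x * Real.cos (inner ℝ η x)) := by
  unfold Fc prod3 ww chi hh
  rw [Finset.prod_mul_distrib, ← Complex.exp_sum, ← Complex.ofReal_prod, ← Finset.sum_mul,
    ← Complex.ofReal_sum, Complex.re_ofReal_mul, Complex.exp_ofReal_mul_I_re, Finset.prod_mul_distrib,
    mul_assoc]
  congr 3
  rw [PiLp.inner_apply]
  apply congrArg
  funext i
  simp [mul_comm]

lemma Fc_continuous (C L : ℝ) (c : Fin 3 → ℤ) (η : EE 3) : Continuous (Fc C L c η) :=
  prod3_continuous fun _ => hh_continuous _ _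

lemma chi_zero {L : ℝ} {c : Fin 3 → ℤ} {x : EE 3} (h : ∃ j, 1 < |x j / L - c j|) : chi L c x = 0 := by
  obtain ⟨j, hj⟩ := h
  exact Finset.prod_eq_zero (Finset.mem_univ j) (bmp.f_zero _ hj)

lemma Fc_zero {C L : ℝ} {c : Fin 3 → ℤ} {η x : EE 3} (h : ∃ j, 1 < |x j / L - c j|) : Fc C L c η x = 0 := by
  rw [Fc_eq, chi_zero h]; simp

lemma chi_nonneg (L : ℝ) (c : Fin 3 → ℤ) (x : EE 3) : 0 ≤ chi L c x :=
  Finset.prod_nonneg fun _ _ => bmp.nonneg _
lemma chi_le_one (L : ℝ) (c : Fin 3 → ℤ) (x : EE 3) : chi L c x ≤ 1 :=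
  Finset.prod_le_one (fun _ _ => bmp.nonneg _) fun _ _ => bmp.le_one _

lemma Fc_le (C L : ℝ) (c : Fin 3 → ℤ) (η x : EE 3) : |Fc C L c η x| ≤ ww C L x := by
  rw [Fc_eq, abs_mul, abs_of_pos (ww_pos C L x), abs_mul, abs_of_nonneg (chi_nonneg L c x)]
  have h1 := chi_le_one L c x
  have h2 := chi_nonneg L c x
  have h3 := Real.abs_cos_le_one (inner ℝ η x)
  have h4 := ww_pos C L x
  have h5 : chi L c x * |Real.cos (inner ℝ η x)| ≤ 1 := by
    calc _ ≤ 1 * 1 := mul_le_mul h1 h3 (abs_nonneg _) (by norm_num)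
      _ = 1 := by norm_num
  nlinarith

lemma cell {C L : ℝ} (hC : 1 ≤ C) (hL : 1 ≤ L) (c : Fin 3 → ℤ) {η : EE 3}
    (h0 : inner ℝ (xi C L c) η = 0) (h1 : ‖η‖ ^ 2 = 1 + ‖xi C L c‖ ^ 2) :
    ∃ R : EE 3 → ℝ, Continuous R ∧ (∀ x, |R x| ≤ 3 * K1 C / L * ww C L x) ∧
      (∀ x, (∃ j, 1 < |x j / L - c j|) → R x = 0) ∧
      ∀ φ : EE 3 → ℝ, ContDiff ℝ 2 φ → HasCompactSupport φ →
        ∫ x, Fc C L c η x * lap φ x = ∫ x, (-Fc C L c η x + R x) * φ x := by
  classical
  have hL0 : 0 < L := by linarith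
  have hC0 : 0 < C := by linarith
  have hR : 0 < L ^ 2 := by positivity
  have hK : 0 < K1 C := by unfold K1; have := bmp.hB; positivity
  -- size of η
  have hxi : ‖xi C L c‖ ^ 2 ≤ 3 * C ^ 2 := by
    rw [EuclideanSpace.real_norm_sq_eq, Fin.sum_univ_three]
    have : ∀ j, ((xi C L c) j) ^ 2 ≤ C ^ 2 := by
      intro j
      have hj : (xi C L c) j = C * sq1 (L ^ 2) (L * c j) := rfl
      rw [hj, mul_pow]
      have := abs_sq1_le hR (L * c j)
      have h2 : (sq1 (L ^ 2) (L * c j)) ^ 2 ≤ 1 := by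
        rw [← sq_abs]; nlinarith [abs_nonneg (sq1 (L ^ 2) (L * c j))]
      nlinarith [sq_nonneg C]
    linarith [this 0, this 1, this 2]
  have hηn : ‖η‖ ≤ 1 + 2 * C := by
    have : ‖η‖ ^ 2 ≤ (1 + 2 * C) ^ 2 := by rw [h1]; nlinarith
    exact le_of_sq_le_sq this (by linarith)
  have hηj : ∀ j, |η j| ≤ 1 + 2 * C := by
    intro j
    have := PiLp.norm_apply_le η j
    rw [Real.norm_eq_abs] at this
    linarith
  choose p1 p2 r hp1 hp2 hr hd1 hd2 heq hrb hrz using fun j => profile hC hL (c j) (hηj j)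
  set h : Fin 3 → ℝ → ℂ := fun j => hh C L (c j) (η j) with hh'
  have hhc : ∀ j, Continuous (h j) := fun j => hh_continuous _ _
  set R : EE 3 → ℝ := fun x => ∑ i, prod3 (Function.update h i (r i)) x with hRdef
  have hRc : Continuous R := by
    refine continuous_finsetSum _ fun i _ => prod3_continuous fun j => ?_
    by_cases hj : j = i
    · subst hj; simpa using hr j
    · simpa [hj] using hhc j
  have hsplit : ∀ x, (∑ i, prod3 (Function.update h i (p2 i)) x) = -prod3 h x + R x := by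
    intro x
    set lam : Fin 3 → ℂ := fun i => ((((C * sq1 (L ^ 2) (L * c i)) ^ 2 - η i ^ 2 : ℝ) : ℂ) -
        ((2 * (η i * (C * sq1 (L ^ 2) (L * c i))) : ℝ) : ℂ) * Complex.I) with hlam
    have hlsum : ∑ i, lam i = -1 := by
      simp only [hlam]
      rw [Finset.sum_sub_distrib, ← Finset.sum_mul, ← Complex.ofReal_sum, ← Complex.ofReal_sum]
      have g1 : ∑ i, ((C * sq1 (L ^ 2) (L * c i)) ^ 2 - η i ^ 2) = -1 := by
        rw [EuclideanSpace.real_norm_sq_eq, EuclideanSpace.real_norm_sq_eq] at h1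
        have : ∀ j, (xi C L c) j = C * sq1 (L ^ 2) (L * c j) := fun j => rfl
        simp only [this] at h1
        rw [Finset.sum_sub_distrib]
        linarith
      have g2 : ∑ i, (2 * (η i * (C * sq1 (L ^ 2) (L * c i)))) = 0 := by
        rw [PiLp.inner_apply] at h0
        have : ∀ j, (xi C L c) j = C * sq1 (L ^ 2) (L * c j) := fun j => rfl
        simp only [this] at h0
        rw [← Finset.mul_sum]
        have h3 : ∑ i, η i * (C * sq1 (L ^ 2) (L * c i)) = 0 := by
          rw [← h0]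
          apply Finset.sum_congr rfl
          intro i _
          simp
        rw [h3, mul_zero]
      rw [g1, g2]; simp
    have hterm : ∀ i, prod3 (Function.update h i (p2 i)) x =
        (lam i * ∏ j, h j (x j)).re + prod3 (Function.update h i (r i)) x := by
      intro i
      unfold prod3
      rw [← Complex.add_re]
      congr 1
      have e1 : ∀ g : ℝ → ℂ, ∏ j, (Function.update h i g) j (x j) = g (x i) * ∏ j ∈ Finset.univ.erase i, h j (x j) := by
        intro g
        rw [← Finset.mul_prod_erase Finset.univ _ (Finset.mem_univ i)]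
        congr 1
        · simp
        · apply Finset.prod_congr rfl
          intro j hj
          simp [Finset.ne_of_mem_erase hj]
      rw [e1, e1, ← Finset.mul_prod_erase Finset.univ _ (Finset.mem_univ i), heq i (x i)]
      simp only [hlam, hh']
      ring
    rw [Finset.sum_congr rfl fun i _ => hterm i, Finset.sum_add_distrib, ← Complex.re_sum, ← Finset.sum_mul, hlsum]
    simp [prod3, hRdef]
  refine ⟨R, hRc, ?_, ?_, ?_⟩
  · intro x
    have hb : ∀ i, |prod3 (Function.update h i (r i)) x| ≤ K1 C / L * ww C L x := by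
      intro i
      have g1 := prod3_norm_le (h := Function.update h i (r i)) (x := x)
        (a := fun j => (if j = i then K1 C / L else 1) * aw C (L ^ 2) (x j)) (by
          intro j
          by_cases hj : j = i
          · subst hj; simpa using hrb j (x j)
          · simpa [hj] using hh_norm_le (c j) (η j) (x j))
      refine g1.trans (le_of_eq ?_)
      rw [Finset.prod_mul_distrib, Finset.prod_ite_eq' Finset.univ i]
      simp [ww]
    calc |R x| ≤ ∑ i, |prod3 (Function.update h i (r i)) x| := Finset.abs_sum_le_sum_abs _ _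
      _ ≤ ∑ i : Fin 3, K1 C / L * ww C L x := Finset.sum_le_sum fun i _ => hb i
      _ = 3 * K1 C / L * ww C L x := by simp; ring
  · rintro x ⟨j, hj⟩
    simp only [hRdef]
    apply Finset.sum_eq_zero
    intro i _
    unfold prod3
    rw [Finset.prod_eq_zero (Finset.mem_univ j)]
    · simp
    · by_cases hij : j = i
      · subst hij; simpa using hrz j (x j) hj
      · simpa [hij] using hh_zero (c j) (η j) (x j) hj
  · intro φ hφ hs
    have := prod3_weak (h := h) (h1 := p1) (h2 := p2) hhc hp1 hp2 hd1 hd2 hφ hs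
    unfold Fc
    rw [this]
    congr 1; ext x
    rw [hsplit x]

end Pool.Agent.Helper43.Landis
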