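import Mathlib
import Pool.Agent.Helper43.Land9

set_option autoImplicit false
open MeasureTheory Set Filter Topology Metric

namespace Pool.Agent.Helper43.Landis

/-- the 64 cells near `y` -/
noncomputable def idx (L : ℝ) (y : EE 3) (e : Fin 3 → Fin 4) : Fin 3 → ℤ :=
  fun i => ⌊y i / L⌋ - 1 + ((e i : ℕ) : ℤ)

lemma idx_injective (L : ℝ) (y : EE 3) : Function.Injective (idx L y) := by
  intro e f h
  funext i
  have := congrFun h i
  simp only [idx] at this
  apply Fin.ext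
  omega

lemma idx_near (L : ℝ) (y : EE 3) (e f : Fin 3 → Fin 4) (i : Fin 3) : |idx L y e i - idx L y f i| ≤ 3 := by
  simp only [idx]
  have h1 := (e i).2
  have h2 := (f i).2
  rw [abs_le]
  constructor <;> omega

lemma mem_idx {L : ℝ} (hL : 2 ≤ L) {x y : EE 3} (hxy : ‖x - y‖ ≤ 1) {c : Fin 3 → ℤ}
    (hc : ∀ i, |x i / L - c i| ≤ 1) : ∃ e, idx L y e = c := by
  have hL0 : 0 < L := by linarith
  have hci : ∀ i, 0 ≤ c i - ⌊y i / L⌋ + 1 ∧ c i - ⌊y i / L⌋ + 1 < 4 := by
    intro i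
    have h1 : |x i - y i| ≤ 1 := by
      have := PiLp.norm_apply_le (x - y) i
      rw [Real.norm_eq_abs] at this
      simpa using this.trans hxy
    have h2 : |x i / L - y i / L| ≤ 1 / 2 := by
      rw [← sub_div, abs_div, abs_of_pos hL0, div_le_iff₀ hL0]
      linarith
    have h3 := Int.floor_le (y i / L)
    have h4 := Int.lt_floor_add_one (y i / L)
    have h5 := abs_le.mp (hc i)
    have h6 := abs_le.mp h2
    constructor
    · have : ((⌊y i / L⌋ : ℝ)) - 2 < c i := by linarith [h5.1, h5.2, h6.1, h6.2]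
      have h7 : ⌊y i / L⌋ - 2 < c i := by exact_mod_cast this
      omega
    · have : (c i : ℝ) < (⌊y i / L⌋ : ℝ) + 3 := by linarith [h5.1, h5.2, h6.1, h6.2]
      have h7 : c i < ⌊y i / L⌋ + 3 := by exact_mod_cast this
      omega
  refine ⟨fun i => ⟨(c i - ⌊y i / L⌋ + 1).toNat, by have := hci i; omega⟩, ?_⟩
  funext i
  simp only [idx]
  have := hci i
  omega

lemma finsum_local {L : ℝ} (hL : 2 ≤ L) {G : (Fin 3 → ℤ) → EE 3 → ℝ}
    (hG : ∀ c x, (∃ j, 1 < |x j / L - c j|) → G c x = 0) {x y : EE 3} (hxy : ‖x - y‖ ≤ 1) :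
    ∑ᶠ c, G c x = ∑ e, G (idx L y e) x := by
  classical
  rw [finsum_eq_sum_of_support_subset (s := Finset.univ.image (idx L y))]
  · rw [Finset.sum_image]
    intro a _ b _ hab
    exact idx_injective L y hab
  · intro c hc
    rw [Function.mem_support] at hc
    have h1 : ∀ i, |x i / L - c i| ≤ 1 := by
      by_contra hcon
      push Not at hcon
      exact hc (hG c x hcon)
    obtain ⟨e, he⟩ := mem_idx hL hxy h1
    simp only [Finset.coe_image, Finset.coe_univ, image_univ, mem_range]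
    exact ⟨e, he⟩

lemma finsum_cont {L : ℝ} (hL : 2 ≤ L) {G : (Fin 3 → ℤ) → EE 3 → ℝ}
    (hG : ∀ c x, (∃ j, 1 < |x j / L - c j|) → G c x = 0) (hGc : ∀ c, Continuous (G c)) :
    Continuous fun x => ∑ᶠ c, G c x := by
  rw [continuous_iff_continuousAt]
  intro y
  have h1 : Continuous fun x => ∑ e, G (idx L y e) x := continuous_finsetSum _ fun e _ => hGc _
  refine h1.continuousAt.congr ?_
  filter_upwards [closedBall_mem_nhds y one_pos] with x hx
  rw [mem_closedBall, dist_eq_norm] at hx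
  exact (finsum_local hL hG hx).symm

lemma finsum_finset {L : ℝ} (hL : 2 ≤ L) (ρ : ℝ) : ∃ s : Finset (Fin 3 → ℤ),
    ∀ G : (Fin 3 → ℤ) → EE 3 → ℝ, (∀ c x, (∃ j, 1 < |x j / L - c j|) → G c x = 0) →
      ∀ x, ‖x‖ ≤ ρ → ∑ᶠ c, G c x = ∑ c ∈ s, G c x := by
  classical
  have hL0 : 0 < L := by linarith
  obtain ⟨n, hn⟩ := exists_nat_ge (|ρ| + 1)
  refine ⟨Fintype.piFinset fun _ => Finset.Icc (-(n : ℤ)) n, fun G hG x hx => ?_⟩
  apply finsum_eq_sum_of_support_subset
  intro c hc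
  rw [Function.mem_support] at hc
  have h1 : ∀ i, |x i / L - c i| ≤ 1 := by
    by_contra hcon
    push Not at hcon
    exact hc (hG c x hcon)
  rw [Finset.mem_coe, Fintype.mem_piFinset]
  intro i
  rw [Finset.mem_Icc]
  have h2 := abs_le.mp (h1 i)
  have h3 : |x i / L| ≤ |ρ| := by
    have h4 := PiLp.norm_apply_le x i
    rw [Real.norm_eq_abs] at h4
    rw [abs_div, abs_of_pos hL0]
    have h5 : |x i| / L ≤ |x i| := div_le_self (abs_nonneg _) (by linarith)
    exact h5.trans (h4.trans (hx.trans (le_abs_self _)))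
  have h4 := abs_le.mp h3
  constructor
  · have : (-(n : ℝ)) ≤ c i := by linarith [h2.1, h2.2, h4.1, h4.2]
    exact_mod_cast this
  · have : (c i : ℝ) ≤ n := by linarith [h2.1, h2.2, h4.1, h4.2]
    exact_mod_cast this

lemma finsum_weak {L : ℝ} (hL : 2 ≤ L) {F R : (Fin 3 → ℤ) → EE 3 → ℝ}
    (hF : ∀ c x, (∃ j, 1 < |x j / L - c j|) → F c x = 0)
    (hR : ∀ c x, (∃ j, 1 < |x j / L - c j|) → R c x = 0)
    (hFc : ∀ c, Continuous (F c)) (hRc : ∀ c, Continuous (R c))
    (hw : ∀ c, ∀ φ : EE 3 → ℝ, ContDiff ℝ 2 φ → HasCompactSupport φ →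
        ∫ x, F c x * lap φ x = ∫ x, (-F c x + R c x) * φ x)
    (φ : EE 3 → ℝ) (hφ : ContDiff ℝ 2 φ) (hs : HasCompactSupport φ) :
    ∫ x, (∑ᶠ c, F c x) * lap φ x = ∫ x, (-(∑ᶠ c, F c x) + ∑ᶠ c, R c x) * φ x := by
  classical
  obtain ⟨ρ1, hρ1⟩ := hs.isCompact.isBounded.subset_closedBall (0 : EE 3)
  obtain ⟨ρ2, hρ2⟩ := (lap_hcs hs).isCompact.isBounded.subset_closedBall (0 : EE 3)
  obtain ⟨s, hsum⟩ := finsum_finset hL (max ρ1 ρ2)
  have z1 : ∀ x, max ρ1 ρ2 < ‖x‖ → φ x = 0 := by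
    intro x hx
    apply image_eq_zero_of_notMem_tsupport
    intro hx2
    have := hρ1 hx2
    rw [mem_closedBall, dist_zero_right] at this
    linarith [le_max_left ρ1 ρ2]
  have z2 : ∀ x, max ρ1 ρ2 < ‖x‖ → lap φ x = 0 := by
    intro x hx
    apply image_eq_zero_of_notMem_tsupport
    intro hx2
    have := hρ2 hx2
    rw [mem_closedBall, dist_zero_right] at this
    linarith [le_max_right ρ1 ρ2]
  have e1 : ∀ x, (∑ᶠ c, F c x) * lap φ x = ∑ c ∈ s, F c x * lap φ x := by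
    intro x
    rcases le_or_gt ‖x‖ (max ρ1 ρ2) with h | h
    · rw [hsum F hF x h, Finset.sum_mul]
    · rw [z2 x h]; simp
  have e2 : ∀ x, (-(∑ᶠ c, F c x) + ∑ᶠ c, R c x) * φ x = ∑ c ∈ s, (-F c x + R c x) * φ x := by
    intro x
    rcases le_or_gt ‖x‖ (max ρ1 ρ2) with h | h
    · rw [hsum F hF x h, hsum R hR x h, ← Finset.sum_mul, Finset.sum_add_distrib, Finset.sum_neg_distrib]
    · rw [z1 x h]; simp
  simp_rw [e1, e2]
  rw [integral_finsetSum, integral_finsetSum]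
  · exact Finset.sum_congr rfl fun c _ => hw c φ hφ hs
  · intro c _
    exact (((hFc c).neg.add (hRc c)).mul hφ.continuous).integrable_of_hasCompactSupport hs.mul_left
  · intro c _
    exact ((hFc c).mul (lap_continuous hφ)).integrable_of_hasCompactSupport (lap_hcs hs).mul_left

end Pool.Agent.Helper43.Landis
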