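import Mathlib
import Pool.Agent.Helper43.Land1

set_option autoImplicit false
open MeasureTheory Set Filter Topology Metric

namespace Pool.Agent.Helper43.Landis

variable {d : ℕ}

/-- averaging over a displacement law -/
noncomputable def avg (μ : Measure (EE d)) (f : EE d → ℝ) (y : EE d) : ℝ := ∫ z, f (y + z) ∂μ

lemma exists_bound_closedBall {f : EE d → ℝ} (hf : Continuous f) (y : EE d) (ρ : ℝ) :
    ∃ M : ℝ, 0 ≤ M ∧ ∀ x, ‖x - y‖ ≤ ρ → ‖f x‖ ≤ M := by
  obtain ⟨M, hM⟩ := (isCompact_closedBall y ρ).exists_bound_of_continuousOn hf.continuousOn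
  refine ⟨max M 0, le_max_right _ _, fun x hx => ?_⟩
  exact (hM x (by rw [mem_closedBall, dist_eq_norm]; exact hx)).trans (le_max_left _ _)

lemma avg_integrable {μ : Measure (EE d)} [IsFiniteMeasure μ] {T : ℝ} (hT : ∀ᵐ z ∂μ, ‖z‖ ≤ T)
    {f : EE d → ℝ} (hf : Continuous f) (y : EE d) : Integrable (fun z => f (y + z)) μ := by
  obtain ⟨M, _, hM⟩ := exists_bound_closedBall hf y T
  refine (integrable_const M).mono' (hf.comp (continuous_const.add continuous_id)).aestronglyMeasurable ?_
  filter_upwards [hT] with z hz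
  apply hM
  simpa using hz

lemma avg_continuous {μ : Measure (EE d)} [IsFiniteMeasure μ] {T : ℝ} (hT : ∀ᵐ z ∂μ, ‖z‖ ≤ T)
    {f : EE d → ℝ} (hf : Continuous f) : Continuous (avg μ f) := by
  rw [continuous_iff_continuousAt]
  intro y
  obtain ⟨M, _, hM⟩ := exists_bound_closedBall hf y (T + 1)
  unfold avg
  refine continuousAt_of_dominated (bound := fun _ => M) ?_ ?_ (integrable_const M) ?_
  · filter_upwards with x
    exact (hf.comp (continuous_const.add continuous_id)).aestronglyMeasurable
  · filter_upwards [Metric.closedBall_mem_nhds y one_pos] with x hx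
    filter_upwards [hT] with z hz
    apply hM
    rw [mem_closedBall, dist_eq_norm] at hx
    calc ‖x + z - y‖ = ‖z + (x - y)‖ := by congr 1; abel
      _ ≤ ‖z‖ + ‖x - y‖ := norm_add_le _ _
      _ ≤ T + 1 := add_le_add hz hx
  · filter_upwards with z
    exact (hf.comp (continuous_id.add continuous_const)).continuousAt

lemma avg_dual {μ : Measure (EE d)} [IsFiniteMeasure μ] {T : ℝ} (hT : ∀ᵐ z ∂μ, ‖z‖ ≤ T)
    {f φ : EE d → ℝ} (hf : Continuous f) (hφ : Continuous φ) (hs : HasCompactSupport φ) :
    ∫ y, avg μ f y * φ y = ∫ y, f y * ∫ z, φ (y - z) ∂μ := by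
  obtain ⟨ρ, hρ⟩ := hs.isCompact.isBounded.subset_closedBall (0 : EE d)
  have hφ0 : ∀ x, ρ < ‖x‖ → φ x = 0 := by
    intro x hx
    apply image_eq_zero_of_notMem_tsupport
    intro hx2
    have := hρ hx2
    rw [mem_closedBall, dist_zero_right] at this
    linarith
  obtain ⟨M, hM0, hM⟩ := exists_bound_closedBall hf 0 (ρ + T)
  obtain ⟨B, hB⟩ := hs.exists_bound_of_continuous hφ
  have hB0 : 0 ≤ B := (norm_nonneg _).trans (hB 0)
  have haez : ∀ᵐ p ∂((volume : Measure (EE d)).prod μ), ‖p.2‖ ≤ T :=
    Measure.quasiMeasurePreserving_snd.ae hT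
  have h1 : Integrable (Function.uncurry fun (y z : EE d) => f (y + z) * φ y)
      ((volume : Measure (EE d)).prod μ) := by
    have hc : Continuous (Function.uncurry fun (y z : EE d) => f (y + z) * φ y) := by
      exact (hf.comp (continuous_fst.add continuous_snd)).mul (hφ.comp continuous_fst)
    have hb : Integrable (fun p : EE d × EE d => (M * ‖φ p.1‖) * 1) ((volume : Measure (EE d)).prod μ) :=
      ((hφ.norm.integrable_of_hasCompactSupport hs.norm).const_mul M).mul_prod (integrable_const 1)
    refine hb.mono' hc.aestronglyMeasurable ?_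
    filter_upwards [haez] with p hp
    simp only [Function.uncurry, norm_mul, mul_one]
    rcases le_or_gt ‖p.1‖ ρ with h | h
    · apply mul_le_mul_of_nonneg_right _ (norm_nonneg _)
      apply hM
      rw [sub_zero]
      exact (norm_add_le _ _).trans (add_le_add h hp)
    · rw [hφ0 _ h]; simp
  have h2 : Integrable (Function.uncurry fun (y z : EE d) => f y * φ (y - z))
      ((volume : Measure (EE d)).prod μ) := by
    have hc : Continuous (Function.uncurry fun (y z : EE d) => f y * φ (y - z)) := by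
      exact (hf.comp continuous_fst).mul (hφ.comp (continuous_fst.sub continuous_snd))
    have hb : Integrable (fun p : EE d × EE d => ((closedBall (0 : EE d) (ρ + T)).indicator (fun _ => M * B) p.1) * 1)
        ((volume : Measure (EE d)).prod μ) := by
      have hi : Integrable (fun x : EE d => (closedBall (0 : EE d) (ρ + T)).indicator (fun _ => M * B) x) := by
        rw [integrable_indicator_iff measurableSet_closedBall]
        exact integrableOn_const (isCompact_closedBall _ _).measure_lt_top.ne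
      exact hi.mul_prod (integrable_const (1 : ℝ))
    refine hb.mono' hc.aestronglyMeasurable ?_
    filter_upwards [haez] with p hp
    simp only [Function.uncurry, norm_mul, mul_one]
    rcases le_or_gt ‖p.1‖ (ρ + T) with h | h
    · rw [indicator_of_mem (by rw [mem_closedBall, dist_zero_right]; exact h)]
      exact mul_le_mul (hM _ (by rw [sub_zero]; exact h)) (hB _) (norm_nonneg _) hM0
    · rw [hφ0 (p.1 - p.2), norm_zero, mul_zero]
      · apply indicator_nonneg
        intro x _; positivity
      · have := norm_sub_norm_le p.1 p.2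
        linarith
  calc ∫ y, avg μ f y * φ y = ∫ y, ∫ z, f (y + z) * φ y ∂μ := by
        congr 1; ext y; unfold avg; rw [integral_mul_const]
    _ = ∫ z, ∫ y, f (y + z) * φ y ∂volume ∂μ := integral_integral_swap h1
    _ = ∫ z, ∫ y, f y * φ (y - z) ∂volume ∂μ := by
        congr 1; ext z
        have := integral_add_right_eq_self (μ := (volume : Measure (EE d))) (fun y => f y * φ (y - z)) z
        rw [← this]
        congr 1; ext y; simp
    _ = ∫ y, ∫ z, f y * φ (y - z) ∂μ := (integral_integral_swap h2).symm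
    _ = _ := by congr 1; ext y; rw [integral_const_mul]

lemma avg_bound {μ : Measure (EE d)} [IsFiniteMeasure μ] {T Λ : ℝ} (hT : ∀ᵐ z ∂μ, ‖z‖ ≤ T)
    (hΛ : 0 ≤ Λ) (hΛT : Λ * T ≤ 1) {w f : EE d → ℝ} (hw0 : ∀ x, 0 < w x)
    (hw : ∀ x z, w (x + z) ≤ Real.exp (Λ * ‖z‖) * w x) {s : Set (EE d)} (hs : MeasurableSet s)
    (hfs : ∀ x, x ∉ s → f x = 0) {h : ℝ} (hh : 0 ≤ h) (hfb : ∀ x, |f x| ≤ h * w x) (y : EE d) :
    |avg μ f y| ≤ μ.real {z | y + z ∈ s} * Real.exp 1 * h * w y := by
  have hms : MeasurableSet {z | y + z ∈ s} := (measurable_const_add y) hs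
  have hb : Integrable (({z | y + z ∈ s}).indicator (fun _ => Real.exp 1 * h * w y)) μ :=
    (integrable_const _).indicator hms
  have h1 : ∀ᵐ z ∂μ, ‖f (y + z)‖ ≤ ({z | y + z ∈ s}).indicator (fun _ => Real.exp 1 * h * w y) z := by
    filter_upwards [hT] with z hz
    by_cases hzs : z ∈ {z | y + z ∈ s}
    · rw [indicator_of_mem hzs, Real.norm_eq_abs]
      have h2 : Real.exp (Λ * ‖z‖) ≤ Real.exp 1 := by
        apply Real.exp_le_exp.mpr
        exact (mul_le_mul_of_nonneg_left hz hΛ).trans hΛT
      calc |f (y + z)| ≤ h * w (y + z) := hfb _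
        _ ≤ h * (Real.exp (Λ * ‖z‖) * w y) := mul_le_mul_of_nonneg_left (hw y z) hh
        _ ≤ h * (Real.exp 1 * w y) := by
            apply mul_le_mul_of_nonneg_left _ hh
            exact mul_le_mul_of_nonneg_right h2 (hw0 y).le
        _ = Real.exp 1 * h * w y := by ring
    · rw [indicator_of_notMem hzs, hfs _ hzs]; simp
  unfold avg
  calc |∫ z, f (y + z) ∂μ| = ‖∫ z, f (y + z) ∂μ‖ := (Real.norm_eq_abs _).symm
    _ ≤ ∫ z, ({z | y + z ∈ s}).indicator (fun _ => Real.exp 1 * h * w y) z ∂μ :=
        norm_integral_le_of_norm_le hb h1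
    _ = _ := by
        rw [integral_indicator hms, setIntegral_const, smul_eq_mul]; ring

lemma avg_sub {μ : Measure (EE d)} [IsFiniteMeasure μ] {T : ℝ} (hT : ∀ᵐ z ∂μ, ‖z‖ ≤ T)
    {f g : EE d → ℝ} (hf : Continuous f) (hg : Continuous g) (y : EE d) :
    avg μ f y - avg μ g y = avg μ (fun x => f x - g x) y := by
  unfold avg
  rw [integral_sub (avg_integrable hT hf y) (avg_integrable hT hg y)]

end Pool.Agent.Helper43.Landis
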