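import Mathlib
import Pool.Agent.Helper43.Land2

set_option autoImplicit false
open MeasureTheory Set Filter Topology Metric BoundedContinuousFunction

namespace Pool.Agent.Helper43.Landis

theorem abstract_landis {d : ℕ} {μA μK : Measure (EE d)} [IsProbabilityMeasure μA] [IsFiniteMeasure μK]
    {T Λ c0 : ℝ} (hK8 : μK.real univ ≤ 1 / 8) (hTA : ∀ᵐ z ∂μA, ‖z‖ ≤ T) (hTK : ∀ᵐ z ∂μK, ‖z‖ ≤ T)
    (hid : ∀ φ : EE d → ℝ, ContDiff ℝ 2 φ → HasCompactSupport φ → ∀ y,
        (∫ z, φ (y - z) ∂μA) - φ y = ∫ z, lap φ (y - z) ∂μK)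
    (hΛ : 0 ≤ Λ) (hΛT : Λ * T ≤ 1) (hc0 : 0 < c0)
    {w U R : EE d → ℝ} (hwc : Continuous w) (hUc : Continuous U) (hRc : Continuous R)
    (hw0 : ∀ x, 0 < w x) (hw : ∀ x z, w (x + z) ≤ Real.exp (Λ * ‖z‖) * w x)
    (hR : ∀ x, |R x| ≤ c0 / 30 * w x)
    (hUR : ∀ φ : EE d → ℝ, ContDiff ℝ 2 φ → HasCompactSupport φ →
      ∫ x, U x * lap φ x = ∫ x, (-U x + R x) * φ x)
    (hthin : ∀ y, μA.real {z | |U (y + z)| < c0 * w (y + z)} ≤ 1 / 12) :
    ∃ g q : EE d → ℝ, Continuous g ∧ Continuous q ∧ (∀ x, |g x| ≤ c0 / 20 * w x) ∧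
      (∀ x, |q x| ≤ 1 / 10) ∧
      ∀ φ : EE d → ℝ, ContDiff ℝ 2 φ → HasCompactSupport φ →
        ∫ x, (U x + g x) * lap φ x = ∫ x, (-1 + q x) * (U x + g x) * φ x := by
  classical
  set D : EE d → ℝ := fun x => max ((U x) ^ 2) ((c0 * w x) ^ 2) with hD
  have hDpos : ∀ x, 0 < D x := fun x => lt_of_lt_of_le (by have := hw0 x; positivity) (le_max_right _ _)
  have hDc : Continuous D := by
    exact (hUc.pow 2).max ((continuous_const.mul hwc).pow 2)
  set χ : EE d → ℝ := fun x => 1 - (U x) ^ 2 / D x with hχ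
  set mt : EE d → ℝ := fun x => U x * w x / D x with hmt
  have hχc : Continuous χ := continuous_const.sub ((hUc.pow 2).div hDc fun x => (hDpos x).ne')
  have hmtc : Continuous mt := (hUc.mul hwc).div hDc fun x => (hDpos x).ne'
  have hχ0 : ∀ x, 0 ≤ χ x := by
    intro x
    have : (U x) ^ 2 / D x ≤ 1 := (div_le_one (hDpos x)).mpr (le_max_left _ _)
    simp only [hχ]; linarith
  have hχ1 : ∀ x, χ x ≤ 1 := by
    intro x
    have : 0 ≤ (U x) ^ 2 / D x := div_nonneg (sq_nonneg _) (hDpos x).le
    simp only [hχ]; linarith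
  set s : Set (EE d) := {x | |U x| < c0 * w x} with hs
  have hsm : MeasurableSet s := (isOpen_lt hUc.abs (continuous_const.mul hwc)).measurableSet
  have hχs : ∀ x, x ∉ s → χ x = 0 := by
    intro x hx
    have h1 : c0 * w x ≤ |U x| := not_lt.mp hx
    have h2 : (c0 * w x) ^ 2 ≤ (U x) ^ 2 := by
      rw [← sq_abs (U x)]
      exact pow_le_pow_left₀ (by have := hw0 x; positivity) h1 2
    have h3 : D x = (U x) ^ 2 := max_eq_left h2
    have h4 : (U x) ^ 2 ≠ 0 := by rw [← h3]; exact (hDpos x).ne'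
    simp only [hχ]
    rw [h3, div_self h4, sub_self]
  have hmtb : ∀ x, |mt x| ≤ 1 / c0 := by
    intro x
    simp only [hmt]
    rw [abs_div, abs_of_pos (hDpos x), div_le_div_iff₀ (hDpos x) hc0, abs_mul, abs_of_pos (hw0 x), one_mul]
    have h1 : (U x) ^ 2 ≤ D x := le_max_left _ _
    have h2 : (c0 * w x) ^ 2 ≤ D x := le_max_right _ _
    have h3 : 0 ≤ (|U x| - c0 * w x) ^ 2 := sq_nonneg _
    have h4 : |U x| ^ 2 = (U x) ^ 2 := sq_abs _
    nlinarith
  -- source functions
  set f : (EE d →ᵇ ℝ) → EE d → ℝ := fun h x => χ x * w x * h x with hf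
  have hfc : ∀ h, Continuous (f h) := fun h => (hχc.mul hwc).mul h.continuous
  have hfs : ∀ h x, x ∉ s → f h x = 0 := by
    intro h x hx; simp only [hf]; rw [hχs x hx]; ring
  have hfb : ∀ h x, |f h x| ≤ ‖h‖ * w x := by
    intro h x
    simp only [hf]
    rw [abs_mul, abs_mul, abs_of_nonneg (hχ0 x), abs_of_pos (hw0 x)]
    have h1 : |h x| ≤ ‖h‖ := h.norm_coe_le_norm x
    have h2 := hχ1 x
    have h3 := hw0 x
    have h4 := hχ0 x
    calc χ x * w x * |h x| ≤ 1 * w x * ‖h‖ := by
          apply mul_le_mul _ h1 (abs_nonneg _) (by positivity)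
          exact mul_le_mul_of_nonneg_right h2 h3.le
      _ = ‖h‖ * w x := by ring
  have he : Real.exp 1 ≤ 2.72 := by have := Real.exp_one_lt_d9; linarith
  have he0 : 0 < Real.exp 1 := Real.exp_pos 1
  have hA : ∀ h y, |avg μA (f h) y| ≤ 0.227 * ‖h‖ * w y := by
    intro h y
    have h1 := avg_bound hTA hΛ hΛT hw0 hw hsm (hfs h) (norm_nonneg h) (hfb h) y
    have h2 : μA.real {z | y + z ∈ s} ≤ 1 / 12 := hthin y
    have h3 : μA.real {z | y + z ∈ s} * Real.exp 1 ≤ 0.227 := by
      calc μA.real {z | y + z ∈ s} * Real.exp 1 ≤ (1 / 12) * 2.72 :=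
            mul_le_mul h2 he he0.le (by norm_num)
        _ ≤ 0.227 := by norm_num
    have h4 : 0 ≤ ‖h‖ * w y := mul_nonneg (norm_nonneg _) (hw0 y).le
    calc |avg μA (f h) y| ≤ μA.real {z | y + z ∈ s} * Real.exp 1 * ‖h‖ * w y := h1
      _ = (μA.real {z | y + z ∈ s} * Real.exp 1) * (‖h‖ * w y) := by ring
      _ ≤ 0.227 * (‖h‖ * w y) := mul_le_mul_of_nonneg_right h3 h4
      _ = _ := by ring
  have hK : ∀ h y, |avg μK (f h) y| ≤ 0.34 * ‖h‖ * w y := by
    intro h y
    have h1 := avg_bound hTK hΛ hΛT hw0 hw hsm (hfs h) (norm_nonneg h) (hfb h) y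
    have h2 : μK.real {z | y + z ∈ s} ≤ 1 / 8 := (measureReal_mono (subset_univ _)).trans hK8
    have h3 : μK.real {z | y + z ∈ s} * Real.exp 1 ≤ 0.34 := by
      calc μK.real {z | y + z ∈ s} * Real.exp 1 ≤ (1 / 8) * 2.72 :=
            mul_le_mul h2 he he0.le (by norm_num)
        _ ≤ 0.34 := by norm_num
    have h4 : 0 ≤ ‖h‖ * w y := mul_nonneg (norm_nonneg _) (hw0 y).le
    calc |avg μK (f h) y| ≤ μK.real {z | y + z ∈ s} * Real.exp 1 * ‖h‖ * w y := h1
      _ = (μK.real {z | y + z ∈ s} * Real.exp 1) * (‖h‖ * w y) := by ring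
      _ ≤ 0.34 * (‖h‖ * w y) := mul_le_mul_of_nonneg_right h3 h4
      _ = _ := by ring
  have hfsub : ∀ h h' : EE d →ᵇ ℝ, (fun x => f h x - f h' x) = f (h - h') := by
    intro h h'; ext x; simp only [hf, BoundedContinuousFunction.coe_sub, Pi.sub_apply]; ring
  -- normalised operators
  set a : (EE d →ᵇ ℝ) → EE d → ℝ := fun h y => avg μA (f h) y / w y with ha
  set kf : (EE d →ᵇ ℝ) → EE d → ℝ := fun h y => avg μK (f h) y / w y with hkf
  have hac : ∀ h, Continuous (a h) := fun h =>
    (avg_continuous hTA (hfc h)).div hwc fun x => (hw0 x).ne'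
  have hkc : ∀ h, Continuous (kf h) := fun h =>
    (avg_continuous hTK (hfc h)).div hwc fun x => (hw0 x).ne'
  have hab : ∀ h y, |a h y| ≤ 0.227 * ‖h‖ := by
    intro h y
    simp only [ha]; rw [abs_div, abs_of_pos (hw0 y), div_le_iff₀ (hw0 y)]; exact hA h y
  have hkb : ∀ h y, |kf h y| ≤ 0.34 * ‖h‖ := by
    intro h y
    simp only [hkf]; rw [abs_div, abs_of_pos (hw0 y), div_le_iff₀ (hw0 y)]; exact hK h y
  have hasub : ∀ h h' y, a h y - a h' y = a (h - h') y := by
    intro h h' y
    simp only [ha]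
    rw [← sub_div, avg_sub hTA (hfc h) (hfc h') y, hfsub h h']
  have hksub : ∀ h h' y, kf h y - kf h' y = kf (h - h') y := by
    intro h h' y
    simp only [hkf]
    rw [← sub_div, avg_sub hTK (hfc h) (hfc h') y, hfsub h h']
  have hRb : ∀ y, |R y / w y| ≤ c0 / 30 := by
    intro y; rw [abs_div, abs_of_pos (hw0 y), div_le_iff₀ (hw0 y)]; exact hR y
  -- the map
  have hFb : ∀ (h : EE d →ᵇ ℝ) (y : EE d), |a h y - R y / w y + kf h y + mt y * h y * kf h y|
      ≤ 0.567 * ‖h‖ + c0 / 30 + (1 / c0) * ‖h‖ * (0.34 * ‖h‖) := by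
    intro h y
    have h1 := hab h y
    have h2 := hkb h y
    have h3 := hRb y
    have h4 : |mt y * h y * kf h y| ≤ (1 / c0) * ‖h‖ * (0.34 * ‖h‖) := by
      rw [abs_mul, abs_mul]
      apply mul_le_mul _ h2 (abs_nonneg _) (by positivity)
      exact mul_le_mul (hmtb y) (h.norm_coe_le_norm y) (abs_nonneg _) (by positivity)
    calc |a h y - R y / w y + kf h y + mt y * h y * kf h y|
        ≤ |a h y - R y / w y + kf h y| + |mt y * h y * kf h y| := abs_add_le _ _
      _ ≤ (|a h y - R y / w y| + |kf h y|) + |mt y * h y * kf h y| := by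
          gcongr; exact abs_add_le _ _
      _ ≤ ((|a h y| + |R y / w y|) + |kf h y|) + |mt y * h y * kf h y| := by
          gcongr; exact abs_sub _ _
      _ ≤ _ := by linarith
  have hFc : ∀ h : EE d →ᵇ ℝ, Continuous fun y => a h y - R y / w y + kf h y + mt y * h y * kf h y :=
    fun h => (((hac h).sub (hRc.div hwc fun x => (hw0 x).ne')).add (hkc h)).add
      ((hmtc.mul h.continuous).mul (hkc h))
  let F : (EE d →ᵇ ℝ) → (EE d →ᵇ ℝ) := fun h =>
    BoundedContinuousFunction.ofNormedAddCommGroup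
      (fun y => a h y - R y / w y + kf h y + mt y * h y * kf h y) (hFc h)
      (0.567 * ‖h‖ + c0 / 30 + (1 / c0) * ‖h‖ * (0.34 * ‖h‖)) (fun y => hFb h y)
  have hFapp : ∀ h y, F h y = a h y - R y / w y + kf h y + mt y * h y * kf h y := fun h y => rfl
  set r : ℝ := c0 / 10 with hr
  have hr0 : 0 < r := by positivity
  have hmaps : MapsTo F (closedBall 0 r) (closedBall 0 r) := by
    intro h hh
    rw [mem_closedBall, dist_zero_right] at hh ⊢
    rw [BoundedContinuousFunction.norm_le hr0.le]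
    intro y
    rw [Real.norm_eq_abs, hFapp]
    refine (hFb h y).trans ?_
    have h1 : (1 / c0) * ‖h‖ ≤ 1 / 10 := by
      calc (1 / c0) * ‖h‖ ≤ (1 / c0) * r := by gcongr
        _ = 1 / 10 := by rw [hr]; field_simp
    have h2 : (1 / c0) * ‖h‖ * (0.34 * ‖h‖) ≤ 1 / 10 * (0.34 * ‖h‖) := by
      apply mul_le_mul_of_nonneg_right h1; positivity
    rw [hr] at hh ⊢
    linarith
  have hlip : ∀ h ∈ closedBall (0 : EE d →ᵇ ℝ) r, ∀ h' ∈ closedBall (0 : EE d →ᵇ ℝ) r,
      dist (F h) (F h') ≤ 0.7 * dist h h' := by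
    intro h hh h' hh'
    rw [mem_closedBall, dist_zero_right] at hh hh'
    rw [BoundedContinuousFunction.dist_le (by positivity)]
    intro y
    rw [Real.dist_eq, hFapp, hFapp, dist_eq_norm]
    have e1 : a h y - R y / w y + kf h y + mt y * h y * kf h y -
        (a h' y - R y / w y + kf h' y + mt y * h' y * kf h' y)
        = a (h - h') y + kf (h - h') y + (mt y * ((h - h') y) * kf h y + mt y * h' y * kf (h - h') y) := by
      rw [← hasub, ← hksub]
      simp only [BoundedContinuousFunction.coe_sub, Pi.sub_apply]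
      ring
    rw [e1]
    have h1 := hab (h - h') y
    have h2 := hkb (h - h') y
    have h3 := hkb h y
    have h4 : |mt y * ((h - h') y) * kf h y| ≤ (1 / c0) * ‖h - h'‖ * (0.34 * ‖h‖) := by
      rw [abs_mul, abs_mul]
      apply mul_le_mul _ h3 (abs_nonneg _) (by positivity)
      exact mul_le_mul (hmtb y) ((h - h').norm_coe_le_norm y) (abs_nonneg _) (by positivity)
    have h5 : |mt y * h' y * kf (h - h') y| ≤ (1 / c0) * ‖h'‖ * (0.34 * ‖h - h'‖) := by
      rw [abs_mul, abs_mul]
      apply mul_le_mul _ h2 (abs_nonneg _) (by positivity)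
      exact mul_le_mul (hmtb y) (h'.norm_coe_le_norm y) (abs_nonneg _) (by positivity)
    have h6 : (1 / c0) * ‖h‖ ≤ 1 / 10 := by
      calc (1 / c0) * ‖h‖ ≤ (1 / c0) * r := by gcongr
        _ = 1 / 10 := by rw [hr]; field_simp
    have h7 : (1 / c0) * ‖h'‖ ≤ 1 / 10 := by
      calc (1 / c0) * ‖h'‖ ≤ (1 / c0) * r := by gcongr
        _ = 1 / 10 := by rw [hr]; field_simp
    have h8 : (1 / c0) * ‖h - h'‖ * (0.34 * ‖h‖) ≤ 0.034 * ‖h - h'‖ := by
      calc (1 / c0) * ‖h - h'‖ * (0.34 * ‖h‖) = ((1 / c0) * ‖h‖) * (0.34 * ‖h - h'‖) := by ring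
        _ ≤ 1 / 10 * (0.34 * ‖h - h'‖) := mul_le_mul_of_nonneg_right h6 (by positivity)
        _ = _ := by ring
    have h9 : (1 / c0) * ‖h'‖ * (0.34 * ‖h - h'‖) ≤ 0.034 * ‖h - h'‖ := by
      calc (1 / c0) * ‖h'‖ * (0.34 * ‖h - h'‖) ≤ 1 / 10 * (0.34 * ‖h - h'‖) :=
            mul_le_mul_of_nonneg_right h7 (by positivity)
        _ = _ := by ring
    calc |a (h - h') y + kf (h - h') y + (mt y * ((h - h') y) * kf h y + mt y * h' y * kf (h - h') y)|
        ≤ |a (h - h') y + kf (h - h') y| + |mt y * ((h - h') y) * kf h y + mt y * h' y * kf (h - h') y| :=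
          abs_add_le _ _
      _ ≤ (|a (h - h') y| + |kf (h - h') y|) + (|mt y * ((h - h') y) * kf h y| + |mt y * h' y * kf (h - h') y|) :=
          add_le_add (abs_add_le _ _) (abs_add_le _ _)
      _ ≤ 0.7 * ‖h - h'‖ := by
          have := norm_nonneg (h - h')
          linarith
  have hcontr : ContractingWith (7 / 10 : NNReal) (hmaps.restrict F (closedBall 0 r) (closedBall 0 r)) := by
    refine ⟨?_, ?_⟩
    · rw [← NNReal.coe_lt_coe]; push_cast; norm_num
    · apply LipschitzWith.of_dist_le_mul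
      intro x y
      have := hlip x.1 x.2 y.1 y.2
      have e : ((7 / 10 : NNReal) : ℝ) = 0.7 := by push_cast; norm_num
      rw [e]
      exact this
  obtain ⟨h, hhr, hfix, -, -⟩ := hcontr.exists_fixedPoint' (isClosed_closedBall.isComplete) hmaps
    (mem_closedBall_self hr0.le) (edist_ne_top _ _)
  rw [mem_closedBall, dist_zero_right] at hhr
  have hfix' : F h = h := hfix
  have hpt : ∀ y, w y * h y = avg μA (f h) y - R y + avg μK (f h) y + mt y * h y * avg μK (f h) y := by
    intro y
    have h1 : h y = a h y - R y / w y + kf h y + mt y * h y * kf h y := by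
      rw [← hFapp, hfix']
    have h2 := (hw0 y).ne'
    have e1 : a h y * w y = avg μA (f h) y := by simp only [ha]; field_simp
    have e2 : kf h y * w y = avg μK (f h) y := by simp only [hkf]; field_simp
    have e3 : R y / w y * w y = R y := by field_simp
    calc w y * h y = w y * (a h y - R y / w y + kf h y + mt y * h y * kf h y) := by rw [← h1]
      _ = a h y * w y - R y / w y * w y + kf h y * w y + mt y * h y * (kf h y * w y) := by ring
      _ = _ := by rw [e1, e2, e3]
  refine ⟨fun x => -avg μK (f h) x, fun x => -(mt x * h x), (avg_continuous hTK (hfc h)).neg,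
    (hmtc.mul h.continuous).neg, ?_, ?_, ?_⟩
  · intro x
    rw [abs_neg]
    refine (hK h x).trans ?_
    have := hw0 x
    apply mul_le_mul_of_nonneg_right _ this.le
    rw [hr] at hhr
    linarith
  · intro x
    rw [abs_neg, abs_mul]
    calc |mt x| * |h x| ≤ (1 / c0) * r :=
          mul_le_mul (hmtb x) ((h.norm_coe_le_norm x).trans hhr) (abs_nonneg _) (by positivity)
      _ = 1 / 10 := by rw [hr]; field_simp
  · intro φ hφ hsφ
    have hlc := lap_continuous hφ
    have hls := lap_hcs hsφ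
    have hKc := avg_continuous hTK (hfc h)
    have hAc := avg_continuous hTA (hfc h)
    have i1 : Integrable fun x => U x * lap φ x := (hUc.mul hlc).integrable_of_hasCompactSupport hls.mul_left
    have i2 : Integrable fun x => avg μK (f h) x * lap φ x :=
      (hKc.mul hlc).integrable_of_hasCompactSupport hls.mul_left
    have i3 : Integrable fun x => (-U x + R x) * φ x :=
      ((hUc.neg.add hRc).mul hφ.continuous).integrable_of_hasCompactSupport hsφ.mul_left
    have i4 : Integrable fun x => avg μA (f h) x * φ x :=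
      (hAc.mul hφ.continuous).integrable_of_hasCompactSupport hsφ.mul_left
    have i5 : Integrable fun x => f h x * φ x :=
      ((hfc h).mul hφ.continuous).integrable_of_hasCompactSupport hsφ.mul_left
    have i6 : Integrable fun x => f h x * ∫ z, φ (x - z) ∂μA := by
      have e : (fun x => f h x * ∫ z, φ (x - z) ∂μA) =
          fun x => f h x * (∫ z, lap φ (x - z) ∂μK) + f h x * φ x := by
        ext x; rw [← hid φ hφ hsφ x]; ring
      have hc : Continuous fun x => ∫ z, φ (x - z) ∂μA := by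
        have hn : ∀ᵐ z ∂(μA.map (fun z => -z)), ‖z‖ ≤ T := by
          rw [ae_map_iff measurable_neg.aemeasurable (measurableSet_le measurable_norm measurable_const)]
          simpa using hTA
        have h1 := avg_continuous (μ := μA.map (fun z => -z)) hn hφ.continuous
        have h2 : avg (μA.map (fun z => -z)) φ = fun x => ∫ z, φ (x - z) ∂μA := by
          ext x
          unfold avg
          have hcc : Continuous (fun z => φ (x + z)) := hφ.continuous.comp (continuous_const.add continuous_id)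
          rw [integral_map (show Measurable (fun z : EE d => -z) from measurable_neg).aemeasurable
            hcc.aestronglyMeasurable]
          simp [sub_eq_add_neg]
        rw [← h2]; exact h1
      refine ((hfc h).mul hc).integrable_of_hasCompactSupport ?_
      obtain ⟨ρ, hρ⟩ := hsφ.isCompact.isBounded.subset_closedBall (0 : EE d)
      apply HasCompactSupport.intro (isCompact_closedBall (0 : EE d) (ρ + T))
      intro x hx
      rw [mem_closedBall, dist_zero_right, not_le] at hx
      have h3 : ∫ z, φ (x - z) ∂μA = 0 := by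
        apply integral_eq_zero_of_ae
        filter_upwards [hTA] with z hz
        apply image_eq_zero_of_notMem_tsupport
        intro hx2
        have h4 := hρ hx2
        rw [mem_closedBall, dist_zero_right] at h4
        have := norm_sub_norm_le x z
        linarith
      show f h x * (∫ z, φ (x - z) ∂μA) = 0
      rw [h3, mul_zero]
    have e1 : ∫ x, avg μK (f h) x * lap φ x = (∫ x, avg μA (f h) x * φ x) - ∫ x, f h x * φ x := by
      rw [avg_dual hTK (hfc h) hlc hls, avg_dual hTA (hfc h) hφ.continuous hsφ, ← integral_sub i6 i5]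
      congr 1; ext x
      rw [← hid φ hφ hsφ x]; ring
    calc ∫ x, (U x + -avg μK (f h) x) * lap φ x
        = ∫ x, (U x * lap φ x - avg μK (f h) x * lap φ x) := by congr 1; ext x; ring
      _ = (∫ x, U x * lap φ x) - ∫ x, avg μK (f h) x * lap φ x := integral_sub i1 i2
      _ = (∫ x, (-U x + R x) * φ x) - ((∫ x, avg μA (f h) x * φ x) - ∫ x, f h x * φ x) := by
          rw [hUR φ hφ hsφ, e1]
      _ = ∫ x, ((-U x + R x) * φ x - (avg μA (f h) x * φ x - f h x * φ x)) := by
          rw [← integral_sub i4 i5]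
          exact (integral_sub i3 (i4.sub i5)).symm
      _ = ∫ x, (-1 + -(mt x * h x)) * (U x + -avg μK (f h) x) * φ x := by
          congr 1; ext x
          have hp := hpt x
          have e2 : f h x = w x * h x - mt x * U x * h x := by
            simp only [hf, hχ, hmt]
            have := (hDpos x).ne'
            field_simp
            try ring
          rw [e2, hp]
          ring

end Pool.Agent.Helper43.Landis
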