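import Mathlib
import Pool.Agent.Helper43.Land1

set_option autoImplicit false
open MeasureTheory Set Filter Topology Metric

namespace Pool.Agent.Helper43.Landis

/-- the character of frequency `ω` -/
noncomputable def chr (ω : ℝ) : Multiplicative ℝ →* ℂ where
  toFun t := Complex.exp (((ω * Multiplicative.toAdd t : ℝ) : ℂ) * Complex.I)
  map_one' := by simp
  map_mul' s t := by
    rw [← Complex.exp_add]
    congr 1
    rw [toAdd_mul]
    push_cast
    ring

lemma chr_injective : Function.Injective chr := by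
  intro a b hab
  by_contra hne
  have hsub : a - b ≠ 0 := sub_ne_zero.mpr hne
  have h1 : chr a (Multiplicative.ofAdd (Real.pi / (a - b))) = chr b (Multiplicative.ofAdd (Real.pi / (a - b))) := by
    rw [hab]
  simp only [chr, MonoidHom.coe_mk, OneHom.coe_mk, toAdd_ofAdd] at h1
  have h2 : Complex.exp (((a * (Real.pi / (a - b)) : ℝ) : ℂ) * Complex.I
      - ((b * (Real.pi / (a - b)) : ℝ) : ℂ) * Complex.I) = 1 := by
    rw [Complex.exp_sub, h1, div_self (Complex.exp_ne_zero _)]
  have h3 : (((a * (Real.pi / (a - b)) : ℝ) : ℂ) * Complex.I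
      - ((b * (Real.pi / (a - b)) : ℝ) : ℂ) * Complex.I) = Real.pi * Complex.I := by
    rw [← sub_mul, ← Complex.ofReal_sub]
    congr 2
    field_simp
  rw [h3, Complex.exp_pi_mul_I] at h2
  norm_num at h2

lemma trig_line {ι : Type*} [Fintype ι] (ω A B : ι → ℝ) (h0 : ∀ e, ω e ≠ 0)
    (h1 : ∀ e f, e ≠ f → ω e ≠ ω f ∧ ω e ≠ -ω f)
    (hz : ∀ t : ℝ, ∑ e, (A e * Real.cos (ω e * t) + B e * Real.sin (ω e * t)) = 0) :
    ∀ e, A e = 0 ∧ B e = 0 := by
  classical
  set Ω : ι × Bool → ℝ := fun p => if p.2 then ω p.1 else -ω p.1 with hΩ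
  have hinj : Function.Injective Ω := by
    rintro ⟨e, s⟩ ⟨f, t⟩ h
    by_cases hef : e = f
    · subst hef
      have := h0 e
      cases s <;> cases t <;> simp [hΩ] at h ⊢
      · exact this (by linarith)
      · exact this (by linarith)
    · exfalso
      obtain ⟨g1, g2⟩ := h1 e f hef
      cases s <;> cases t <;> simp [hΩ] at h
      · exact g1 h
      · exact g2 (by linarith)
      · exact g2 h
      · exact g1 h
  have hli : LinearIndependent ℂ (fun p : ι × Bool => (chr (Ω p) : Multiplicative ℝ → ℂ)) :=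
    (linearIndependent_monoidHom (Multiplicative ℝ) ℂ).comp (fun p => chr (Ω p))
      (chr_injective.comp hinj)
  rw [Fintype.linearIndependent_iff] at hli
  set c : ι × Bool → ℂ := fun p => if p.2 then ((A p.1 : ℂ) - B p.1 * Complex.I) / 2
    else ((A p.1 : ℂ) + B p.1 * Complex.I) / 2 with hc
  have hsum : ∑ p, c p • (chr (Ω p) : Multiplicative ℝ → ℂ) = 0 := by
    ext t
    rw [Finset.sum_apply, Fintype.sum_prod_type]
    have hzt := congrArg (fun x : ℝ => (x : ℂ)) (hz (Multiplicative.toAdd t))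
    simp only [Complex.ofReal_sum, Complex.ofReal_zero] at hzt
    rw [Pi.zero_apply, ← hzt]
    apply Finset.sum_congr rfl
    intro e _
    rw [Fintype.sum_bool]
    simp only [hc, hΩ, Pi.smul_apply, smul_eq_mul, chr, MonoidHom.coe_mk, OneHom.coe_mk, if_true]
    push_cast
    rw [Complex.cos, Complex.sin]
    set x : ℂ := (ω e : ℂ) * ((Multiplicative.toAdd t : ℝ) : ℂ) with hx
    have e1 : -((ω e : ℂ)) * ((Multiplicative.toAdd t : ℝ) : ℂ) * Complex.I = -x * Complex.I := by
      rw [hx]; ring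
    rw [e1]
    ring
  have hc0 := hli c hsum
  intro e
  have g1 := hc0 (e, true)
  have g2 := hc0 (e, false)
  simp only [hc, if_true, Bool.false_eq_true, if_false] at g1 g2
  have g3 : (A e : ℂ) = 0 := by linear_combination g1 + g2
  have g4 : (B e : ℂ) * Complex.I = 0 := by linear_combination g2 - g1
  refine ⟨by exact_mod_cast g3, ?_⟩
  rcases mul_eq_zero.mp g4 with h | h
  · exact_mod_cast h
  · exact absurd h Complex.I_ne_zero

lemma trig_line_ae {ι : Type*} [Fintype ι] (ω A B : ι → ℝ) (h0 : ∀ e, ω e ≠ 0)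
    (h1 : ∀ e f, e ≠ f → ω e ≠ ω f ∧ ω e ≠ -ω f) (e0 : ι) (hne : A e0 ≠ 0 ∨ B e0 ≠ 0) :
    ∀ᵐ t : ℝ, ∑ e, (A e * Real.cos (ω e * t) + B e * Real.sin (ω e * t)) ≠ 0 := by
  set g : ℝ → ℝ := fun t => ∑ e, (A e * Real.cos (ω e * t) + B e * Real.sin (ω e * t)) with hg
  have han : AnalyticOnNhd ℝ g univ := by
    intro t _
    simp only [hg]
    fun_prop
  rcases han.eqOn_zero_or_eventually_ne_zero_of_preconnected isPreconnected_univ with h | h
  · exfalso
    have := trig_line ω A B h0 h1 (fun t => h (mem_univ t)) e0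
    rcases hne with h2 | h2
    · exact h2 this.1
    · exact h2 this.2
  · have h3 := ae_restrict_le_codiscreteWithin (μ := (volume : Measure ℝ)) (U := univ) MeasurableSet.univ
    rw [Measure.restrict_univ] at h3
    exact h3 h

/-- trigonometric sums with parameters `(a, b, η)` -/
noncomputable def trig {d : ℕ} {ι : Type*} [Fintype ι] (p : ι → ℝ × ℝ × EE d) (v : EE d) : ℝ :=
  ∑ e, ((p e).1 * Real.cos (inner ℝ (p e).2.2 v) + (p e).2.1 * Real.sin (inner ℝ (p e).2.2 v))

lemma trig_continuous {d : ℕ} {ι : Type*} [Fintype ι] :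
    Continuous fun z : (ι → ℝ × ℝ × EE d) × EE d => trig z.1 z.2 := by
  unfold trig
  fun_prop

/-- admissible parameters -/
def adm {d : ℕ} (ι : Type*) (κ Λ : ℝ) (e0 : ι) : Set (ι → ℝ × ℝ × EE d) :=
  {p | (∀ e, (p e).1 ^ 2 + (p e).2.1 ^ 2 ≤ 1) ∧ (p e0).1 ^ 2 + (p e0).2.1 ^ 2 = 1 ∧
    (∀ e, κ ≤ ‖(p e).2.2‖ ∧ ‖(p e).2.2‖ ≤ Λ) ∧
    (∀ e f, e ≠ f → κ ≤ ‖(p e).2.2 - (p f).2.2‖ ∧ κ ≤ ‖(p e).2.2 + (p f).2.2‖)}

lemma adm_compact {d : ℕ} {ι : Type*} [Fintype ι] (κ Λ : ℝ) (e0 : ι) :
    IsCompact (adm (d := d) ι κ Λ e0) := by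
  apply Metric.isCompact_of_isClosed_isBounded
  · unfold adm
    simp only [ofPred_and, ofPred_forall]
    refine IsClosed.inter (isClosed_iInter fun e => isClosed_le (by fun_prop) (by fun_prop)) ?_
    refine IsClosed.inter (isClosed_eq (by fun_prop) (by fun_prop)) ?_
    refine IsClosed.inter (isClosed_iInter fun e => ?_) (isClosed_iInter fun e => isClosed_iInter fun f =>
      isClosed_iInter fun _ => ?_)
    · exact IsClosed.inter (isClosed_le (by fun_prop) (by fun_prop)) (isClosed_le (by fun_prop) (by fun_prop))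
    · exact IsClosed.inter (isClosed_le (by fun_prop) (by fun_prop)) (isClosed_le (by fun_prop) (by fun_prop))
  · refine (isBounded_closedBall (x := (0 : ι → ℝ × ℝ × EE d)) (r := max 1 Λ)).subset ?_
    rintro p ⟨h1, -, h3, -⟩
    rw [mem_closedBall, dist_zero_right]
    rw [pi_norm_le_iff_of_nonneg (le_max_of_le_left zero_le_one)]
    intro e
    have ha : |(p e).1| ≤ 1 := by
      rw [← sq_le_one_iff_abs_le_one]; nlinarith [h1 e, sq_nonneg (p e).2.1]
    have hb : |(p e).2.1| ≤ 1 := by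
      rw [← sq_le_one_iff_abs_le_one]; nlinarith [h1 e, sq_nonneg (p e).1]
    rw [Prod.norm_def, Prod.norm_def, Real.norm_eq_abs, Real.norm_eq_abs]
    exact max_le (le_max_of_le_left ha) (max_le (le_max_of_le_left hb) (le_max_of_le_right (h3 e).2))

lemma trig_ae {d : ℕ} {ι : Type*} [Fintype ι] {κ Λ : ℝ} (hκ : 0 < κ) {e0 : ι}
    {p : ι → ℝ × ℝ × EE d} (hp : p ∈ adm (d := d) ι κ Λ e0) :
    ∀ᵐ v : EE d, trig p v ≠ 0 := by
  classical
  obtain ⟨-, h2, h3, h4⟩ := hp
  -- choose a good direction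
  obtain ⟨v0, hv0⟩ : ∃ v0 : EE d, ∀ i : (ι × ι) × Bool, (if i.1.1 = i.1.2 then inner ℝ (p i.1.1).2.2 v0
      else if i.2 then inner ℝ ((p i.1.1).2.2 - (p i.1.2).2.2) v0
      else inner ℝ ((p i.1.1).2.2 + (p i.1.2).2.2) v0) ≠ 0 := by
    set vec : (ι × ι) × Bool → EE d := fun i => if i.1.1 = i.1.2 then (p i.1.1).2.2
      else if i.2 then ((p i.1.1).2.2 - (p i.1.2).2.2) else ((p i.1.1).2.2 + (p i.1.2).2.2) with hvec
    have hvne : ∀ i, vec i ≠ 0 := by
      intro i
      simp only [hvec]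
      split_ifs with c1 c2
      · intro h0; have := (h3 i.1.1).1; rw [h0, norm_zero] at this; linarith
      · intro h0; have := (h4 _ _ c1).1; rw [h0, norm_zero] at this; linarith
      · intro h0; have := (h4 _ _ c1).2; rw [h0, norm_zero] at this; linarith
    obtain ⟨x, hx⟩ := Module.Dual.exists_forall_ne_zero_of_forall_exists
      (fun i => ((innerSL ℝ (vec i)).toLinearMap : Module.Dual ℝ (EE d)))
      (fun i => ⟨vec i, by
        have h5 := hvne i
        simpa using h5⟩)
    refine ⟨x, fun i => ?_⟩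
    have h6 := hx i
    simp only [hvec] at h6
    split_ifs with c1 c2
    · simpa [c1] using h6
    · simpa [c1, c2, inner_sub_left] using h6
    · simpa [c1, c2, inner_add_left] using h6
  set ω : ι → ℝ := fun e => inner ℝ (p e).2.2 v0 with hω
  have hω0 : ∀ e, ω e ≠ 0 := by
    intro e
    have := hv0 ((e, e), true)
    simpa using this
  have hω1 : ∀ e f, e ≠ f → ω e ≠ ω f ∧ ω e ≠ -ω f := by
    intro e f hef
    have g1 := hv0 ((e, f), true)
    have g2 := hv0 ((e, f), false)
    simp only [hef, if_false, if_true, Bool.false_eq_true, inner_sub_left, inner_add_left] at g1 g2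
    refine ⟨fun h => g1 ?_, fun h => g2 ?_⟩
    · simp only [hω] at h; rw [h]; ring
    · simp only [hω] at h; rw [h]; ring
  have hms : MeasurableSet {v : EE d | trig p v ≠ 0} := by
    have hc : Continuous fun v => trig p v := trig_continuous.comp (Continuous.prodMk_right p)
    exact (isOpen_ne_fun hc continuous_const).measurableSet
  have key := ae_mem_of_ae_add_linearMap_mem ((ContinuousLinearMap.toSpanSingleton ℝ v0).toLinearMap)
    (volume : Measure ℝ) (volume : Measure (EE d)) hms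
  apply key
  intro y
  -- along a line
  set A : ι → ℝ := fun e => (p e).1 * Real.cos (inner ℝ (p e).2.2 y) + (p e).2.1 * Real.sin (inner ℝ (p e).2.2 y)
    with hA
  set B : ι → ℝ := fun e => -(p e).1 * Real.sin (inner ℝ (p e).2.2 y) + (p e).2.1 * Real.cos (inner ℝ (p e).2.2 y)
    with hB
  have hne : A e0 ≠ 0 ∨ B e0 ≠ 0 := by
    by_contra hcon
    push Not at hcon
    have e1 : A e0 ^ 2 + B e0 ^ 2 = (p e0).1 ^ 2 + (p e0).2.1 ^ 2 := by
      simp only [hA, hB]
      have := Real.sin_sq_add_cos_sq (inner ℝ (p e0).2.2 y)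
      linear_combination ((p e0).1 ^ 2 + (p e0).2.1 ^ 2) * this
    rw [hcon.1, hcon.2, h2] at e1
    norm_num at e1
  filter_upwards [trig_line_ae ω A B hω0 hω1 e0 hne] with t ht
  have e2 : trig p (y + (ContinuousLinearMap.toSpanSingleton ℝ v0).toLinearMap t)
      = ∑ e, (A e * Real.cos (ω e * t) + B e * Real.sin (ω e * t)) := by
    unfold trig
    apply Finset.sum_congr rfl
    intro e _
    have e3 : inner ℝ (p e).2.2 (y + (ContinuousLinearMap.toSpanSingleton ℝ v0).toLinearMap t)
        = inner ℝ (p e).2.2 y + ω e * t := by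
      simp [inner_add_right, inner_smul_right, hω, mul_comm]
    rw [e3, Real.cos_add, Real.sin_add]
    simp only [hA, hB]
    ring
  show trig p (y + (ContinuousLinearMap.toSpanSingleton ℝ v0).toLinearMap t) ≠ 0
  rw [e2]; exact ht

/-- uniform thinness of sublevel sets -/
theorem thin_uniform {d : ℕ} {ι : Type*} [Fintype ι] {κ Λ : ℝ} (hκ : 0 < κ) {θ : ℝ} (hθ : 0 < θ) :
    ∃ c : ℝ, 0 < c ∧ ∀ e0 : ι, ∀ p ∈ adm (d := d) ι κ Λ e0,
      (volume : Measure (EE d)) {v | ‖v‖ ≤ 1 ∧ |trig p v| < c} ≤ ENNReal.ofReal θ := by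
  classical
  have main : ∀ e0 : ι, ∃ c : ℝ, 0 < c ∧ ∀ p ∈ adm (d := d) ι κ Λ e0,
      (volume : Measure (EE d)) {v | ‖v‖ ≤ 1 ∧ |trig p v| < c} ≤ ENNReal.ofReal θ := by
    intro e0
    refine (adm_compact κ Λ e0).induction_on (p := fun s => ∃ c : ℝ, 0 < c ∧ ∀ p ∈ s,
      (volume : Measure (EE d)) {v | ‖v‖ ≤ 1 ∧ |trig p v| < c} ≤ ENNReal.ofReal θ) ?_ ?_ ?_ ?_
    · exact ⟨1, one_pos, fun p hp => absurd hp (notMem_empty p)⟩
    · rintro s t hst ⟨c, hc, h⟩
      exact ⟨c, hc, fun p hp => h p (hst hp)⟩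
    · rintro s t ⟨c, hc, h⟩ ⟨c', hc', h'⟩
      refine ⟨min c c', lt_min hc hc', fun p hp => ?_⟩
      rcases hp with hp | hp
      · refine (measure_mono ?_).trans (h p hp)
        rintro v ⟨h1, h2⟩
        exact ⟨h1, h2.trans_le (min_le_left _ _)⟩
      · refine (measure_mono ?_).trans (h' p hp)
        rintro v ⟨h1, h2⟩
        exact ⟨h1, h2.trans_le (min_le_right _ _)⟩
    · intro p hp
      -- pointwise smallness
      have hcp : Continuous fun v : EE d => trig p v := trig_continuous.comp (Continuous.prodMk_right p)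
      have hlim : Tendsto (fun n : ℕ => (volume : Measure (EE d)) {v | ‖v‖ ≤ 1 ∧ |trig p v| < 1 / ((n : ℝ) + 1)})
          atTop (𝓝 ((volume : Measure (EE d)) (⋂ n : ℕ, {v | ‖v‖ ≤ 1 ∧ |trig p v| < 1 / ((n : ℝ) + 1)}))) := by
        apply tendsto_measure_iInter_atTop
        · intro n
          have h1 : MeasurableSet {v : EE d | ‖v‖ ≤ 1} := measurableSet_le measurable_norm measurable_const
          have h2 : MeasurableSet {v : EE d | |trig p v| < 1 / ((n : ℝ) + 1)} :=
            (isOpen_lt hcp.abs continuous_const).measurableSet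
          exact (h1.inter h2).nullMeasurableSet
        · intro m n hmn v hv
          refine ⟨hv.1, hv.2.trans_le ?_⟩
          apply one_div_le_one_div_of_le (by positivity)
          have : (m : ℝ) ≤ n := by exact_mod_cast hmn
          linarith
        · refine ⟨0, ?_⟩
          refine ((measure_mono ?_).trans_lt (isCompact_closedBall (0 : EE d) 1).measure_lt_top).ne
          intro v hv
          rw [mem_closedBall, dist_zero_right]; exact hv.1
      have hzero : (volume : Measure (EE d)) (⋂ n : ℕ, {v | ‖v‖ ≤ 1 ∧ |trig p v| < 1 / ((n : ℝ) + 1)}) = 0 := by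
        have h1 := trig_ae hκ hp
        rw [ae_iff] at h1
        refine measure_mono_null ?_ h1
        intro v hv
        simp only [mem_iInter] at hv
        show ¬ (trig p v ≠ 0)
        intro hne
        obtain ⟨n, hn⟩ := exists_nat_one_div_lt (abs_pos.mpr hne)
        exact absurd (hv n).2 (not_lt.mpr hn.le)
      rw [hzero] at hlim
      have hev := hlim.eventually (gt_mem_nhds (ENNReal.ofReal_pos.mpr hθ))
      obtain ⟨n, hn⟩ := hev.exists
      set c : ℝ := 1 / ((n : ℝ) + 1) / 2 with hc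
      have hc0 : 0 < c := by positivity
      -- uniform closeness
      have hclose : ∀ᶠ q in 𝓝 p, ∀ v ∈ closedBall (0 : EE d) 1, |trig q v - trig p v| < c := by
        apply (isCompact_closedBall (0 : EE d) 1).eventually_forall_of_forall_eventually
        intro v _
        have hcc : Continuous fun z : (ι → ℝ × ℝ × EE d) × EE d => |trig z.1 z.2 - trig p z.2| := by
          have h1 : Continuous fun z : (ι → ℝ × ℝ × EE d) × EE d => trig p z.2 := hcp.comp continuous_snd
          exact (trig_continuous.sub h1).abs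
        have h2 : Tendsto (fun z : (ι → ℝ × ℝ × EE d) × EE d => |trig z.1 z.2 - trig p z.2|) (𝓝 (p, v))
            (𝓝 |trig p v - trig p v|) := hcc.continuousAt
        rw [sub_self, abs_zero] at h2
        exact h2.eventually (gt_mem_nhds hc0)
      refine ⟨{q | ∀ v ∈ closedBall (0 : EE d) 1, |trig q v - trig p v| < c}, mem_nhdsWithin_of_mem_nhds hclose,
        c, hc0, ?_⟩
      intro q hq
      refine (measure_mono ?_).trans hn.le
      rintro v ⟨h1, h2⟩
      refine ⟨h1, ?_⟩
      have h3 := hq v (by rw [mem_closedBall, dist_zero_right]; exact h1)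
      have h4 : |trig p v| ≤ |trig q v| + |trig q v - trig p v| := by
        have := abs_sub_abs_le_abs_sub (trig p v) (trig q v)
        rw [abs_sub_comm] at this
        linarith
      have h5 : (1 : ℝ) / ((n : ℝ) + 1) = c + c := by rw [hc]; ring
      show |trig p v| < 1 / ((n : ℝ) + 1)
      rw [h5]
      linarith
  choose c hc hm using main
  by_cases hι : Nonempty ι
  · obtain ⟨i0, -, hi0⟩ := Finset.exists_min_image (Finset.univ : Finset ι) c Finset.univ_nonempty
    refine ⟨c i0, hc i0, fun e0 p hp => ?_⟩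
    refine (measure_mono ?_).trans (hm e0 p hp)
    rintro v ⟨h1, h2⟩
    exact ⟨h1, h2.trans_le (hi0 e0 (Finset.mem_univ _))⟩
  · exact ⟨1, one_pos, fun e0 => absurd ⟨e0⟩ hι⟩

end Pool.Agent.Helper43.Landis
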