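import Mathlib
import Pool.Agent.Helper43.Land1

set_option autoImplicit false
open MeasureTheory Set Filter Topology Metric

namespace Pool.Agent.Helper43.Landis

lemma exists_orthonormal_pair (ξ : EE 3) : ∃ e1 e2 : EE 3, ‖e1‖ = 1 ∧ ‖e2‖ = 1 ∧
    inner ℝ e1 e2 = 0 ∧ inner ℝ ξ e1 = 0 ∧ inner ℝ ξ e2 = 0 := by
  set P : Submodule ℝ (EE 3) := (Submodule.span ℝ {ξ})ᗮ with hP
  have h1 : Module.finrank ℝ (Submodule.span ℝ {ξ}) ≤ 1 := by
    have := finrank_span_le_card (R := ℝ) ({ξ} : Set (EE 3))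
    simpa using this
  have h2 := Submodule.finrank_add_finrank_orthogonal (Submodule.span ℝ {ξ})
  have h3 : Module.finrank ℝ (EE 3) = 3 := by simp
  have h4 : 2 ≤ Module.finrank ℝ P := by rw [hP]; omega
  let b := stdOrthonormalBasis ℝ P
  let i0 : Fin (Module.finrank ℝ P) := ⟨0, by omega⟩
  let i1 : Fin (Module.finrank ℝ P) := ⟨1, by omega⟩
  have hmem : ∀ x : P, inner ℝ ξ (x : EE 3) = 0 := by
    intro x
    exact (Submodule.mem_orthogonal _ _).mp x.2 ξ (Submodule.mem_span_singleton_self ξ)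
  refine ⟨(b i0 : EE 3), (b i1 : EE 3), ?_, ?_, ?_, hmem _, hmem _⟩
  · exact b.orthonormal.1 i0
  · exact b.orthonormal.1 i1
  · have := b.orthonormal.2 (show i0 ≠ i1 by simp [i0, i1])
    simpa using this

lemma exists_sep (N : ℕ) : ∃ κ : ℝ, 0 < κ ∧ ∀ j k : Fin N, j ≠ k →
    2 * κ ≤ |Real.cos ((j : ℝ) / N) - Real.cos ((k : ℝ) / N)| := by
  classical
  have hpos : ∀ j k : Fin N, j ≠ k → 0 < |Real.cos ((j : ℝ) / N) - Real.cos ((k : ℝ) / N)| := by
    intro j k hjk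
    rw [abs_pos, sub_ne_zero]
    intro h
    have hN : (0 : ℝ) < N := by
      have := j.pos
      exact_mod_cast this
    have hmem : ∀ i : Fin N, (i : ℝ) / N ∈ Icc 0 Real.pi := by
      intro i
      refine ⟨by positivity, ?_⟩
      have h1 : (i : ℝ) / N ≤ 1 := by
        rw [div_le_one hN]
        exact_mod_cast i.2.le
      linarith [Real.pi_gt_three]
    have h2 := Real.injOn_cos (hmem j) (hmem k) h
    have h3 : (j : ℝ) = k := by
      field_simp at h2
      exact h2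
    apply hjk
    ext
    exact_mod_cast h3
  by_cases hne : Nonempty {p : Fin N × Fin N // p.1 ≠ p.2}
  · obtain ⟨p0, hp0⟩ := Finite.exists_min (fun p : {p : Fin N × Fin N // p.1 ≠ p.2} =>
      |Real.cos ((p.1.1 : ℝ) / N) - Real.cos ((p.1.2 : ℝ) / N)|)
    refine ⟨|Real.cos ((p0.1.1 : ℝ) / N) - Real.cos ((p0.1.2 : ℝ) / N)| / 2,
      half_pos (hpos _ _ p0.2), fun j k hjk => ?_⟩
    have := hp0 ⟨(j, k), hjk⟩
    linarith
  · refine ⟨1, one_pos, fun j k hjk => absurd ⟨⟨(j, k), hjk⟩⟩ hne⟩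

theorem exists_direction (M : ℕ) : ∃ κ : ℝ, 0 < κ ∧ ∀ (ξ : EE 3) (S : Finset (EE 3)), S.card ≤ M →
    ∃ η : EE 3, inner ℝ ξ η = 0 ∧ ‖η‖ ^ 2 = 1 + ‖ξ‖ ^ 2 ∧ ∀ s ∈ S, κ ≤ ‖η - s‖ ∧ κ ≤ ‖η + s‖ := by
  classical
  set N : ℕ := 2 * M + 1 with hN
  obtain ⟨κ, hκ, hsep⟩ := exists_sep N
  refine ⟨κ, hκ, fun ξ S hS => ?_⟩
  obtain ⟨e1, e2, h1, h2, h12, hx1, hx2⟩ := exists_orthonormal_pair ξ
  set ρ : ℝ := Real.sqrt (1 + ‖ξ‖ ^ 2) with hρ
  have hρ2 : ρ ^ 2 = 1 + ‖ξ‖ ^ 2 := Real.sq_sqrt (by positivity)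
  have hρ1 : 1 ≤ ρ := by
    rw [hρ]; apply Real.one_le_sqrt.mpr; nlinarith [sq_nonneg ‖ξ‖]
  set cand : Fin N → EE 3 := fun j => (ρ * Real.cos ((j : ℝ) / N)) • e1 + (ρ * Real.sin ((j : ℝ) / N)) • e2
    with hcand
  by_contra hcon
  push Not at hcon
  have hn : ∀ j, ‖cand j‖ ^ 2 = 1 + ‖ξ‖ ^ 2 := by
    intro j
    rw [← real_inner_self_eq_norm_sq]
    simp only [hcand]
    have h21 : inner ℝ e2 e1 = (0 : ℝ) := by rw [real_inner_comm]; exact h12
    rw [inner_add_left, inner_add_right, inner_add_right, inner_smul_left, inner_smul_left,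
      inner_smul_right, inner_smul_right, inner_smul_left, inner_smul_right, inner_smul_left,
      inner_smul_right, real_inner_self_eq_norm_sq, real_inner_self_eq_norm_sq, h12, h21, h1, h2]
    simp only [conj_trivial]
    have := Real.sin_sq_add_cos_sq ((j : ℝ) / N)
    linear_combination ρ ^ 2 * this + hρ2
  have ho : ∀ j, inner ℝ ξ (cand j) = 0 := by
    intro j
    simp only [hcand]
    rw [inner_add_right, inner_smul_right, inner_smul_right, hx1, hx2]; ring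
  have hdist : ∀ j k, j ≠ k → 2 * κ ≤ ‖cand j - cand k‖ := by
    intro j k hjk
    have e : inner ℝ e1 (cand j - cand k) = ρ * (Real.cos ((j : ℝ) / N) - Real.cos ((k : ℝ) / N)) := by
      simp only [hcand]
      rw [inner_sub_right, inner_add_right, inner_add_right, inner_smul_right, inner_smul_right,
        inner_smul_right, inner_smul_right, h12, real_inner_self_eq_norm_sq, h1]
      ring
    have h3 := abs_real_inner_le_norm e1 (cand j - cand k)
    rw [e, h1, one_mul, abs_mul, abs_of_pos (by linarith : (0:ℝ) < ρ)] at h3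
    have h4 := hsep j k hjk
    nlinarith [abs_nonneg (Real.cos ((j : ℝ) / N) - Real.cos ((k : ℝ) / N))]
  -- choose an obstruction for each candidate
  have hbad : ∀ j, ∃ s : S × Bool, ‖cand j - (if s.2 then (s.1 : EE 3) else -(s.1 : EE 3))‖ < κ := by
    intro j
    obtain ⟨s, hs, h3⟩ := hcon (cand j) (ho j) (hn j)
    by_cases h4 : κ ≤ ‖cand j - s‖
    · refine ⟨(⟨s, hs⟩, false), ?_⟩
      simpa using h3 h4
    · refine ⟨(⟨s, hs⟩, true), ?_⟩
      simpa using h4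
  choose b hb using hbad
  have hcard : Fintype.card (S × Bool) < Fintype.card (Fin N) := by
    rw [Fintype.card_prod, Fintype.card_coe, Fintype.card_bool, Fintype.card_fin, hN]
    omega
  obtain ⟨j, k, hjk, hbe⟩ := Fintype.exists_ne_map_eq_of_card_lt b hcard
  have h5 := hdist j k hjk
  have h6 := hb j
  have h7 := hb k
  rw [hbe] at h6
  set s0 : EE 3 := (if (b k).2 then ((b k).1 : EE 3) else -((b k).1 : EE 3)) with hs0
  have h8 : ‖cand j - cand k‖ ≤ ‖cand j - s0‖ + ‖cand k - s0‖ := by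
    have : cand j - cand k = (cand j - s0) - (cand k - s0) := by abel
    rw [this]; exact norm_sub_le _ _
  linarith

theorem exists_directions : ∃ κ : ℝ, 0 < κ ∧ ∀ ξ : (Fin 3 → ℤ) → EE 3, ∃ η : (Fin 3 → ℤ) → EE 3,
    (∀ c, inner ℝ (ξ c) (η c) = 0 ∧ ‖η c‖ ^ 2 = 1 + ‖ξ c‖ ^ 2) ∧
    ∀ c c', c ≠ c' → (∀ i, |c i - c' i| ≤ 3) → κ ≤ ‖η c - η c'‖ ∧ κ ≤ ‖η c + η c'‖ := by
  classical
  obtain ⟨κ, hκ, hdir⟩ := exists_direction 343
  refine ⟨κ, hκ, fun ξ => ?_⟩
  let nb : (Fin 3 → ℤ) → Finset (Fin 3 → ℤ) := fun c => Fintype.piFinset fun i => Finset.Icc (c i - 3) (c i + 3)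
  have hnb : ∀ c, (nb c).card = 343 := by
    intro c
    simp only [nb, Fintype.card_piFinset, Int.card_Icc]
    have : ∀ i, (c i + 3 + 1 - (c i - 3)).toNat = 7 := by intro i; ring_nf; rfl
    simp [this]
  have hstep : ∀ (c : Fin 3 → ℤ) (g : (Fin 3 → ℤ) → EE 3), ∃ y : EE 3,
      (inner ℝ (ξ c) y = 0 ∧ ‖y‖ ^ 2 = 1 + ‖ξ c‖ ^ 2) ∧
      ∀ c' ∈ nb c, κ ≤ ‖y - g c'‖ ∧ κ ≤ ‖y + g c'‖ := by
    intro c g
    obtain ⟨y, h1, h2, h3⟩ := hdir (ξ c) ((nb c).image g) (Finset.card_image_le.trans (hnb c).le)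
    exact ⟨y, ⟨h1, h2⟩, fun c' hc' => h3 _ (Finset.mem_image_of_mem g hc')⟩
  choose ch hch1 hch2 using hstep
  let enc : (Fin 3 → ℤ) → ℕ := Encodable.encode
  have henc : Function.Injective enc := Encodable.encode_injective
  let step : ∀ c : Fin 3 → ℤ, (∀ c', enc c' < enc c → EE 3) → EE 3 := fun c ih =>
    ch c (fun c' => if h : enc c' < enc c then ih c' h else 0)
  let wf : WellFounded (fun a b : Fin 3 → ℤ => enc a < enc b) := (measure enc).wf
  let η : (Fin 3 → ℤ) → EE 3 := wf.fix step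
  have hη : ∀ c, η c = ch c (fun c' => if enc c' < enc c then η c' else 0) := by
    intro c
    have := wf.fix_eq step c
    simpa [η, step] using this
  have hlt : ∀ c c', enc c' < enc c → (∀ i, |c i - c' i| ≤ 3) → κ ≤ ‖η c - η c'‖ ∧ κ ≤ ‖η c + η c'‖ := by
    intro c c' hlt hn
    have hmem : c' ∈ nb c := by
      simp only [nb, Fintype.mem_piFinset, Finset.mem_Icc]
      intro i
      have := abs_le.mp (hn i)
      constructor <;> linarith [this.1, this.2]
    have h1 := hch2 c (fun c' => if enc c' < enc c then η c' else 0) c' hmem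
    rw [← hη c] at h1
    simpa [hlt] using h1
  refine ⟨η, fun c => ?_, fun c c' hne hn => ?_⟩
  · rw [hη c]; exact hch1 c _
  · rcases lt_trichotomy (enc c') (enc c) with h | h | h
    · exact hlt c c' h hn
    · exact absurd (henc h).symm hne
    · have h2 := hlt c' c h (fun i => by rw [abs_sub_comm]; exact hn i)
      rw [norm_sub_rev, add_comm] at h2
      exact h2

end Pool.Agent.Helper43.Landis
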