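import Mathlib
import Pool.Agent.Helper43.Land3
import Pool.Agent.Helper43.Land4
import Pool.Agent.Helper43.Land5
import Pool.Agent.Helper43.Land10

set_option autoImplicit false
open MeasureTheory Set Filter Topology Metric

namespace Pool.Agent.Helper43.Landis

lemma aw_shift {C R : ℝ} (hC : 0 ≤ C) (hR : 0 < R) (t u : ℝ) : aw C R (t + u) ≤ Real.exp (C * |u|) * aw C R t := by
  unfold aw
  rw [← Real.exp_add]
  apply Real.exp_le_exp.mpr
  have h := sq_lip hR (t + u) t
  have h2 : |t + u - t| = |u| := by congr 1; ring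
  rw [h2] at h
  have h3 := (abs_le.mp h).1
  nlinarith

lemma ww_shift {C L : ℝ} (hC : 0 ≤ C) (hL : 0 < L) (x z : EE 3) :
    ww C L (x + z) ≤ Real.exp (3 * C * ‖z‖) * ww C L x := by
  unfold ww
  have h1 : ∀ j, aw C (L ^ 2) ((x + z) j) ≤ Real.exp (C * ‖z‖) * aw C (L ^ 2) (x j) := by
    intro j
    have g1 := aw_shift (C := C) hC (show 0 < L ^ 2 by positivity) (x j) (z j)
    have g2 : |z j| ≤ ‖z‖ := by
      have := PiLp.norm_apply_le z j
      rwa [Real.norm_eq_abs] at this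
    have g3 : Real.exp (C * |z j|) ≤ Real.exp (C * ‖z‖) := by
      apply Real.exp_le_exp.mpr; gcongr
    calc aw C (L ^ 2) ((x + z) j) = aw C (L ^ 2) (x j + z j) := by simp
      _ ≤ Real.exp (C * |z j|) * aw C (L ^ 2) (x j) := g1
      _ ≤ _ := by
        apply mul_le_mul_of_nonneg_right g3 (aw_pos _ _ _).le
  calc ∏ j, aw C (L ^ 2) ((x + z) j) ≤ ∏ j, (Real.exp (C * ‖z‖) * aw C (L ^ 2) (x j)) :=
        Finset.prod_le_prod (fun j _ => (aw_pos _ _ _).le) (fun j _ => h1 j)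
    _ = _ := by
        rw [Finset.prod_mul_distrib, Finset.prod_const, Finset.card_univ, Fintype.card_fin, ← Real.exp_nat_mul]
        congr 2
        push_cast; ring

lemma norm_le_sum_abs (x : EE 3) : ‖x‖ ≤ ∑ j, |x j| := by
  have hx : x = ∑ i, x i • (EuclideanSpace.single i (1:ℝ) : EE 3) := by
    have := (EuclideanSpace.basisFun (Fin 3) ℝ).sum_repr x
    simpa using this.symm
  calc ‖x‖ = ‖∑ i, x i • (EuclideanSpace.single i (1:ℝ) : EE 3)‖ := by rw [← hx]
    _ ≤ ∑ i, ‖x i • (EuclideanSpace.single i (1:ℝ) : EE 3)‖ := norm_sum_le _ _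
    _ = _ := by
      apply Finset.sum_congr rfl
      intro i _
      rw [norm_smul]; simp

lemma ww_le {C L : ℝ} (hC : 0 ≤ C) (x : EE 3) : ww C L x ≤ Real.exp (-(C * ‖x‖)) := by
  unfold ww aw
  rw [← Real.exp_sum]
  apply Real.exp_le_exp.mpr
  rw [Finset.sum_neg_distrib, ← Finset.mul_sum]
  apply neg_le_neg
  apply mul_le_mul_of_nonneg_left _ hC
  exact (norm_le_sum_abs x).trans (Finset.sum_le_sum fun j _ => abs_le_sq _ _)

lemma bmp_lip (s t : ℝ) : |bmp.f s - bmp.f t| ≤ bmp.B * |s - t| := by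
  have := Convex.norm_image_sub_le_of_norm_hasDerivWithin_le (f := bmp.f) (f' := bmp.f1) (C := bmp.B) (s := univ)
    (fun x _ => (bmp.hf x).hasDerivWithinAt) (fun x _ => by
      rw [Real.norm_eq_abs]; exact bmp.f1_le x) convex_univ (mem_univ t) (mem_univ s)
  simpa using this

lemma chi_lip {L : ℝ} (hL : 0 < L) (c : Fin 3 → ℤ) (x y : EE 3) :
    |chi L c x - chi L c y| ≤ 3 * bmp.B / L * ‖x - y‖ := by
  have h1 : ∀ j, |bmp.f (x j / L - c j) - bmp.f (y j / L - c j)| ≤ bmp.B / L * ‖x - y‖ := by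
    intro j
    refine (bmp_lip _ _).trans ?_
    have e1 : x j / L - c j - (y j / L - c j) = (x j - y j) / L := by ring
    rw [e1, abs_div, abs_of_pos hL]
    have g2 : |x j - y j| ≤ ‖x - y‖ := by
      have := PiLp.norm_apply_le (x - y) j
      rw [Real.norm_eq_abs] at this
      simpa using this
    have := bmp.hB
    calc bmp.B * (|x j - y j| / L) ≤ bmp.B * (‖x - y‖ / L) := by gcongr
      _ = _ := by ring
  unfold chi
  rw [Fin.prod_univ_three, Fin.prod_univ_three]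
  set p0 := bmp.f (x 0 / L - c 0)
  set p1 := bmp.f (x 1 / L - c 1)
  set p2 := bmp.f (x 2 / L - c 2)
  set q0 := bmp.f (y 0 / L - c 0)
  set q1 := bmp.f (y 1 / L - c 1)
  set q2 := bmp.f (y 2 / L - c 2)
  have e1 : p0 * p1 * p2 - q0 * q1 * q2 = (p0 - q0) * (p1 * p2) + (p1 - q1) * (q0 * p2) + (p2 - q2) * (q0 * q1) := by
    ring
  have ab : ∀ s t : ℝ, |bmp.f s * bmp.f t| ≤ 1 := by
    intro s t
    rw [abs_of_nonneg (mul_nonneg (bmp.nonneg _) (bmp.nonneg _))]
    exact mul_le_one₀ (bmp.le_one _) (bmp.nonneg _) (bmp.le_one _)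
  have bd : ∀ u v w : ℝ, |u| ≤ w → |v| ≤ 1 → |u * v| ≤ w := by
    intro u v w hu hv
    rw [abs_mul]
    nlinarith [abs_nonneg u, abs_nonneg v]
  rw [e1]
  calc |(p0 - q0) * (p1 * p2) + (p1 - q1) * (q0 * p2) + (p2 - q2) * (q0 * q1)|
      ≤ |(p0 - q0) * (p1 * p2)| + |(p1 - q1) * (q0 * p2)| + |(p2 - q2) * (q0 * q1)| := abs_add_three _ _ _
    _ ≤ bmp.B / L * ‖x - y‖ + bmp.B / L * ‖x - y‖ + bmp.B / L * ‖x - y‖ :=
        add_le_add (add_le_add (bd _ _ _ (h1 0) (ab _ _)) (bd _ _ _ (h1 1) (ab _ _))) (bd _ _ _ (h1 2) (ab _ _))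
    _ = _ := by ring

lemma exists_full_cell (L : ℝ) (y : EE 3) : ∃ e0, chi L (idx L y e0) y = 1 := by
  have h : ∀ i : Fin 3, ∃ e : Fin 4, |y i / L - ((⌊y i / L⌋ - 1 + ((e : ℕ) : ℤ) : ℤ) : ℝ)| ≤ 1 / 2 := by
    intro i
    have h3 := Int.floor_le (y i / L)
    have h4 := Int.lt_floor_add_one (y i / L)
    by_cases hf : y i / L ≤ ⌊y i / L⌋ + 1 / 2
    · refine ⟨1, ?_⟩
      have e1 : ((⌊y i / L⌋ - 1 + (((1 : Fin 4) : ℕ) : ℤ) : ℤ) : ℝ) = (⌊y i / L⌋ : ℝ) := by
        have : ((1 : Fin 4) : ℕ) = 1 := rfl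
        rw [this]; push_cast; ring
      rw [e1, abs_le]
      constructor <;> linarith
    · refine ⟨2, ?_⟩
      push Not at hf
      have e1 : ((⌊y i / L⌋ - 1 + (((2 : Fin 4) : ℕ) : ℤ) : ℤ) : ℝ) = (⌊y i / L⌋ : ℝ) + 1 := by
        have : ((2 : Fin 4) : ℕ) = 2 := rfl
        rw [this]; push_cast; ring
      rw [e1, abs_le]
      constructor <;> linarith
  choose e he using h
  refine ⟨e, ?_⟩
  unfold chi
  apply Finset.prod_eq_one
  intro i _
  exact bmp.eq_one _ (he i)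

/-- the set where the approximate solution is small is thin -/
lemma thin_of {C L T κ0 θ c : ℝ} (hL : 2 ≤ L) (hT : 0 < T) (hT1 : T ≤ 1)
    {η : (Fin 3 → ℤ) → EE 3} (hη1 : ∀ c, 1 ≤ ‖η c‖) (hη2 : ∀ c, ‖η c‖ ≤ 1 + 2 * C)
    (hsep : ∀ c c', c ≠ c' → (∀ i, |c i - c' i| ≤ 3) → κ0 ≤ ‖η c - η c'‖ ∧ κ0 ≤ ‖η c + η c'‖)
    (hc : ∀ e0 : Fin 3 → Fin 4, ∀ p ∈ adm (d := 3) (Fin 3 → Fin 4) (T * min 1 κ0) (T * (1 + 2 * C)) e0,
      (volume : Measure (EE 3)) {v | ‖v‖ ≤ 1 ∧ |trig p v| < c} ≤ ENNReal.ofReal θ)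
    {c0 : ℝ} (hc0 : c0 + 192 * bmp.B / L ≤ c) (y : EE 3) :
    (volume : Measure (EE 3)) {v | ‖v‖ ≤ 1 ∧ T • v ∈ {z | |∑ᶠ k, Fc C L k (η k) (y + z)| < c0 * ww C L (y + z)}}
      ≤ ENNReal.ofReal θ := by
  classical
  have hL0 : 0 < L := by linarith
  obtain ⟨e0, he0⟩ := exists_full_cell L y
  set p : (Fin 3 → Fin 4) → ℝ × ℝ × EE 3 := fun e =>
    (chi L (idx L y e) y * Real.cos (inner ℝ (η (idx L y e)) y),
      -(chi L (idx L y e) y * Real.sin (inner ℝ (η (idx L y e)) y)), T • η (idx L y e)) with hp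
  have hsq : ∀ e, (p e).1 ^ 2 + (p e).2.1 ^ 2 = (chi L (idx L y e) y) ^ 2 := by
    intro e
    simp only [hp]
    have := Real.sin_sq_add_cos_sq (inner ℝ (η (idx L y e)) y)
    linear_combination (chi L (idx L y e) y) ^ 2 * this
  have hpadm : p ∈ adm (d := 3) (Fin 3 → Fin 4) (T * min 1 κ0) (T * (1 + 2 * C)) e0 := by
    refine ⟨fun e => ?_, ?_, fun e => ?_, fun e f hef => ?_⟩
    · rw [hsq e]
      have h1 := chi_nonneg L (idx L y e) y
      have h2 := chi_le_one L (idx L y e) y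
      nlinarith
    · rw [hsq e0, he0]; norm_num
    · simp only [hp]
      rw [norm_smul, Real.norm_eq_abs, abs_of_pos hT]
      constructor
      · have h1 := hη1 (idx L y e)
        have h2 := min_le_left 1 κ0
        nlinarith
      · have h1 := hη2 (idx L y e)
        nlinarith
    · have hne : idx L y e ≠ idx L y f := fun h => hef (idx_injective L y h)
      obtain ⟨h1, h2⟩ := hsep _ _ hne (idx_near L y e f)
      have h3 := min_le_right 1 κ0
      simp only [hp]
      rw [← smul_sub, ← smul_add, norm_smul, norm_smul, Real.norm_eq_abs, abs_of_pos hT]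
      constructor <;> nlinarith
  refine (measure_mono ?_).trans (hc e0 p hpadm)
  rintro v ⟨hv1, hv2⟩
  refine ⟨hv1, ?_⟩
  have hv2' : |∑ᶠ k, Fc C L k (η k) (y + T • v)| < c0 * ww C L (y + T • v) := hv2
  have hTv : ‖T • v‖ ≤ 1 := by
    rw [norm_smul, Real.norm_eq_abs, abs_of_pos hT]; nlinarith [norm_nonneg v]
  have hloc := finsum_local hL (G := fun k => Fc C L k (η k)) (fun k x h => Fc_zero h) (x := y + T • v) (y := y)
    (by simpa using hTv)
  rw [hloc] at hv2'
  set x := y + T • v with hx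
  have hw := ww_pos C L x
  have hS : ∑ e, Fc C L (idx L y e) (η (idx L y e)) x
      = ww C L x * ∑ e, chi L (idx L y e) x * Real.cos (inner ℝ (η (idx L y e)) x) := by
    rw [Finset.mul_sum]
    exact Finset.sum_congr rfl fun e _ => Fc_eq _ _ _ _ _
  rw [hS, abs_mul, abs_of_pos hw, mul_comm c0] at hv2'
  have hS2 : |∑ e, chi L (idx L y e) x * Real.cos (inner ℝ (η (idx L y e)) x)| < c0 :=
    lt_of_mul_lt_mul_left hv2' hw.le
  have htrig : trig p v = ∑ e, chi L (idx L y e) y * Real.cos (inner ℝ (η (idx L y e)) x) := by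
    unfold trig
    apply Finset.sum_congr rfl
    intro e _
    have e1 : inner ℝ (η (idx L y e)) x = inner ℝ (η (idx L y e)) y + inner ℝ (T • η (idx L y e)) v := by
      rw [hx, inner_add_right, inner_smul_right, inner_smul_left]; simp
    rw [e1, Real.cos_add]
    simp only [hp]
    ring
  have hdiff : |trig p v - ∑ e, chi L (idx L y e) x * Real.cos (inner ℝ (η (idx L y e)) x)| ≤ 192 * bmp.B / L := by
    rw [htrig, ← Finset.sum_sub_distrib]
    calc |∑ e, (chi L (idx L y e) y * Real.cos (inner ℝ (η (idx L y e)) x)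
          - chi L (idx L y e) x * Real.cos (inner ℝ (η (idx L y e)) x))|
        ≤ ∑ e, |chi L (idx L y e) y * Real.cos (inner ℝ (η (idx L y e)) x)
          - chi L (idx L y e) x * Real.cos (inner ℝ (η (idx L y e)) x)| := Finset.abs_sum_le_sum_abs _ _
      _ ≤ ∑ e : Fin 3 → Fin 4, 3 * bmp.B / L := by
          apply Finset.sum_le_sum
          intro e _
          rw [← sub_mul, abs_mul]
          have h1 := chi_lip hL0 (idx L y e) y x
          have h2 : ‖y - x‖ ≤ 1 := by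
            rw [norm_sub_rev, hx]; simpa using hTv
          have h3 := Real.abs_cos_le_one (inner ℝ (η (idx L y e)) x)
          have h4 : 0 ≤ 3 * bmp.B / L := by have := bmp.hB; positivity
          calc |chi L (idx L y e) y - chi L (idx L y e) x| * |Real.cos (inner ℝ (η (idx L y e)) x)|
              ≤ (3 * bmp.B / L * 1) * 1 := by
                apply mul_le_mul _ h3 (abs_nonneg _) (by positivity)
                exact h1.trans (mul_le_mul_of_nonneg_left h2 h4)
            _ = _ := by ring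
      _ = 192 * bmp.B / L := by
          rw [Finset.sum_const, Finset.card_univ, Fintype.card_fun, Fintype.card_fin, Fintype.card_fin]
          simp only [nsmul_eq_mul]
          push_cast
          ring
  show |trig p v| < c
  have h5 := abs_sub_abs_le_abs_sub (trig p v) (∑ e, chi L (idx L y e) x * Real.cos (inner ℝ (η (idx L y e)) x))
  linarith

end Pool.Agent.Helper43.Landis
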