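import Mathlib
import Pool.Agent.Helper43.Land11

set_option autoImplicit false
open MeasureTheory Set Filter Topology Metric

namespace Pool.Agent.Helper43.Landis

lemma eta_norm_le {C L : ℝ} (hC : 1 ≤ C) (hL : 0 < L) {c : Fin 3 → ℤ} {η : EE 3}
    (h1 : ‖η‖ ^ 2 = 1 + ‖xi C L c‖ ^ 2) : ‖η‖ ≤ 1 + 2 * C := by
  have hR : 0 < L ^ 2 := by positivity
  have hxi : ‖xi C L c‖ ^ 2 ≤ 3 * C ^ 2 := by
    rw [EuclideanSpace.real_norm_sq_eq, Fin.sum_univ_three]
    have : ∀ j, ((xi C L c) j) ^ 2 ≤ C ^ 2 := by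
      intro j
      have hj : (xi C L c) j = C * sq1 (L ^ 2) (L * c j) := rfl
      rw [hj, mul_pow]
      have := abs_sq1_le hR (L * c j)
      have h2 : (sq1 (L ^ 2) (L * c j)) ^ 2 ≤ 1 := by
        rw [← sq_abs]; nlinarith [abs_nonneg (sq1 (L ^ 2) (L * c j))]
      nlinarith [sq_nonneg C]
    linarith [this 0, this 1, this 2]
  have : ‖η‖ ^ 2 ≤ (1 + 2 * C) ^ 2 := by rw [h1]; nlinarith
  exact le_of_sq_le_sq this (by linarith)

lemma one_le_eta {ξ η : EE 3} (h1 : ‖η‖ ^ 2 = 1 + ‖ξ‖ ^ 2) : 1 ≤ ‖η‖ := by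
  have : (1:ℝ) ^ 2 ≤ ‖η‖ ^ 2 := by rw [h1]; nlinarith [sq_nonneg ‖ξ‖]
  exact le_of_sq_le_sq this (norm_nonneg _)

theorem main (C : ℝ) (hC : 1 ≤ C) : ∃ V u : EE 3 → ℝ, Continuous V ∧ Continuous u ∧
    (∀ x, |V x| ≤ 11 / 10) ∧ (∀ x, |u x| ≤ Real.exp (-(C * ‖x‖))) ∧
    (∀ φ : EE 3 → ℝ, ContDiff ℝ 2 φ → HasCompactSupport φ →
      ∫ x, (-(u x * lap φ x) + V x * u x * φ x) = 0) ∧ ∃ x, u x ≠ 0 := by
  classical
  have hC0 : 0 < C := by linarith
  set T : ℝ := 1 / (3 * C) with hTdef
  have hT : 0 < T := by positivity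
  have hT1 : T ≤ 1 := by
    rw [hTdef, div_le_one (by positivity)]; linarith
  have hΛT : 3 * C * T ≤ 1 := by rw [hTdef]; field_simp; norm_num
  obtain ⟨μA, μK, hprA, hfinK, hK8, hTA, hTK, hid, hμA⟩ := exists_kernel 3 T hT hT1
  obtain ⟨κ0, hκ0, hdir⟩ := exists_directions
  have hκ : 0 < T * min 1 κ0 := mul_pos hT (lt_min one_pos hκ0)
  set θ : ℝ := 1 / (12 * cp 3) with hθdef
  have hcp := cp_pos 3
  have hθ : 0 < θ := by positivity
  obtain ⟨c, hc, hthin⟩ := thin_uniform (d := 3) (ι := Fin 3 → Fin 4) (Λ := T * (1 + 2 * C)) hκ hθ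
  set c0 : ℝ := min (c / 2) 1 with hc0def
  have hc0 : 0 < c0 := lt_min (by positivity) one_pos
  have hc01 : c0 ≤ 1 := min_le_right _ _
  have hc0c : c0 ≤ c / 2 := min_le_left _ _
  have hB := bmp.hB
  have hK : 0 < K1 C := by unfold K1; positivity
  set L : ℝ := max 2 (max (384 * bmp.B / c) (5760 * K1 C / c0)) with hLdef
  have hL2 : 2 ≤ L := le_max_left _ _
  have hL0 : 0 < L := by linarith
  have hL1 : 1 ≤ L := by linarith
  have hLa : 192 * bmp.B / L ≤ c / 2 := by
    have h1 : 384 * bmp.B / c ≤ L := (le_max_left _ _).trans (le_max_right _ _)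
    rw [div_le_iff₀ hc] at h1
    rw [div_le_iff₀ hL0]
    linarith
  have hLb : 64 * (3 * K1 C / L) ≤ c0 / 30 := by
    have h1 : 5760 * K1 C / c0 ≤ L := (le_max_right _ _).trans (le_max_right _ _)
    rw [div_le_iff₀ hc0] at h1
    have h2 : 64 * (3 * K1 C / L) = 192 * K1 C / L := by ring
    rw [h2, div_le_iff₀ hL0]
    linarith
  obtain ⟨η, hη, hsep⟩ := hdir (xi C L)
  choose Rc hRc hRb hRz hRw using fun k => cell hC hL1 k (hη k).1 (hη k).2
  set U : EE 3 → ℝ := fun x => ∑ᶠ k, Fc C L k (η k) x with hU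
  set R : EE 3 → ℝ := fun x => ∑ᶠ k, Rc k x with hR
  have hUc : Continuous U := finsum_cont hL2 (G := fun k => Fc C L k (η k)) (fun k x h => Fc_zero h)
    (fun k => Fc_continuous _ _ _ _)
  have hRcont : Continuous R := finsum_cont hL2 (G := Rc) hRz hRc
  have hcard : ((Finset.univ : Finset (Fin 3 → Fin 4)).card : ℝ) = 64 := by
    rw [Finset.card_univ, Fintype.card_fun, Fintype.card_fin, Fintype.card_fin]; norm_num
  have hUb : ∀ x, |U x| ≤ 64 * ww C L x := by
    intro x
    have h1 := finsum_local hL2 (G := fun k => Fc C L k (η k)) (fun k x h => Fc_zero h) (x := x) (y := x) (by simp)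
    simp only [hU]
    rw [h1]
    calc |∑ e, Fc C L (idx L x e) (η (idx L x e)) x| ≤ ∑ e, |Fc C L (idx L x e) (η (idx L x e)) x| :=
          Finset.abs_sum_le_sum_abs _ _
      _ ≤ ∑ e : Fin 3 → Fin 4, ww C L x := Finset.sum_le_sum fun e _ => Fc_le _ _ _ _ _
      _ = _ := by rw [Finset.sum_const, nsmul_eq_mul, hcard]
  have hRbound : ∀ x, |R x| ≤ c0 / 30 * ww C L x := by
    intro x
    have h1 := finsum_local hL2 (G := Rc) hRz (x := x) (y := x) (by simp)
    simp only [hR]
    rw [h1]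
    have hw := ww_pos C L x
    calc |∑ e, Rc (idx L x e) x| ≤ ∑ e, |Rc (idx L x e) x| := Finset.abs_sum_le_sum_abs _ _
      _ ≤ ∑ e : Fin 3 → Fin 4, 3 * K1 C / L * ww C L x := Finset.sum_le_sum fun e _ => hRb _ _
      _ = 64 * (3 * K1 C / L) * ww C L x := by
          rw [Finset.sum_const, nsmul_eq_mul, hcard]; ring
      _ ≤ _ := mul_le_mul_of_nonneg_right hLb hw.le
  have hUR : ∀ φ : EE 3 → ℝ, ContDiff ℝ 2 φ → HasCompactSupport φ →
      ∫ x, U x * lap φ x = ∫ x, (-U x + R x) * φ x := by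
    intro φ hφ hs
    exact finsum_weak hL2 (F := fun k => Fc C L k (η k)) (R := Rc) (fun k x h => Fc_zero h) hRz
      (fun k => Fc_continuous _ _ _ _) hRc hRw φ hφ hs
  have hthinA : ∀ y, μA.real {z | |U (y + z)| < c0 * ww C L (y + z)} ≤ 1 / 12 := by
    intro y
    have hms : MeasurableSet {z | |U (y + z)| < c0 * ww C L (y + z)} := by
      have hcy : Continuous fun z : EE 3 => y + z := continuous_const.add continuous_id
      exact (isOpen_lt (hUc.comp hcy).abs (continuous_const.mul (ww_continuous.comp hcy))).measurableSet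
    have h1 := hμA _ hms
    have h2 := thin_of (C := C) (κ0 := κ0) (θ := θ) (c := c) hL2 hT hT1 (fun k => one_le_eta (hη k).2)
      (fun k => eta_norm_le hC hL0 (hη k).2) hsep hthin (c0 := c0) (by linarith) y
    have h3 : μA {z | |U (y + z)| < c0 * ww C L (y + z)} ≤ ENNReal.ofReal (1 / 12) := by
      refine h1.trans ?_
      calc ENNReal.ofReal (cp 3) * volume {v : EE 3 | ‖v‖ ≤ 1 ∧ T • v ∈ {z | |U (y + z)| < c0 * ww C L (y + z)}}
          ≤ ENNReal.ofReal (cp 3) * ENNReal.ofReal θ := by gcongr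
        _ = ENNReal.ofReal (cp 3 * θ) := (ENNReal.ofReal_mul hcp.le).symm
        _ = ENNReal.ofReal (1 / 12) := by
            congr 1; rw [hθdef]; field_simp
    exact ENNReal.toReal_le_of_le_ofReal (by norm_num) h3
  obtain ⟨g, q, hgc, hqc, hgb, hqb, hweak⟩ := abstract_landis (Λ := 3 * C) hK8 hTA hTK hid (by positivity) hΛT hc0
    (ww_continuous (C := C) (L := L)) hUc hRcont (ww_pos C L) (fun x z => ww_shift hC0.le hL0 x z) hRbound hUR hthinA
  refine ⟨fun x => -1 + q x, fun x => 1 / 65 * (U x + g x), continuous_const.add hqc,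
    continuous_const.mul (hUc.add hgc), ?_, ?_, ?_, ?_⟩
  · intro x
    have := abs_le.mp (hqb x)
    rw [abs_le]
    constructor <;> linarith [this.1, this.2]
  · intro x
    have hw := ww_pos C L x
    have h1 : |U x + g x| ≤ 65 * ww C L x := by
      refine (abs_add_le _ _).trans ?_
      have h2 := hUb x
      have h3 := hgb x
      have h4 : c0 / 20 * ww C L x ≤ 1 * ww C L x := by
        apply mul_le_mul_of_nonneg_right _ hw.le; linarith
      linarith
    rw [abs_mul, abs_of_pos (by norm_num : (0:ℝ) < 1 / 65)]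
    have h2 := ww_le (C := C) (L := L) hC0.le x
    linarith
  · intro φ hφ hs
    have hlc := lap_continuous hφ
    have hls := lap_hcs hs
    have i1 : Integrable fun x => (U x + g x) * lap φ x :=
      ((hUc.add hgc).mul hlc).integrable_of_hasCompactSupport hls.mul_left
    have i2 : Integrable fun x => (-1 + q x) * (U x + g x) * φ x :=
      (((continuous_const.add hqc).mul (hUc.add hgc)).mul hφ.continuous).integrable_of_hasCompactSupport hs.mul_left
    calc ∫ x, (-(1 / 65 * (U x + g x) * lap φ x) + (-1 + q x) * (1 / 65 * (U x + g x)) * φ x)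
        = ∫ x, (1 / 65) * ((-1 + q x) * (U x + g x) * φ x - (U x + g x) * lap φ x) := by
          congr 1; ext x; ring
      _ = (1 / 65) * ((∫ x, (-1 + q x) * (U x + g x) * φ x) - ∫ x, (U x + g x) * lap φ x) := by
          rw [integral_const_mul, integral_sub i2 i1]
      _ = 0 := by rw [hweak φ hφ hs]; ring
  · -- nonvanishing
    have h1 := hthinA 0
    have h2 : ∃ z, z ∉ {z | |U (0 + z)| < c0 * ww C L (0 + z)} := by
      by_contra hcon
      push Not at hcon
      have h3 : {z | |U (0 + z)| < c0 * ww C L (0 + z)} = univ := eq_univ_of_forall hcon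
      rw [h3] at h1
      have h4 : μA.real univ = 1 := by simp
      rw [h4] at h1
      norm_num at h1
    obtain ⟨z, hz⟩ := h2
    have hz' : c0 * ww C L z ≤ |U z| := by
      have := not_lt.mp (show ¬ (|U (0 + z)| < c0 * ww C L (0 + z)) from hz)
      simpa using this
    refine ⟨z, ?_⟩
    intro h0
    have h3 : U z + g z = 0 := by
      have := mul_eq_zero.mp h0
      rcases this with h | h
      · norm_num at h
      · exact h
    have h4 : |U z| = |g z| := by
      have : U z = -g z := by linarith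
      rw [this, abs_neg]
    have h5 := hgb z
    have hw := ww_pos C L z
    have h6 : 0 < c0 * ww C L z := mul_pos hc0 hw
    have h7 : c0 / 20 * ww C L z = c0 * ww C L z / 20 := by ring
    rw [h7] at h5
    linarith

end Pool.Agent.Helper43.Landis
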