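import Mathlib
import Pool.Agent.Helper76.SNC.Order

/-!
# Homogenising a set of first vertices

Starting from a nonempty set `F1` of vertices and a set `L` of at most `m` middle vertices, we find
a subset `F` of `F1`, not too small, and a set `X` of middle vertices such that every middle vertex
outside `X` receives few arcs from `F`, and every vertex `z` that receives many arcs from `X` is
reached in two steps from almost all of `F`.
-/

namespace Pool.Agent.Helper43.SNHom

open Finset Pool.Agent.Helper76.SNC

open Classical in
theorem homogenise {V : Type*} [Fintype V] [DecidableEq V] (D : V → V → Prop) (L F1 : Finset V)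
    (hF1 : F1.Nonempty) (m : ℝ) (hm : 0 < m) (hL : (L.card : ℝ) ≤ m) (rs xi r : ℝ)
    (hrs : 0 < rs) (hxi : 0 < xi) (hxi1 : xi ≤ 1) (hr : 0 < r) (N : ℕ) (hN : 1 < N * r) :
    ∃ F : Finset V, F ⊆ F1 ∧ F.Nonempty ∧ xi ^ N * (F1.card : ℝ) ≤ F.card ∧
      ∃ X ⊆ L, (∀ x ∈ L, x ∉ X → ∑ v ∈ F, ar D v x ≤ rs * F.card) ∧
        ∀ z, r * m ≤ ∑ x ∈ X, ar D x z →
          ((F.filter (fun v => ¬ ∃ x, D v x ∧ D x z)).card : ℝ) ≤ xi * F.card := by
  by_contra hcon
  have key : ∀ k : ℕ, k ≤ N → ∃ F : Finset V, F ⊆ F1 ∧ F.Nonempty ∧
      xi ^ k * (F1.card : ℝ) ≤ F.card ∧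
      ((L.filter (fun x => rs * xi ^ (N - k) * F.card ≤ ∑ v ∈ F, ar D v x)).card : ℝ) ≤
        m - k * (r * m) := by
    intro k
    induction k with
    | zero =>
      intro _
      refine ⟨F1, Subset.rfl, hF1, by simp, ?_⟩
      have h1 : ((L.filter (fun x => rs * xi ^ (N - 0) * F1.card ≤ ∑ v ∈ F1, ar D v x)).card : ℝ) ≤
          L.card := by
        exact_mod_cast card_le_card (filter_subset _ _)
      have h2 : ((0 : ℕ) : ℝ) * (r * m) = 0 := by simp
      rw [h2, sub_zero]
      exact h1.trans hL
    | succ k ih =>
      intro hk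
      obtain ⟨F, hFF, hFne, hFc, hXc⟩ := ih (by omega)
      have hFpos : (0 : ℝ) < F.card := by exact_mod_cast hFne.card_pos
      -- the failure of the claim for this `F`
      have h1 : ∃ z, r * m ≤ ∑ x ∈ L.filter
            (fun x => rs * xi ^ (N - k) * F.card ≤ ∑ v ∈ F, ar D v x), ar D x z ∧
          xi * F.card < ((F.filter (fun v => ¬ ∃ x, D v x ∧ D x z)).card : ℝ) := by
        by_contra hc
        apply hcon
        refine ⟨F, hFF, hFne, ?_, L.filter
            (fun x => rs * xi ^ (N - k) * F.card ≤ ∑ v ∈ F, ar D v x), filter_subset _ _, ?_, ?_⟩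
        · refine le_trans ?_ hFc
          exact mul_le_mul_of_nonneg_right
            (pow_le_pow_of_le_one hxi.le hxi1 (by omega)) (Nat.cast_nonneg _)
        · intro x hx hxX
          have h2 : ∑ v ∈ F, ar D v x < rs * xi ^ (N - k) * F.card := by
            by_contra h3
            push Not at h3
            exact hxX (mem_filter.2 ⟨hx, h3⟩)
          have h4 : xi ^ (N - k) ≤ 1 := pow_le_one₀ hxi.le hxi1
          have h5 : rs * xi ^ (N - k) * F.card ≤ rs * F.card := by
            apply mul_le_mul_of_nonneg_right _ hFpos.le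
            nlinarith
          linarith
        · intro z hz
          by_contra h3
          exact hc ⟨z, hz, not_le.1 h3⟩
      obtain ⟨z, hz1, hz2⟩ := h1
      set F' := F.filter (fun v => ¬ ∃ x, D v x ∧ D x z) with hF'
      set X := L.filter (fun x => rs * xi ^ (N - k) * F.card ≤ ∑ v ∈ F, ar D v x) with hX
      have hF'F : F' ⊆ F := filter_subset _ _
      have hF'pos : (0 : ℝ) < F'.card := lt_trans (mul_pos hxi hFpos) hz2
      refine ⟨F', hF'F.trans hFF, ?_, ?_, ?_⟩
      · rw [← card_pos]
        exact_mod_cast hF'pos
      · rw [pow_succ]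
        have h2 : xi * (xi ^ k * (F1.card : ℝ)) ≤ xi * F.card :=
          mul_le_mul_of_nonneg_left hFc hxi.le
        linarith
      · -- the new heavy set
        have hsub : (L.filter (fun x => rs * xi ^ (N - (k + 1)) * F'.card ≤ ∑ v ∈ F', ar D v x)) ⊆
            X.filter (fun x => ¬ D x z) := by
          intro x hx
          rw [mem_filter] at hx
          obtain ⟨hxL, hxs⟩ := hx
          have hpow : xi ^ (N - k) = xi ^ (N - (k + 1)) * xi := by
            rw [← pow_succ]
            congr 1
            omega
          have hpp : 0 < rs * xi ^ (N - (k + 1)) := mul_pos hrs (pow_pos hxi _)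
          rw [mem_filter, hX, mem_filter]
          refine ⟨⟨hxL, ?_⟩, ?_⟩
          · have h2 : ∑ v ∈ F', ar D v x ≤ ∑ v ∈ F, ar D v x :=
              sum_le_sum_of_subset_of_nonneg hF'F (fun v _ _ => ar_nonneg D v x)
            have h3 : rs * xi ^ (N - k) * F.card ≤ rs * xi ^ (N - (k + 1)) * F'.card := by
              rw [hpow]
              have := mul_le_mul_of_nonneg_left hz2.le hpp.le
              linarith
            linarith
          · intro hDxz
            have h2 : 0 < ∑ v ∈ F', ar D v x := lt_of_lt_of_le (mul_pos hpp hF'pos) hxs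
            have h3 : ∃ v ∈ F', ar D v x ≠ 0 := by
              by_contra hc
              push Not at hc
              rw [sum_eq_zero hc] at h2
              exact lt_irrefl _ h2
            obtain ⟨v, hv, hvx⟩ := h3
            have h4 : D v x := by
              by_contra hc
              apply hvx
              unfold ar
              rw [if_neg hc]
            rw [hF', mem_filter] at hv
            exact hv.2 ⟨x, h4, hDxz⟩
        have hcard1 : ((L.filter (fun x => rs * xi ^ (N - (k + 1)) * F'.card ≤
            ∑ v ∈ F', ar D v x)).card : ℝ) ≤ (X.filter (fun x => ¬ D x z)).card := by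
          exact_mod_cast card_le_card hsub
        have hcard2 : ((X.filter (fun x => D x z)).card : ℝ) + (X.filter (fun x => ¬ D x z)).card =
            X.card := by
          exact_mod_cast card_filter_add_card_filter_not (s := X) (fun x => D x z)
        have hcard3 : ∑ x ∈ X, ar D x z = ((X.filter (fun x => D x z)).card : ℝ) := by
          unfold ar
          rw [sum_ite, sum_const_zero, add_zero, sum_const, nsmul_eq_mul, mul_one]
        have hc4 : (((k + 1 : ℕ)) : ℝ) * (r * m) = k * (r * m) + r * m := by
          push_cast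
          ring
        rw [hc4]
        linarith
  obtain ⟨F, -, -, -, hF⟩ := key N le_rfl
  have h1 : (0 : ℝ) ≤ ((L.filter (fun x => rs * xi ^ (N - N) * F.card ≤
      ∑ v ∈ F, ar D v x)).card : ℝ) := Nat.cast_nonneg _
  have h2 : m < N * (r * m) := by
    have := mul_lt_mul_of_pos_right hN hm
    linarith
  linarith

end Pool.Agent.Helper43.SNHom
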