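import Mathlib
set_option autoImplicit false

namespace Pool.Agent.Helper43.Sub

open SimpleGraph Relation

variable {V : Type*} {G : SimpleGraph V}

/-- a subgraph is connected, expressed through the reflexive transitive closure of its adjacency -/
def Conn (T : G.Subgraph) : Prop :=
  T.verts.Nonempty ∧ ∀ u ∈ T.verts, ∀ v ∈ T.verts, ReflTransGen T.Adj u v

theorem rtg_coe_of_rtg (T : G.Subgraph) {u v : V} (hu : u ∈ T.verts) (h : ReflTransGen T.Adj u v) :
    ∃ hv : v ∈ T.verts, ReflTransGen T.coe.Adj ⟨u, hu⟩ ⟨v, hv⟩ := by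
  induction h with
  | refl => exact ⟨hu, .refl⟩
  | tail _ hbc ih =>
    obtain ⟨hb, h1⟩ := ih
    exact ⟨T.edge_vert hbc.symm, h1.tail hbc⟩

theorem rtg_of_rtg_coe (T : G.Subgraph) {u v : T.verts} (h : ReflTransGen T.coe.Adj u v) :
    ReflTransGen T.Adj (u : V) (v : V) := by
  induction h with
  | refl => exact .refl
  | tail _ hbc ih => exact ih.tail hbc

theorem conn_iff (T : G.Subgraph) : T.coe.Connected ↔ Conn T := by
  constructor
  · intro h
    refine ⟨?_, ?_⟩
    · obtain ⟨x⟩ := h.nonempty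
      exact ⟨x, x.2⟩
    · intro u hu v hv
      have := h.preconnected ⟨u, hu⟩ ⟨v, hv⟩
      rw [reachable_iff_reflTransGen] at this
      exact rtg_of_rtg_coe T this
  · rintro ⟨⟨x, hx⟩, h⟩
    have : Nonempty T.verts := ⟨⟨x, hx⟩⟩
    refine ⟨?_⟩
    rintro ⟨u, hu⟩ ⟨v, hv⟩
    rw [reachable_iff_reflTransGen]
    exact (rtg_coe_of_rtg T hu (h u hu v hv)).2

/-- minimally connected -/
def CM (T : G.Subgraph) : Prop :=
  Conn T ∧ ∀ T' : G.Subgraph, T' ≤ T → T'.verts = T.verts → Conn T' → T' = T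

/-- the subgraph with the same vertices as `T` and adjacency `H` -/
def lift (T : G.Subgraph) (H : SimpleGraph T.verts) (hH : H ≤ T.coe) : G.Subgraph where
  verts := T.verts
  Adj := fun u v => ∃ (hu : u ∈ T.verts) (hv : v ∈ T.verts), H.Adj ⟨u, hu⟩ ⟨v, hv⟩
  adj_sub := by
    rintro u v ⟨hu, hv, h⟩
    exact T.adj_sub (hH h)
  edge_vert := by
    rintro u v ⟨hu, hv, h⟩
    exact hu
  symm := ⟨by
    rintro u v ⟨hu, hv, h⟩
    exact ⟨hv, hu, h.symm⟩⟩

theorem cm_iff (T : G.Subgraph) : T.coe.IsTree ↔ CM T := by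
  rw [isTree_iff_minimal_connected]
  constructor
  · rintro ⟨h1, h2⟩
    refine ⟨(conn_iff T).mp h1, ?_⟩
    intro T' hle hverts hconn
    -- the graph H on T.verts given by T'
    let H : SimpleGraph T.verts :=
      { Adj := fun u v => T'.Adj u v
        symm := ⟨fun _ _ h => h.symm⟩
        loopless := ⟨fun u h => T'.loopless.irrefl _ h⟩ }
    have hH : H ≤ T.coe := fun u v h => hle.2 h
    have hHc : H.Connected := by
      have : Nonempty T.verts := h1.nonempty
      refine ⟨?_⟩
      rintro ⟨u, hu⟩ ⟨v, hv⟩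
      rw [reachable_iff_reflTransGen]
      have hu' : u ∈ T'.verts := hverts ▸ hu
      have hv' : v ∈ T'.verts := hverts ▸ hv
      have h3 := hconn.2 u hu' v hv'
      clear hv'
      have key : ∀ w, ReflTransGen T'.Adj u w → ∀ hw : w ∈ T.verts,
          ReflTransGen H.Adj ⟨u, hu⟩ ⟨w, hw⟩ := by
        intro w hw
        induction hw with
        | refl => intro _; exact .refl
        | tail _ hbc ih =>
          intro hc
          have hb := T'.edge_vert hbc
          exact (ih (hverts ▸ hb)).tail hbc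
      exact key v h3 hv
    have h3 := h2 hHc hH
    apply le_antisymm hle
    refine ⟨hverts.ge, ?_⟩
    intro u v huv
    exact h3 (v := ⟨u, T.edge_vert huv⟩) (w := ⟨v, T.edge_vert huv.symm⟩) huv
  · rintro ⟨h1, h2⟩
    refine ⟨(conn_iff T).mpr h1, ?_⟩
    intro H hHc hH
    have h3 := h2 (lift T H hH) ⟨le_rfl, by
      rintro u v ⟨hu, hv, h⟩
      exact hH h⟩ rfl (by
      refine ⟨h1.1, ?_⟩
      intro u hu v hv
      have h4 := hHc.preconnected ⟨u, hu⟩ ⟨v, hv⟩
      rw [reachable_iff_reflTransGen] at h4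
      have key : ∀ w : T.verts, ReflTransGen H.Adj ⟨u, hu⟩ w →
          ReflTransGen (lift T H hH).Adj u w := by
        intro w hw
        induction hw with
        | refl => exact .refl
        | tail _ hbc ih => exact ih.tail ⟨_, _, hbc⟩
      exact key _ h4)
    intro u v huv
    have h5 : (lift T H hH).Adj u v := by rw [h3]; exact huv
    obtain ⟨_, _, h6⟩ := h5
    exact h6

/-- the connected vertex sets -/
theorem induce_conn_iff (S : Set V) :
    (G.induce S).Connected ↔ Conn ((⊤ : G.Subgraph).induce S) := by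
  rw [← conn_iff]
  have e : G.induce S ≃g ((⊤ : G.Subgraph).induce S).coe :=
    { toEquiv := Equiv.refl _
      map_rel_iff' := by
        intro a b
        exact ⟨fun h => h.2.2, fun h => ⟨a.2, b.2, h⟩⟩ }
  exact e.connected_iff

end Pool.Agent.Helper43.Sub
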