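import Mathlib
import Pool.Agent.Helper43.Sub1
set_option autoImplicit false

namespace Pool.Agent.Helper43.Sub

open SimpleGraph Relation

variable {V : Type*} {m : ℕ}

/-- the inclusion of the second graph in the wedge: its root `0` is glued to `a` -/
def i2 (a : V) : Fin (m + 1) → V ⊕ Fin m := Fin.cases (Sum.inl a) Sum.inr

@[simp] theorem i2_zero (a : V) : (i2 a : Fin (m + 1) → V ⊕ Fin m) 0 = Sum.inl a := rfl
@[simp] theorem i2_succ (a : V) (j : Fin m) : i2 a j.succ = Sum.inr j := rfl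

theorem i2_inj (a : V) : Function.Injective (i2 a : Fin (m + 1) → V ⊕ Fin m) := by
  intro i j h
  induction i using Fin.cases with
  | zero =>
    induction j using Fin.cases with
    | zero => rfl
    | succ j => simp at h
  | succ i =>
    induction j using Fin.cases with
    | zero => simp at h
    | succ j => simp at h; rw [h]

theorem i2_eq_inl {a : V} {i : Fin (m + 1)} {v : V} (h : i2 a i = Sum.inl v) : i = 0 ∧ v = a := by
  induction i using Fin.cases with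
  | zero => simp at h; exact ⟨rfl, h.symm⟩
  | succ i => simp at h

/-- The wedge (one-point union) of `G` and `K`, gluing the vertex `a` of `G` to the vertex `0`
of `K`. -/
def wedge (G : SimpleGraph V) (a : V) (K : SimpleGraph (Fin (m + 1))) :
    SimpleGraph (V ⊕ Fin m) where
  Adj := fun x y => (∃ u v, G.Adj u v ∧ x = Sum.inl u ∧ y = Sum.inl v) ∨
    (∃ i j, K.Adj i j ∧ x = i2 a i ∧ y = i2 a j)
  symm := ⟨by
    rintro x y (⟨u, v, h, rfl, rfl⟩ | ⟨i, j, h, rfl, rfl⟩)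
    · exact Or.inl ⟨v, u, h.symm, rfl, rfl⟩
    · exact Or.inr ⟨j, i, h.symm, rfl, rfl⟩⟩
  loopless := ⟨by
    rintro x (⟨u, v, h, h1, h2⟩ | ⟨i, j, h, h1, h2⟩)
    · rw [h1] at h2; simp at h2; exact h.ne h2
    · rw [h1] at h2; exact h.ne (i2_inj a h2)⟩

variable {G : SimpleGraph V} {a : V} {K : SimpleGraph (Fin (m + 1))}

theorem wedge_inl_inl {u v : V} : (wedge G a K).Adj (Sum.inl u) (Sum.inl v) ↔ G.Adj u v := by
  constructor
  · rintro (⟨u', v', h, h1, h2⟩ | ⟨i, j, h, h1, h2⟩)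
    · simp at h1 h2; rw [h1, h2]; exact h
    · have e1 := i2_eq_inl h1.symm
      have e2 := i2_eq_inl h2.symm
      rw [e1.1, e2.1] at h
      exact absurd h (K.loopless.irrefl 0)
  · intro h
    exact Or.inl ⟨u, v, h, rfl, rfl⟩

theorem wedge_i2_i2 {i j : Fin (m + 1)} : (wedge G a K).Adj (i2 a i) (i2 a j) ↔ K.Adj i j := by
  constructor
  · rintro (⟨u', v', h, h1, h2⟩ | ⟨i', j', h, h1, h2⟩)
    · have e1 := i2_eq_inl h1
      have e2 := i2_eq_inl h2
      rw [e1.2, e2.2] at h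
      exact absurd h (G.loopless.irrefl a)
    · rw [i2_inj a h1, i2_inj a h2]; exact h
  · intro h
    exact Or.inr ⟨i, j, h, rfl, rfl⟩

/-- first part of a subgraph of the wedge -/
def P1 (T : (wedge G a K).Subgraph) : G.Subgraph where
  verts := {v | Sum.inl v ∈ T.verts}
  Adj := fun u v => T.Adj (Sum.inl u) (Sum.inl v)
  adj_sub := fun h => wedge_inl_inl.mp (T.adj_sub h)
  edge_vert := fun h => T.edge_vert h
  symm := ⟨fun _ _ h => h.symm⟩

/-- second part of a subgraph of the wedge -/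
def P2 (T : (wedge G a K).Subgraph) : K.Subgraph where
  verts := {i | i2 a i ∈ T.verts}
  Adj := fun i j => T.Adj (i2 a i) (i2 a j)
  adj_sub := fun h => wedge_i2_i2.mp (T.adj_sub h)
  edge_vert := fun h => T.edge_vert h
  symm := ⟨fun _ _ h => h.symm⟩

/-- gluing two subgraphs -/
def join (T₁ : G.Subgraph) (T₂ : K.Subgraph) : (wedge G a K).Subgraph where
  verts := {x | (∃ v ∈ T₁.verts, x = Sum.inl v) ∨ (∃ i ∈ T₂.verts, x = i2 a i)}
  Adj := fun x y => (∃ u v, T₁.Adj u v ∧ x = Sum.inl u ∧ y = Sum.inl v) ∨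
    (∃ i j, T₂.Adj i j ∧ x = i2 a i ∧ y = i2 a j)
  adj_sub := by
    rintro x y (⟨u, v, h, rfl, rfl⟩ | ⟨i, j, h, rfl, rfl⟩)
    · exact Or.inl ⟨u, v, T₁.adj_sub h, rfl, rfl⟩
    · exact Or.inr ⟨i, j, T₂.adj_sub h, rfl, rfl⟩
  edge_vert := by
    rintro x y (⟨u, v, h, rfl, rfl⟩ | ⟨i, j, h, rfl, rfl⟩)
    · exact Or.inl ⟨u, T₁.edge_vert h, rfl⟩
    · exact Or.inr ⟨i, T₂.edge_vert h, rfl⟩
  symm := ⟨by
    rintro x y (⟨u, v, h, rfl, rfl⟩ | ⟨i, j, h, rfl, rfl⟩)
    · exact Or.inl ⟨v, u, h.symm, rfl, rfl⟩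
    · exact Or.inr ⟨j, i, h.symm, rfl, rfl⟩⟩

theorem join_P (T : (wedge G a K).Subgraph) : join (P1 T) (P2 T) = T := by
  apply Subgraph.ext
  · ext x
    simp only [join, P1, P2, Set.mem_ofPred_eq]
    constructor
    · rintro (⟨v, h, rfl⟩ | ⟨i, h, rfl⟩) <;> exact h
    · intro h
      rcases x with v | j
      · exact Or.inl ⟨v, h, rfl⟩
      · exact Or.inr ⟨j.succ, h, rfl⟩
  · ext x y
    simp only [join, P1, P2]
    constructor
    · rintro (⟨u, v, h, rfl, rfl⟩ | ⟨i, j, h, rfl, rfl⟩) <;> exact h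
    · intro h
      rcases T.adj_sub h with ⟨u, v, _, rfl, rfl⟩ | ⟨i, j, _, rfl, rfl⟩
      · exact Or.inl ⟨u, v, h, rfl, rfl⟩
      · exact Or.inr ⟨i, j, h, rfl, rfl⟩

theorem P1_join {T₁ : G.Subgraph} {T₂ : K.Subgraph} (h : (0 : Fin (m + 1)) ∈ T₂.verts → a ∈ T₁.verts) :
    P1 (join (a := a) T₁ T₂) = T₁ := by
  apply Subgraph.ext
  · ext v
    simp only [join, P1, Set.mem_ofPred_eq]
    constructor
    · rintro (⟨v', h1, h2⟩ | ⟨i, h1, h2⟩)
      · simp at h2; rwa [h2]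
      · obtain ⟨rfl, rfl⟩ := i2_eq_inl h2.symm
        exact h h1
    · intro hv; exact Or.inl ⟨v, hv, rfl⟩
  · ext u v
    simp only [join, P1]
    constructor
    · rintro (⟨u', v', h1, h2, h3⟩ | ⟨i, j, h1, h2, h3⟩)
      · simp at h2 h3; rwa [h2, h3]
      · obtain ⟨rfl, _⟩ := i2_eq_inl h2.symm
        obtain ⟨rfl, _⟩ := i2_eq_inl h3.symm
        exact absurd h1 (T₂.loopless.irrefl 0)
    · intro huv; exact Or.inl ⟨u, v, huv, rfl, rfl⟩

theorem P2_join {T₁ : G.Subgraph} {T₂ : K.Subgraph} (h : a ∈ T₁.verts → (0 : Fin (m + 1)) ∈ T₂.verts) :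
    P2 (join (a := a) T₁ T₂) = T₂ := by
  apply Subgraph.ext
  · ext i
    simp only [join, P2, Set.mem_ofPred_eq]
    constructor
    · rintro (⟨v', h1, h2⟩ | ⟨i', h1, h2⟩)
      · obtain ⟨rfl, rfl⟩ := i2_eq_inl h2
        exact h h1
      · rw [i2_inj a h2]; exact h1
    · intro hv; exact Or.inr ⟨i, hv, rfl⟩
  · ext i j
    simp only [join, P2]
    constructor
    · rintro (⟨u', v', h1, h2, h3⟩ | ⟨i', j', h1, h2, h3⟩)
      · obtain ⟨_, rfl⟩ := i2_eq_inl h2
        obtain ⟨_, rfl⟩ := i2_eq_inl h3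
        exact absurd h1 (T₁.loopless.irrefl _)
      · rw [i2_inj a h2, i2_inj a h3]; exact h1
    · intro huv; exact Or.inr ⟨i, j, huv, rfl, rfl⟩

/-- retractions -/
def r1 (a : V) : V ⊕ Fin m → V := Sum.elim id (fun _ => a)
def r2 : V ⊕ Fin m → Fin (m + 1) := Sum.elim (fun _ => 0) Fin.succ

theorem r1_i2 (a : V) (i : Fin (m + 1)) : r1 a (i2 a i) = a := by
  induction i using Fin.cases with
  | zero => rfl
  | succ i => rfl

theorem r2_i2 (a : V) (i : Fin (m + 1)) : r2 (i2 a i) = i := by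
  induction i using Fin.cases with
  | zero => rfl
  | succ i => rfl

theorem rtg_P1 (T : (wedge G a K).Subgraph) {x y : V ⊕ Fin m} (h : ReflTransGen T.Adj x y) :
    ReflTransGen (P1 T).Adj (r1 a x) (r1 a y) := by
  induction h with
  | refl => exact .refl
  | @tail b c _ hbc ih =>
    rcases T.adj_sub hbc with ⟨u, v, _, rfl, rfl⟩ | ⟨i, j, _, rfl, rfl⟩
    · exact ih.tail hbc
    · rw [r1_i2] at ih ⊢
      exact ih

theorem rtg_P2 (T : (wedge G a K).Subgraph) {x y : V ⊕ Fin m} (h : ReflTransGen T.Adj x y) :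
    ReflTransGen (P2 T).Adj (r2 x) (r2 y) := by
  induction h with
  | refl => exact .refl
  | @tail b c _ hbc ih =>
    rcases T.adj_sub hbc with ⟨u, v, _, rfl, rfl⟩ | ⟨i, j, _, rfl, rfl⟩
    · exact ih
    · rw [r2_i2] at ih ⊢
      exact ih.tail hbc

theorem rtg_of_P1 (T : (wedge G a K).Subgraph) {u v : V} (h : ReflTransGen (P1 T).Adj u v) :
    ReflTransGen T.Adj (Sum.inl u) (Sum.inl v) := by
  induction h with
  | refl => exact .refl
  | tail _ hbc ih => exact ih.tail hbc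

theorem rtg_of_P2 (T : (wedge G a K).Subgraph) {i j : Fin (m + 1)}
    (h : ReflTransGen (P2 T).Adj i j) : ReflTransGen T.Adj (i2 a i) (i2 a j) := by
  induction h with
  | refl => exact .refl
  | tail _ hbc ih => exact ih.tail hbc

/-- connectivity of a subgraph through the gluing point -/
theorem conn_iff_of_mem (T : (wedge G a K).Subgraph) (ha : Sum.inl a ∈ T.verts) :
    Conn T ↔ Conn (P1 T) ∧ Conn (P2 T) := by
  constructor
  · rintro ⟨_, h⟩
    refine ⟨⟨⟨a, ha⟩, ?_⟩, ⟨⟨0, ha⟩, ?_⟩⟩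
    · intro u hu v hv
      exact rtg_P1 T (h _ hu _ hv)
    · intro i hi j hj
      have := rtg_P2 T (h _ hi _ hj)
      rwa [r2_i2, r2_i2] at this
  · rintro ⟨⟨_, h1⟩, ⟨_, h2⟩⟩
    refine ⟨⟨_, ha⟩, ?_⟩
    have key : ∀ x ∈ T.verts, ReflTransGen T.Adj x (Sum.inl a) ∧
        ReflTransGen T.Adj (Sum.inl a) x := by
      intro x hx
      rcases x with v | j
      · exact ⟨rtg_of_P1 T (h1 v hx a ha), rtg_of_P1 T (h1 a ha v hx)⟩
      · exact ⟨rtg_of_P2 T (h2 j.succ hx 0 ha), rtg_of_P2 T (h2 0 ha j.succ hx)⟩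
    intro x hx y hy
    exact (key x hx).1.trans (key y hy).2

theorem P1_mono {T T' : (wedge G a K).Subgraph} (h : T ≤ T') : P1 T ≤ P1 T' :=
  ⟨fun _ hv => h.1 hv, fun _ _ huv => h.2 huv⟩

theorem P2_mono {T T' : (wedge G a K).Subgraph} (h : T ≤ T') : P2 T ≤ P2 T' :=
  ⟨fun _ hv => h.1 hv, fun _ _ huv => h.2 huv⟩

theorem join_mono {T₁ T₁' : G.Subgraph} {T₂ T₂' : K.Subgraph} (h1 : T₁ ≤ T₁') (h2 : T₂ ≤ T₂') :
    join (a := a) T₁ T₂ ≤ join T₁' T₂' := by
  refine ⟨?_, ?_⟩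
  · rintro x (⟨v, h, rfl⟩ | ⟨i, h, rfl⟩)
    · exact Or.inl ⟨v, h1.1 h, rfl⟩
    · exact Or.inr ⟨i, h2.1 h, rfl⟩
  · rintro x y (⟨u, v, h, rfl, rfl⟩ | ⟨i, j, h, rfl, rfl⟩)
    · exact Or.inl ⟨u, v, h1.2 h, rfl, rfl⟩
    · exact Or.inr ⟨i, j, h2.2 h, rfl, rfl⟩

theorem join_verts_congr {T₁ T₁' : G.Subgraph} {T₂ T₂' : K.Subgraph} (h1 : T₁.verts = T₁'.verts)
    (h2 : T₂.verts = T₂'.verts) : (join (a := a) T₁ T₂).verts = (join (a := a) T₁' T₂').verts := by
  simp only [join, h1, h2]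

theorem cm_iff_of_mem (T : (wedge G a K).Subgraph) (ha : Sum.inl a ∈ T.verts) :
    CM T ↔ CM (P1 T) ∧ CM (P2 T) := by
  constructor
  · rintro ⟨hc, hmin⟩
    have hc' := (conn_iff_of_mem T ha).mp hc
    refine ⟨⟨hc'.1, ?_⟩, ⟨hc'.2, ?_⟩⟩
    · intro T' hle hv hconn
      have haT' : a ∈ T'.verts := by rw [hv]; exact ha
      have e1 : P1 (join (a := a) T' (P2 T)) = T' := P1_join fun _ => haT'
      have e2 : P2 (join (a := a) T' (P2 T)) = P2 T := P2_join fun _ => ha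
      have h1 : join (a := a) T' (P2 T) = T := by
        apply hmin
        · conv_rhs => rw [← join_P T]
          exact join_mono hle le_rfl
        · conv_rhs => rw [← join_P T]
          exact join_verts_congr hv rfl
        · have hmem : Sum.inl a ∈ (join (a := a) T' (P2 T)).verts := Or.inl ⟨a, haT', rfl⟩
          rw [conn_iff_of_mem _ hmem, e1, e2]
          exact ⟨hconn, hc'.2⟩
      rw [← e1, h1]
    · intro T' hle hv hconn
      have haT' : (0 : Fin (m + 1)) ∈ T'.verts := by rw [hv]; exact ha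
      have e1 : P1 (join (a := a) (P1 T) T') = P1 T := P1_join fun _ => ha
      have e2 : P2 (join (a := a) (P1 T) T') = T' := P2_join fun _ => haT'
      have h1 : join (a := a) (P1 T) T' = T := by
        apply hmin
        · conv_rhs => rw [← join_P T]
          exact join_mono le_rfl hle
        · conv_rhs => rw [← join_P T]
          exact join_verts_congr rfl hv
        · have hmem : Sum.inl a ∈ (join (a := a) (P1 T) T').verts := Or.inl ⟨a, ha, rfl⟩
          rw [conn_iff_of_mem _ hmem, e1, e2]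
          exact ⟨hc'.1, hconn⟩
      rw [← e2, h1]
  · rintro ⟨⟨h1, m1⟩, ⟨h2, m2⟩⟩
    refine ⟨(conn_iff_of_mem T ha).mpr ⟨h1, h2⟩, ?_⟩
    intro T' hle hv hconn
    have haT' : Sum.inl a ∈ T'.verts := by rw [hv]; exact ha
    have hc' := (conn_iff_of_mem T' haT').mp hconn
    have e1 : P1 T' = P1 T := m1 _ (P1_mono hle) (by simp only [P1, hv]) hc'.1
    have e2 : P2 T' = P2 T := m2 _ (P2_mono hle) (by simp only [P2, hv]) hc'.2
    rw [← join_P T', e1, e2, join_P]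

end Pool.Agent.Helper43.Sub
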