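import Mathlib
import Pool.Agent.Helper43.Sub2
set_option autoImplicit false

namespace Pool.Agent.Helper43.Sub

open SimpleGraph Relation

variable {V : Type*} {m : ℕ} {G : SimpleGraph V} {a : V} {K : SimpleGraph (Fin (m + 1))}

theorem eq_of_verts_empty {V' : Type*} {G' : SimpleGraph V'} {T T' : G'.Subgraph}
    (h : T.verts = ∅) (h' : T'.verts = ∅) : T = T' := by
  apply Subgraph.ext
  · rw [h, h']
  · ext u v
    constructor
    · intro huv
      have := T.edge_vert huv
      rw [h] at this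
      exact absurd this (Set.notMem_empty _)
    · intro huv
      have := T'.edge_vert huv
      rw [h'] at this
      exact absurd this (Set.notMem_empty _)

theorem not_conn (T : (wedge G a K).Subgraph) (ha : Sum.inl a ∉ T.verts)
    (h1 : (P1 T).verts.Nonempty) (h2 : (P2 T).verts.Nonempty) : ¬ Conn T := by
  rintro ⟨_, h⟩
  obtain ⟨u, hu⟩ := h1
  obtain ⟨i, hi⟩ := h2
  have h3 := h _ hu _ hi
  have key : ∀ y, ReflTransGen T.Adj (Sum.inl u) y → ∃ v, y = Sum.inl v := by
    intro y hy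
    induction hy with
    | refl => exact ⟨u, rfl⟩
    | @tail b c _ hbc ih =>
      obtain ⟨v, rfl⟩ := ih
      rcases T.adj_sub hbc with ⟨u', v', _, h4, h5⟩ | ⟨i', j', _, h4, h5⟩
      · exact ⟨v', h5⟩
      · obtain ⟨_, rfl⟩ := i2_eq_inl h4.symm
        exact absurd (T.edge_vert hbc) ha
  obtain ⟨v, hv⟩ := key _ h3
  obtain ⟨rfl, rfl⟩ := i2_eq_inl hv
  exact ha hi

theorem conn_iff_left (T : (wedge G a K).Subgraph) (h : (P2 T).verts = ∅) :
    Conn T ↔ Conn (P1 T) := by
  have hall : ∀ x ∈ T.verts, ∃ v, x = Sum.inl v := by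
    intro x hx
    rcases x with v | j
    · exact ⟨v, rfl⟩
    · have : j.succ ∈ (P2 T).verts := hx
      rw [h] at this
      exact absurd this (Set.notMem_empty _)
  constructor
  · rintro ⟨⟨x, hx⟩, h1⟩
    obtain ⟨v, rfl⟩ := hall x hx
    refine ⟨⟨v, hx⟩, ?_⟩
    intro u hu w hw
    exact rtg_P1 T (h1 _ hu _ hw)
  · rintro ⟨⟨v, hv⟩, h1⟩
    refine ⟨⟨_, hv⟩, ?_⟩
    intro x hx y hy
    obtain ⟨u, rfl⟩ := hall x hx
    obtain ⟨w, rfl⟩ := hall y hy
    exact rtg_of_P1 T (h1 u hx w hy)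

theorem conn_iff_right (T : (wedge G a K).Subgraph) (h : (P1 T).verts = ∅) :
    Conn T ↔ Conn (P2 T) := by
  have hall : ∀ x ∈ T.verts, ∃ i, x = i2 a i := by
    intro x hx
    rcases x with v | j
    · have : v ∈ (P1 T).verts := hx
      rw [h] at this
      exact absurd this (Set.notMem_empty _)
    · exact ⟨j.succ, rfl⟩
  constructor
  · rintro ⟨⟨x, hx⟩, h1⟩
    obtain ⟨v, rfl⟩ := hall x hx
    refine ⟨⟨v, hx⟩, ?_⟩
    intro u hu w hw
    have := rtg_P2 T (h1 _ hu _ hw)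
    rwa [r2_i2, r2_i2] at this
  · rintro ⟨⟨v, hv⟩, h1⟩
    refine ⟨⟨_, hv⟩, ?_⟩
    intro x hx y hy
    obtain ⟨u, rfl⟩ := hall x hx
    obtain ⟨w, rfl⟩ := hall y hy
    exact rtg_of_P2 T (h1 u hx w hy)

theorem zero_notMem_of_right_empty {T : (wedge G a K).Subgraph} (h : (P2 T).verts = ∅) :
    Sum.inl a ∉ T.verts := by
  intro ha
  have : (0 : Fin (m + 1)) ∈ (P2 T).verts := ha
  rw [h] at this
  exact absurd this (Set.notMem_empty _)

theorem a_notMem_of_left_empty {T : (wedge G a K).Subgraph} (h : (P1 T).verts = ∅) :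
    Sum.inl a ∉ T.verts := by
  intro ha
  have : a ∈ (P1 T).verts := ha
  rw [h] at this
  exact absurd this (Set.notMem_empty _)

theorem cm_iff_left (T : (wedge G a K).Subgraph) (h : (P2 T).verts = ∅) :
    CM T ↔ CM (P1 T) := by
  constructor
  · rintro ⟨hc, hmin⟩
    refine ⟨(conn_iff_left T h).mp hc, ?_⟩
    intro T' hle hv hconn
    have e1 : P1 (join (a := a) T' (P2 T)) = T' := P1_join fun h0 => by
      rw [h] at h0; exact absurd h0 (Set.notMem_empty _)
    have e2 : P2 (join (a := a) T' (P2 T)) = P2 T := P2_join fun h0 => by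
      rw [hv] at h0; exact absurd h0 (zero_notMem_of_right_empty h)
    have h1 : join (a := a) T' (P2 T) = T := by
      apply hmin
      · conv_rhs => rw [← join_P T]
        exact join_mono hle le_rfl
      · conv_rhs => rw [← join_P T]
        exact join_verts_congr hv rfl
      · rw [conn_iff_left _ (by rw [e2]; exact h), e1]
        exact hconn
    rw [← e1, h1]
  · rintro ⟨h1, m1⟩
    refine ⟨(conn_iff_left T h).mpr h1, ?_⟩
    intro T' hle hv hconn
    have h' : (P2 T').verts = ∅ := by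
      rw [← h]; simp only [P2, hv]
    have hc' := (conn_iff_left T' h').mp hconn
    have e1 : P1 T' = P1 T := m1 _ (P1_mono hle) (by simp only [P1, hv]) hc'
    rw [← join_P T', e1, eq_of_verts_empty h' h, join_P]

theorem cm_iff_right (T : (wedge G a K).Subgraph) (h : (P1 T).verts = ∅) :
    CM T ↔ CM (P2 T) := by
  constructor
  · rintro ⟨hc, hmin⟩
    refine ⟨(conn_iff_right T h).mp hc, ?_⟩
    intro T' hle hv hconn
    have e1 : P1 (join (a := a) (P1 T) T') = P1 T := P1_join fun h0 => by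
      rw [hv] at h0; exact absurd h0 (a_notMem_of_left_empty h)
    have e2 : P2 (join (a := a) (P1 T) T') = T' := P2_join fun h0 => by
      rw [h] at h0; exact absurd h0 (Set.notMem_empty _)
    have h1 : join (a := a) (P1 T) T' = T := by
      apply hmin
      · conv_rhs => rw [← join_P T]
        exact join_mono le_rfl hle
      · conv_rhs => rw [← join_P T]
        exact join_verts_congr rfl hv
      · rw [conn_iff_right _ (by rw [e1]; exact h), e2]
        exact hconn
    rw [← e2, h1]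
  · rintro ⟨h1, m1⟩
    refine ⟨(conn_iff_right T h).mpr h1, ?_⟩
    intro T' hle hv hconn
    have h' : (P1 T').verts = ∅ := by
      rw [← h]; simp only [P1, hv]
    have hc' := (conn_iff_right T' h').mp hconn
    have e1 : P2 T' = P2 T := m1 _ (P2_mono hle) (by simp only [P2, hv]) hc'
    rw [← join_P T', e1, eq_of_verts_empty h' h, join_P]

/-- number of trees with a given vertex set -/
noncomputable def tau {V' : Type*} (G' : SimpleGraph V') (S : Finset V') : ℕ :=
  Nat.card {T : G'.Subgraph // CM T ∧ T.verts = (S : Set V')}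

open Classical in
/-- indicator of a connected vertex set -/
noncomputable def cc {V' : Type*} (G' : SimpleGraph V') (S : Finset V') : ℕ :=
  if Conn ((⊤ : G'.Subgraph).induce (S : Set V')) then 1 else 0

/-- shift of a finset of `Fin m` into `Fin (m+1)` -/
def sh (S : Finset (Fin m)) : Finset (Fin (m + 1)) := S.map (Fin.succEmb m)

theorem zero_notMem_sh (S : Finset (Fin m)) : (0 : Fin (m + 1)) ∉ sh S := by
  simp [sh]

theorem succ_mem_sh {S : Finset (Fin m)} {j : Fin m} : j.succ ∈ sh S ↔ j ∈ S := by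
  simp [sh]

theorem P1_verts {T : (wedge G a K).Subgraph} {S₁ : Finset V} {S₂ : Finset (Fin m)}
    (h : T.verts = (S₁.disjSum S₂ : Finset (V ⊕ Fin m))) : (P1 T).verts = S₁ := by
  ext v
  simp only [P1, Set.mem_ofPred_eq, h, Finset.mem_coe, Finset.inl_mem_disjSum]

theorem P2_verts_mem {T : (wedge G a K).Subgraph} {S₁ : Finset V} {S₂ : Finset (Fin m)}
    (h : T.verts = (S₁.disjSum S₂ : Finset (V ⊕ Fin m))) (ha : a ∈ S₁) :
    (P2 T).verts = (insert 0 (sh S₂) : Finset (Fin (m + 1))) := by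
  ext i
  simp only [P2, Set.mem_ofPred_eq, h]
  induction i using Fin.cases with
  | zero => simp [ha]
  | succ j =>
    rw [i2_succ]
    simp [succ_mem_sh]

theorem P2_verts_notMem {T : (wedge G a K).Subgraph} {S₁ : Finset V} {S₂ : Finset (Fin m)}
    (h : T.verts = (S₁.disjSum S₂ : Finset (V ⊕ Fin m))) (ha : a ∉ S₁) :
    (P2 T).verts = (sh S₂ : Finset (Fin (m + 1))) := by
  ext i
  simp only [P2, Set.mem_ofPred_eq, h]
  induction i using Fin.cases with
  | zero => simp [ha, zero_notMem_sh]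
  | succ j =>
    rw [i2_succ]
    simp [succ_mem_sh]

theorem verts_eq_of_mem {T : (wedge G a K).Subgraph} {S₁ : Finset V} {S₂ : Finset (Fin m)}
    (h1 : (P1 T).verts = S₁) (h2 : ∀ j : Fin m, j.succ ∈ (P2 T).verts ↔ j ∈ S₂) :
    T.verts = (S₁.disjSum S₂ : Finset (V ⊕ Fin m)) := by
  ext x
  rcases x with v | j
  · have : v ∈ (P1 T).verts ↔ v ∈ (S₁ : Set V) := by rw [h1]
    simpa [P1] using this
  · have := h2 j
    simpa [P2] using this

theorem tau_mem {S₁ : Finset V} {S₂ : Finset (Fin m)} (ha : a ∈ S₁) :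
    tau (wedge G a K) (S₁.disjSum S₂) = tau G S₁ * tau K (insert 0 (sh S₂)) := by
  unfold tau
  rw [← Nat.card_prod]
  apply Nat.card_congr
  refine
    { toFun := fun T => (⟨P1 T.1, ?_, P1_verts T.2.2⟩, ⟨P2 T.1, ?_, P2_verts_mem T.2.2 ha⟩)
      invFun := fun p => ⟨join p.1.1 p.2.1, ?_, ?_⟩
      left_inv := ?_
      right_inv := ?_ }
  · have hm : Sum.inl a ∈ T.1.verts := by rw [T.2.2]; simpa using ha
    exact ((cm_iff_of_mem T.1 hm).mp T.2.1).1
  · have hm : Sum.inl a ∈ T.1.verts := by rw [T.2.2]; simpa using ha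
    exact ((cm_iff_of_mem T.1 hm).mp T.2.1).2
  · obtain ⟨⟨T₁, hc1, hv1⟩, ⟨T₂, hc2, hv2⟩⟩ := p
    have ha1 : a ∈ T₁.verts := by rw [hv1]; exact ha
    have h02 : (0 : Fin (m + 1)) ∈ T₂.verts := by rw [hv2]; simp
    have hm : Sum.inl a ∈ (join (a := a) T₁ T₂).verts := Or.inl ⟨a, ha1, rfl⟩
    rw [cm_iff_of_mem _ hm, P1_join fun _ => ha1, P2_join fun _ => h02]
    exact ⟨hc1, hc2⟩
  · obtain ⟨⟨T₁, hc1, hv1⟩, ⟨T₂, hc2, hv2⟩⟩ := p
    have ha1 : a ∈ T₁.verts := by rw [hv1]; exact ha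
    have h02 : (0 : Fin (m + 1)) ∈ T₂.verts := by rw [hv2]; simp
    apply verts_eq_of_mem
    · rw [P1_join fun _ => ha1]; exact hv1
    · intro j
      rw [P2_join fun _ => h02, hv2]
      simp [succ_mem_sh]
  · intro T
    apply Subtype.ext
    exact join_P T.1
  · rintro ⟨⟨T₁, hc1, hv1⟩, ⟨T₂, hc2, hv2⟩⟩
    have ha1 : a ∈ T₁.verts := by rw [hv1]; exact ha
    have h02 : (0 : Fin (m + 1)) ∈ T₂.verts := by rw [hv2]; simp
    apply Prod.ext
    · apply Subtype.ext
      exact P1_join fun _ => ha1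
    · apply Subtype.ext
      exact P2_join fun _ => h02

theorem tau_left {S₁ : Finset V} (ha : a ∉ S₁) :
    tau (wedge G a K) (S₁.disjSum ∅) = tau G S₁ := by
  unfold tau
  apply Nat.card_congr
  have he : ∀ T : (wedge G a K).Subgraph,
      T.verts = (S₁.disjSum ∅ : Finset (V ⊕ Fin m)) → (P2 T).verts = ∅ := by
    intro T h
    rw [P2_verts_notMem h ha]
    simp [sh]
  refine
    { toFun := fun T => ⟨P1 T.1, (cm_iff_left T.1 (he T.1 T.2.2)).mp T.2.1, P1_verts T.2.2⟩
      invFun := fun p => ⟨join p.1 ⊥, ?_, ?_⟩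
      left_inv := ?_
      right_inv := ?_ }
  · obtain ⟨T₁, hc1, hv1⟩ := p
    have ha1 : a ∉ T₁.verts := by rw [hv1]; exact ha
    have e2 : P2 (join (a := a) T₁ (⊥ : K.Subgraph)) = ⊥ := P2_join fun h => absurd h ha1
    have e1 : P1 (join (a := a) T₁ (⊥ : K.Subgraph)) = T₁ :=
      P1_join fun h => absurd h (Set.notMem_empty _)
    rw [cm_iff_left _ (by rw [e2]; rfl), e1]
    exact hc1
  · obtain ⟨T₁, hc1, hv1⟩ := p
    have ha1 : a ∉ T₁.verts := by rw [hv1]; exact ha
    have e2 : P2 (join (a := a) T₁ (⊥ : K.Subgraph)) = ⊥ := P2_join fun h => absurd h ha1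
    have e1 : P1 (join (a := a) T₁ (⊥ : K.Subgraph)) = T₁ :=
      P1_join fun h => absurd h (Set.notMem_empty _)
    apply verts_eq_of_mem
    · rw [e1]; exact hv1
    · intro j
      rw [e2]
      simp
  · intro T
    apply Subtype.ext
    have h1 : P2 T.1 = ⊥ := eq_of_verts_empty (he T.1 T.2.2) rfl
    change join (P1 T.1) ⊥ = T.1
    rw [← h1]
    exact join_P T.1
  · rintro ⟨T₁, hc1, hv1⟩
    apply Subtype.ext
    exact P1_join fun h => absurd h (Set.notMem_empty _)

theorem tau_right {S₂ : Finset (Fin m)} :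
    tau (wedge G a K) ((∅ : Finset V).disjSum S₂) = tau K (sh S₂) := by
  unfold tau
  apply Nat.card_congr
  have he : ∀ T : (wedge G a K).Subgraph,
      T.verts = ((∅ : Finset V).disjSum S₂ : Finset (V ⊕ Fin m)) → (P1 T).verts = ∅ := by
    intro T h
    rw [P1_verts h]
    simp
  refine
    { toFun := fun T => ⟨P2 T.1, (cm_iff_right T.1 (he T.1 T.2.2)).mp T.2.1,
        P2_verts_notMem T.2.2 (Finset.notMem_empty _)⟩
      invFun := fun p => ⟨join ⊥ p.1, ?_, ?_⟩
      left_inv := ?_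
      right_inv := ?_ }
  · obtain ⟨T₂, hc2, hv2⟩ := p
    have h02 : (0 : Fin (m + 1)) ∉ T₂.verts := by rw [hv2]; simpa using zero_notMem_sh S₂
    have e2 : P2 (join (a := a) (⊥ : G.Subgraph) T₂) = T₂ :=
      P2_join fun h => absurd h (Set.notMem_empty _)
    have e1 : P1 (join (a := a) (⊥ : G.Subgraph) T₂) = ⊥ := P1_join fun h => absurd h h02
    rw [cm_iff_right _ (by rw [e1]; rfl), e2]
    exact hc2
  · obtain ⟨T₂, hc2, hv2⟩ := p
    have h02 : (0 : Fin (m + 1)) ∉ T₂.verts := by rw [hv2]; simpa using zero_notMem_sh S₂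
    have e2 : P2 (join (a := a) (⊥ : G.Subgraph) T₂) = T₂ :=
      P2_join fun h => absurd h (Set.notMem_empty _)
    have e1 : P1 (join (a := a) (⊥ : G.Subgraph) T₂) = ⊥ := P1_join fun h => absurd h h02
    apply verts_eq_of_mem
    · rw [e1]; simp
    · intro j
      rw [e2, hv2]
      simp [succ_mem_sh]
  · intro T
    apply Subtype.ext
    have h1 : P1 T.1 = ⊥ := eq_of_verts_empty (he T.1 T.2.2) rfl
    change join ⊥ (P2 T.1) = T.1
    rw [← h1]
    exact join_P T.1
  · rintro ⟨T₂, hc2, hv2⟩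
    apply Subtype.ext
    exact P2_join fun h => absurd h (Set.notMem_empty _)

theorem tau_none {S₁ : Finset V} {S₂ : Finset (Fin m)} (ha : a ∉ S₁) (h1 : S₁.Nonempty)
    (h2 : S₂.Nonempty) : tau (wedge G a K) (S₁.disjSum S₂) = 0 := by
  unfold tau
  rw [Nat.card_eq_zero]
  left
  refine ⟨?_⟩
  rintro ⟨T, hc, hv⟩
  refine not_conn T ?_ ?_ ?_ hc.1
  · rw [hv]; simpa using ha
  · rw [P1_verts hv]; simpa using h1
  · rw [P2_verts_notMem hv ha]
    obtain ⟨j, hj⟩ := h2
    exact ⟨j.succ, by simpa [succ_mem_sh] using hj⟩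

/-! the same for connected vertex sets -/

theorem P1_induce {S₁ : Finset V} {S₂ : Finset (Fin m)} :
    P1 ((⊤ : (wedge G a K).Subgraph).induce (S₁.disjSum S₂ : Finset (V ⊕ Fin m)))
      = (⊤ : G.Subgraph).induce (S₁ : Set V) := by
  apply Subgraph.ext
  · exact P1_verts rfl
  · ext u v
    simp only [P1, Subgraph.induce_adj, Finset.mem_coe, Finset.inl_mem_disjSum, Subgraph.top_adj,
      wedge_inl_inl]

theorem P2_induce_mem {S₁ : Finset V} {S₂ : Finset (Fin m)} (ha : a ∈ S₁) :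
    P2 ((⊤ : (wedge G a K).Subgraph).induce (S₁.disjSum S₂ : Finset (V ⊕ Fin m)))
      = (⊤ : K.Subgraph).induce ((insert 0 (sh S₂) : Finset (Fin (m + 1))) : Set (Fin (m + 1))) := by
  have hv : (P2 ((⊤ : (wedge G a K).Subgraph).induce
      (S₁.disjSum S₂ : Finset (V ⊕ Fin m)))).verts = _ := P2_verts_mem rfl ha
  apply Subgraph.ext
  · exact hv
  · ext i j
    have hi : i2 a i ∈ (S₁.disjSum S₂ : Finset (V ⊕ Fin m))
        ↔ i ∈ (insert 0 (sh S₂) : Finset (Fin (m + 1))) := Set.ext_iff.mp hv i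
    have hj : i2 a j ∈ (S₁.disjSum S₂ : Finset (V ⊕ Fin m))
        ↔ j ∈ (insert 0 (sh S₂) : Finset (Fin (m + 1))) := Set.ext_iff.mp hv j
    simp only [P2, Subgraph.induce_adj, Finset.mem_coe, Subgraph.top_adj, wedge_i2_i2, hi, hj]

theorem P2_induce_notMem {S₁ : Finset V} {S₂ : Finset (Fin m)} (ha : a ∉ S₁) :
    P2 ((⊤ : (wedge G a K).Subgraph).induce (S₁.disjSum S₂ : Finset (V ⊕ Fin m)))
      = (⊤ : K.Subgraph).induce ((sh S₂ : Finset (Fin (m + 1))) : Set (Fin (m + 1))) := by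
  have hv : (P2 ((⊤ : (wedge G a K).Subgraph).induce
      (S₁.disjSum S₂ : Finset (V ⊕ Fin m)))).verts = _ := P2_verts_notMem rfl ha
  apply Subgraph.ext
  · exact hv
  · ext i j
    have hi : i2 a i ∈ (S₁.disjSum S₂ : Finset (V ⊕ Fin m))
        ↔ i ∈ (sh S₂ : Finset (Fin (m + 1))) := Set.ext_iff.mp hv i
    have hj : i2 a j ∈ (S₁.disjSum S₂ : Finset (V ⊕ Fin m))
        ↔ j ∈ (sh S₂ : Finset (Fin (m + 1))) := Set.ext_iff.mp hv j
    simp only [P2, Subgraph.induce_adj, Finset.mem_coe, Subgraph.top_adj, wedge_i2_i2, hi, hj]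

theorem cc_mem {S₁ : Finset V} {S₂ : Finset (Fin m)} (ha : a ∈ S₁) :
    cc (wedge G a K) (S₁.disjSum S₂) = cc G S₁ * cc K (insert 0 (sh S₂)) := by
  have hm : Sum.inl a ∈ ((⊤ : (wedge G a K).Subgraph).induce
      (S₁.disjSum S₂ : Finset (V ⊕ Fin m))).verts := by simpa using ha
  unfold cc
  rw [conn_iff_of_mem _ hm, P1_induce, P2_induce_mem ha]
  split_ifs with h1 h2 h3 h4 h5 <;> simp_all

theorem cc_left {S₁ : Finset V} (ha : a ∉ S₁) :
    cc (wedge G a K) (S₁.disjSum ∅) = cc G S₁ := by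
  unfold cc
  rw [conn_iff_left _ (by rw [P2_induce_notMem ha]; simp [sh]), P1_induce]

theorem cc_right {S₂ : Finset (Fin m)} :
    cc (wedge G a K) ((∅ : Finset V).disjSum S₂) = cc K (sh S₂) := by
  unfold cc
  rw [conn_iff_right _ (by rw [P1_induce]; simp), P2_induce_notMem (Finset.notMem_empty _)]

theorem cc_none {S₁ : Finset V} {S₂ : Finset (Fin m)} (ha : a ∉ S₁) (h1 : S₁.Nonempty)
    (h2 : S₂.Nonempty) : cc (wedge G a K) (S₁.disjSum S₂) = 0 := by
  unfold cc
  rw [if_neg]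
  apply not_conn
  · simpa using ha
  · rw [P1_induce]; simpa using h1
  · rw [P2_induce_notMem ha]
    obtain ⟨j, hj⟩ := h2
    exact ⟨j.succ, by simpa [succ_mem_sh] using hj⟩

end Pool.Agent.Helper43.Sub
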