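import Mathlib
import Pool.Agent.Helper43.Sub3
set_option autoImplicit false

namespace Pool.Agent.Helper43.Sub

open SimpleGraph Relation

variable {V : Type*} {G : SimpleGraph V}

theorem rtg_mono {α : Type*} {r r' : α → α → Prop} (h : ∀ x y, r x y → r' x y) {x y : α}
    (hxy : ReflTransGen r x y) : ReflTransGen r' x y := by
  induction hxy with
  | refl => exact .refl
  | tail _ hbc ih => exact ih.tail (h _ _ hbc)

theorem conn_mono {T T' : G.Subgraph} (h : T ≤ T') (hv : T'.verts = T.verts) (hc : Conn T) :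
    Conn T' := by
  refine ⟨by rw [hv]; exact hc.1, ?_⟩
  intro u hu v hv'
  rw [hv] at hu hv'
  exact rtg_mono (fun _ _ h' => h.2 h') (hc.2 u hu v hv')

theorem le_induce {T : G.Subgraph} {S : Set V} (h : T.verts = S) :
    T ≤ (⊤ : G.Subgraph).induce S := by
  refine ⟨h.le, ?_⟩
  intro u v huv
  exact ⟨h ▸ T.edge_vert huv, h ▸ T.edge_vert huv.symm, T.adj_sub huv⟩

theorem cc_eq_one_iff (S : Finset V) : cc G S = 1 ↔ ∃ T : G.Subgraph, Conn T ∧ T.verts = S := by
  unfold cc
  constructor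
  · intro h
    split_ifs at h with h1
    exact ⟨_, h1, rfl⟩
  · rintro ⟨T, hc, hv⟩
    rw [if_pos]
    exact conn_mono (le_induce hv) hv.symm hc

theorem cc_eq_zero_iff (S : Finset V) : cc G S = 0 ↔ ∀ T : G.Subgraph, Conn T → T.verts ≠ S := by
  constructor
  · intro h T hc hv
    have := (cc_eq_one_iff S).mpr ⟨T, hc, hv⟩
    omega
  · intro h
    unfold cc
    rw [if_neg]
    intro hc
    exact h _ hc rfl

theorem tau_eq_zero {S : Finset V} (h : ∀ T : G.Subgraph, Conn T → T.verts ≠ S) :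
    tau G S = 0 := by
  unfold tau
  rw [Nat.card_eq_zero]
  left
  exact ⟨fun ⟨T, hc, hv⟩ => h T hc.1 hv⟩

theorem tau_eq_one {S : Finset V} (T₀ : G.Subgraph) (hc : Conn T₀) (hv : T₀.verts = S)
    (h : ∀ T : G.Subgraph, Conn T → T.verts = S → T = T₀) : tau G S = 1 := by
  unfold tau
  rw [Nat.card_eq_one_iff_unique]
  refine ⟨⟨?_⟩, ⟨⟨T₀, ⟨hc, ?_⟩, hv⟩⟩⟩
  · rintro ⟨T, hc1, hv1⟩ ⟨T', hc2, hv2⟩
    apply Subtype.ext
    exact (h T hc1.1 hv1).trans (h T' hc2.1 hv2).symm
  · intro T' _ hv' hc'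
    exact h T' hc' (hv'.trans hv)

/-- the star with centre `0` and `k` leaves -/
def star (k : ℕ) : SimpleGraph (Fin (k + 1)) where
  Adj := fun i j => (i = 0 ∧ j ≠ 0) ∨ (j = 0 ∧ i ≠ 0)
  symm := ⟨by
    rintro i j (h | h)
    · exact Or.inr h
    · exact Or.inl h⟩
  loopless := ⟨by
    rintro i (⟨h1, h2⟩ | ⟨h1, h2⟩) <;> exact h2 h1⟩

variable {k : ℕ}

theorem star_conn_induce (S : Finset (Fin (k + 1))) (h0 : 0 ∈ S) :
    Conn ((⊤ : (star k).Subgraph).induce (S : Set (Fin (k + 1)))) := by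
  refine ⟨⟨0, h0⟩, ?_⟩
  have key : ∀ j ∈ S, ReflTransGen ((⊤ : (star k).Subgraph).induce (S : Set (Fin (k + 1)))).Adj j 0
      ∧ ReflTransGen ((⊤ : (star k).Subgraph).induce (S : Set (Fin (k + 1)))).Adj 0 j := by
    intro j hj
    rcases eq_or_ne j 0 with rfl | hj0
    · exact ⟨.refl, .refl⟩
    · refine ⟨.single ⟨hj, h0, Or.inr ⟨rfl, hj0⟩⟩, .single ⟨h0, hj, Or.inl ⟨rfl, hj0⟩⟩⟩
  intro u hu v hv
  exact (key u hu).1.trans (key v hv).2

theorem star_conn_eq (S : Finset (Fin (k + 1))) (h0 : 0 ∈ S) (T : (star k).Subgraph)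
    (hc : Conn T) (hv : T.verts = S) :
    T = (⊤ : (star k).Subgraph).induce (S : Set (Fin (k + 1))) := by
  have key : ∀ j ∈ T.verts, j ≠ 0 → T.Adj j 0 := by
    intro j hj hj0
    have h1 := hc.2 j hj 0 (by rw [hv]; exact h0)
    rcases h1.cases_head with h2 | ⟨c, h2, _⟩
    · exact absurd h2 hj0
    · rcases T.adj_sub h2 with ⟨h3, _⟩ | ⟨h3, _⟩
      · exact absurd h3 hj0
      · rwa [h3] at h2
  apply le_antisymm (le_induce hv)
  refine ⟨hv.ge, ?_⟩
  rintro u v ⟨hu, hv', h⟩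
  rcases h with ⟨rfl, h⟩ | ⟨rfl, h⟩
  · exact (key v (by rw [hv]; exact hv') h).symm
  · exact key u (by rw [hv]; exact hu) h

theorem tau_star_root (S : Finset (Fin k)) : tau (star k) (insert 0 (sh S)) = 1 :=
  tau_eq_one _ (star_conn_induce _ (Finset.mem_insert_self _ _)) rfl
    fun T hc hv => star_conn_eq _ (Finset.mem_insert_self _ _) T hc hv

theorem cc_star_root (S : Finset (Fin k)) : cc (star k) (insert 0 (sh S)) = 1 :=
  (cc_eq_one_iff _).mpr ⟨_, star_conn_induce _ (Finset.mem_insert_self _ _), rfl⟩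

theorem star_no_edge (T : (star k).Subgraph) (h0 : (0 : Fin (k + 1)) ∉ T.verts) (i j) :
    ¬ T.Adj i j := by
  intro h
  rcases T.adj_sub h with ⟨rfl, _⟩ | ⟨rfl, _⟩
  · exact h0 (T.edge_vert h)
  · exact h0 (T.edge_vert h.symm)

theorem star_verts_subsingleton (T : (star k).Subgraph) (h0 : (0 : Fin (k + 1)) ∉ T.verts)
    (hc : Conn T) : ∃ j, T.verts = {j} := by
  obtain ⟨⟨j, hj⟩, h⟩ := hc
  refine ⟨j, ?_⟩
  ext i
  constructor
  · intro hi
    rcases (h i hi j hj).cases_head with h2 | ⟨c, h2, _⟩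
    · exact h2
    · exact absurd h2 (star_no_edge T h0 _ _)
  · rintro rfl
    exact hj

theorem star_singleton (j : Fin k) :
    ∃ T : (star k).Subgraph, Conn T ∧ T.verts = (sh {j} : Finset (Fin (k + 1))) := by
  refine ⟨(star k).singletonSubgraph j.succ, ⟨⟨j.succ, rfl⟩, ?_⟩, ?_⟩
  · intro u hu v hv
    have hu' : u = j.succ := hu
    have hv' : v = j.succ := hv
    rw [hu', hv']
  · simp [sh]

theorem tau_star_leaf (S : Finset (Fin k)) : tau (star k) (sh S) = if S.card = 1 then 1 else 0 := by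
  split_ifs with h
  · obtain ⟨j, rfl⟩ := Finset.card_eq_one.mp h
    obtain ⟨T₀, hc, hv⟩ := star_singleton j
    apply tau_eq_one T₀ hc hv
    intro T hcT hvT
    have h0 : (0 : Fin (k + 1)) ∉ T.verts := by rw [hvT]; simpa using zero_notMem_sh {j}
    have h0' : (0 : Fin (k + 1)) ∉ T₀.verts := by rw [hv]; simpa using zero_notMem_sh {j}
    apply Subgraph.ext
    · rw [hvT, hv]
    · ext u v
      exact ⟨fun h => absurd h (star_no_edge T h0 _ _), fun h => absurd h (star_no_edge T₀ h0' _ _)⟩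
  · apply tau_eq_zero
    intro T hc hv
    have h0 : (0 : Fin (k + 1)) ∉ T.verts := by rw [hv]; simpa using zero_notMem_sh S
    obtain ⟨j, hj⟩ := star_verts_subsingleton T h0 hc
    apply h
    rw [hj] at hv
    have h1 : sh S = {j} := by
      apply Finset.coe_injective
      rw [← hv]; simp
    have h2 := congrArg Finset.card h1
    simpa [sh] using h2

theorem cc_star_leaf (S : Finset (Fin k)) : cc (star k) (sh S) = if S.card = 1 then 1 else 0 := by
  split_ifs with h
  · obtain ⟨j, rfl⟩ := Finset.card_eq_one.mp h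
    exact (cc_eq_one_iff _).mpr (star_singleton j)
  · rw [cc_eq_zero_iff]
    intro T hc hv
    have h0 : (0 : Fin (k + 1)) ∉ T.verts := by rw [hv]; simpa using zero_notMem_sh S
    obtain ⟨j, hj⟩ := star_verts_subsingleton T h0 hc
    apply h
    rw [hj] at hv
    have h1 : sh S = {j} := by
      apply Finset.coe_injective
      rw [← hv]; simp
    have h2 := congrArg Finset.card h1
    simpa [sh] using h2

end Pool.Agent.Helper43.Sub
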