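import Mathlib
import Pool.Agent.Helper43.Sub4
set_option autoImplicit false

namespace Pool.Agent.Helper43.Sub

open SimpleGraph Relation

variable {m : ℕ}

/-- the vertex `t mod (m+1)` -/
def pos (m t : ℕ) : Fin (m + 1) := ⟨t % (m + 1), Nat.mod_lt _ (Nat.succ_pos _)⟩

theorem pos_val_of_le {t : ℕ} (h : t ≤ m) : (pos m t).val = t := Nat.mod_eq_of_lt (by omega)

theorem pos_val (x : Fin (m + 1)) : pos m x.val = x := by
  ext; exact pos_val_of_le (by omega)

theorem pos_last : pos m (m + 1) = 0 := by
  ext; simp [pos]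

theorem pos_zero : pos m 0 = 0 := by
  ext; simp [pos]

/-- the ring on `m+1` vertices -/
def ring (m : ℕ) : SimpleGraph (Fin (m + 1)) :=
  SimpleGraph.fromRel (fun i j => ∃ t, t ≤ m ∧ i = pos m t ∧ j = pos m (t + 1))

theorem pos_ne (hm : 1 ≤ m) {t : ℕ} (ht : t ≤ m) : pos m t ≠ pos m (t + 1) := by
  intro h
  have h1 := congrArg Fin.val h
  rcases Nat.lt_or_ge t m with h2 | h2
  · rw [pos_val_of_le ht, pos_val_of_le (by omega)] at h1
    omega
  · have : t = m := by omega
    subst this
    rw [pos_last, pos_val_of_le le_rfl] at h1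
    simp at h1
    omega

theorem ring_adj_iff (hm : 1 ≤ m) {x y : Fin (m + 1)} : (ring m).Adj x y ↔
    ∃ t, t ≤ m ∧ ((x = pos m t ∧ y = pos m (t + 1)) ∨ (y = pos m t ∧ x = pos m (t + 1))) := by
  unfold ring
  rw [SimpleGraph.fromRel_adj]
  constructor
  · rintro ⟨_, ⟨t, h1, h2⟩ | ⟨t, h1, h2⟩⟩
    · exact ⟨t, h1, Or.inl h2⟩
    · exact ⟨t, h1, Or.inr h2⟩
  · rintro ⟨t, h1, ⟨h2, h3⟩ | ⟨h2, h3⟩⟩
    · exact ⟨by rw [h2, h3]; exact pos_ne hm h1, Or.inl ⟨t, h1, h2, h3⟩⟩
    · exact ⟨by rw [h2, h3]; exact (pos_ne hm h1).symm, Or.inr ⟨t, h1, h2, h3⟩⟩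

/-- neighbours: if `x.val = y` and `x ~ z` then the edge is `y` or `y-1` -/
theorem ring_adj_cases (hm : 1 ≤ m) {x z : Fin (m + 1)} (hx : x ≠ 0) (h : (ring m).Adj x z) :
    (z = pos m (x.val + 1)) ∨ (z = pos m (x.val - 1)) := by
  obtain ⟨t, ht, ⟨h1, h2⟩ | ⟨h1, h2⟩⟩ := (ring_adj_iff hm).mp h
  · left
    rw [h2]
    congr 2
    rw [h1, pos_val_of_le ht]
  · right
    rw [h1]
    congr 1
    rcases Nat.lt_or_ge t m with h3 | h3
    · rw [h2, pos_val_of_le (by omega)]; omega
    · have : t = m := by omega
      subst this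
      rw [pos_last] at h2
      exact absurd h2 hx

/-- the `t`-th ring edge is in `T` -/
def F (T : (ring m).Subgraph) (t : ℕ) : Prop := T.Adj (pos m t) (pos m (t + 1))

theorem claimA (hm : 1 ≤ m) (T : (ring m).Subgraph) (hc : Conn T) (h0 : 0 ∈ T.verts)
    (x : Fin (m + 1)) (hx : x ∈ T.verts) (hx0 : x ≠ 0) {i j : ℕ} (hi : ¬ F T i) (hj : ¬ F T j)
    (hix : i < x.val) (hxj : x.val ≤ j) (hjm : j ≤ m) : False := by
  have key : ∀ y, ReflTransGen T.Adj x y → i < y.val ∧ y.val ≤ j := by
    intro y hy
    induction hy with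
    | refl => exact ⟨hix, hxj⟩
    | @tail b c _ hbc ih =>
      have hb0 : b ≠ 0 := by
        rintro rfl
        simp at ih
      rcases ring_adj_cases hm hb0 (T.adj_sub hbc) with h1 | h1
      · -- c = pos (b+1)
        rcases Nat.lt_or_ge b.val j with h2 | h2
        · have h3 : c.val = b.val + 1 := by rw [h1, pos_val_of_le (by omega)]
          omega
        · exfalso
          have h3 : b.val = j := by omega
          apply hj
          unfold F
          rw [← h3, pos_val, ← h1]
          exact hbc
      · have hb1 : 1 ≤ b.val := by omega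
        have h2 : c.val = b.val - 1 := by rw [h1, pos_val_of_le (by omega)]
        rcases Nat.lt_or_ge (i + 1) b.val with h3 | h3
        · omega
        · exfalso
          have h4 : b.val = i + 1 := by omega
          apply hi
          unfold F
          have h5 : pos m i = c := by rw [h1, h4]; simp
          have h6 : pos m (i + 1) = b := by rw [← h4, pos_val]
          rw [h5, h6]
          exact hbc.symm
  have := key 0 (hc.2 x hx 0 h0)
  simp at this

/-- arc subgraph: edges `p..q` are missing -/
def arcg (m p q : ℕ) (hm : 1 ≤ m) (hpq : p ≤ q) (hq : q ≤ m) : (ring m).Subgraph where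
  verts := {x | x.val ≤ p ∨ q < x.val}
  Adj := fun x y => ∃ t, t ≤ m ∧ (t < p ∨ q < t) ∧
    ((x = pos m t ∧ y = pos m (t + 1)) ∨ (y = pos m t ∧ x = pos m (t + 1)))
  adj_sub := by
    rintro x y ⟨t, h1, _, h3⟩
    exact (ring_adj_iff hm).mpr ⟨t, h1, h3⟩
  edge_vert := by
    rintro x y ⟨t, h1, h2, ⟨h3, h4⟩ | ⟨h3, h4⟩⟩
    · have : x.val = t := by rw [h3, pos_val_of_le h1]
      simp only [Set.mem_ofPred_eq]
      omega
    · simp only [Set.mem_ofPred_eq]
      rcases Nat.lt_or_ge t m with h5 | h5
      · have : x.val = t + 1 := by rw [h4, pos_val_of_le (by omega)]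
        omega
      · have : t = m := by omega
        subst this
        rw [pos_last] at h4
        rw [h4]
        left; simp
  symm := ⟨by
    rintro x y ⟨t, h1, h2, h3⟩
    exact ⟨t, h1, h2, h3.symm⟩⟩

theorem F_arcg {p q : ℕ} {hm : 1 ≤ m} (hm2 : 2 ≤ m) {hpq : p ≤ q} {hq : q ≤ m} {t : ℕ}
    (ht : t ≤ m) : F (arcg m p q hm hpq hq) t ↔ t < p ∨ q < t := by
  constructor
  · rintro ⟨t', h1, h2, ⟨h3, h4⟩ | ⟨h3, h4⟩⟩
    · have h5 := congrArg Fin.val h3
      rw [pos_val_of_le ht, pos_val_of_le h1] at h5
      rwa [h5]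
    · -- pos (t+1) = pos t', pos t = pos (t'+1)
      exfalso
      have h5 := congrArg Fin.val h3
      have h6 := congrArg Fin.val h4
      rw [pos_val_of_le h1] at h5
      rw [pos_val_of_le ht] at h6
      rcases Nat.lt_or_ge t m with h7 | h7
      · rw [pos_val_of_le (by omega)] at h5
        rcases Nat.lt_or_ge t' m with h8 | h8
        · rw [pos_val_of_le (by omega)] at h6
          omega
        · have : t' = m := by omega
          subst this
          rw [pos_last] at h6
          simp at h6
          omega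
      · have : t = m := by omega
        subst this
        rw [pos_last] at h5
        simp at h5
        subst h5
        rw [pos_val_of_le (by omega)] at h6
        omega
  · intro h
    exact ⟨t, ht, h, Or.inl ⟨rfl, rfl⟩⟩

theorem arcg_conn (p q : ℕ) (hm : 1 ≤ m) (hpq : p ≤ q) (hq : q ≤ m) :
    Conn (arcg m p q hm hpq hq) := by
  set T := arcg m p q hm hpq hq with hT
  have hsymm : ∀ x y, ReflTransGen T.Adj x y → ReflTransGen T.Adj y x := by
    intro x y h
    induction h with
    | refl => exact .refl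
    | tail _ hbc ih => exact ReflTransGen.head hbc.symm ih
  have h1 : ∀ t, t ≤ p → ReflTransGen T.Adj (pos m t) 0 := by
    intro t
    induction t with
    | zero => intro _; rw [pos_zero]
    | succ t ih =>
      intro h
      refine ReflTransGen.head ?_ (ih (by omega))
      exact ⟨t, by omega, Or.inl (by omega), Or.inr ⟨rfl, rfl⟩⟩
  have h2 : ∀ d t, t + d = m + 1 → q < t → ReflTransGen T.Adj (pos m t) 0 := by
    intro d
    induction d with
    | zero =>
      intro t h _
      have : t = m + 1 := by omega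
      rw [this, pos_last]
    | succ d ih =>
      intro t h hqt
      refine ReflTransGen.head ?_ (ih (t + 1) (by omega) (by omega))
      exact ⟨t, by omega, Or.inr hqt, Or.inl ⟨rfl, rfl⟩⟩
  have key : ∀ x ∈ T.verts, ReflTransGen T.Adj x 0 := by
    intro x hx
    rw [← pos_val x]
    rcases hx with hx | hx
    · exact h1 _ hx
    · exact h2 (m + 1 - x.val) _ (by omega) hx
  refine ⟨⟨0, Or.inl (by simp)⟩, ?_⟩
  intro u hu v hv
  exact (key u hu).trans (hsymm _ _ (key v hv))

/-- classification of the connected subgraphs of the ring containing `0` -/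
theorem classify (hm2 : 2 ≤ m) (T : (ring m).Subgraph) (hc : Conn T) (h0 : 0 ∈ T.verts) :
    (∀ t ≤ m, F T t) ∨ ∃ (p q : ℕ) (hpq : p ≤ q) (hq : q ≤ m),
      T = arcg m p q (by omega) hpq hq := by
  classical
  by_cases hall : ∀ t ≤ m, F T t
  · exact Or.inl hall
  right
  push Not at hall
  have hm : 1 ≤ m := by omega
  -- least missing
  set p := Nat.find hall with hp
  obtain ⟨hpm, hpF⟩ := Nat.find_spec hall
  have hpmin : ∀ t, t < p → F T t := by
    intro t ht
    by_contra hcon
    exact Nat.find_min hall ht ⟨by omega, hcon⟩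
  -- greatest missing
  have hq_ex : ∃ q, q ≤ m ∧ ¬ F T q ∧ ∀ t, q < t → t ≤ m → F T t := by
    by_contra hcon
    push Not at hcon
    have : ∀ d, ∃ q, p + d ≤ q ∧ q ≤ m ∧ ¬ F T q := by
      intro d
      induction d with
      | zero => exact ⟨p, le_rfl, hpm, hpF⟩
      | succ d ih =>
        obtain ⟨q, h1, h2, h3⟩ := ih
        obtain ⟨t, h4, h5, h6⟩ := hcon q h2 h3
        exact ⟨t, by omega, h5, h6⟩
    obtain ⟨q, h1, h2, _⟩ := this (m + 1)
    omega
  obtain ⟨q, hqm, hqF, hqmax⟩ := hq_ex
  have hpq : p ≤ q := by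
    by_contra hcon
    exact hqF (hpmin q (by omega))
  refine ⟨p, q, hpq, hqm, ?_⟩
  apply Subgraph.ext
  · ext x
    change x ∈ T.verts ↔ (x.val ≤ p ∨ q < x.val)
    constructor
    · intro hx
      by_contra hcon
      push Not at hcon
      have hx0 : x ≠ 0 := by rintro rfl; simp at hcon
      exact claimA hm T hc h0 x hx hx0 hpF hqF hcon.1 hcon.2 hqm
    · rintro (h | h)
      · rcases Nat.eq_zero_or_pos x.val with h1 | h1
        · have : x = 0 := by ext; simpa using h1
          rw [this]; exact h0
        · have h2 := hpmin (x.val - 1) (by omega)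
          unfold F at h2
          have h3 := T.edge_vert h2.symm
          have h4 : x.val - 1 + 1 = x.val := by omega
          rwa [h4, pos_val] at h3
      · have h2 := hqmax x.val h (by omega)
        unfold F at h2
        have h3 := T.edge_vert h2
        rwa [pos_val] at h3
  · ext x y
    constructor
    · intro h
      obtain ⟨t, ht, h1⟩ := (ring_adj_iff hm).mp (T.adj_sub h)
      refine ⟨t, ht, ?_, h1⟩
      have hF : F T t := by
        unfold F
        rcases h1 with ⟨h2, h3⟩ | ⟨h2, h3⟩
        · rw [← h2, ← h3]; exact h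
        · rw [← h2, ← h3]; exact h.symm
      by_contra hcon
      push Not at hcon
      -- p ≤ t ≤ q and F T t : contradiction
      rcases Nat.eq_or_lt_of_le hcon.1 with h4 | h4
      · rw [← h4] at hF; exact hpF hF
      · -- vertex t : p < t ≤ q, in T
        have hv : pos m t ∈ T.verts := T.edge_vert hF
        have hv0 : pos m t ≠ 0 := by
          intro h5
          have := congrArg Fin.val h5
          rw [pos_val_of_le ht] at this
          simp at this
          omega
        have hval : (pos m t).val = t := pos_val_of_le ht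
        exact claimA hm T hc h0 _ hv hv0 hpF hqF (by omega) (by omega) hqm
    · rintro ⟨t, ht, h1, h2⟩
      have hF : F T t := by
        rcases h1 with h1 | h1
        · exact hpmin t h1
        · exact hqmax t h1 ht
      rcases h2 with ⟨h2, h3⟩ | ⟨h2, h3⟩
      · rw [h2, h3]; exact hF
      · rw [h2, h3]; exact hF.symm

end Pool.Agent.Helper43.Sub
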