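import Mathlib
import Pool.Agent.Helper43.Sub5
set_option autoImplicit false

namespace Pool.Agent.Helper43.Sub

open SimpleGraph Relation Finset

variable {m : ℕ}

/-- vertex set of an arc -/
def arcS (m p q : ℕ) : Finset (Fin (m + 1)) := univ.filter (fun x => x.val ≤ p ∨ q < x.val)

theorem zero_mem_arcS (p q : ℕ) : (0 : Fin (m + 1)) ∈ arcS m p q := by simp [arcS]

theorem mem_arcS {p q : ℕ} {x : Fin (m + 1)} : x ∈ arcS m p q ↔ x.val ≤ p ∨ q < x.val := by
  simp [arcS]

theorem arcg_verts (p q : ℕ) (hm : 1 ≤ m) (hpq : p ≤ q) (hq : q ≤ m) :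
    (arcg m p q hm hpq hq).verts = (arcS m p q : Finset (Fin (m + 1))) := by
  ext x; simp [arcg, arcS]

theorem card_arcS {p q : ℕ} (hpq : p ≤ q) (hq : q ≤ m) : (arcS m p q).card = m + 1 - (q - p) := by
  have h1 : ((arcS m p q)ᶜ).card = (Finset.Ioc p q).card := by
    apply Finset.card_bij (fun x _ => x.val)
    · intro x hx
      rw [mem_compl, mem_arcS] at hx
      rw [Finset.mem_Ioc]
      omega
    · intro x _ y _ h
      exact Fin.ext h
    · intro b hb
      rw [Finset.mem_Ioc] at hb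
      refine ⟨⟨b, by omega⟩, ?_, rfl⟩
      rw [mem_compl, mem_arcS]
      simp only
      omega
  rw [card_compl, Nat.card_Ioc, Fintype.card_fin] at h1
  have h3 : (arcS m p q).card ≤ m + 1 := by
    simpa using card_le_univ (arcS m p q)
  omega

theorem arcS_inj {p q p' q' : ℕ} (hpq : p < q) (hq : q ≤ m) (hpq' : p' ≤ q') (hq' : q' ≤ m)
    (h : arcS m p q = arcS m p' q') : p = p' ∧ q = q' := by
  have key : ∀ x, x ≤ m → ((x ≤ p ∨ q < x) ↔ (x ≤ p' ∨ q' < x)) := by
    intro x hx
    have h1 : pos m x ∈ arcS m p q ↔ pos m x ∈ arcS m p' q' := by rw [h]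
    rw [mem_arcS, mem_arcS, pos_val_of_le hx] at h1
    exact h1
  have h1 := key (p + 1) (by omega)
  have h2 := key q hq
  have h3 := key p (by omega)
  have h4 : q + 1 ≤ m → _ := key (q + 1)
  have h5 := key p' (by omega)
  have h6 := key q' hq'
  have h7 : q' + 1 ≤ m → _ := key (q' + 1)
  have h8 : p' + 1 ≤ m → _ := key (p' + 1)
  omega

theorem arcS_eq_univ_iff {p q : ℕ} (hq : q ≤ m) :
    arcS m p q = univ ↔ q ≤ p := by
  constructor
  · intro h
    by_contra hcon
    push Not at hcon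
    have h1 : pos m q ∈ arcS m p q := by rw [h]; exact mem_univ _
    rw [mem_arcS, pos_val_of_le hq] at h1
    omega
  · intro h
    ext x
    simp only [mem_arcS, mem_univ, iff_true]
    omega

/-- minimality -/
theorem arcg_le_eq (hm2 : 2 ≤ m) {p q p' q' : ℕ} (hm : 1 ≤ m) (hpq : p ≤ q) (hq : q ≤ m)
    (hpq' : p' ≤ q') (hq' : q' ≤ m)
    (hle : arcg m p' q' hm hpq' hq' ≤ arcg m p q hm hpq hq)
    (hv : arcS m p' q' = arcS m p q) : p' = p ∧ q' = q := by
  rcases Nat.eq_or_lt_of_le hpq' with h | h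
  · -- p' = q', so all vertices; then p = q
    subst h
    have h1 := (arcS_eq_univ_iff hq').mpr le_rfl
    rw [h1] at hv
    have h2 := (arcS_eq_univ_iff hq).mp hv.symm
    have h3 : p = q := le_antisymm hpq h2
    subst h3
    -- edge p is missing in the bigger one, hence in the smaller
    have h4 : ¬ F (arcg m p' p' hm hpq' hq') p := by
      intro h5
      have h6 : F (arcg m p p hm hpq hq) p := hle.2 h5
      rw [F_arcg hm2 hq] at h6
      omega
    rw [F_arcg hm2 hq] at h4
    omega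
  · exact arcS_inj h hq' hpq hq hv

theorem arcg_cm (hm2 : 2 ≤ m) {p q : ℕ} (hm : 1 ≤ m) (hpq : p ≤ q) (hq : q ≤ m) :
    CM (arcg m p q hm hpq hq) := by
  refine ⟨arcg_conn p q hm hpq hq, ?_⟩
  intro T' hle hv hc
  have h0 : (0 : Fin (m + 1)) ∈ T'.verts := by
    rw [hv]; left; simp
  rcases classify hm2 T' hc h0 with h | ⟨p', q', hpq', hq', rfl⟩
  · exfalso
    have h1 : F (arcg m p q hm hpq hq) p := hle.2 (h p (by omega))
    rw [F_arcg hm2 (by omega)] at h1
    omega
  · have h1 : arcS m p' q' = arcS m p q := by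
      apply Finset.coe_injective
      rw [← arcg_verts p' q' hm hpq' hq', ← arcg_verts p q hm hpq hq]
      exact hv
    obtain ⟨rfl, rfl⟩ := arcg_le_eq hm2 hm hpq hq hpq' hq' hle h1
    rfl

/-- the subgraph with all edges is not minimally connected -/
theorem full_not_cm (hm2 : 2 ≤ m) (T : (ring m).Subgraph) (h : ∀ t ≤ m, F T t) : ¬ CM T := by
  rintro ⟨_, hmin⟩
  have hm : 1 ≤ m := by omega
  have hall : ∀ x : Fin (m + 1), x ∈ T.verts := by
    intro x
    have := T.edge_vert (h x.val (by omega))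
    rwa [pos_val] at this
  have hle : arcg m 0 0 hm le_rfl (by omega) ≤ T := by
    refine ⟨fun x _ => hall x, ?_⟩
    rintro x y ⟨t, ht, _, ⟨h2, h3⟩ | ⟨h2, h3⟩⟩
    · rw [h2, h3]; exact h t ht
    · rw [h2, h3]; exact (h t ht).symm
  have hv : (arcg m 0 0 hm le_rfl (by omega)).verts = T.verts := by
    ext x
    constructor
    · intro _; exact hall x
    · intro _
      change x.val ≤ 0 ∨ 0 < x.val
      omega
  have h1 := hmin _ hle hv (arcg_conn 0 0 hm le_rfl (by omega))
  have h2 : F (arcg m 0 0 hm le_rfl (by omega)) 0 := by rw [h1]; exact h 0 (by omega)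
  rw [F_arcg hm2 (by omega)] at h2
  omega

/-- pairs `p ≤ q ≤ m` -/
def prs (m : ℕ) : Finset (ℕ × ℕ) := ((range (m + 1)) ×ˢ (range (m + 1))).filter (fun x => x.1 ≤ x.2)

/-- pairs `p < q ≤ m` -/
def prs' (m : ℕ) : Finset (ℕ × ℕ) := ((range (m + 1)) ×ˢ (range (m + 1))).filter (fun x => x.1 < x.2)

theorem mem_prs {x : ℕ × ℕ} : x ∈ prs m ↔ x.1 ≤ x.2 ∧ x.2 ≤ m := by
  simp only [prs, mem_filter, mem_product, mem_range]; omega

theorem mem_prs' {x : ℕ × ℕ} : x ∈ prs' m ↔ x.1 < x.2 ∧ x.2 ≤ m := by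
  simp only [prs', mem_filter, mem_product, mem_range]; omega

theorem tau_ring (hm2 : 2 ≤ m) (S : Finset (Fin (m + 1))) (h0 : 0 ∈ S) :
    tau (ring m) S = ((prs m).filter (fun x => arcS m x.1 x.2 = S)).card := by
  have hm : 1 ≤ m := by omega
  rw [← Fintype.card_coe, ← Nat.card_eq_fintype_card]
  unfold tau
  symm
  have hmem : ∀ x : ↥((prs m).filter (fun x => arcS m x.1 x.2 = S)),
      (x.1.1 ≤ x.1.2 ∧ x.1.2 ≤ m) ∧ arcS m x.1.1 x.1.2 = S := by
    intro x
    have := Finset.mem_filter.mp x.2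
    exact ⟨mem_prs.mp this.1, this.2⟩
  refine Nat.card_congr (Equiv.ofBijective
    (fun x => ⟨arcg m x.1.1 x.1.2 hm (hmem x).1.1 (hmem x).1.2,
      arcg_cm hm2 hm (hmem x).1.1 (hmem x).1.2, ?_⟩) ⟨?_, ?_⟩)
  · rw [arcg_verts, (hmem x).2]
  · intro x y hxy
    have h1 : arcg m x.1.1 x.1.2 hm (hmem x).1.1 (hmem x).1.2
        = arcg m y.1.1 y.1.2 hm (hmem y).1.1 (hmem y).1.2 := congrArg Subtype.val hxy
    have h2 : arcS m x.1.1 x.1.2 = arcS m y.1.1 y.1.2 := by rw [(hmem x).2, (hmem y).2]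
    have h3 := arcg_le_eq hm2 hm (hmem y).1.1 (hmem y).1.2 (hmem x).1.1 (hmem x).1.2 h1.le h2
    apply Subtype.ext
    exact Prod.ext h3.1 h3.2
  · rintro ⟨T, hT, hv⟩
    have h0' : (0 : Fin (m + 1)) ∈ T.verts := by rw [hv]; exact h0
    rcases classify hm2 T hT.1 h0' with h | ⟨p, q, hpq, hq, rfl⟩
    · exact absurd hT (full_not_cm hm2 T h)
    · have h1 : arcS m p q = S := by
        apply Finset.coe_injective
        rw [← hv, arcg_verts]
      exact ⟨⟨(p, q), Finset.mem_filter.mpr ⟨mem_prs.mpr ⟨hpq, hq⟩, h1⟩⟩, rfl⟩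

theorem cc_ring (hm2 : 2 ≤ m) (S : Finset (Fin (m + 1))) (h0 : 0 ∈ S) :
    cc (ring m) S = ((prs' m).filter (fun x => arcS m x.1 x.2 = S)).card
      + (if S = univ then 1 else 0) := by
  have hm : 1 ≤ m := by omega
  by_cases hS : S = univ
  · rw [if_pos hS]
    have h1 : ((prs' m).filter (fun x => arcS m x.1 x.2 = S)) = ∅ := by
      rw [Finset.filter_eq_empty_iff]
      intro x hx h
      rw [hS, arcS_eq_univ_iff (mem_prs'.mp hx).2] at h
      have := (mem_prs'.mp hx).1
      omega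
    rw [h1, Finset.card_empty, zero_add, cc_eq_one_iff]
    refine ⟨arcg m 0 0 hm le_rfl (by omega), arcg_conn _ _ _ _ _, ?_⟩
    rw [arcg_verts, hS, (arcS_eq_univ_iff (by omega)).mpr le_rfl]
  · rw [if_neg hS, add_zero]
    by_cases h : ∃ T : (ring m).Subgraph, Conn T ∧ T.verts = S
    · rw [(cc_eq_one_iff S).mpr h]
      obtain ⟨T, hc, hv⟩ := h
      have h0' : (0 : Fin (m + 1)) ∈ T.verts := by rw [hv]; exact h0
      symm
      rcases classify hm2 T hc h0' with h | ⟨p, q, hpq, hq, rfl⟩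
      · exfalso
        apply hS
        ext x
        simp only [mem_univ, iff_true]
        have h1 : x ∈ T.verts := by
          have := T.edge_vert (h x.val (by omega))
          rwa [pos_val] at this
        rw [hv] at h1
        exact h1
      · have h1 : arcS m p q = S := by
          apply Finset.coe_injective
          rw [← hv, arcg_verts]
        have hlt : p < q := by
          by_contra hcon
          exact hS (h1 ▸ (arcS_eq_univ_iff hq).mpr (by omega))
        rw [Finset.card_eq_one]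
        refine ⟨(p, q), ?_⟩
        ext ⟨a, b⟩
        rw [Finset.mem_filter, mem_prs', Finset.mem_singleton]
        constructor
        · rintro ⟨⟨h2, h3⟩, h4⟩
          have := arcS_inj h2 h3 hpq hq (h4.trans h1.symm)
          exact Prod.ext this.1 this.2
        · intro h2
          rw [Prod.mk.injEq] at h2
          obtain ⟨rfl, rfl⟩ := h2
          exact ⟨⟨hlt, hq⟩, h1⟩
    · have h2 : cc (ring m) S = 0 := by
        rw [cc_eq_zero_iff]
        intro T hc hv
        exact h ⟨T, hc, hv⟩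
      rw [h2]
      symm
      rw [Finset.card_eq_zero, Finset.filter_eq_empty_iff]
      intro x hx h3
      apply h
      refine ⟨arcg m x.1 x.2 hm (by have := mem_prs'.mp hx; omega) (mem_prs'.mp hx).2,
        arcg_conn _ _ _ _ _, ?_⟩
      rw [arcg_verts, h3]

/-- the generating sum of trees containing `0` -/
theorem sum_tau_ring (hm2 : 2 ≤ m) (g : Finset (Fin (m + 1)) → ℚ) :
    ∑ S ∈ univ.filter (fun S : Finset (Fin (m + 1)) => 0 ∈ S), (tau (ring m) S : ℚ) * g S
      = ∑ x ∈ prs m, g (arcS m x.1 x.2) := by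
  have h1 : ∀ S ∈ univ.filter (fun S : Finset (Fin (m + 1)) => 0 ∈ S),
      (tau (ring m) S : ℚ) * g S = ∑ x ∈ prs m, if arcS m x.1 x.2 = S then g (arcS m x.1 x.2) else 0 := by
    intro S hS
    rw [tau_ring hm2 S (Finset.mem_filter.mp hS).2, ← Finset.sum_filter]
    rw [Finset.sum_congr rfl (g := fun _ => g S)]
    · rw [Finset.sum_const, nsmul_eq_mul]
    · intro x hx
      rw [(Finset.mem_filter.mp hx).2]
  rw [Finset.sum_congr rfl h1, Finset.sum_comm]
  refine Finset.sum_congr rfl fun x _ => ?_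
  rw [Finset.sum_ite_eq, if_pos]
  simp [zero_mem_arcS]

theorem sum_cc_ring (hm2 : 2 ≤ m) (g : Finset (Fin (m + 1)) → ℚ) :
    ∑ S ∈ univ.filter (fun S : Finset (Fin (m + 1)) => 0 ∈ S), (cc (ring m) S : ℚ) * g S
      = g univ + ∑ x ∈ prs' m, g (arcS m x.1 x.2) := by
  have h1 : ∀ S ∈ univ.filter (fun S : Finset (Fin (m + 1)) => 0 ∈ S),
      (cc (ring m) S : ℚ) * g S = (if univ = S then g univ else 0) +
        ∑ x ∈ prs' m, if arcS m x.1 x.2 = S then g (arcS m x.1 x.2) else 0 := by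
    intro S hS
    rw [cc_ring hm2 S (Finset.mem_filter.mp hS).2, ← Finset.sum_filter]
    rw [Finset.sum_congr rfl (g := fun _ => g S)]
    · rw [Finset.sum_const, nsmul_eq_mul]
      by_cases h : S = univ
      · simp [h]; ring
      · rw [if_neg h, if_neg (Ne.symm h)]; simp
    · intro x hx
      rw [(Finset.mem_filter.mp hx).2]
  rw [Finset.sum_congr rfl h1, Finset.sum_add_distrib, Finset.sum_comm]
  congr 1
  · rw [Finset.sum_ite_eq, if_pos]; simp
  · refine Finset.sum_congr rfl fun x _ => ?_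
    rw [Finset.sum_ite_eq, if_pos]
    simp [zero_mem_arcS]

end Pool.Agent.Helper43.Sub
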