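import Mathlib
import Pool.Agent.Helper43.Sub6
set_option autoImplicit false

namespace Pool.Agent.Helper43.Sub

open SimpleGraph Relation Finset

/-- the four relations satisfied by a connected-set weight under a wedge -/
structure WR {V : Type*} [DecidableEq V] {m : ℕ} (a : V) (fw : Finset (V ⊕ Fin m) → ℕ)
    (fG : Finset V → ℕ) (fK : Finset (Fin (m + 1)) → ℕ) : Prop where
  mem : ∀ (S₁ : Finset V) (S₂ : Finset (Fin m)), a ∈ S₁ → fw (S₁.disjSum S₂) = fG S₁ * fK (insert 0 (sh S₂))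
  left : ∀ (S₁ : Finset V), a ∉ S₁ → fw (S₁.disjSum ∅) = fG S₁
  right : ∀ (S₂ : Finset (Fin m)), fw ((∅ : Finset V).disjSum S₂) = fK (sh S₂)
  none : ∀ (S₁ : Finset V) (S₂ : Finset (Fin m)), a ∉ S₁ → S₁.Nonempty → S₂.Nonempty → fw (S₁.disjSum S₂) = 0

section
variable {V : Type*} [DecidableEq V] {m : ℕ} {a : V} {G : SimpleGraph V}
  {K : SimpleGraph (Fin (m + 1))}

theorem wr_tau : WR a (tau (wedge G a K)) (tau G) (tau K) :=
  ⟨fun _ _ h => tau_mem h, fun _ h => tau_left h, fun _ => tau_right,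
    fun _ _ h h1 h2 => tau_none h h1 h2⟩

theorem wr_cc : WR a (cc (wedge G a K)) (cc G) (cc K) :=
  ⟨fun _ _ h => cc_mem h, fun _ h => cc_left h, fun _ => cc_right,
    fun _ _ h h1 h2 => cc_none h h1 h2⟩

end

variable {V : Type*} [Fintype V] [DecidableEq V] {m : ℕ} {a : V}
  {fw : Finset (V ⊕ Fin m) → ℕ} {fG : Finset V → ℕ} {fK : Finset (Fin (m + 1)) → ℕ}

theorem sum_disjSum (F : Finset (V ⊕ Fin m) → ℚ) :
    ∑ S, F S = ∑ S₁ : Finset V, ∑ S₂ : Finset (Fin m), F (S₁.disjSum S₂) := by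
  rw [← Fintype.sum_prod_type' (f := fun (S₁ : Finset V) (S₂ : Finset (Fin m)) => F (S₁.disjSum S₂))]
  apply Fintype.sum_equiv (Finset.sumEquiv (α := V) (β := Fin m)).toEquiv
  intro S
  change F S = F (((Finset.sumEquiv S).1).disjSum ((Finset.sumEquiv S).2))
  congr 1
  exact ((Finset.sumEquiv (α := V) (β := Fin m)).symm_apply_apply S).symm

/-- basic decomposition of a weighted sum over a wedge -/
theorem wr_sum (h : WR a fw fG fK) (g : Finset V → Finset (Fin m) → ℚ) :
    ∑ S₁ : Finset V, ∑ S₂ : Finset (Fin m), (fw (S₁.disjSum S₂) : ℚ) * g S₁ S₂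
      = ∑ S₁ : Finset V, (if a ∈ S₁ then (fG S₁ : ℚ) *
          ∑ S₂ : Finset (Fin m), (fK (insert 0 (sh S₂)) : ℚ) * g S₁ S₂
          else if S₁ = ∅ then ∑ S₂ : Finset (Fin m), (fK (sh S₂) : ℚ) * g ∅ S₂
          else (fG S₁ : ℚ) * g S₁ ∅) := by
  refine Finset.sum_congr rfl fun S₁ _ => ?_
  split_ifs with h1 h2
  · rw [Finset.mul_sum]
    refine Finset.sum_congr rfl fun S₂ _ => ?_
    rw [h.mem _ _ h1]; push_cast; ring
  · subst h2
    refine Finset.sum_congr rfl fun S₂ _ => ?_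
    rw [h.right]
  · rw [Finset.sum_eq_single ∅]
    · rw [h.left _ h1]
    · intro S₂ _ hS₂
      rw [h.none _ _ h1 (Finset.nonempty_iff_ne_empty.mpr h2) (Finset.nonempty_iff_ne_empty.mpr hS₂)]
      simp
    · intro h3; exact absurd (mem_univ _) h3

/-- rooted count -/
noncomputable def cnt {V : Type*} [Fintype V] [DecidableEq V] (f : Finset V → ℕ)
    (q : Finset V → ℚ) : ℚ := ∑ S : Finset V, (f S : ℚ) * q S

/-- rooted size sum -/
noncomputable def siz {V : Type*} [Fintype V] [DecidableEq V] (f : Finset V → ℕ)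
    (q : Finset V → ℚ) : ℚ := ∑ S : Finset V, (f S : ℚ) * (q S * S.card)

theorem sum_card_finset (k : ℕ) : ∑ S : Finset (Fin k), (S.card : ℚ) = k * 2 ^ k / 2 := by
  have h1 : ∑ S : Finset (Fin k), (S.card : ℚ) = ∑ S : Finset (Fin k), ((Sᶜ).card : ℚ) := by
    apply Fintype.sum_equiv (Equiv.ofBijective (fun S : Finset (Fin k) => Sᶜ) compl_bijective)
    intro S
    simp
  have h2 : ∑ S : Finset (Fin k), (S.card : ℚ) + ∑ S : Finset (Fin k), ((Sᶜ).card : ℚ)
      = k * 2 ^ k := by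
    rw [← Finset.sum_add_distrib]
    have : ∀ S ∈ (univ : Finset (Finset (Fin k))), (S.card : ℚ) + ((Sᶜ).card : ℚ) = k := by
      intro S _
      have := Finset.card_add_card_compl S
      rw [Fintype.card_fin] at this
      exact_mod_cast this
    rw [Finset.sum_congr rfl this, Finset.sum_const, Finset.card_univ, Fintype.card_finset,
      Fintype.card_fin, nsmul_eq_mul]
    push_cast; ring
  linarith

theorem sum_singletons (k : ℕ) (g : ℕ → ℚ) :
    ∑ S : Finset (Fin k), ((if S.card = 1 then 1 else 0 : ℕ) : ℚ) * g S.card = k * g 1 := by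
  have h1 : ∀ S ∈ (univ : Finset (Finset (Fin k))),
      ((if S.card = 1 then 1 else 0 : ℕ) : ℚ) * g S.card = if S.card = 1 then g 1 else 0 := by
    intro S _
    split_ifs with h
    · rw [h]; simp
    · simp
  rw [Finset.sum_congr rfl h1, ← Finset.sum_filter, Finset.sum_const, nsmul_eq_mul]
  congr 2
  have h2 : (univ.filter (fun S : Finset (Fin k) => S.card = 1)) = Finset.powersetCard 1 univ := by
    ext S; simp [Finset.mem_powersetCard]
  rw [h2, Finset.card_powersetCard]; simp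

/-- weights for which every rooted set is counted once and only singleton leaves count: stars -/
structure StarW {k : ℕ} (fK : Finset (Fin (k + 1)) → ℕ) : Prop where
  root : ∀ S : Finset (Fin k), fK (insert 0 (sh S)) = 1
  leaf : ∀ S : Finset (Fin k), fK (sh S) = if S.card = 1 then 1 else 0

theorem starW_tau (k : ℕ) : StarW (tau (star k)) := ⟨tau_star_root, tau_star_leaf⟩
theorem starW_cc (k : ℕ) : StarW (cc (star k)) := ⟨cc_star_root, cc_star_leaf⟩

theorem star_cnt {k : ℕ} {fw : Finset (V ⊕ Fin k) → ℕ} {fK : Finset (Fin (k + 1)) → ℕ}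
    (h : WR a fw fG fK) (hs : StarW fK) (h0 : fG ∅ = 0) (q : Finset V → ℚ) :
    cnt fw (fun S => q S.toLeft)
      = 2 ^ k * cnt fG (fun S => if a ∈ S then q S else 0)
        + cnt fG (fun S => if a ∈ S then 0 else q S) + k * q ∅ := by
  unfold cnt
  rw [sum_disjSum]
  simp only [Finset.toLeft_disjSum]
  rw [wr_sum h (fun S₁ _ => q S₁)]
  have e1 : ∀ S₁ : Finset V, ∑ S₂ : Finset (Fin k), (fK (insert 0 (sh S₂)) : ℚ) * q S₁
      = 2 ^ k * q S₁ := by
    intro S₁
    simp only [hs.root]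
    simp
  have e2 : ∑ S₂ : Finset (Fin k), (fK (sh S₂) : ℚ) * q ∅ = k * q ∅ := by
    simp only [hs.leaf]
    exact sum_singletons k (fun _ => q ∅)
  simp only [e1, e2]
  rw [Finset.mul_sum, ← Finset.sum_add_distrib]
  have e3 : (k : ℚ) * q ∅ = ∑ S : Finset V, if S = ∅ then (k : ℚ) * q ∅ else 0 := by
    simp
  conv_rhs => rw [e3, ← Finset.sum_add_distrib]
  refine Finset.sum_congr rfl fun S _ => ?_
  by_cases h1 : a ∈ S
  · have h2 : S ≠ ∅ := by rintro rfl; simp at h1
    simp only [h1, if_true, h2, if_false]; ring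
  · by_cases h2 : S = ∅
    · subst h2; simp [h0]
    · simp only [h1, h2, if_false]; ring

theorem star_siz {k : ℕ} {fw : Finset (V ⊕ Fin k) → ℕ} {fK : Finset (Fin (k + 1)) → ℕ}
    (h : WR a fw fG fK) (hs : StarW fK) (h0 : fG ∅ = 0) (q : Finset V → ℚ) :
    siz fw (fun S => q S.toLeft)
      = 2 ^ k * siz fG (fun S => if a ∈ S then q S else 0)
        + k * 2 ^ k / 2 * cnt fG (fun S => if a ∈ S then q S else 0)
        + siz fG (fun S => if a ∈ S then 0 else q S) + k * q ∅ := by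
  unfold siz cnt
  rw [sum_disjSum]
  simp only [Finset.toLeft_disjSum, Finset.card_disjSum]
  rw [wr_sum h (fun S₁ S₂ => q S₁ * ((S₁.card + S₂.card : ℕ) : ℚ))]
  have e1 : ∀ S₁ : Finset V, ∑ S₂ : Finset (Fin k), (fK (insert 0 (sh S₂)) : ℚ) *
      (q S₁ * ((S₁.card + S₂.card : ℕ) : ℚ))
      = 2 ^ k * (q S₁ * S₁.card) + k * 2 ^ k / 2 * q S₁ := by
    intro S₁
    simp only [hs.root]
    push_cast
    have : ∀ S₂ : Finset (Fin k), (1 : ℚ) * (q S₁ * ((S₁.card : ℚ) + S₂.card))
        = q S₁ * S₁.card + q S₁ * S₂.card := by intro S₂; ring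
    simp only [this]
    rw [Finset.sum_add_distrib, ← Finset.mul_sum univ (fun S₂ : Finset (Fin k) => (S₂.card : ℚ)),
      sum_card_finset]
    simp only [sum_const, card_univ, Fintype.card_finset, Fintype.card_fin, nsmul_eq_mul]
    push_cast; ring
  have e2 : ∑ S₂ : Finset (Fin k), (fK (sh S₂) : ℚ) *
      (q ∅ * (((∅ : Finset V).card + S₂.card : ℕ) : ℚ)) = k * q ∅ := by
    simp only [hs.leaf]
    have := sum_singletons k (fun n => q ∅ * (((∅ : Finset V).card + n : ℕ) : ℚ))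
    rw [this]; simp
  simp only [e1, e2]
  rw [Finset.mul_sum, Finset.mul_sum, ← Finset.sum_add_distrib, ← Finset.sum_add_distrib]
  have e3 : (k : ℚ) * q ∅ = ∑ S : Finset V, if S = ∅ then (k : ℚ) * q ∅ else 0 := by
    simp
  conv_rhs => rw [e3, ← Finset.sum_add_distrib]
  refine Finset.sum_congr rfl fun S _ => ?_
  by_cases h1 : a ∈ S
  · have h2 : S ≠ ∅ := by rintro rfl; simp at h1
    simp only [h1, if_true, h2, if_false]; ring
  · by_cases h2 : S = ∅
    · subst h2; simp [h0]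
    · simp only [h1, h2, if_false]; simp

end Pool.Agent.Helper43.Sub
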