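import Mathlib
import Pool.Agent.Helper43.Sub7
set_option autoImplicit false

namespace Pool.Agent.Helper43.Sub

open SimpleGraph Relation Finset

/-! ### sums over pairs -/

theorem sum_prs (m : ℕ) (G : ℕ → ℕ → ℚ) :
    ∑ x ∈ prs m, G x.1 x.2 = ∑ q ∈ range (m + 1), ∑ p ∈ range (q + 1), G p q := by
  rw [prs, Finset.sum_filter, Finset.sum_product_right]
  refine Finset.sum_congr rfl fun q hq => ?_
  rw [← Finset.sum_filter]
  apply Finset.sum_congr _ fun _ _ => rfl
  ext p
  simp only [mem_filter, mem_range] at hq ⊢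
  omega

theorem sum_prs_eq (m : ℕ) (G : ℕ → ℕ → ℚ) :
    ∑ x ∈ prs m, G x.1 x.2 = ∑ x ∈ prs' m, G x.1 x.2 + ∑ q ∈ range (m + 1), G q q := by
  have h1 : prs m = prs' m ∪ (range (m + 1)).image (fun q => (q, q)) := by
    ext ⟨p, q⟩
    simp only [mem_prs, mem_union, mem_prs', mem_image, mem_range, Prod.mk.injEq]
    constructor
    · rintro ⟨h1, h2⟩
      rcases Nat.lt_or_ge p q with h3 | h3
      · left; exact ⟨h3, h2⟩
      · right; exact ⟨p, by omega, rfl, by omega⟩
    · rintro (h1 | ⟨a, h1, rfl, rfl⟩) <;> omega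
  have h2 : Disjoint (prs' m) ((range (m + 1)).image (fun q => (q, q))) := by
    rw [Finset.disjoint_left]
    rintro ⟨p, q⟩ h3 h4
    simp only [mem_prs', mem_image, mem_range, Prod.mk.injEq] at h3 h4
    obtain ⟨x, _, rfl, rfl⟩ := h4
    omega
  rw [h1, Finset.sum_union h2, Finset.sum_image]
  intro x _ y _ h
  exact (Prod.mk.injEq _ _ _ _ ▸ h : x = y ∧ x = y).1

/-- triangular sum -/
theorem tri_sum (n : ℕ) (A B : ℚ) :
    ∑ q ∈ range n, ∑ p ∈ range (q + 1), (A - B * ((q : ℚ) - p))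
      = A * (n * (n + 1) / 2) - B * ((n - 1) * n * (n + 1) / 6) := by
  induction n with
  | zero => simp
  | succ n ih =>
    rw [Finset.sum_range_succ, ih]
    have h : ∑ p ∈ range (n + 1), (A - B * ((n : ℚ) - p)) = A * (n + 1) - B * (n * (n + 1) / 2) := by
      rw [Finset.sum_sub_distrib, ← Finset.mul_sum, Finset.sum_sub_distrib]
      have h1 : ∑ p ∈ range (n + 1), (p : ℚ) = n * (n + 1) / 2 := by
        clear ih
        induction n with
        | zero => simp
        | succ n ih => rw [Finset.sum_range_succ, ih]; push_cast; ring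
      rw [h1]
      simp
      ring
    rw [h]; push_cast; ring

theorem sum_range_id_q (n : ℕ) : ∑ p ∈ range n, (p : ℚ) = n * (n - 1) / 2 := by
  induction n with
  | zero => simp
  | succ n ih => rw [Finset.sum_range_succ, ih]; push_cast; ring

theorem rect_sum (a b : ℕ) (A B : ℚ) :
    ∑ j ∈ range b, ∑ p ∈ range a, (A - B * (((a + j : ℕ) : ℚ) - p))
      = A * (a * b) - B * (b * (a * (a + 1)) / 2 + a * (b * (b - 1)) / 2) := by
  have h1 : ∀ j ∈ range b, ∑ p ∈ range a, (A - B * (((a + j : ℕ) : ℚ) - p))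
      = (A * a - B * (a * a - a * (a - 1) / 2)) - B * a * j := by
    intro j _
    rw [Finset.sum_sub_distrib, ← Finset.mul_sum, Finset.sum_sub_distrib, sum_range_id_q]
    simp
    ring
  rw [Finset.sum_congr rfl h1, Finset.sum_sub_distrib, ← Finset.mul_sum, sum_range_id_q]
  simp
  ring

theorem ring_sum (a b l : ℕ) (A1 B1 A2 B2 : ℚ) (G : ℕ → ℕ → ℚ)
    (h1 : ∀ p q, p ≤ q → q < a → G p q = A1 - B1 * ((q : ℚ) - p))
    (h2 : ∀ p q, p < a → a ≤ q → q < a + b → G p q = A2 - B2 * ((q : ℚ) - p))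
    (h3 : ∀ p q, a ≤ p → p ≤ q → q < a + b → G p q = A1 - B1 * ((q : ℚ) - p))
    (h4 : ∀ p q, p < a + b → a + b ≤ q → q < a + b + l → G p q = 0)
    (h5 : ∀ p q, a + b ≤ p → p ≤ q → q < a + b + l → G p q = A1 - B1 * ((q : ℚ) - p)) :
    ∑ q ∈ range (a + b + l), ∑ p ∈ range (q + 1), G p q
      = (A1 * (a * (a + 1) / 2) - B1 * ((a - 1) * a * (a + 1) / 6))
        + (A1 * (b * (b + 1) / 2) - B1 * ((b - 1) * b * (b + 1) / 6))
        + (A1 * (l * (l + 1) / 2) - B1 * ((l - 1) * l * (l + 1) / 6))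
        + (A2 * (a * b) - B2 * (b * (a * (a + 1)) / 2 + a * (b * (b - 1)) / 2)) := by
  rw [Finset.sum_range_add, Finset.sum_range_add]
  have e1 : ∑ q ∈ range a, ∑ p ∈ range (q + 1), G p q
      = A1 * (a * (a + 1) / 2) - B1 * ((a - 1) * a * (a + 1) / 6) := by
    rw [← tri_sum]
    refine Finset.sum_congr rfl fun q hq => Finset.sum_congr rfl fun p hp => ?_
    rw [mem_range] at hq hp
    exact h1 p q (by omega) hq
  have e2 : ∑ j ∈ range b, ∑ p ∈ range (a + j + 1), G p (a + j)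
      = (A1 * (b * (b + 1) / 2) - B1 * ((b - 1) * b * (b + 1) / 6))
        + (A2 * (a * b) - B2 * (b * (a * (a + 1)) / 2 + a * (b * (b - 1)) / 2)) := by
    have e3 : ∀ j ∈ range b, ∑ p ∈ range (a + j + 1), G p (a + j)
        = ∑ p ∈ range (j + 1), (A1 - B1 * ((j : ℚ) - p))
          + ∑ p ∈ range a, (A2 - B2 * (((a + j : ℕ) : ℚ) - p)) := by
      intro j hj
      rw [mem_range] at hj
      rw [show a + j + 1 = a + (j + 1) by ring, Finset.sum_range_add, add_comm]
      congr 1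
      · refine Finset.sum_congr rfl fun p hp => ?_
        rw [mem_range] at hp
        rw [h3 (a + p) (a + j) (by omega) (by omega) (by omega)]
        push_cast; ring
      · refine Finset.sum_congr rfl fun p hp => ?_
        rw [mem_range] at hp
        exact h2 p (a + j) hp (by omega) (by omega)
    rw [Finset.sum_congr rfl e3, Finset.sum_add_distrib, tri_sum, rect_sum]
  have e4 : ∑ j ∈ range l, ∑ p ∈ range (a + b + j + 1), G p (a + b + j)
      = A1 * (l * (l + 1) / 2) - B1 * ((l - 1) * l * (l + 1) / 6) := by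
    have e5 : ∀ j ∈ range l, ∑ p ∈ range (a + b + j + 1), G p (a + b + j)
        = ∑ p ∈ range (j + 1), (A1 - B1 * ((j : ℚ) - p)) := by
      intro j hj
      rw [mem_range] at hj
      rw [show a + b + j + 1 = (a + b) + (j + 1) by ring, Finset.sum_range_add]
      rw [Finset.sum_eq_zero, zero_add]
      · refine Finset.sum_congr rfl fun p hp => ?_
        rw [mem_range] at hp
        rw [h5 (a + b + p) (a + b + j) (by omega) (by omega) (by omega)]
        push_cast; ring
      · intro p hp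
        rw [mem_range] at hp
        exact h4 p (a + b + j) hp (by omega) (by omega)
    rw [Finset.sum_congr rfl e5, tri_sum]
  rw [e1, e2, e4]
  ring

/-! ### the wedge with a fixed rooted graph -/

theorem sum_insert_sh (m : ℕ) (F : Finset (Fin (m + 1)) → ℚ) :
    ∑ S₂ : Finset (Fin m), F (insert 0 (sh S₂))
      = ∑ S ∈ univ.filter (fun S : Finset (Fin (m + 1)) => 0 ∈ S), F S := by
  apply Finset.sum_bij (fun S₂ _ => insert 0 (sh S₂))
  · intro S _
    simp
  · intro S _ S' _ h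
    ext j
    have := Finset.ext_iff.mp h j.succ
    simpa [succ_mem_sh] using this
  · intro S hS
    rw [mem_filter] at hS
    refine ⟨univ.filter (fun j => j.succ ∈ S), mem_univ _, ?_⟩
    ext i
    induction i using Fin.cases with
    | zero => simpa using hS.2
    | succ j => simp [succ_mem_sh]
  · intro _ _; rfl

/-- total rooted weight and rooted extra size -/
noncomputable def wK {m : ℕ} (fK : Finset (Fin (m + 1)) → ℕ) : ℚ :=
  ∑ S₂ : Finset (Fin m), (fK (insert 0 (sh S₂)) : ℚ)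

noncomputable def sK {m : ℕ} (fK : Finset (Fin (m + 1)) → ℕ) : ℚ :=
  ∑ S₂ : Finset (Fin m), (fK (insert 0 (sh S₂)) : ℚ) * S₂.card

theorem card_insert_sh {m : ℕ} (S : Finset (Fin m)) :
    (insert (0 : Fin (m + 1)) (sh S)).card = S.card + 1 := by
  rw [Finset.card_insert_of_notMem (zero_notMem_sh S), sh, Finset.card_map]

theorem wK_eq {m : ℕ} (fK : Finset (Fin (m + 1)) → ℕ) :
    wK fK = ∑ S ∈ univ.filter (fun S : Finset (Fin (m + 1)) => 0 ∈ S), (fK S : ℚ) * 1 := by
  rw [wK, ← sum_insert_sh m (fun S => (fK S : ℚ) * 1)]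
  simp

theorem sK_eq {m : ℕ} (fK : Finset (Fin (m + 1)) → ℕ) :
    sK fK = ∑ S ∈ univ.filter (fun S : Finset (Fin (m + 1)) => 0 ∈ S),
      (fK S : ℚ) * ((S.card : ℚ) - 1) := by
  rw [sK, ← sum_insert_sh m (fun S => (fK S : ℚ) * ((S.card : ℚ) - 1))]
  refine Finset.sum_congr rfl fun S _ => ?_
  rw [card_insert_sh]; push_cast; ring

theorem prs_two : prs 2 = {(0,0),(0,1),(0,2),(1,1),(1,2),(2,2)} := by decide
theorem prs'_two : prs' 2 = {(0,1),(0,2),(1,2)} := by decide

theorem card_arcS_q {m p q : ℕ} (hpq : p ≤ q) (hq : q ≤ m) :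
    ((arcS m p q).card : ℚ) = (m + 1 : ℚ) - ((q : ℚ) - p) := by
  rw [card_arcS hpq hq, Nat.cast_sub (by omega), Nat.cast_sub hpq]; push_cast; ring

theorem wK_tau : wK (tau (ring 2)) = 6 := by
  rw [wK_eq, sum_tau_ring le_rfl (fun _ => 1), prs_two]
  simp

theorem sK_tau : sK (tau (ring 2)) = 8 := by
  rw [sK_eq, sum_tau_ring le_rfl (fun S => (S.card : ℚ) - 1)]
  have : ∀ x ∈ prs 2, ((arcS 2 x.1 x.2).card : ℚ) - 1 = (2 : ℚ) - ((x.2 : ℚ) - x.1) := by
    intro x hx
    rw [mem_prs] at hx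
    rw [card_arcS_q hx.1 hx.2]; push_cast; ring
  rw [Finset.sum_congr rfl this, prs_two]
  simp
  norm_num

theorem wK_cc : wK (cc (ring 2)) = 4 := by
  rw [wK_eq, sum_cc_ring le_rfl (fun _ => 1), prs'_two]
  simp
  norm_num

theorem sK_cc : sK (cc (ring 2)) = 4 := by
  rw [sK_eq, sum_cc_ring le_rfl (fun S => (S.card : ℚ) - 1)]
  have : ∀ x ∈ prs' 2, ((arcS 2 x.1 x.2).card : ℚ) - 1 = (2 : ℚ) - ((x.2 : ℚ) - x.1) := by
    intro x hx
    rw [mem_prs'] at hx
    rw [card_arcS_q hx.1.le hx.2]; push_cast; ring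
  rw [Finset.sum_congr rfl this, prs'_two]
  simp
  norm_num

variable {V : Type*} [Fintype V] [DecidableEq V] {m : ℕ} {a : V}
  {fw : Finset (V ⊕ Fin m) → ℕ} {fG : Finset V → ℕ} {fK : Finset (Fin (m + 1)) → ℕ}

theorem wedge_cnt (h : WR a fw fG fK) (q : Finset V → ℚ) (hq : q ∅ = 0) :
    cnt fw (fun S => q S.toLeft)
      = ∑ S : Finset V, (fG S : ℚ) * (q S * (if a ∈ S then wK fK else 1)) := by
  unfold cnt
  rw [sum_disjSum]
  simp only [Finset.toLeft_disjSum]
  rw [wr_sum h (fun S₁ _ => q S₁)]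
  refine Finset.sum_congr rfl fun S _ => ?_
  by_cases h1 : a ∈ S
  · simp only [h1, if_true]
    rw [← Finset.sum_mul, ← wK]; ring
  · by_cases h2 : S = ∅
    · subst h2; simp [hq]
    · simp only [h1, h2, if_false]; ring

theorem wedge_siz (h : WR a fw fG fK) (q : Finset V → ℚ) (hq : q ∅ = 0) :
    siz fw (fun S => q S.toLeft)
      = ∑ S : Finset V, (fG S : ℚ) * (q S *
        (if a ∈ S then wK fK * S.card + sK fK else S.card)) := by
  unfold siz
  rw [sum_disjSum]
  simp only [Finset.toLeft_disjSum, Finset.card_disjSum]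
  rw [wr_sum h (fun S₁ S₂ => q S₁ * ((S₁.card + S₂.card : ℕ) : ℚ))]
  refine Finset.sum_congr rfl fun S _ => ?_
  by_cases h1 : a ∈ S
  · simp only [h1, if_true]
    congr 1
    have : ∀ S₂ ∈ (univ : Finset (Finset (Fin m))), (fK (insert 0 (sh S₂)) : ℚ) *
        (q S * ((S.card + S₂.card : ℕ) : ℚ))
        = (fK (insert 0 (sh S₂)) : ℚ) * (q S * S.card)
          + q S * ((fK (insert 0 (sh S₂)) : ℚ) * S₂.card) := by
      intro S₂ _; push_cast; ring
    rw [Finset.sum_congr rfl this, Finset.sum_add_distrib, ← Finset.sum_mul, ← Finset.mul_sum,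
      ← wK, ← sK]
    ring
  · by_cases h2 : S = ∅
    · subst h2; simp [hq]
    · simp only [h1, h2, if_false]; simp

end Pool.Agent.Helper43.Sub
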