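import Mathlib
import Pool.Agent.Helper43.Sub8
set_option autoImplicit false

namespace Pool.Agent.Helper43.Sub

open SimpleGraph Relation Finset

/-- the vertex with the pendant triangle -/
def vA : Fin (4999 + 1) := pos 4999 500
/-- the second hub -/
def vC : Fin (4999 + 1) := pos 4999 1000

theorem vA_mem {p q : ℕ} : vA ∈ arcS 4999 p q ↔ 500 ≤ p ∨ q < 500 := by
  rw [mem_arcS, vA, pos_val_of_le (by norm_num)]

theorem vC_mem {p q : ℕ} : vC ∈ arcS 4999 p q ↔ 1000 ≤ p ∨ q < 1000 := by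
  rw [mem_arcS, vC, pos_val_of_le (by norm_num)]

/-- the rooting weight -/
def q0 (S : Finset (Fin (4999 + 1))) : ℚ := if 0 ∈ S then (if vC ∈ S then 1 else 0) else 0

theorem q0_empty : q0 ∅ = 0 := by simp [q0]

theorem prs_value (A1 B1 A2 B2 : ℚ) (g : Finset (Fin (4999 + 1)) → ℚ)
    (hg : ∀ p q, p ≤ q → q ≤ 4999 → g (arcS 4999 p q) = (if vC ∈ arcS 4999 p q then 1 else 0) *
      (if vA ∈ arcS 4999 p q then A1 - B1 * ((q : ℚ) - p) else A2 - B2 * ((q : ℚ) - p))) :
    ∑ x ∈ prs 4999, g (arcS 4999 x.1 x.2)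
      = 8252500 * A1 - 10708332500 * B1 + 250000 * A2 - 125000000 * B2 := by
  rw [sum_prs 4999 (fun p q => g (arcS 4999 p q))]
  have h := ring_sum 500 500 4000 A1 B1 A2 B2 (fun p q => g (arcS 4999 p q)) ?_ ?_ ?_ ?_ ?_
  · rw [show (4999 + 1 : ℕ) = 500 + 500 + 4000 by norm_num, h]
    push_cast
    ring
  · intro p q h1 h2
    rw [hg p q h1 (by omega), if_pos (vC_mem.mpr (by omega)), if_pos (vA_mem.mpr (by omega))]
    ring
  · intro p q h1 h2 h3
    rw [hg p q (by omega) (by omega), if_pos (vC_mem.mpr (by omega)),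
      if_neg (fun h => by have := vA_mem.mp h; omega)]
    ring
  · intro p q h1 h2 h3
    rw [hg p q h2 (by omega), if_pos (vC_mem.mpr (by omega)), if_pos (vA_mem.mpr (by omega))]
    ring
  · intro p q h1 h2 h3
    rw [hg p q (by omega) (by omega), if_neg (fun h => by have := vC_mem.mp h; omega)]
    ring
  · intro p q h1 h2 h3
    rw [hg p q h2 (by omega), if_pos (vC_mem.mpr (by omega)), if_pos (vA_mem.mpr (by omega))]
    ring

theorem split0 (f : Finset (Fin (4999 + 1)) → ℕ) (W : Finset (Fin (4999 + 1)) → ℚ) :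
    ∑ S : Finset (Fin (4999 + 1)), (f S : ℚ) * (q0 S * W S)
      = ∑ S ∈ univ.filter (fun S : Finset (Fin (4999 + 1)) => 0 ∈ S), (f S : ℚ) *
        ((if vC ∈ S then 1 else 0) * W S) := by
  rw [Finset.sum_filter]
  refine Finset.sum_congr rfl fun S _ => ?_
  unfold q0
  split_ifs <;> simp

theorem sum_tau_main (A1 B1 A2 B2 : ℚ) (W : Finset (Fin (4999 + 1)) → ℚ)
    (hW : ∀ p q, p ≤ q → q ≤ 4999 → W (arcS 4999 p q) =
      (if vA ∈ arcS 4999 p q then A1 - B1 * ((q : ℚ) - p) else A2 - B2 * ((q : ℚ) - p))) :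
    ∑ S : Finset (Fin (4999 + 1)), (tau (ring 4999) S : ℚ) * (q0 S * W S)
      = 8252500 * A1 - 10708332500 * B1 + 250000 * A2 - 125000000 * B2 := by
  rw [split0, sum_tau_ring (by norm_num) (fun S => (if vC ∈ S then 1 else 0) * W S)]
  apply prs_value A1 B1 A2 B2 (fun S => (if vC ∈ S then 1 else 0) * W S)
  intro p q h1 h2
  rw [hW p q h1 h2]

theorem sum_cc_main (A1 B1 A2 B2 : ℚ) (W : Finset (Fin (4999 + 1)) → ℚ)
    (hW : ∀ p q, p ≤ q → q ≤ 4999 → W (arcS 4999 p q) =
      (if vA ∈ arcS 4999 p q then A1 - B1 * ((q : ℚ) - p) else A2 - B2 * ((q : ℚ) - p))) :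
    ∑ S : Finset (Fin (4999 + 1)), (cc (ring 4999) S : ℚ) * (q0 S * W S)
      = 8252500 * A1 - 10708332500 * B1 + 250000 * A2 - 125000000 * B2 - 4999 * A1 := by
  rw [split0, sum_cc_ring (by norm_num) (fun S => (if vC ∈ S then 1 else 0) * W S)]
  have h1 := prs_value A1 B1 A2 B2 (fun S => (if vC ∈ S then 1 else 0) * W S) (by
    intro p q h1 h2
    rw [hW p q h1 h2])
  have h2 := sum_prs_eq 4999 (fun p q => (fun S => (if vC ∈ S then 1 else 0) * W S) (arcS 4999 p q))
  have h3 : ∀ q, q ≤ 4999 → arcS 4999 q q = univ := fun q hq => (arcS_eq_univ_iff hq).mpr le_rfl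
  have h4 : W univ = A1 := by
    have := hW 0 0 le_rfl (by norm_num)
    rw [h3 0 (by norm_num), if_pos (mem_univ _)] at this
    rw [this]; ring
  have h5 : ∑ q ∈ range (4999 + 1), (fun S => (if vC ∈ S then 1 else 0) * W S) (arcS 4999 q q)
      = 5000 * A1 := by
    rw [Finset.sum_congr rfl (g := fun _ => A1)]
    · rw [Finset.sum_const, card_range]; norm_num
    · intro q hq
      rw [mem_range] at hq
      rw [h3 q (by omega)]
      simp [h4]
  simp only at h1 h2 h5 ⊢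
  rw [h1, h5] at h2
  simp only [mem_univ, if_true, h4, one_mul]
  linarith

/-- ring with a pendant triangle -/
abbrev G1 : SimpleGraph (Fin (4999 + 1) ⊕ Fin 2) := wedge (ring 4999) vA (ring 2)

theorem n_tau : cnt (tau G1) (fun S => q0 S.toLeft) = 49765000 := by
  rw [wedge_cnt wr_tau q0 q0_empty, wK_tau, sum_tau_main 6 0 1 0]
  · norm_num
  · intro p q _ _; split_ifs <;> simp

theorem n_cc : cnt (cc G1) (fun S => q0 S.toLeft) = 33240004 := by
  rw [wedge_cnt wr_cc q0 q0_empty, wK_cc, sum_cc_main 4 0 1 0]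
  · norm_num
  · intro p q _ _; split_ifs <;> simp

theorem e_tau : siz (tau G1) (fun S => q0 S.toLeft) = 184516025000 := by
  rw [wedge_siz wr_tau q0 q0_empty, wK_tau, sK_tau, sum_tau_main (6 * 5000 + 8) 6 5000 1]
  · norm_num
  · intro p q h1 h2
    rw [card_arcS_q h1 h2]
    split_ifs <;> push_cast <;> ring

theorem e_cc : siz (cc G1) (fun S => q0 S.toLeft) = 123274680004 := by
  rw [wedge_siz wr_cc q0 q0_empty, wK_cc, sK_cc, sum_cc_main (4 * 5000 + 4) 4 5000 1]
  · norm_num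
  · intro p q h1 h2
    rw [card_arcS_q h1 h2]
    split_ifs <;> push_cast <;> ring

end Pool.Agent.Helper43.Sub
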