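import Mathlib
import Pool.Agent.Helper43.Sub9
set_option autoImplicit false

namespace Pool.Agent.Helper43.Sub

open SimpleGraph Relation Finset Filter Topology

section
variable {V : Type*} [Fintype V] [DecidableEq V]

theorem wr_empty {k : ℕ} {a : V} {fw : Finset (V ⊕ Fin k) → ℕ} {fG : Finset V → ℕ}
    {fK : Finset (Fin (k + 1)) → ℕ} (h : WR a fw fG fK) (hs : StarW fK) : fw ∅ = 0 := by
  have h1 := h.right ∅
  rw [hs.leaf ∅] at h1
  simpa using h1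

theorem cnt_congr {f : Finset V → ℕ} {q q' : Finset V → ℚ} (h : ∀ S, q S = q' S) :
    cnt f q = cnt f q' := by
  have : q = q' := funext h
  rw [this]

theorem siz_congr {f : Finset V → ℕ} {q q' : Finset V → ℚ} (h : ∀ S, q S = q' S) :
    siz f q = siz f q' := by
  have : q = q' := funext h
  rw [this]

theorem total (a c : V) (f1 : Finset V → ℕ) (h0 : f1 ∅ = 0) :
    ∃ n1 n0 e1 e0 : ℚ, ∀ (k : ℕ) (f2 : Finset (V ⊕ Fin k) → ℕ)
      (f3 : Finset ((V ⊕ Fin k) ⊕ Fin k) → ℕ) (fK : Finset (Fin (k + 1)) → ℕ),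
      WR a f2 f1 fK → WR (Sum.inl c) f3 f2 fK → StarW fK →
      cnt f3 (fun _ => 1) = 4 ^ k * cnt f1 (fun S => if a ∈ S then (if c ∈ S then 1 else 0) else 0)
        + 2 ^ k * n1 + n0 + 2 * k ∧
      siz f3 (fun _ => 1) = 4 ^ k * siz f1 (fun S => if a ∈ S then (if c ∈ S then 1 else 0) else 0)
        + k * 4 ^ k * cnt f1 (fun S => if a ∈ S then (if c ∈ S then 1 else 0) else 0)
        + 2 ^ k * e1 + k * 2 ^ k / 2 * n1 + e0 + 2 * k := by
  refine ⟨cnt f1 (fun S => if a ∈ S then 0 else (if c ∈ S then 1 else 0))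
      + cnt f1 (fun S => if a ∈ S then (if c ∈ S then 0 else 1) else 0),
    cnt f1 (fun S => if a ∈ S then 0 else (if c ∈ S then 0 else 1)),
    siz f1 (fun S => if a ∈ S then 0 else (if c ∈ S then 1 else 0))
      + siz f1 (fun S => if a ∈ S then (if c ∈ S then 0 else 1) else 0),
    siz f1 (fun S => if a ∈ S then 0 else (if c ∈ S then 0 else 1)), ?_⟩
  intro k f2 f3 fK hw1 hw2 hs
  have h02 : f2 ∅ = 0 := wr_empty hw1 hs
  have hp : (4 : ℚ) ^ k = 2 ^ k * 2 ^ k := by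
    rw [← mul_pow]; norm_num
  have c1 := star_cnt hw1 hs h0 (fun S => if c ∈ S then (1 : ℚ) else 0)
  have c2 := star_cnt hw1 hs h0 (fun S => if c ∈ S then (0 : ℚ) else 1)
  have s1 := star_siz hw1 hs h0 (fun S => if c ∈ S then (1 : ℚ) else 0)
  have s2 := star_siz hw1 hs h0 (fun S => if c ∈ S then (0 : ℚ) else 1)
  have c3 := star_cnt hw2 hs h02 (fun _ => 1)
  have s3 := star_siz hw2 hs h02 (fun _ => 1)
  simp only [Finset.mem_toLeft, Finset.notMem_empty, if_false] at c1 c2 s1 s2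
  rw [c1, c2] at c3
  rw [s1, s2, c1] at s3
  constructor
  · rw [c3, hp]; ring
  · rw [s3, hp]; ring

end

/-- the limit of mean minus `k` -/
theorem lim_mean (N n1 n0 E e1 e0 : ℝ) (hN : 0 < N) (Z S : ℕ → ℝ)
    (hZ : ∀ k : ℕ, Z k = 4 ^ k * N + 2 ^ k * n1 + n0 + 2 * k)
    (hS : ∀ k : ℕ, S k = 4 ^ k * E + k * 4 ^ k * N + 2 ^ k * e1 + k * 2 ^ k / 2 * n1 + e0 + 2 * k) :
    Tendsto (fun k : ℕ => (S k - k * Z k) / 4 ^ k) atTop (𝓝 E) ∧
    Tendsto (fun k : ℕ => Z k / 4 ^ k) atTop (𝓝 N) := by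
  have t0 : Tendsto (fun k : ℕ => ((1 : ℝ) / 2) ^ k) atTop (𝓝 0) :=
    tendsto_pow_atTop_nhds_zero_of_lt_one (by norm_num) (by norm_num)
  have t1 : Tendsto (fun k : ℕ => (k : ℝ) * ((1 : ℝ) / 2) ^ k) atTop (𝓝 0) := by
    have := tendsto_pow_const_mul_const_pow_of_abs_lt_one 1 (r := (1 : ℝ) / 2)
      (by rw [abs_of_pos] <;> norm_num)
    simpa using this
  have t2 : Tendsto (fun k : ℕ => (k : ℝ) ^ 2 * ((1 : ℝ) / 2) ^ k) atTop (𝓝 0) :=
    tendsto_pow_const_mul_const_pow_of_abs_lt_one 2 (by rw [abs_of_pos] <;> norm_num)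
  have hq : ∀ k : ℕ, (4 : ℝ) ^ k = 2 ^ k * 2 ^ k := fun k => by rw [← mul_pow]; norm_num
  have hr : ∀ k : ℕ, ((1 : ℝ) / 2) ^ k * 2 ^ k = 1 := fun k => by rw [← mul_pow]; norm_num
  constructor
  · have e : (fun k : ℕ => (S k - k * Z k) / 4 ^ k)
        = fun k : ℕ => E + (((1 : ℝ) / 2) ^ k * e1 - (k * ((1 : ℝ) / 2) ^ k) * (n1 / 2)
          + (((1 : ℝ) / 2) ^ k * ((1 : ℝ) / 2) ^ k) * e0
          + ((k * ((1 : ℝ) / 2) ^ k) * ((1 : ℝ) / 2) ^ k) * (2 - n0)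
          - 2 * (((k : ℝ) ^ 2 * ((1 : ℝ) / 2) ^ k) * ((1 : ℝ) / 2) ^ k)) := by
      funext k
      have h2 : (2 : ℝ) ^ k ≠ 0 := by positivity
      have h3 : ((1 : ℝ) / 2) ^ k = 1 / 2 ^ k := by rw [div_pow, one_pow]
      rw [hS, hZ, hq, h3]
      field_simp
      ring
    rw [e]
    have l := ((((t0.mul_const e1).sub (t1.mul_const (n1 / 2))).add
      ((t0.mul t0).mul_const e0)).add ((t1.mul t0).mul_const (2 - n0))).sub
      ((t2.mul t0).const_mul 2)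
    have l2 := l.const_add E
    simpa using l2
  · have e : (fun k : ℕ => Z k / 4 ^ k)
        = fun k : ℕ => N + (((1 : ℝ) / 2) ^ k * n1
          + (((1 : ℝ) / 2) ^ k * ((1 : ℝ) / 2) ^ k) * n0
          + 2 * ((k * ((1 : ℝ) / 2) ^ k) * ((1 : ℝ) / 2) ^ k)) := by
      funext k
      have h2 : (2 : ℝ) ^ k ≠ 0 := by positivity
      have h3 : ((1 : ℝ) / 2) ^ k = 1 / 2 ^ k := by rw [div_pow, one_pow]
      rw [hZ, hq, h3]
      field_simp
      ring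
    rw [e]
    have l := ((t0.mul_const n1).add ((t0.mul t0).mul_const n0)).add ((t1.mul t0).const_mul 2)
    have l2 := l.const_add N
    simpa using l2

/-- comparison of the means for large `k` -/
theorem compare (N n1 n0 E e1 e0 N' n1' n0' E' e1' e0' : ℝ) (hN : 0 < N) (hN' : 0 < N')
    (hlt : E * N' < E' * N) (Z S Z' S' : ℕ → ℝ)
    (hZ : ∀ k : ℕ, Z k = 4 ^ k * N + 2 ^ k * n1 + n0 + 2 * k)
    (hS : ∀ k : ℕ, S k = 4 ^ k * E + k * 4 ^ k * N + 2 ^ k * e1 + k * 2 ^ k / 2 * n1 + e0 + 2 * k)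
    (hZ' : ∀ k : ℕ, Z' k = 4 ^ k * N' + 2 ^ k * n1' + n0' + 2 * k)
    (hS' : ∀ k : ℕ, S' k = 4 ^ k * E' + k * 4 ^ k * N' + 2 ^ k * e1' + k * 2 ^ k / 2 * n1'
      + e0' + 2 * k) :
    ∃ k : ℕ, S k / Z k < S' k / Z' k := by
  obtain ⟨a1, a2⟩ := lim_mean N n1 n0 E e1 e0 hN Z S hZ hS
  obtain ⟨b1, b2⟩ := lim_mean N' n1' n0' E' e1' e0' hN' Z' S' hZ' hS'
  have c1 := (a1.div a2 hN.ne')
  have c2 := (b1.div b2 hN'.ne')
  have hlt' : E / N < E' / N' := by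
    rw [div_lt_div_iff₀ hN hN']; exact hlt
  have d := c1.eventually_lt c2 hlt'
  have p1 : ∀ᶠ k : ℕ in atTop, 0 < Z k / 4 ^ k := a2.eventually (lt_mem_nhds hN)
  have p2 : ∀ᶠ k : ℕ in atTop, 0 < Z' k / 4 ^ k := b2.eventually (lt_mem_nhds hN')
  obtain ⟨k, h1, h2, h3⟩ := (d.and (p1.and p2)).exists
  refine ⟨k, ?_⟩
  have h4 : (0 : ℝ) < 4 ^ k := by positivity
  have z1 : 0 < Z k := by
    rw [lt_div_iff₀ h4] at h2; simpa using h2
  have z2 : 0 < Z' k := by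
    rw [lt_div_iff₀ h4] at h3; simpa using h3
  simp only [Pi.div_apply] at h1
  rw [div_div_div_cancel_right₀ h4.ne', div_div_div_cancel_right₀ h4.ne', sub_div, sub_div,
    mul_div_assoc, mul_div_assoc, div_self z1.ne', div_self z2.ne'] at h1
  linarith

end Pool.Agent.Helper43.Sub
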