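import Mathlib
import Pool.Agent.Helper43.Sub10
set_option autoImplicit false

namespace Pool.Agent.Helper43.Sub

open SimpleGraph Relation Finset Filter Topology

section
variable {V : Type*} [Fintype V] [DecidableEq V]

theorem tau_empty (G : SimpleGraph V) : tau G ∅ = 0 := by
  apply tau_eq_zero
  intro T hc hv
  obtain ⟨x, hx⟩ := hc.1
  rw [hv] at hx
  simp at hx

theorem cc_empty (G : SimpleGraph V) : cc G ∅ = 0 := by
  rw [cc_eq_zero_iff]
  intro T hc hv
  obtain ⟨x, hx⟩ := hc.1
  rw [hv] at hx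
  simp at hx

open Classical in
/-- summing a function of the order over the subtrees -/
theorem sum_tau (G : SimpleGraph V) (g : ℕ → ℚ) :
    ∑ S : Finset V, (tau G S : ℚ) * g S.card
      = ∑ k ∈ Finset.Icc 1 (Fintype.card V),
        (Nat.card {T : G.Subgraph // T.coe.IsTree ∧ T.verts.ncard = k} : ℚ) * g k := by
  have inst : Fintype G.Subgraph := Fintype.ofFinite _
  set A : Finset G.Subgraph := univ.filter (fun T => CM T) with hA
  have h1 : ∀ S : Finset V, tau G S = (A.filter (fun T => T.verts.toFinset = S)).card := by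
    intro S
    unfold tau
    rw [Nat.card_eq_fintype_card, Fintype.card_subtype, hA, Finset.filter_filter]
    congr 1
    ext T
    simp only [mem_filter, mem_univ, true_and, and_congr_right_iff]
    intro _
    rw [← Finset.coe_inj, Set.coe_toFinset]
  have h2 : ∀ k : ℕ, Nat.card {T : G.Subgraph // T.coe.IsTree ∧ T.verts.ncard = k}
      = (A.filter (fun T => T.verts.toFinset.card = k)).card := by
    intro k
    rw [Nat.card_eq_fintype_card, Fintype.card_subtype, hA, Finset.filter_filter]
    congr 1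
    ext T
    simp only [mem_filter, mem_univ, true_and, cm_iff]
    rw [Set.ncard_eq_toFinset_card']
  have h3 : ∑ S : Finset V, (tau G S : ℚ) * g S.card = ∑ T ∈ A, g T.verts.toFinset.card := by
    rw [← Finset.sum_fiberwise_of_maps_to (s := A) (t := univ)
      (g := fun T : G.Subgraph => T.verts.toFinset) (fun _ _ => mem_univ _)]
    refine Finset.sum_congr rfl fun S _ => ?_
    rw [h1 S, Finset.sum_congr rfl (g := fun _ => g S.card)]
    · rw [Finset.sum_const, nsmul_eq_mul]
    · intro T hT
      rw [(mem_filter.mp hT).2]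
  have h4 : ∑ k ∈ Finset.Icc 1 (Fintype.card V),
        (Nat.card {T : G.Subgraph // T.coe.IsTree ∧ T.verts.ncard = k} : ℚ) * g k
      = ∑ T ∈ A, g T.verts.toFinset.card := by
    rw [← Finset.sum_fiberwise_of_maps_to (s := A) (t := Finset.Icc 1 (Fintype.card V))
      (g := fun T : G.Subgraph => T.verts.toFinset.card)]
    · refine Finset.sum_congr rfl fun k _ => ?_
      rw [h2 k, Finset.sum_congr rfl (g := fun _ => g k)]
      · rw [Finset.sum_const, nsmul_eq_mul]
      · intro T hT
        rw [(mem_filter.mp hT).2]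
    · intro T hT
      rw [hA, mem_filter] at hT
      rw [Finset.mem_Icc]
      refine ⟨?_, Finset.card_le_univ _⟩
      rw [Nat.one_le_iff_ne_zero, Finset.card_ne_zero]
      obtain ⟨x, hx⟩ := hT.2.1.1
      exact ⟨x, by simpa using hx⟩
  rw [h3, h4]

open Classical in
theorem sum_cc (G : SimpleGraph V) (g : ℕ → ℚ) :
    ∑ S : Finset V, (cc G S : ℚ) * g S.card
      = ∑ S ∈ univ.filter (fun S : Finset V => (G.induce (S : Set V)).Connected), g S.card := by
  rw [Finset.sum_filter]
  refine Finset.sum_congr rfl fun S _ => ?_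
  unfold cc
  by_cases h : (G.induce (S : Set V)).Connected
  · rw [if_pos h, if_pos ((induce_conn_iff _).mp h)]; simp
  · rw [if_neg h, if_neg (fun h' => h ((induce_conn_iff _).mpr h'))]; simp

theorem cc_univ_wedge {m : ℕ} (G : SimpleGraph V) (a : V) (K : SimpleGraph (Fin (m + 1))) :
    cc (wedge G a K) univ = cc G univ * cc K univ := by
  have h1 : (univ : Finset (V ⊕ Fin m)) = (univ : Finset V).disjSum (univ : Finset (Fin m)) := by
    ext x; simp
  have h2 : (insert 0 (sh (univ : Finset (Fin m)))) = (univ : Finset (Fin (m + 1))) := by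
    ext i
    induction i using Fin.cases with
    | zero => simp
    | succ j => simp [succ_mem_sh]
  rw [h1, cc_mem (mem_univ a), h2]

theorem cc_univ_ring {m : ℕ} (hm : 1 ≤ m) : cc (ring m) univ = 1 := by
  rw [cc_eq_one_iff]
  refine ⟨arcg m 0 0 hm le_rfl (by omega), arcg_conn _ _ _ _ _, ?_⟩
  rw [arcg_verts, (arcS_eq_univ_iff (by omega)).mpr le_rfl]

theorem cc_univ_star (k : ℕ) : cc (star k) univ = 1 := by
  have h2 : (insert 0 (sh (univ : Finset (Fin k)))) = (univ : Finset (Fin (k + 1))) := by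
    ext i
    induction i using Fin.cases with
    | zero => simp
    | succ j => simp [succ_mem_sh]
  rw [← h2]; exact cc_star_root _

theorem connected_of_cc (G : SimpleGraph V) (h : cc G univ = 1) : G.Connected := by
  unfold cc at h
  split_ifs at h with h1
  have h2 := (conn_iff _).mpr h1
  have h3 := (induce_conn_iff (G := G) ((univ : Finset V) : Set V)).mpr h1
  rw [Finset.coe_univ] at h3
  exact (SimpleGraph.induceUnivIso G).connected_iff.mp h3

end

/-- ring with a pendant triangle and one hub -/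
abbrev G2 (k : ℕ) : SimpleGraph ((Fin (4999 + 1) ⊕ Fin 2) ⊕ Fin k) :=
  wedge G1 (Sum.inl 0) (star k)

/-- ring with a pendant triangle and two hubs -/
abbrev G3 (k : ℕ) : SimpleGraph (((Fin (4999 + 1) ⊕ Fin 2) ⊕ Fin k) ⊕ Fin k) :=
  wedge (G2 k) (Sum.inl (Sum.inl vC)) (star k)

theorem G3_connected (k : ℕ) : (G3 k).Connected := by
  apply connected_of_cc
  rw [cc_univ_wedge, cc_univ_wedge, cc_univ_wedge, cc_univ_ring (by norm_num),
    cc_univ_ring (by norm_num), cc_univ_star]

theorem root_weight (S : Finset (Fin (4999 + 1) ⊕ Fin 2)) :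
    (if Sum.inl 0 ∈ S then (if Sum.inl vC ∈ S then (1 : ℚ) else 0) else 0) = q0 S.toLeft := by
  unfold q0
  simp only [Finset.mem_toLeft]

/-- the main inequality -/
theorem main : ∃ k : ℕ,
    siz (tau (G3 k)) (fun _ => 1) / cnt (tau (G3 k)) (fun _ => 1)
      < siz (cc (G3 k)) (fun _ => 1) / cnt (cc (G3 k)) (fun _ => 1) := by
  obtain ⟨n1, n0, e1, e0, h⟩ := total (V := Fin (4999 + 1) ⊕ Fin 2) (Sum.inl 0) (Sum.inl vC)
    (tau G1) (tau_empty _)
  obtain ⟨n1', n0', e1', e0', h'⟩ := total (V := Fin (4999 + 1) ⊕ Fin 2) (Sum.inl 0) (Sum.inl vC)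
    (cc G1) (cc_empty _)
  have a := fun k : ℕ => h k (tau (G2 k)) (tau (G3 k)) (tau (star k)) wr_tau wr_tau (starW_tau k)
  have a' := fun k : ℕ => h' k (cc (G2 k)) (cc (G3 k)) (cc (star k)) wr_cc wr_cc (starW_cc k)
  simp only [root_weight] at a a'
  simp only [n_tau, e_tau] at a
  simp only [n_cc, e_cc] at a'
  obtain ⟨k, hk⟩ := compare 49765000 n1 n0 184516025000 e1 e0 33240004 n1' n0' 123274680004 e1' e0'
    (by norm_num) (by norm_num) (by norm_num)
    (fun k => ((cnt (tau (G3 k)) (fun _ => 1) : ℚ) : ℝ))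
    (fun k => ((siz (tau (G3 k)) (fun _ => 1) : ℚ) : ℝ))
    (fun k => ((cnt (cc (G3 k)) (fun _ => 1) : ℚ) : ℝ))
    (fun k => ((siz (cc (G3 k)) (fun _ => 1) : ℚ) : ℝ))
    (fun k => by rw [(a k).1]; push_cast; ring)
    (fun k => by rw [(a k).2]; push_cast; ring)
    (fun k => by rw [(a' k).1]; push_cast; ring)
    (fun k => by rw [(a' k).2]; push_cast; ring)
  refine ⟨k, ?_⟩
  exact_mod_cast hk

end Pool.Agent.Helper43.Sub
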